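import Mathlib
import Pool.Agent.Lib.MP_55068a_an.Small
import Pool.Agent.Lib.MP_55068a_an.DyDefs

/-! Definitions shared by the files of the dichotomy. -/

namespace Pool.Agent.Lib.MP_55068a_an.Dy

open Polynomial

abbrev P2 : Type := MvPolynomial (Fin 2) ℚ

abbrev T (δ : P2) : Type := Localization.Away δ

/-- the two parameters -/
noncomputable def xT (δ : P2) (i : Fin 2) : T δ := algebraMap P2 (T δ) (MvPolynomial.X i)

/-- evaluation at a point where the denominator does not vanish -/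
noncomputable def evT {Ω : Type} [Field Ω] [Algebra ℚ Ω] (δ : P2) (v : Fin 2 → Ω)
    (h : MvPolynomial.aeval v δ ≠ 0) : T δ →+* Ω :=
  IsLocalization.Away.lift δ (g := (MvPolynomial.aeval v : P2 →ₐ[ℚ] Ω).toRingHom) (Ne.isUnit h)

theorem evT_alg {Ω : Type} [Field Ω] [Algebra ℚ Ω] (δ : P2) (v : Fin 2 → Ω)
    (h : MvPolynomial.aeval v δ ≠ 0) (p : P2) :
    evT δ v h (algebraMap P2 (T δ) p) = MvPolynomial.aeval v p :=
  IsLocalization.Away.lift_eq δ _ p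

theorem evT_x {Ω : Type} [Field Ω] [Algebra ℚ Ω] (δ : P2) (v : Fin 2 → Ω)
    (h : MvPolynomial.aeval v δ ≠ 0) (i : Fin 2) : evT δ v h (xT δ i) = v i := by
  rw [xT, evT_alg, MvPolynomial.aeval_X]

theorem evT_rep {δ : P2} (r : T δ) : ∃ (A : P2) (n : ℕ), ∀ {Ω : Type} [Field Ω] [Algebra ℚ Ω]
    (v : Fin 2 → Ω) (h : MvPolynomial.aeval v δ ≠ 0),
    evT δ v h r = MvPolynomial.aeval v A / MvPolynomial.aeval v δ ^ n := by
  obtain ⟨n, A, hA⟩ := IsLocalization.Away.surj δ r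
  refine ⟨A, n, fun v h => ?_⟩
  have := congrArg (evT δ v h) hA
  rw [map_mul, map_pow, evT_alg, evT_alg] at this
  rw [eq_div_iff (pow_ne_zero n h), this]

/-- the inverse of the denominator -/
noncomputable def iT (δ : P2) : T δ := IsLocalization.Away.invSelf δ

theorem evT_inv {Ω : Type} [Field Ω] [Algebra ℚ Ω] (δ : P2) (v : Fin 2 → Ω)
    (h : MvPolynomial.aeval v δ ≠ 0) : evT δ v h (iT δ) = (MvPolynomial.aeval v δ)⁻¹ := by
  have := congrArg (evT δ v h) (IsLocalization.Away.mul_invSelf (S := T δ) δ)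
  rw [map_mul, evT_alg, map_one] at this
  exact eq_inv_of_mul_eq_one_right this

theorem one_ne {Ω : Type} [Field Ω] [Algebra ℚ Ω] (v : Fin 2 → Ω) :
    MvPolynomial.aeval v (1 : P2) ≠ 0 := by simp

/-- `x` is the maximum and `lam` is the multiplier of `b` in a supporting plane. -/
def Good (k l : ℕ) (a b x lam : ℝ) : Prop :=
  IsGreatest (Vals k l a b) x ∧ ∃ mu : ℝ, ∀ a' b' x' : ℝ, x' ∈ Vals k l a' b' →
    x' + lam * b' + mu * a' ≤ x + lam * b + mu * a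

/-- An open two-parameter family of extremal data. -/
def Piece (k l : ℕ) {δ : P2} (a b lam : T δ) : Prop :=
  ∃ (x : T δ) (O : Set (Fin 2 → ℝ)), IsOpen O ∧ O.Nonempty ∧ ∀ v ∈ O,
    ∃ h : MvPolynomial.aeval v δ ≠ 0,
      Good k l (evT δ v h a) (evT δ v h b) (evT δ v h x) (evT δ v h lam)

def Neg (k l : ℕ) : Prop :=
  ∃ O : Set (ℝ × ℝ), IsOpen O ∧ O.Nonempty ∧ ∀ a b : ℝ, (a, b) ∈ O → ∃ x : ℝ,
    IsGreatest (Vals k l a b) x ∧
      ∀ K : Subfield ℂ, AlgebraicIndependent K ![(a : ℂ), (b : ℂ)] → ¬ Rad K a b x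

/-- `v` is moved by every derived subgroup of a group of automorphisms fixing `a`, `b` and the
complex constants. -/
def Bad {δ : P2} (a b v : T δ) : Prop :=
  ∃ (Ω : Type) (_ : Field Ω) (_ : Algebra ℚ Ω) (_ : IsAlgClosed Ω) (φ : ℂ →+* Ω) (f : T δ →+* Ω)
    (G : Type) (_ : Group G) (ρ : G →* RingAut Ω),
    Function.Injective (MvPolynomial.eval₂Hom φ ![f a, f b]) ∧
    (∀ g, (∀ c, ρ g (φ c) = φ c) ∧ ρ g (f a) = f a ∧ ρ g (f b) = f b) ∧
    ∀ n, ∃ g ∈ derivedSeries G n, ρ g (f v) ≠ f v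

section Grp

variable {G Ω : Type} [Group G] [MulAction G Ω]

/-- `g` acts on `X` as one cycle of length `c` and fixes the other points. -/
def PureCyc (g : G) (X : Set Ω) (c : ℕ) : Prop :=
  ∃ C ⊆ X, C.ncard = c ∧ (∀ x ∈ X, x ∉ C → g • x = x) ∧
    ∀ x ∈ C, ∀ y ∈ C, ∃ n : ℕ, g ^ n • x = y

/-- `g` acts on `X` with two orbits, of lengths `c` and `d`. -/
def TwoOrb (g : G) (X : Set Ω) (c d : ℕ) : Prop :=
  ∃ C D : Set Ω, C ∪ D = X ∧ Disjoint C D ∧ C.ncard = c ∧ D.ncard = d ∧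
    (∀ x ∈ C, g • x ∈ C) ∧ (∀ x ∈ D, g • x ∈ D) ∧
    (∀ x ∈ C, ∀ y ∈ C, ∃ n : ℕ, g ^ n • x = y) ∧ ∀ x ∈ D, ∀ y ∈ D, ∃ n : ℕ, g ^ n • x = y

/-- The constraints on cycle types given by a solvable quotient of the action. -/
def QOut (G : Type) {Ω : Type} [Group G] [MulAction G Ω] (X : Set Ω) (e M : ℕ) : Prop :=
  2 ≤ M ∧ X.ncard = e * M ∧
  (∀ (g : G) (c : ℕ), PureCyc g X c → c < X.ncard → c ≤ e ∨ (e ∣ c ∧ X.ncard - c ∣ X.ncard)) ∧
  (∀ (g : G) (c d : ℕ), TwoOrb g X c d → 0 < c → 0 < d → Nat.Coprime c d →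
    e = 1 ∧ (c = 1 ∨ d = 1)) ∧
  (∀ g : G, X.ncard = 6 → ¬ PureCyc g X 5)

end Grp

/-- algebraic closure of the fraction field -/
abbrev Om (R : Type) [CommRing R] [IsDomain R] : Type := AlgebraicClosure (FractionRing R)

abbrev Gl (R : Type) [CommRing R] [IsDomain R] : Type := Om R ≃ₐ[FractionRing R] Om R

noncomputable def io (R : Type) [CommRing R] [IsDomain R] : R →+* Om R :=
  (algebraMap (FractionRing R) (Om R)).comp (algebraMap R (FractionRing R))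

theorem io_inj (R : Type) [CommRing R] [IsDomain R] : Function.Injective (io R) :=
  (algebraMap (FractionRing R) (Om R)).injective.comp (IsFractionRing.injective R _)

theorem gl_io {R : Type} [CommRing R] [IsDomain R] (σ : Gl R) (r : R) : σ (io R r) = io R r :=
  σ.commutes _

/-- roots of `p` along `φ` -/
def Rt {R Ω : Type} [CommRing R] [Field Ω] (φ : R →+* Ω) (p : R[X]) : Set Ω :=
  {y | p.eval₂ φ y = 0}

/-- the constants of `Om ℂ[X]` -/
noncomputable def cO : ℂ →+* Om ℂ[X] := (io ℂ[X]).comp C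

/-- the transcendental parameter of `Om ℂ[X]` -/
noncomputable def AO : Om ℂ[X] := io ℂ[X] X

/-- `N(Z) - τ A Z^k` -/
noncomputable def oneP (N : ℂ[X]) (τ : ℂ) (k : ℕ) : ℂ[X][X] := N.map C - C (C τ * X) * X ^ k

/-- the pencil `C + b P - a B` -/
noncomputable def net (Cq Bq Pq : ℚ[X]) : P2[X] :=
  Cq.map (algebraMap ℚ P2) + C (MvPolynomial.X 1) * Pq.map (algebraMap ℚ P2)
    - C (MvPolynomial.X 0) * Bq.map (algebraMap ℚ P2)

section Ser

variable {A : Type} [CommRing A] [Algebra ℚ A]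

/-- homogeneous Legendre polynomials: coefficients of `(1 - 2 y z + e z^2)^(-1/2)` -/
noncomputable def Lg (y e : A) : ℕ → A
  | 0 => 1
  | 1 => y
  | n + 2 => algebraMap ℚ A ((2 * n + 3) / (n + 2)) * y * Lg y e (n + 1)
      - algebraMap ℚ A ((n + 1) / (n + 2)) * e * Lg y e n

/-- shifted sequence -/
def sh (c : ℕ → A) (j d : ℕ) : A := if d ≤ j then c (j - d) else 0

/-- coefficients of `(1 - 2 y z + e z^2)^(1/2)` -/
noncomputable def Mg (y e : A) (j : ℕ) : A :=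
  Lg y e j - 2 * y * sh (Lg y e) j 1 + e * sh (Lg y e) j 2

noncomputable def Sg (y e u : A) (m j : ℕ) : A :=
  Lg y e j + algebraMap ℚ A (1 / 2) * u * sh (Lg y e) j m
    - algebraMap ℚ A (1 / 8) * u ^ 2 * sh (Lg y e) j (2 * m)

noncomputable def Tg (y e u : A) (m j : ℕ) : A :=
  Mg y e j - algebraMap ℚ A (1 / 2) * u * sh (Mg y e) j m

noncomputable def aR1 (y e u : A) (k l : ℕ) : A := -Sg y e u (l - k) (l - 1)

noncomputable def bR1 (y e u : A) (k l : ℕ) : A :=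
  -∑ i ∈ Finset.range (k + 1), e ^ i * Sg y e u (l - k) (l - 1 - i) * Tg y e u (l - k) (k - i)

/-- coefficients of `(1 - 2 g z + (3 g^2 - 2 h) z^2 - 2 g z^3 + z^4)^(-1/2)` -/
noncomputable def Gg (g h : A) : ℕ → A
  | 0 => 1
  | 1 => g
  | 2 => h
  | 3 => 3 * g * h - 2 * g ^ 3 + g
  | n + 4 => algebraMap ℚ A (1 / (n + 4)) * ((2 * n + 7) * g * Gg g h (n + 3)
      - (n + 3) * (3 * g ^ 2 - 2 * h) * Gg g h (n + 2) + (2 * n + 5) * g * Gg g h (n + 1)
      - (n + 2) * Gg g h n)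

/-- `binom(1/2, j)` -/
noncomputable def pQ (j : ℕ) : ℚ := Ring.choose (1 / 2 : ℚ) j

/-- the derivative of `hFun` in `u` -/
noncomputable def bMain (a u : A) (k l : ℕ) : A :=
  ∑ j ∈ (Finset.range l).filter (fun j => (l - k) * j < l),
      algebraMap ℚ A (2 * j * pQ j ^ 2) * u ^ (2 * j - 1)
    + if (l - k) ∣ l then
        algebraMap ℚ A (2 * (l / (l - k) : ℕ) * pQ (l / (l - k))) * a * u ^ (l / (l - k) - 1)
      else 0

end Ser

/-- leading coefficient of the Legendre polynomial -/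
noncomputable def cQ (n : ℕ) : ℚ := Lg (1 : ℚ) 0 n

/-- leading coefficient of `Mg` -/
noncomputable def sQ (n : ℕ) : ℚ := Mg (1 : ℚ) 0 n

/-- data of the piece `r = 1` -/
noncomputable def a1 (k l : ℕ) : T 1 := aR1 (xT 1 0) 1 (xT 1 1) k l
noncomputable def b1 (k l : ℕ) : T 1 := bR1 (xT 1 0) 1 (xT 1 1) k l

/-- data of the piece `r = 2`, `k = 1` -/
noncomputable def a21 (l : ℕ) : T 1 := Gg (xT 1 0) (xT 1 1) (l - 2)
noncomputable def b21 (l : ℕ) : T 1 := Gg (xT 1 0) (xT 1 1) (l - 3) - xT 1 0 * a21 l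
noncomputable def l21 (l : ℕ) : T 1 := -2 * Gg (xT 1 0) (xT 1 1) (l - 1)

/-- data of the piece `r = 2`, `k = 2` -/
noncomputable abbrev d2 : P2 := MvPolynomial.X 0
noncomputable def l22 (l : ℕ) : T d2 := -2 * Gg (xT d2 0) (xT d2 1) (l - 1) * iT d2
noncomputable def a22 (l : ℕ) : T d2 :=
  Gg (xT d2 0) (xT d2 1) (l - 2) - Gg (xT d2 0) (xT d2 1) (l - 1) * iT d2
noncomputable def b22 (l : ℕ) : T d2 :=
  a22 l * (xT d2 0 ^ 2 - xT d2 1) - xT d2 0 * Gg (xT d2 0) (xT d2 1) (l - 3)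
    + Gg (xT d2 0) (xT d2 1) (l - 4)

/-- no zero in the closed unit disc -/
def Free (c : ℕ → ℝ) (n : ℕ) : Prop :=
  ∀ z : ℂ, ‖z‖ ≤ 1 → ∑ j ∈ Finset.range (n + 1), (c j : ℂ) * z ^ j ≠ 0

end Pool.Agent.Lib.MP_55068a_an.Dy
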