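import Mathlib
import Pool.Agent.Lib.MP_55068a_an.Dy.Base

namespace Pool.Agent.Lib.MP_55068a_an.Dy

open Polynomial

theorem exists_transc {K : Type} [NontriviallyNormedField K] [CompleteSpace K] {S : Type}
    [CommRing S] [Countable S] [Algebra S K] (hS : Function.Injective (algebraMap S K))
    {U : Set K} (hU : IsOpen U) (hne : U.Nonempty) : ∃ x ∈ U, Transcendental S x := by
  have hd : IsDomain S := hS.isDomain (algebraMap S K)
  have hf : FaithfulSMul S K := (faithfulSMul_iff_algebraMap_injective S K).mpr hS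
  by_contra hcon
  have hsub : U ⊆ {x : K | IsAlgebraic S x} := by
    intro x hx
    by_contra hx'
    exact hcon ⟨x, hx, hx'⟩
  have hc : U.Countable := (Algebraic.countable S K).mono hsub
  have h1 := continuum_le_cardinal_of_isOpen K hU hne
  have h2 := Cardinal.le_aleph0_iff_set_countable.mpr hc
  exact absurd (h1.trans h2) (not_le.mpr Cardinal.aleph0_lt_continuum)

/-- two elements, the second one transcendental over the first -/
theorem gen_pair {A : Type} [CommRing A] [Algebra ℚ A] {a b : A} (ha : Transcendental ℚ a)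
    (hb : Transcendental (Algebra.adjoin ℚ (Set.range ![a])) b) :
    AlgebraicIndependent ℚ ![a, b] := by
  have h1 : AlgebraicIndependent ℚ ![a] := algebraicIndependent_iff_transcendental.mpr ha
  have h2 := (h1.option_iff_transcendental b).mpr hb
  have h3 := h2.comp (![some 0, none] : Fin 2 → Option (Fin 1)) (by decide)
  convert h3 using 1
  funext i
  fin_cases i <;> rfl

theorem exists_indep {K : Type} [NontriviallyNormedField K] [CompleteSpace K] [Algebra ℚ K]
    {O : Set (Fin 2 → K)} (hO : IsOpen O) (hne : O.Nonempty) :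
    ∃ v ∈ O, AlgebraicIndependent ℚ v := by
  obtain ⟨w, hw⟩ := hne
  obtain ⟨ε, hε, hb⟩ := Metric.isOpen_iff.mp hO w hw
  obtain ⟨a, ha, hta⟩ := exists_transc (S := ℚ) (algebraMap ℚ K).injective
    (Metric.isOpen_ball (x := w 0) (ε := ε)) ⟨w 0, Metric.mem_ball_self hε⟩
  have h1 : AlgebraicIndependent ℚ ![a] := algebraicIndependent_iff_transcendental.mpr hta
  have hP : Countable (MvPolynomial (Fin 1) ℚ) := by
    rw [← Cardinal.mk_le_aleph0_iff]
    refine MvPolynomial.cardinalMk_le_max.trans ?_
    simp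
  have hc : Countable (Algebra.adjoin ℚ (Set.range ![a])) :=
    h1.aevalEquiv.surjective.countable
  obtain ⟨b, hb', htb⟩ := exists_transc (S := Algebra.adjoin ℚ (Set.range ![a]))
    Subtype.val_injective
    (Metric.isOpen_ball (x := w 1) (ε := ε)) ⟨w 1, Metric.mem_ball_self hε⟩
  refine ⟨![a, b], hb ?_, gen_pair hta htb⟩
  rw [Metric.mem_ball, dist_pi_lt_iff hε]
  intro i
  fin_cases i
  · exact ha
  · exact hb'

variable {Ω : Type} [Field Ω] [Algebra ℚ Ω]

/-- the rank inequality -/
theorem gen_rank {m : ℕ} {x : Fin m → Ω} {s : Set Ω} (hx : AlgebraicIndependent ℚ x)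
    (h : ∀ i, IsAlgebraic (Algebra.adjoin ℚ s) (x i)) :
    (m : ℕ∞) ≤ (AlgebraicIndependent.matroid ℚ Ω).eRk s := by
  have hI : (AlgebraicIndependent.matroid ℚ Ω).Indep (Set.range x) :=
    AlgebraicIndependent.matroid_indep_iff.mpr hx.to_subtype_range
  have hs : Set.range x ⊆ (AlgebraicIndependent.matroid ℚ Ω).closure s := by
    rintro _ ⟨i, rfl⟩
    rw [AlgebraicIndependent.matroid_closure_eq]
    exact h i
  have h1 := hI.encard_le_eRk_of_subset hs
  rw [Matroid.eRk_closure_eq] at h1
  simpa using hx.injective.encard_range.trans h1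

theorem indep_swap {x y : Fin 2 → Ω} (hx : AlgebraicIndependent ℚ x)
    (h : ∀ i, IsAlgebraic (Algebra.adjoin ℚ (Set.range y)) (x i)) : AlgebraicIndependent ℚ y := by
  have h1 := gen_rank hx h
  have h2 := (AlgebraicIndependent.matroid ℚ Ω).eRk_le_encard (Set.range y)
  have hr : Set.range y = {y 0, y 1} := by
    ext z
    simp only [Set.mem_range, Fin.exists_fin_two, Set.mem_insert_iff, Set.mem_singleton_iff,
      eq_comm]
  have hne : y 0 ≠ y 1 := by
    intro he
    have h3 := h1.trans h2
    rw [hr, he, Set.pair_eq_singleton, Set.encard_singleton] at h3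
    exact absurd h3 (by decide)
  have hinj : Function.Injective y := by
    intro i j hij
    fin_cases i <;> fin_cases j
    · rfl
    · exact absurd hij hne
    · exact absurd hij.symm hne
    · rfl
  have h4 : (Set.range y).encard = (2 : ℕ) := by
    rw [hr, Set.encard_pair hne]; rfl
  have hI : (AlgebraicIndependent.matroid ℚ Ω).Indep (Set.range y) := by
    rw [Matroid.indep_iff_eRk_eq_encard_of_finite (Set.finite_range y)]
    exact le_antisymm h2 (h4 ▸ h1)
  exact (algebraicIndependent_subtype_range hinj).mp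
    (AlgebraicIndependent.matroid_indep_iff.mp hI)

theorem evT_inj {δ : P2} {v : Fin 2 → Ω} (hv : AlgebraicIndependent ℚ v)
    (h : MvPolynomial.aeval v δ ≠ 0) : Function.Injective (evT δ v h) := by
  rw [injective_iff_map_eq_zero]
  intro r hr
  obtain ⟨n, A, hA⟩ := IsLocalization.Away.surj δ r
  have h1 := congrArg (evT δ v h) hA
  rw [map_mul, hr, zero_mul, evT_alg] at h1
  have hA0 : A = 0 := hv.eq_zero_of_aeval_eq_zero A h1.symm
  rw [hA0, map_zero] at hA
  exact ((IsLocalization.Away.algebraMap_isUnit (S := T δ) δ).pow n).mul_left_eq_zero.mp hA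

theorem gen_alg {δ : P2} (f : T δ →+* Ω) (p : P2) :
    f (algebraMap P2 (T δ) p) = MvPolynomial.aeval (fun i => f (xT δ i)) p := by
  have : f.comp (algebraMap P2 (T δ))
      = (MvPolynomial.aeval (fun i => f (xT δ i)) : P2 →ₐ[ℚ] Ω).toRingHom := by
    refine MvPolynomial.ringHom_ext' (RingHom.ext_rat _ _) fun i => ?_
    simp [xT]
  exact DFunLike.congr_fun this p

theorem gen_den {δ : P2} (f : T δ →+* Ω) :
    MvPolynomial.aeval (fun i => f (xT δ i)) δ ≠ 0 := by
  rw [← gen_alg]
  exact ((IsLocalization.Away.algebraMap_isUnit (S := T δ) δ).map f).ne_zero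

theorem gen_eq {δ : P2} (f : T δ →+* Ω) : f = evT δ (fun i => f (xT δ i)) (gen_den f) := by
  refine IsLocalization.ringHom_ext (Submonoid.powers δ) (RingHom.ext fun p => ?_)
  rw [RingHom.comp_apply, RingHom.comp_apply, evT_alg, gen_alg]

/-- `u z ^ m = v z ^ n` makes `z` algebraic -/
theorem gen_rel {S : Subalgebra ℚ Ω} {u v z : Ω} (hu : u ∈ S) (hv : v ∈ S) (h0 : u ≠ 0)
    {m n : ℕ} (hmn : m ≠ n) (e : u * z ^ m = v * z ^ n) : IsAlgebraic S z := by
  refine ⟨C (⟨u, hu⟩ : S) * X ^ m - C (⟨v, hv⟩ : S) * X ^ n, fun hp => h0 ?_, ?_⟩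
  · have := congrArg (fun p => p.coeff m) hp
    simp only [coeff_sub, coeff_C_mul, coeff_X_pow, if_true, if_neg hmn, mul_one, mul_zero,
      sub_zero, coeff_zero] at this
    exact congrArg Subtype.val this
  · simp only [map_sub, map_mul, map_pow, aeval_C, aeval_X]
    exact sub_eq_zero.mpr e

theorem gen_isAlg {δ : P2} (f : T δ →+* Ω) (r : T δ) :
    IsAlgebraic (Algebra.adjoin ℚ (Set.range fun i => f (xT δ i))) (f r) := by
  obtain ⟨n, A, hA⟩ := IsLocalization.Away.surj δ r
  have h1 := congrArg f hA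
  rw [map_mul, map_pow, gen_alg, gen_alg] at h1
  have hm : ∀ p : P2, MvPolynomial.aeval (fun i => f (xT δ i)) p
      ∈ Algebra.adjoin ℚ (Set.range fun i => f (xT δ i)) := fun p => by
    rw [Algebra.adjoin_range_eq_range_aeval]
    exact ⟨p, rfl⟩
  refine gen_rel (pow_mem (hm δ) n) (hm A) (pow_ne_zero n (gen_den f)) one_ne_zero ?_
  rw [pow_one, pow_zero, mul_one, mul_comm, h1]

theorem inj_of_indep {δ : P2} {a b : T δ} (f : T δ →+* Ω)
    (h : AlgebraicIndependent ℚ ![f a, f b]) : Function.Injective f := by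
  have hy : AlgebraicIndependent ℚ (fun i => f (xT δ i)) := by
    refine indep_swap h fun i => ?_
    fin_cases i
    · exact gen_isAlg f a
    · exact gen_isAlg f b
  rw [gen_eq f]
  exact evT_inj hy _

theorem gen_pair_comp {A B : Type} (f : A → B) (a b : A) : f ∘ ![a, b] = ![f a, f b] := by
  funext i
  fin_cases i <;> rfl

/-- a polynomial over `P2` as a polynomial in three variables -/
noncomputable def genUp : P2[X] →+* MvPolynomial (Fin 3) ℚ :=
  eval₂RingHom (MvPolynomial.rename (Fin.castSucc : Fin 2 → Fin 3)).toRingHom (MvPolynomial.X 2)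

theorem genUp_aeval {A : Type} [CommRing A] [Algebra ℚ A] (a b r : A) (p : P2[X]) :
    MvPolynomial.aeval ![a, b, r] (genUp p)
      = p.eval₂ (MvPolynomial.aeval ![a, b] : P2 →ₐ[ℚ] A).toRingHom r := by
  have h : (![a, b, r] : Fin 3 → A) ∘ Fin.castSucc = ![a, b] := by
    funext i
    fin_cases i <;> rfl
  induction p using Polynomial.induction_on' with
  | add p q hp hq => rw [map_add, map_add, hp, hq, eval₂_add]
  | monomial n c =>
    simp only [genUp, coe_eval₂RingHom, eval₂_monomial, map_mul, map_pow, MvPolynomial.aeval_X,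
      AlgHom.toRingHom_eq_coe, RingHom.coe_coe, MvPolynomial.aeval_rename, h]
    rfl

theorem genUp_pderiv (p : P2[X]) : MvPolynomial.pderiv 2 (genUp p) = genUp (derivative p) := by
  have h0 : ∀ c : P2,
      MvPolynomial.pderiv 2 (MvPolynomial.rename (Fin.castSucc : Fin 2 → Fin 3) c) = 0 := by
    intro c
    induction c using MvPolynomial.induction_on with
    | C q => simp
    | add p q hp hq => rw [map_add, map_add, hp, hq, add_zero]
    | mul_X p i hp =>
      rw [map_mul, Derivation.leibniz, hp, MvPolynomial.rename_X,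
        MvPolynomial.pderiv_X_of_ne (by fin_cases i <;> decide), smul_zero, smul_zero, add_zero]
  induction p using Polynomial.induction_on' with
  | add p q hp hq => rw [map_add, map_add, hp, hq, map_add, map_add]
  | monomial n c =>
    simp only [genUp, coe_eval₂RingHom, eval₂_monomial, derivative_monomial,
      AlgHom.toRingHom_eq_coe, RingHom.coe_coe, Derivation.leibniz, h0,
      Derivation.leibniz_pow, MvPolynomial.pderiv_X_self, map_mul, map_natCast, smul_eq_mul,
      nsmul_eq_mul]
    ring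

/-- a relation of minimal degree in the third variable -/
theorem exists_rel {δ : P2} {a b : T δ} (f : T δ →+* Ω)
    (h : AlgebraicIndependent ℚ ![f a, f b]) (r : T δ) :
    ∃ F : MvPolynomial (Fin 3) ℚ, MvPolynomial.aeval ![a, b, r] F = 0 ∧
      MvPolynomial.aeval ![f a, f b, f r] (MvPolynomial.pderiv 2 F) ≠ 0 := by
  have hf := inj_of_indep f h
  have halg : IsAlgebraic (Algebra.adjoin ℚ (Set.range ![f a, f b])) (f r) := by
    by_contra ht
    have h2 := (h.option_iff_transcendental (f r)).mpr ht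
    have h3 := h2.comp (![none, some 0, some 1] : Fin 3 → Option (Fin 2)) (by decide)
    have h4 := gen_rank (s := Set.range fun i => f (xT δ i)) h3 fun i => by
      fin_cases i
      · exact gen_isAlg f r
      · exact gen_isAlg f a
      · exact gen_isAlg f b
    have h5 := h4.trans ((AlgebraicIndependent.matroid ℚ Ω).eRk_le_encard _)
    have h6 : (Set.range fun i => f (xT δ i)).encard ≤ (2 : ℕ) := by
      have hr : (Set.range fun i => f (xT δ i)) = {f (xT δ 0), f (xT δ 1)} := by
        ext z
        simp only [Set.mem_range, Fin.exists_fin_two, Set.mem_insert_iff, Set.mem_singleton_iff,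
          eq_comm]
      rw [hr]
      refine (Set.encard_insert_le _ _).trans ?_
      rw [Set.encard_singleton]
      rfl
    exact absurd (h5.trans h6) (by decide)
  set φ : P2 →+* Ω := (MvPolynomial.aeval ![f a, f b] : P2 →ₐ[ℚ] Ω).toRingHom with hφ
  have hφi : Function.Injective φ := h
  have hex : ∃ n, ∃ p : P2[X], p.natDegree = n ∧ p ≠ 0 ∧ p.eval₂ φ (f r) = 0 := by
    obtain ⟨q, hq0, hq⟩ := halg
    refine ⟨_, q.map h.repr.toRingHom, rfl, ?_, ?_⟩
    · exact (Polynomial.map_ne_zero_iff h.aevalEquiv.symm.injective).mpr hq0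
    · rw [eval₂_map]
      have : φ.comp h.repr.toRingHom = algebraMap _ Ω := RingHom.ext fun z => h.aeval_repr z
      rw [this]
      exact hq
  classical
  obtain ⟨p, hpn, hp0, hp⟩ := Nat.find_spec hex
  refine ⟨genUp p, hf ?_, ?_⟩
  · rw [map_zero, genUp_aeval, hom_eval₂]
    have : f.comp (MvPolynomial.aeval ![a, b] : P2 →ₐ[ℚ] T δ).toRingHom = φ := by
      refine MvPolynomial.ringHom_ext' (RingHom.ext_rat _ _) fun i => ?_
      fin_cases i <;> simp [hφ]
    rw [this, hp]
  · rw [genUp_pderiv, genUp_aeval]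
    intro hd
    have hn : p.natDegree ≠ 0 := by
      intro hn
      rw [eq_C_of_natDegree_eq_zero hn, eval₂_C] at hp
      have : p.coeff 0 = 0 := hφi (by rw [hp, map_zero])
      exact hp0 (by rw [eq_C_of_natDegree_eq_zero hn, this, map_zero])
    have hd0 : derivative p ≠ 0 := fun h0 => hn (derivative_eq_zero.mp h0)
    exact Nat.find_min hex (hpn ▸ natDegree_derivative_lt hn) ⟨_, rfl, hd0, hd⟩

theorem indep_io : AlgebraicIndependent ℚ
    ![io P2 (MvPolynomial.X 0), io P2 (MvPolynomial.X 1)] := by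
  have h := (MvPolynomial.algebraicIndependent_X (Fin 2) ℚ).map'
    (f := (io P2).toRatAlgHom) (io_inj P2)
  convert h using 1
  funext i
  fin_cases i <;> rfl

theorem gen_ser {κ : Type} [Field κ] [Algebra ℚ κ] {c : κ} (hc : Transcendental ℚ c) :
    AlgebraicIndependent ℚ ![(PowerSeries.C c : PowerSeries κ), PowerSeries.X] := by
  have hX : Transcendental κ (PowerSeries.X : PowerSeries κ) := by
    intro hal
    have hi : Function.Injective (coeToPowerSeries.algHom κ : κ[X] →ₐ[κ] PowerSeries κ) := by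
      intro p q hpq
      simpa [coeToPowerSeries.algHom_apply] using hpq
    have he : (coeToPowerSeries.algHom κ : κ[X] →ₐ[κ] PowerSeries κ) X = PowerSeries.X := by
      simp [coeToPowerSeries.algHom_apply]
    rw [← he, isAlgebraic_algHom_iff _ hi] at hal
    exact transcendental_X κ hal
  have h1 : AlgebraicIndependent ℚ ![c] := algebraicIndependent_iff_transcendental.mpr hc
  have h2 : AlgebraicIndependent κ ![(PowerSeries.X : PowerSeries κ)] :=
    algebraicIndependent_iff_transcendental.mpr hX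
  have h3 := (h1.sumElim_comp h2).comp (![Sum.inr 0, Sum.inl 0] : Fin 2 → Fin 1 ⊕ Fin 1)
    (by decide)
  convert h3 using 1
  funext i
  fin_cases i <;> rfl

/-- monomials in a transcendental constant and the series variable -/
theorem indep_mono {κ : Type} [Field κ] [Algebra ℚ κ] [Algebra ℚ (Om (PowerSeries κ))] {c : κ}
    (hc : Transcendental ℚ c) {p q x y : ℕ} (h : p * y ≠ q * x) {α β : Om (PowerSeries κ)}
    (hα : α * io (PowerSeries κ) PowerSeries.X ^ x = io (PowerSeries κ) (PowerSeries.C (c ^ p)))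
    (hβ : β * io (PowerSeries κ) PowerSeries.X ^ y = io (PowerSeries κ) (PowerSeries.C (c ^ q))) :
    AlgebraicIndependent ℚ ![α, β] := by
  have h1 := (gen_ser hc).map' (f := (io (PowerSeries κ)).toRatAlgHom) (io_inj _)
  rw [gen_pair_comp] at h1
  simp only [map_pow] at hα hβ
  set g := io (PowerSeries κ) (PowerSeries.C c) with hg
  set t := io (PowerSeries κ) PowerSeries.X with ht
  have h2 : AlgebraicIndependent ℚ ![g, t] := h1
  have hg0 : g ≠ 0 := h2.ne_zero 0
  have hα0 : α ≠ 0 := by
    rintro rfl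
    exact pow_ne_zero p hg0 (by rw [← hα, zero_mul])
  have ma : α ∈ Algebra.adjoin ℚ (Set.range ![α, β]) := Algebra.subset_adjoin ⟨0, rfl⟩
  have mb : β ∈ Algebra.adjoin ℚ (Set.range ![α, β]) := Algebra.subset_adjoin ⟨1, rfl⟩
  refine indep_swap h2 fun i => ?_
  fin_cases i
  · refine gen_rel (z := g) (pow_mem ma y) (pow_mem mb x) (pow_ne_zero y hα0) h.symm ?_
    rw [pow_mul, pow_mul, ← hα, ← hβ]
    ring
  · refine gen_rel (z := t) (pow_mem ma q) (pow_mem mb p) (pow_ne_zero q hα0)
      (m := x * q) (n := y * p) (fun e => h (by rw [mul_comm p, mul_comm q, e])) ?_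
    rw [pow_mul, pow_mul, ← mul_pow, ← mul_pow, hα, hβ]
    ring

/-- `1, a, b` are linearly independent over the algebraic numbers -/
theorem lin_indep {a b c0 c1 c2 : Ω} (h : AlgebraicIndependent ℚ ![a, b])
    (h0 : IsAlgebraic ℚ c0) (h1 : IsAlgebraic ℚ c1) (h2 : IsAlgebraic ℚ c2)
    (e : c0 + c1 * a + c2 * b = 0) : c1 = 0 ∧ c2 = 0 := by
  have hs := h.subalgebraAlgebraicClosure
  let d0 : Subalgebra.algebraicClosure ℚ Ω := ⟨c0, h0⟩
  let d1 : Subalgebra.algebraicClosure ℚ Ω := ⟨c1, h1⟩
  let d2 : Subalgebra.algebraicClosure ℚ Ω := ⟨c2, h2⟩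
  have hz := hs.eq_zero_of_aeval_eq_zero
    (MvPolynomial.C d0 + MvPolynomial.C d1 * MvPolynomial.X 0
      + MvPolynomial.C d2 * MvPolynomial.X 1) (by
      simp only [map_add, map_mul, MvPolynomial.aeval_C, MvPolynomial.aeval_X]
      exact e)
  have e0 := congrArg (MvPolynomial.eval ![0, 0]) hz
  have e1 := congrArg (MvPolynomial.eval ![1, 0]) hz
  have e2 := congrArg (MvPolynomial.eval ![0, 1]) hz
  simp only [map_add, map_mul, MvPolynomial.eval_C, MvPolynomial.eval_X, Matrix.cons_val_zero,
    Matrix.cons_val_one, mul_zero, mul_one, add_zero, map_zero] at e0 e1 e2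
  rw [e0, zero_add] at e1 e2
  exact ⟨congrArg Subtype.val e1, congrArg Subtype.val e2⟩

theorem transc_AO : Transcendental ℚ AO := by
  intro hal
  have he : AO = (io ℂ[X]).toRatAlgHom X := rfl
  rw [he, isAlgebraic_algHom_iff _ (io_inj ℂ[X])] at hal
  exact (transcendental_X ℂ).restrictScalars (algebraMap ℚ ℂ).injective hal

theorem AO_not_const (c : ℂ) : AO ≠ cO c := fun h => X_ne_C c (io_inj ℂ[X] h)

/-- an element outside the constants is transcendental over `ℂ` -/
theorem inj_eval {Ω : Type} [Field Ω] (φ : ℂ →+* Ω) {z : Ω} (hz : ∀ c, z ≠ φ c) :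
    Function.Injective (eval₂RingHom φ z) := by
  let _ : Algebra ℂ Ω := φ.toAlgebra
  have ht : Transcendental ℂ z := by
    intro hal
    obtain ⟨c, hc⟩ := minpoly.mem_range_of_degree_eq_one ℂ z
      (IsAlgClosed.degree_eq_one_of_irreducible ℂ (minpoly.irreducible hal.isIntegral))
    exact hz c hc.symm
  exact transcendental_iff_injective.mp ht

end Pool.Agent.Lib.MP_55068a_an.Dy
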