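import Mathlib
import Pool.Agent.Lib.MP_55068a_an.Dy.Base

namespace Pool.Agent.Lib.MP_55068a_an.Dy

open Polynomial

section aux

variable {G Ω Z : Type} [Group G] [MulAction G Ω] [MulAction G Z]

theorem Q_pow_fix {g : G} {y : Ω} (h : g • y = y) (n : ℕ) : g ^ n • y = y := by
  induction n with
  | zero => simp
  | succ n ih => rw [pow_succ, mul_smul, h, ih]

theorem Q_pow_mod {g : G} {y : Ω} {d : ℕ} (h : g ^ d • y = y) (n : ℕ) :
    g ^ n • y = g ^ (n % d) • y := by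
  conv_lhs => rw [← Nat.mod_add_div n d, pow_add, mul_smul, pow_mul, Q_pow_fix h]

theorem Q_pow_mem {g : G} {C : Set Ω} (h : ∀ y ∈ C, g • y ∈ C) {y : Ω} (hy : y ∈ C) (n : ℕ) :
    g ^ n • y ∈ C := by
  induction n with
  | zero => simpa using hy
  | succ n ih => rw [pow_succ', mul_smul]; exact h _ ih

/-- The length of a cycle is a period. -/
theorem Q_period {g : G} {C : Set Ω} (h : ∀ y ∈ C, g • y ∈ C)
    (ht : ∀ x ∈ C, ∀ y ∈ C, ∃ n : ℕ, g ^ n • x = y) {y : Ω} (hy : y ∈ C) :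
    g ^ C.ncard • y = y := by
  obtain ⟨n, hn⟩ := ht _ (h y hy) y hy
  rw [← mul_smul, ← pow_succ] at hn
  have hp : 0 < MulAction.period g y := MulAction.period_pos_of_fixed n.succ_pos hn
  have e : C = (fun k : ℕ => g ^ k • y) '' Set.Iio (MulAction.period g y) := by
    ext w
    constructor
    · intro hw
      obtain ⟨k, rfl⟩ := ht y hy w hw
      exact ⟨k % MulAction.period g y, Nat.mod_lt _ hp, MulAction.pow_mod_period_smul k⟩
    · rintro ⟨k, -, rfl⟩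
      exact Q_pow_mem h hy k
  have hi : Set.InjOn (fun k : ℕ => g ^ k • y) (Set.Iio (MulAction.period g y)) := by
    have := Function.iterate_injOn_Iio_minimalPeriod (f := fun w : Ω => g • w) (x := y)
    simpa only [smul_iterate, MulAction.period_eq_minimalPeriod] using this
  rw [e, hi.ncard_image, Set.ncard_Iio_nat]
  exact MulAction.pow_period_smul g y

theorem Q_fix_of_coprime {g : G} {z : Z} {c d : ℕ} (hcd : Nat.Coprime c d) (hc : g ^ c • z = z)
    (hd : g ^ d • z = z) : g • z = z := by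
  rw [MulAction.pow_smul_eq_iff_period_dvd] at hc hd
  exact MulAction.period_eq_one_iff.1 (Nat.eq_one_of_dvd_coprimes hcd hc hd)

/-- The fixed points of an element that normalises a regular abelian group. -/
theorem Q_fix_dvd (A : Subgroup G) [hA : A.Normal] (htr : ∀ z w : Z, ∃ a ∈ A, a • z = w)
    (hcom : ∀ a ∈ A, ∀ b ∈ A, ∀ z : Z, a • b • z = b • a • z) {g : G} {z0 : Z}
    (hg : g • z0 = z0) : {z : Z | g • z = z}.ncard ∣ Nat.card Z := by
  have hg' : g⁻¹ • z0 = z0 := inv_smul_eq_iff.2 hg.symm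
  have cj : ∀ (a : G) (z : Z), g • a • z = (g * a * g⁻¹) • g • z := fun a z => by
    simp [mul_smul]
  let B : Subgroup G :=
    { carrier := {a | a ∈ A ∧ g • a • z0 = a • z0}
      one_mem' := ⟨A.one_mem, by simpa using hg⟩
      mul_mem' := by
        rintro a b ⟨ha, ha'⟩ ⟨hb, hb'⟩
        refine ⟨A.mul_mem ha hb, ?_⟩
        rw [mul_smul, cj, hb', hcom _ (hA.conj_mem a ha g) b hb, hcom a ha b hb, ← ha', cj a, hg]
      inv_mem' := by
        rintro a ⟨ha, ha'⟩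
        refine ⟨A.inv_mem ha, ?_⟩
        rw [cj, hg] at ha'
        have h1 := hA.conj_mem a ha g
        rw [cj, hg, show g * a⁻¹ * g⁻¹ = (g * a * g⁻¹)⁻¹ by group, inv_smul_eq_iff,
          hcom _ h1 _ (A.inv_mem ha), ha', inv_smul_smul] }
  have hB : B ≤ A := fun a ha => ha.1
  have hS : MulAction.stabilizer G z0 ⊓ A ≤ B := fun a ha =>
    ⟨ha.2, by rw [MulAction.mem_stabilizer_iff.1 ha.1, hg]⟩
  have key : ∀ K : Subgroup G, K ≤ A →
      (MulAction.stabilizer G z0 ⊓ A).relIndex K = (MulAction.orbit K z0).ncard := fun K hK => by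
    rw [← MulAction.index_stabilizer, Subgroup.relIndex]
    congr 1
    ext a
    simp only [Subgroup.mem_subgroupOf, Subgroup.mem_inf, MulAction.mem_stabilizer_iff]
    exact ⟨And.left, fun h => ⟨h, hK a.2⟩⟩
  have e1 : MulAction.orbit B z0 = {z : Z | g • z = z} := by
    ext z
    constructor
    · rintro ⟨a, rfl⟩
      exact a.2.2
    · intro hz
      obtain ⟨a, ha, rfl⟩ := htr z0 z
      exact ⟨⟨a, ha, hz⟩, rfl⟩
  have e2 : MulAction.orbit A z0 = Set.univ := Set.eq_univ_of_forall fun z => by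
    obtain ⟨a, ha, rfl⟩ := htr z0 z
    exact ⟨⟨a, ha⟩, rfl⟩
  rw [← e1, ← key B hB, ← Set.ncard_univ, ← e2, ← key A le_rfl,
    ← Subgroup.relIndex_mul_relIndex _ B A hS hB]
  exact dvd_mul_right _ _

theorem Q_cauchy [Finite Z] (A : Subgroup G) (htr : ∀ z w : Z, ∃ a ∈ A, a • z = w)
    (hcom : ∀ a ∈ A, ∀ b ∈ A, ∀ z : Z, a • b • z = b • a • z) (z0 : Z) (p : ℕ) [Fact p.Prime]
    (hp : p ∣ Nat.card Z) : ∃ a ∈ A, a • z0 ≠ z0 ∧ a ^ p • z0 = z0 := by
  have reg : ∀ a ∈ A, ∀ b ∈ A, a • z0 = b • z0 → ∀ z : Z, a • z = b • z := fun a ha b hb h z => by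
    obtain ⟨c, hc, rfl⟩ := htr z0 z
    rw [hcom a ha c hc, h, hcom b hb c hc]
  have hb : Function.Bijective fun r : (MulAction.toPermHom A Z).range => r.1 z0 := by
    constructor
    · rintro ⟨_, a, rfl⟩ ⟨_, b, rfl⟩ h
      exact Subtype.ext (Equiv.ext (reg a a.2 b b.2 h))
    · intro z
      obtain ⟨a, ha, rfl⟩ := htr z0 z
      exact ⟨⟨_, ⟨a, ha⟩, rfl⟩, rfl⟩
  rw [← Nat.card_eq_of_bijective _ hb] at hp
  obtain ⟨r, hr⟩ := exists_prime_orderOf_dvd_card' p hp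
  obtain ⟨a, ha⟩ := r.2
  refine ⟨a, a.2, fun h => ?_, ?_⟩
  · have : r = 1 := hb.1 (by simpa [← ha, Subgroup.smul_def] using h)
    rw [this, orderOf_one] at hr
    exact (Fact.out : p.Prime).one_lt.ne hr
  · have h1 : (r : Equiv.Perm Z) ^ p = 1 := by
      rw [← Subgroup.coe_pow, ← hr, pow_orderOf_eq_one, Subgroup.coe_one]
    rw [← ha, ← map_pow] at h1
    simpa [Subgroup.smul_def] using congrArg (fun s : Equiv.Perm Z => s z0) h1

theorem Q_fibres [Finite Z] (X : Set Ω) (hX : X.Finite) (hinv : ∀ g : G, ∀ y ∈ X, g • y ∈ X)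
    (π : Ω → Z) (hπ : ∀ g : G, ∀ y ∈ X, π (g • y) = g • π y) (htr : ∀ z w : Z, ∃ a : G, a • z = w)
    (z0 : Z) (S : Set Z) : (X ∩ π ⁻¹' S).ncard = (X ∩ π ⁻¹' {z0}).ncard * S.ncard := by
  have fib : ∀ z, (X ∩ π ⁻¹' {z}).ncard = (X ∩ π ⁻¹' {z0}).ncard := fun z => by
    obtain ⟨a, rfl⟩ := htr z0 z
    rw [← Set.ncard_image_of_injective (X ∩ π ⁻¹' {z0}) (MulAction.injective a)]
    congr 1
    ext y
    constructor
    · rintro ⟨h1, h2⟩
      refine ⟨a⁻¹ • y, ⟨hinv _ _ h1, ?_⟩, smul_inv_smul a y⟩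
      rw [Set.mem_preimage, hπ _ _ h1, Set.mem_singleton_iff.1 h2]
      simp
    · rintro ⟨w, ⟨h1, h2⟩, rfl⟩
      refine ⟨hinv _ _ h1, ?_⟩
      rw [Set.mem_preimage, hπ _ _ h1, Set.mem_singleton_iff.1 h2]
      rfl
  induction S, S.toFinite using Set.Finite.induction_on with
  | empty => simp
  | @insert z S hz hS ih =>
    rw [Set.ncard_insert_of_notMem hz hS, mul_add, mul_one, ← ih, ← fib z, Set.insert_eq,
      Set.preimage_union, Set.inter_union_distrib_left, add_comm]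
    refine Set.ncard_union_eq ?_ (hX.inter_of_left _) (hX.inter_of_left _)
    rw [Set.disjoint_left]
    rintro y ⟨-, h1⟩ ⟨-, h2⟩
    exact hz (Set.mem_singleton_iff.1 h1 ▸ h2)

theorem Q_core [Finite Z] (X : Set Ω) (hX : X.Finite) (hinv : ∀ g : G, ∀ y ∈ X, g • y ∈ X)
    (π : Ω → Z) (hπ : ∀ g : G, ∀ y ∈ X, π (g • y) = g • π y) (hs : ∀ z, ∃ y ∈ X, π y = z)
    (A : Subgroup G) [hA : A.Normal] (htr : ∀ z w : Z, ∃ a ∈ A, a • z = w)
    (hcom : ∀ a ∈ A, ∀ b ∈ A, ∀ z : Z, a • b • z = b • a • z) (hM : 2 ≤ Nat.card Z) :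
    ∃ e M, QOut G X e M := by
  obtain ⟨z1⟩ : Nonempty Z := (Nat.card_pos_iff.1 (by omega)).1
  obtain ⟨e, he⟩ : ∃ e, ∀ S : Set Z, (X ∩ π ⁻¹' S).ncard = e * S.ncard :=
    ⟨_, Q_fibres X hX hinv π hπ (fun z w => (htr z w).imp fun _ h => h.2) z1⟩
  have hN : X.ncard = e * Nat.card Z := by simpa using he Set.univ
  have pure : ∀ (g : G) (c : ℕ), PureCyc g X c → c < X.ncard →
      c ≤ e ∨ (e ∣ c ∧ X.ncard - c ∣ X.ncard) := by
    rintro g c ⟨C, hC, rfl, h1, h2⟩ hlt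
    obtain ⟨y0, a1, a2⟩ := Set.exists_mem_notMem_of_ncard_lt_ncard hlt (hX.subset hC)
    have a3 : g • π y0 = π y0 := by rw [← hπ g y0 a1, h1 y0 a1 a2]
    by_cases hf : ∃ y ∈ C, g • π y = π y
    · obtain ⟨y, b1, b2⟩ := hf
      left
      have := he {π y}
      rw [Set.ncard_singleton, mul_one] at this
      rw [← this]
      refine Set.ncard_le_ncard (fun w hw => ⟨hC hw, ?_⟩) (hX.inter_of_left _)
      obtain ⟨n, rfl⟩ := h2 y b1 w hw
      rw [Set.mem_preimage, hπ _ _ (hC b1), Q_pow_fix b2]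
      rfl
    · right
      have b1 : C = X ∩ π ⁻¹' {z | g • z = z}ᶜ := by
        ext y
        refine ⟨fun hy => ⟨hC hy, fun h => hf ⟨y, hy, h⟩⟩, fun hy => by_contra fun hn => hy.2 ?_⟩
        rw [Set.mem_ofPred_eq, ← hπ g y hy.1, h1 y hy.1 hn]
      have b2 : X \ C = X ∩ π ⁻¹' {z | g • z = z} := by
        rw [b1]
        ext y
        simp only [Set.mem_sdiff, Set.mem_inter_iff, Set.mem_preimage, Set.mem_compl_iff]
        tauto
      constructor
      · rw [b1, he]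
        exact dvd_mul_right _ _
      · rw [← Set.ncard_sdiff hC (hX.subset hC), b2, he, hN]
        exact mul_dvd_mul_left e (Q_fix_dvd A htr hcom a3)
  refine ⟨e, Nat.card Z, hM, hN, pure, ?_, ?_⟩
  · rintro g c d ⟨C, D, hU, hd, rfl, rfl, hC, hD, tC, tD⟩ hc0 hd0 hcd
    have sC : C ⊆ X := hU ▸ Set.subset_union_left
    have sD : D ⊆ X := hU ▸ Set.subset_union_right
    have dis : ∀ y ∈ C, ∀ w ∈ D, π y ≠ π w := fun y hy w hw h => by
      have b1 : g ^ C.ncard • π y = π y := by rw [← hπ _ _ (sC hy), Q_period hC tC hy]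
      have b2 : g ^ D.ncard • π y = π y := by rw [h, ← hπ _ _ (sD hw), Q_period hD tD hw]
      have b3 := Q_fix_of_coprime hcd b1 b2
      have b4 : ∀ z, z = π y := fun z => by
        obtain ⟨u, hu, rfl⟩ := hs z
        rcases (hU ▸ hu : u ∈ C ∪ D) with hu | hu
        · obtain ⟨n, rfl⟩ := tC y hy u hu
          rw [hπ _ _ (sC hy), Q_pow_fix b3]
        · obtain ⟨n, rfl⟩ := tD w hw u hu
          rw [hπ _ _ (sD hw), ← h, Q_pow_fix b3]
      have : Subsingleton Z := ⟨fun a b => (b4 a).trans (b4 b).symm⟩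
      have := Finite.card_le_one_iff_subsingleton.2 this
      omega
    have eC : C = X ∩ π ⁻¹' (π '' C) := by
      ext y
      refine ⟨fun hy => ⟨sC hy, y, hy, rfl⟩, ?_⟩
      rintro ⟨h1, w, hw, h2⟩
      exact (hU ▸ h1 : y ∈ C ∪ D).resolve_right fun hy => dis w hw y hy h2
    have eD : D = X ∩ π ⁻¹' (π '' D) := by
      ext y
      refine ⟨fun hy => ⟨sD hy, y, hy, rfl⟩, ?_⟩
      rintro ⟨h1, w, hw, h2⟩
      exact (hU ▸ h1 : y ∈ C ∪ D).resolve_left fun hy => dis y hy w hw h2.symm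
    have e1 : e = 1 := Nat.eq_one_of_dvd_coprimes hcd ⟨_, by rw [← he, ← eC]⟩
      ⟨_, by rw [← he, ← eD]⟩
    have hsum : X.ncard = C.ncard + D.ncard := by
      rw [← hU, Set.ncard_union_eq hd (hX.subset sC) (hX.subset sD)]
    refine ⟨e1, ?_⟩
    have hp : PureCyc (g ^ C.ncard) X D.ncard := by
      refine ⟨D, sD, rfl, fun y hy hn => Q_period hC tC ((hU ▸ hy : y ∈ C ∪ D).resolve_right hn),
        fun y hy w hw => ?_⟩
      obtain ⟨n, rfl⟩ := tD y hy w hw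
      refine ⟨C.ncard ^ (Nat.totient D.ncard - 1) * n, ?_⟩
      have b1 := Q_period hD tD hy
      have b2 : C.ncard * (C.ncard ^ (Nat.totient D.ncard - 1) * n) ≡ n [MOD D.ncard] := by
        rw [← mul_assoc, ← pow_succ', Nat.sub_add_cancel (Nat.totient_pos.2 hd0)]
        simpa using (Nat.ModEq.pow_totient hcd).mul_right n
      rw [← pow_mul, Q_pow_mod b1, b2, ← Q_pow_mod b1]
    rcases pure _ _ hp (by omega) with h | ⟨-, h⟩
    · omega
    · rw [hsum, Nat.add_sub_cancel] at h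
      exact Or.inl (Nat.eq_one_of_dvd_coprimes hcd dvd_rfl ((Nat.dvd_add_right dvd_rfl).1 h))
  · intro g h6 hp
    have e1 : e = 1 := by
      have b1 : e ≤ 3 := by nlinarith
      rcases pure g 5 hp (by omega) with h | ⟨h, -⟩
      · omega
      · rcases (Nat.dvd_prime Nat.prime_five).1 h with h | h <;> omega
    obtain ⟨C, hC, c5, h1, h2⟩ := hp
    rw [e1, one_mul, h6] at hN
    obtain ⟨y0, a1, a2⟩ := Set.exists_mem_notMem_of_ncard_lt_ncard (s := C) (t := X) (by omega)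
      (hX.subset hC)
    have a3 : g • π y0 = π y0 := by rw [← hπ g y0 a1, h1 y0 a1 a2]
    have a4 : ∀ z, z ≠ π y0 → ∃ y ∈ C, π y = z := fun z hz => by
      obtain ⟨y, hy, rfl⟩ := hs z
      refine ⟨y, by_contra fun hn => hz ?_, rfl⟩
      have b1 : (X \ C).ncard ≤ 1 := by rw [Set.ncard_sdiff hC (hX.subset hC)]; omega
      rw [(Set.ncard_le_one (hX.subset Set.sdiff_subset)).1 b1 y ⟨hy, hn⟩ y0 ⟨a1, a2⟩]
    have : Fact (Nat.Prime 3) := ⟨Nat.prime_three⟩
    obtain ⟨a, ha, b1, b2⟩ := Q_cauchy A htr hcom (π y0) 2 (by rw [← hN]; norm_num)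
    obtain ⟨b, hb, b3, b4⟩ := Q_cauchy A htr hcom (π y0) 3 (by rw [← hN]; norm_num)
    obtain ⟨y, hy, b5⟩ := a4 _ b1
    obtain ⟨w, hw, b6⟩ := a4 _ b3
    obtain ⟨n, rfl⟩ := h2 y hy w hw
    rw [hπ _ _ (hC hy), b5] at b6
    have b7 : (g ^ n)⁻¹ • π y0 = π y0 := inv_smul_eq_iff.2 (Q_pow_fix a3 n).symm
    have b8 : (g ^ n * a * (g ^ n)⁻¹) • π y0 = b • π y0 := by rw [mul_smul, mul_smul, b7, b6]
    have b9 : b • b • π y0 = π y0 := by
      rw [← b8, hcom b hb _ (hA.conj_mem a ha _), ← b8, ← mul_smul,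
        show g ^ n * a * (g ^ n)⁻¹ * (g ^ n * a * (g ^ n)⁻¹) = g ^ n * a ^ 2 * (g ^ n)⁻¹ by
          rw [sq]; group,
        mul_smul, mul_smul, b7, b2, Q_pow_fix a3]
    rw [pow_three, mul_smul, mul_smul, b9] at b4
    exact b3 b4

end aux

/-- Lemma Q. -/
theorem Q_main {G Ω : Type} [Group G] [MulAction G Ω] (X : Set Ω) (hX : X.Finite) (x v : Ω)
    (hx : x ∈ X) (hinv : ∀ g : G, ∀ y ∈ X, g • y ∈ X) (htr : ∀ y ∈ X, ∃ g : G, g • x = y)
    (hst : ∀ g : G, g • x = x → g • v = v) (hmv : ∃ g : G, g • v ≠ v)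
    (n : ℕ) (hfix : ∀ g ∈ derivedSeries G n, g • v = v) : ∃ e M, QOut G X e M := by
  classical
  obtain ⟨j, h1, h2⟩ : ∃ j, MulAction.stabilizer G v ⊔ derivedSeries G j = ⊤ ∧
      MulAction.stabilizer G v ⊔ derivedSeries G (j + 1) ≠ ⊤ := by
    by_contra hn
    have : ∀ j, MulAction.stabilizer G v ⊔ derivedSeries G j = ⊤ := fun j => by
      induction j with
      | zero => simp
      | succ j ih => exact by_contra fun h => hn ⟨j, ih, h⟩
    obtain ⟨g, hg⟩ := hmv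
    have h3 : MulAction.stabilizer G v ⊔ derivedSeries G n ≤ MulAction.stabilizer G v :=
      sup_le le_rfl hfix
    exact hg (h3 (this n ▸ Subgroup.mem_top g))
  obtain ⟨H, hH⟩ : ∃ H, H = MulAction.stabilizer G v ⊔ derivedSeries G (j + 1) := ⟨_, rfl⟩
  rw [← hH] at h2
  have s1 : MulAction.stabilizer G v ≤ H := hH ▸ le_sup_left
  have s2 : derivedSeries G (j + 1) ≤ H := hH ▸ le_sup_right
  choose! t ht using htr
  have hπ : ∀ g : G, ∀ y ∈ X, ((t (g • y) : G) : G ⧸ H) = g • ((t y : G) : G ⧸ H) := by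
    intro g y hy
    rw [MulAction.Quotient.smul_coe, smul_eq_mul, QuotientGroup.eq]
    refine s1 (hst _ ?_)
    rw [mul_smul, mul_smul, ht y hy, inv_smul_eq_iff, ht _ (hinv g y hy)]
  have hs : ∀ z : G ⧸ H, ∃ y ∈ X, ((t y : G) : G ⧸ H) = z := fun z => by
    obtain ⟨g, rfl⟩ := MulAction.exists_smul_eq G ((t x : G) : G ⧸ H) z
    exact ⟨g • x, hinv g x hx, hπ g x hx⟩
  have : Finite X := hX
  have : Finite (G ⧸ H) := Finite.of_surjective (fun y : X => ((t y : G) : G ⧸ H)) fun z => by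
    obtain ⟨y, hy, rfl⟩ := hs z
    exact ⟨⟨y, hy⟩, rfl⟩
  have base : ∀ z : G ⧸ H, ∃ a ∈ derivedSeries G j, a • ((1 : G) : G ⧸ H) = z := fun z => by
    obtain ⟨g, rfl⟩ := QuotientGroup.mk_surjective z
    have hg : g ∈ ((derivedSeries G j ⊔ MulAction.stabilizer G v : Subgroup G) : Set G) := by
      rw [sup_comm, h1]
      trivial
    rw [Subgroup.normal_mul] at hg
    obtain ⟨a, ha, s, hs, rfl⟩ := hg
    refine ⟨a, ha, ?_⟩
    rw [MulAction.Quotient.smul_coe, smul_eq_mul, QuotientGroup.eq]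
    simpa using s1 hs
  refine Q_core X hX hinv (fun y => ((t y : G) : G ⧸ H)) hπ hs (derivedSeries G j)
    (fun z w => ?_) (fun a ha b hb z => ?_) ?_
  · obtain ⟨a, ha, rfl⟩ := base z
    obtain ⟨b, hb, rfl⟩ := base w
    exact ⟨b * a⁻¹, Subgroup.mul_mem _ hb (Subgroup.inv_mem _ ha), by rw [mul_smul, inv_smul_smul]⟩
  · obtain ⟨g, rfl⟩ := QuotientGroup.mk_surjective z
    simp only [MulAction.Quotient.smul_coe, smul_eq_mul, QuotientGroup.eq]
    have h3 : b⁻¹ * a⁻¹ * b⁻¹⁻¹ * a⁻¹⁻¹ ∈ derivedSeries G (j + 1) :=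
      Subgroup.commutator_mem_commutator (Subgroup.inv_mem _ hb) (Subgroup.inv_mem _ ha)
    have h4 := s2 ((derivedSeries_normal G (j + 1)).conj_mem _ h3 g⁻¹)
    convert h4 using 1
    group
  · have h3 : H.index ≠ 1 := fun h => h2 (Subgroup.index_eq_one.1 h)
    have h4 : H.index ≠ 0 := Subgroup.index_ne_zero_of_finite
    rw [← Subgroup.index_eq_card]
    omega

end Pool.Agent.Lib.MP_55068a_an.Dy
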