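import Mathlib
import Pool.Agent.Lib.MP_55068a_an.Dy.Base

namespace Pool.Agent.Lib.MP_55068a_an.Dy

open Polynomial

variable {G Ω : Type} [Group G] [MulAction G Ω]

namespace H14

theorem pull_pow {G' Ω' : Type} [Group G'] [MulAction G' Ω'] {j : Ω' → Ω} {τ : G'} {σ : G}
    (h : ∀ z, j (τ • z) = σ • j z) (n : ℕ) (z : Ω') : j (τ ^ n • z) = σ ^ n • j z := by
  induction n with
  | zero => simp
  | succ n ih => rw [pow_succ', pow_succ', mul_smul, mul_smul, h, ih]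

theorem cover {X C F : Set Ω} (hX : X.Finite) {N : ℕ} (hN : X.ncard ≤ N) (hC : C ⊆ X)
    (hF : F ⊆ X) (hd : Disjoint C F) (hn : N ≤ C.ncard + F.ncard) :
    C ∪ F = X ∧ X.ncard = N := by
  have h1 := Set.ncard_union_eq hd (hX.subset hC) (hX.subset hF)
  have h2 : C ∪ F = X :=
    Set.eq_of_subset_of_ncard_le (Set.union_subset hC hF) (by omega) hX
  rw [h2] at h1
  exact ⟨h2, by omega⟩

end H14

theorem Q_prime {X : Set Ω} {e M q : ℕ} (h : QOut G X e M) {g : G} (hg : PureCyc g X q)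
    (hq : q.Prime) (h2 : X.ncard < 2 * q) (h3 : q + 2 ≤ X.ncard ∨ (X.ncard = 6 ∧ q = 5)) :
    False := by
  obtain ⟨hM, hN, hc, -, h6⟩ := h
  rcases h3 with h3 | ⟨h3, rfl⟩
  · rcases hc g q hg (by omega) with h | ⟨-, h⟩
    · have : q * 2 ≤ e * M := Nat.mul_le_mul h hM
      omega
    · have h' : X.ncard - q ∣ q := by
        have := Nat.dvd_sub h (dvd_refl (X.ncard - q))
        rwa [show X.ncard - (X.ncard - q) = q by omega] at this
      rcases (Nat.dvd_prime hq).1 h' with h | h <;> omega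
  · exact h6 g h3 hg

theorem order_q (X : Set Ω) (hX : X.Finite) (hinv : ∀ g : G, ∀ y ∈ X, g • y ∈ X) {u : Ω}
    (hu : u ∈ X) {q : ℕ} (hq : q.Prime) (hd : q ∣ (MulAction.orbit G u).ncard)
    (h2 : X.ncard < 2 * q) : ∃ g : G, PureCyc g X q := by
  classical
  let S : SubMulAction G Ω := ⟨X, fun g {y} hy => hinv g y hy⟩
  have : Finite S := hX.to_subtype
  have : Fintype S := Fintype.ofFinite S
  let φ : G →* Equiv.Perm S := MulAction.toPermHom G S
  have hφ : ∀ (g : G) (y : S), ((φ g y : S) : Ω) = g • (y : Ω) := fun _ _ => rfl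
  have horb : Subtype.val '' MulAction.orbit φ.range (⟨u, hu⟩ : S) = MulAction.orbit G u := by
    ext y
    constructor
    · rintro ⟨_, ⟨⟨_, g, rfl⟩, rfl⟩, rfl⟩
      exact ⟨g, rfl⟩
    · rintro ⟨g, rfl⟩
      exact ⟨_, ⟨⟨_, g, rfl⟩, rfl⟩, rfl⟩
  have hdv : q ∣ Nat.card φ.range := by
    rw [← horb, Set.ncard_image_of_injective _ Subtype.val_injective,
      ← MulAction.index_stabilizer] at hd
    exact hd.trans (Subgroup.index_dvd_card _)
  have : Fact q.Prime := ⟨hq⟩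
  obtain ⟨⟨_, g, rfl⟩, hg⟩ := exists_prime_orderOf_dvd_card' q hdv
  have hg' : orderOf (φ g) = q := (Subgroup.orderOf_mk _ _).symm.trans hg
  have hcard : Fintype.card S = X.ncard := by
    rw [← Nat.card_eq_fintype_card]; exact Nat.card_coe_set_eq X
  have hcyc : (φ g).IsCycle :=
    Equiv.Perm.isCycle_of_prime_order' (hg' ▸ hq) (by rw [hg', hcard]; exact h2)
  refine ⟨g, Subtype.val '' ((φ g).support : Set S), ?_, ?_, ?_, ?_⟩
  · rintro _ ⟨y, -, rfl⟩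
    exact y.2
  · rw [Set.ncard_image_of_injective _ Subtype.val_injective, Set.ncard_coe_finset,
      ← hcyc.orderOf, hg']
  · intro x hx hn
    by_contra hne
    refine hn ⟨⟨x, hx⟩, ?_, rfl⟩
    rw [Finset.mem_coe, Equiv.Perm.mem_support]
    exact fun e => hne (congrArg Subtype.val e)
  · rintro _ ⟨x, hx, rfl⟩ _ ⟨y, hy, rfl⟩
    rw [Finset.mem_coe, Equiv.Perm.mem_support] at hx hy
    obtain ⟨n, hn⟩ := hcyc.exists_pow_eq hx hy
    exact ⟨n, by rw [← hn, ← map_pow, hφ]⟩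

theorem PureCyc.pull {G' Ω' : Type} [Group G'] [MulAction G' Ω'] {j : Ω' → Ω}
    (hj : Function.Injective j) {τ : G'} {σ : G} (h : ∀ z, j (τ • z) = σ • j z) {X : Set Ω'}
    {c : ℕ} (hc : PureCyc σ (j '' X) c) : PureCyc τ X c := by
  obtain ⟨C, hC, hn, hfix, htr⟩ := hc
  refine ⟨j ⁻¹' C, fun x hx => ?_, ?_, fun x hx hx' => hj ?_, fun x hx y hy => ?_⟩
  · exact (hj.mem_set_image).1 (hC hx)
  · rw [← hn]
    exact Set.ncard_preimage_of_injective_subset_range hj (hC.trans (Set.image_subset_range _ _))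
  · rw [h]; exact hfix _ ⟨x, hx, rfl⟩ hx'
  · obtain ⟨n, e⟩ := htr _ hx _ hy
    exact ⟨n, hj (by rw [H14.pull_pow h, e])⟩

theorem TwoOrb.pull {G' Ω' : Type} [Group G'] [MulAction G' Ω'] {j : Ω' → Ω}
    (hj : Function.Injective j) {τ : G'} {σ : G} (h : ∀ z, j (τ • z) = σ • j z) {X : Set Ω'}
    {c d : ℕ} (hc : TwoOrb σ (j '' X) c d) : TwoOrb τ X c d := by
  obtain ⟨C, D, hU, hd, hc, hd', hC, hD, hCt, hDt⟩ := hc
  have hr : C ∪ D ⊆ Set.range j := hU ▸ Set.image_subset_range _ _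
  refine ⟨j ⁻¹' C, j ⁻¹' D, ?_, hd.preimage j, ?_, ?_, fun x hx => ?_, fun x hx => ?_,
    fun x hx y hy => ?_, fun x hx y hy => ?_⟩
  · rw [← Set.preimage_union, hU, hj.preimage_image]
  · rw [← hc]
    exact Set.ncard_preimage_of_injective_subset_range hj (Set.subset_union_left.trans hr)
  · rw [← hd']
    exact Set.ncard_preimage_of_injective_subset_range hj (Set.subset_union_right.trans hr)
  · rw [Set.mem_preimage, h]; exact hC _ hx
  · rw [Set.mem_preimage, h]; exact hD _ hx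
  · obtain ⟨n, e⟩ := hCt _ hx _ hy
    exact ⟨n, hj (by rw [H14.pull_pow h, e])⟩
  · obtain ⟨n, e⟩ := hDt _ hx _ hy
    exact ⟨n, hj (by rw [H14.pull_pow h, e])⟩

theorem pure_of_cover {g : G} {X C F : Set Ω} (hX : X.Finite) {N : ℕ} (hN : X.ncard ≤ N)
    (hC : C ⊆ X) (hF : F ⊆ X) (hd : Disjoint C F) (hn : N ≤ C.ncard + F.ncard)
    (hfix : ∀ x ∈ F, g • x = x) (htr : ∀ x ∈ C, ∀ y ∈ C, ∃ n : ℕ, g ^ n • x = y) :
    X.ncard = N ∧ PureCyc g X C.ncard := by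
  obtain ⟨hU, hn'⟩ := H14.cover hX hN hC hF hd hn
  refine ⟨hn', C, hC, rfl, fun x hx hx' => hfix x ?_, htr⟩
  rw [← hU] at hx
  exact hx.resolve_left hx'

theorem two_of_cover {g : G} {X C D : Set Ω} (hX : X.Finite) {N : ℕ} (hN : X.ncard ≤ N)
    (hC : C ⊆ X) (hD : D ⊆ X) (hd : Disjoint C D) (hn : N ≤ C.ncard + D.ncard)
    (hCi : ∀ x ∈ C, g • x ∈ C) (hDi : ∀ x ∈ D, g • x ∈ D)
    (hCt : ∀ x ∈ C, ∀ y ∈ C, ∃ n : ℕ, g ^ n • x = y)
    (hDt : ∀ x ∈ D, ∀ y ∈ D, ∃ n : ℕ, g ^ n • x = y) :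
    X.ncard = N ∧ TwoOrb g X C.ncard D.ncard := by
  obtain ⟨hU, hn'⟩ := H14.cover hX hN hC hD hd hn
  exact ⟨hn', C, D, hU, hd, rfl, rfl, hCi, hDi, hCt, hDt⟩

/-- If the `d`-th roots of unity are fixed, a derived subgroup fixing `z ^ d` has a derived
subgroup fixing `z`. -/
theorem pow_fixed {G Ω : Type} [Group G] [Field Ω] [MulSemiringAction G Ω] (z : Ω) {d : ℕ}
    (hd : 0 < d) (hroot : ∀ g : G, ∀ w : Ω, w ^ d = 1 → g • w = w)
    (h : ∀ n, ∃ g ∈ derivedSeries G n, g • z ≠ z) :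
    ∀ n, ∃ g ∈ derivedSeries G n, g • z ^ d ≠ z ^ d := by
  intro n
  by_contra hn
  push Not at hn
  obtain ⟨g, hg, hne⟩ := h (n + 1)
  by_cases hz : z = 0
  · exact hne (by rw [hz, smul_zero])
  have key : ∀ a ∈ derivedSeries G n, ∃ χ : Ω, (∀ b : G, b • χ = χ) ∧ a • z = χ * z := by
    intro a ha
    refine ⟨a • z / z, fun b => hroot b _ ?_, (div_mul_cancel₀ _ hz).symm⟩
    rw [div_pow, ← smul_pow', hn a ha, div_self (pow_ne_zero d hz)]
  have hle : derivedSeries G (n + 1) ≤ MulAction.stabilizer G z := by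
    rw [derivedSeries_succ, Subgroup.commutator_le]
    intro a ha b hb
    obtain ⟨χ, hχ, ea⟩ := key a ha
    obtain ⟨ψ, hψ, eb⟩ := key b hb
    obtain ⟨χ', hχ', ea'⟩ := key a⁻¹ (inv_mem ha)
    obtain ⟨ψ', hψ', eb'⟩ := key b⁻¹ (inv_mem hb)
    have h1 : χ' * (χ * z) = z := by
      rw [← ea, ← hχ' a, ← smul_mul', ← ea', smul_inv_smul]
    have h2 : ψ' * (ψ * z) = z := by
      rw [← eb, ← hψ' b, ← smul_mul', ← eb', smul_inv_smul]
    rw [MulAction.mem_stabilizer_iff, commutatorElement_def, mul_smul, mul_smul, mul_smul]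
    simp only [eb', ea', eb, ea, smul_mul', hψ', hχ', hψ]
    linear_combination (ψ' * ψ) * h1 + h2
  exact hne (hle hg)

/-- Transfer of derived series along a relation that is onto the first factor. -/
theorem transfer {G H : Type} [Group G] [Group H] (Γ : Subgroup (G × H))
    (hs : ∀ g : G, ∃ h : H, (g, h) ∈ Γ) (n : ℕ) (g : G) (hg : g ∈ derivedSeries G n) :
    ∃ γ : Γ, γ ∈ derivedSeries Γ n ∧ (γ : G × H).1 = g := by
  have hf : Function.Surjective ((MonoidHom.fst G H).comp Γ.subtype) := fun a => by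
    obtain ⟨b, hb⟩ := hs a
    exact ⟨⟨(a, b), hb⟩, rfl⟩
  rw [← map_derivedSeries_eq hf n] at hg
  obtain ⟨γ, h1, h2⟩ := hg
  exact ⟨γ, h1, h2⟩

end Pool.Agent.Lib.MP_55068a_an.Dy
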