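import Mathlib
import Pool.Agent.Lib.MP_55068a_an.Dy.Grp
import Pool.Agent.Lib.MP_55068a_an.Dy.Grp2
import Pool.Agent.Lib.MP_55068a_an.Dy.Gen

namespace Pool.Agent.Lib.MP_55068a_an.Dy

open Polynomial

variable {R : Type} [CommRing R] [IsDomain R]

/-- every element of `Om R` is a root of a nonzero polynomial over `R` -/
theorem A43.io_alg (z : Om R) : ∃ q : R[X], q ≠ 0 ∧ q.eval₂ (io R) z = 0 := by
  have h1 : IsAlgebraic (FractionRing R) z := Algebra.IsAlgebraic.isAlgebraic z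
  have h2 : IsAlgebraic R z := (IsFractionRing.isAlgebraic_iff R (FractionRing R) (Om R)).2 h1
  obtain ⟨q, hq, hz⟩ := h2
  refine ⟨q, hq, ?_⟩
  have : io R = algebraMap R (Om R) := (IsScalarTower.algebraMap_eq R (FractionRing R) (Om R)).symm
  rw [this]; exact hz

/-- extension of an embedding along an algebraic extension -/
theorem A43.lift_hom {S L M : Type} [CommRing S] [Field L] [Field M] [IsAlgClosed M] (ψ : S →+* L)
    (ψ' : S →+* M) (h : Function.Injective ψ) (h' : Function.Injective ψ')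
    (ha : ∀ z : L, ∃ q : S[X], q ≠ 0 ∧ q.eval₂ ψ z = 0) :
    ∃ j : L →+* M, ∀ s, j (ψ s) = ψ' s := by
  have : IsDomain S := h.isDomain ψ
  let : Algebra S L := ψ.toAlgebra
  let : Algebra S M := ψ'.toAlgebra
  have : FaithfulSMul S L := (faithfulSMul_iff_algebraMap_injective S L).2 h
  have : FaithfulSMul S M := (faithfulSMul_iff_algebraMap_injective S M).2 h'
  have : Algebra.IsAlgebraic S L := ⟨fun z => ha z⟩
  let j : L →ₐ[S] M := IsAlgClosed.lift
  exact ⟨j.toRingHom, fun s => j.commutes s⟩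

/-- a ring endomorphism of `Om R` fixing `R` is in `Gl R` -/
theorem A43.gl_of_hom (j : Om R →+* Om R) (hj : ∀ r, j (io R r) = io R r) :
    ∃ σ : Gl R, ∀ z, σ z = j z := by
  have hc : ∀ x : FractionRing R, j (algebraMap _ (Om R) x) = algebraMap _ (Om R) x := by
    intro x
    obtain ⟨a, b, hb, rfl⟩ := IsFractionRing.div_surjective (A := R) x
    rw [map_div₀, map_div₀]
    exact congrArg₂ (· / ·) (hj a) (hj b)
  let f : Om R →ₐ[FractionRing R] Om R := { j with commutes' := hc }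
  exact ⟨AlgEquiv.ofBijective f (Algebra.IsAlgebraic.algHom_bijective f), fun _ => rfl⟩

theorem ext_aut (e : R ≃+* R) : ∃ σ : RingAut (Om R), ∀ r, σ (io R r) = io R (e r) := by
  refine ⟨IsAlgClosure.equivOfEquiv (Om R) (Om R)
    (IsFractionRing.ringEquivOfRingEquiv (K := FractionRing R) (L := FractionRing R) e), fun r => ?_⟩
  simp only [io, RingHom.comp_apply]
  rw [IsAlgClosure.equivOfEquiv_algebraMap, IsFractionRing.ringEquivOfRingEquiv_algebraMap]

theorem conj {S : Type} [CommRing S] (θ : R →+* S) (ψ ψ' : S →+* Om R)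
    (h : Function.Injective ψ) (h' : Function.Injective ψ') (e : ∀ r, ψ (θ r) = io R r)
    (e' : ∀ r, ψ' (θ r) = io R r) : ∃ σ : Gl R, ∀ s, σ (ψ s) = ψ' s := by
  have hc : ψ.comp θ = io R := RingHom.ext e
  have hθ : Function.Injective θ := by
    apply Function.Injective.of_comp (f := ψ)
    rw [← RingHom.coe_comp, hc]; exact io_inj R
  obtain ⟨j, hj⟩ := A43.lift_hom ψ ψ' h h' fun z => by
    obtain ⟨q, hq, hz⟩ := A43.io_alg z
    exact ⟨q.map θ, (Polynomial.map_ne_zero_iff hθ).2 hq, by rw [eval₂_map, hc, hz]⟩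
  obtain ⟨σ, hσ⟩ := A43.gl_of_hom j fun r => by rw [← e, hj, e', e]
  exact ⟨σ, fun s => by rw [hσ, hj]⟩

theorem A43.Rt_eq {Ω : Type} [Field Ω] {φ : R →+* Ω} (hφ : Function.Injective φ) {p : R[X]}
    (hp : p ≠ 0) : Rt φ p = {y | y ∈ (p.map φ).roots} := by
  ext y
  have : p.map φ ≠ 0 := (Polynomial.map_ne_zero_iff hφ).2 hp
  simp only [Rt, Set.mem_ofPred_eq, mem_roots this, IsRoot.def, eval_map]

theorem Rt_finite {Ω : Type} [Field Ω] {φ : R →+* Ω} (hφ : Function.Injective φ) {p : R[X]}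
    (hp : p ≠ 0) : (Rt φ p).Finite := by
  rw [A43.Rt_eq hφ hp]; exact Multiset.finite_toSet _

theorem Rt_ncard_le {Ω : Type} [Field Ω] {φ : R →+* Ω} (hφ : Function.Injective φ) {p : R[X]}
    (hp : p ≠ 0) : (Rt φ p).ncard ≤ p.natDegree := by
  classical
  have : Rt φ p = ((p.map φ).roots.toFinset : Set Ω) := by
    rw [A43.Rt_eq hφ hp]; ext y; simp only [Set.mem_ofPred_eq, Finset.mem_coe, Multiset.mem_toFinset]
  rw [this, Set.ncard_coe_finset]
  exact (Multiset.toFinset_card_le _).trans ((card_roots' _).trans natDegree_map_le)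

theorem Rt_inv {Ω : Type} [Field Ω] {φ : R →+* Ω} (p : R[X]) (σ : RingAut Ω)
    (hσ : ∀ r, σ (φ r) = φ r) : ∀ y ∈ Rt φ p, σ y ∈ Rt φ p := by
  intro y hy
  have hc : (σ : Ω →+* Ω).comp φ = φ := RingHom.ext hσ
  have := hom_eval₂ p φ (σ : Ω →+* Ω) y
  rw [hc, show p.eval₂ φ y = 0 from hy, map_zero] at this
  exact this.symm

/-- the roots upstairs are the images of the roots in `Om R` -/
theorem A43.Rt_image {Ω : Type} [Field Ω] {φ : R →+* Ω} {j : Om R →+* Ω}
    (hj : ∀ r, j (io R r) = φ r) {p : R[X]} (hp : p ≠ 0) : j '' Rt (io R) p = Rt φ p := by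
  have hc : j.comp (io R) = φ := RingHom.ext hj
  have hφ : Function.Injective φ := by
    rw [← hc, RingHom.coe_comp]; exact j.injective.comp (io_inj R)
  rw [A43.Rt_eq hφ hp, A43.Rt_eq (io_inj R) hp, ← hc, ← Polynomial.map_map,
    (IsAlgClosed.splits (p.map (io R))).roots_map j]
  ext y
  simp only [Set.mem_image, Set.mem_ofPred_eq, Multiset.mem_map]

theorem place {Ω : Type} [Field Ω] [IsAlgClosed Ω] {φ : R →+* Ω} (hφ : Function.Injective φ)
    {p : R[X]} (hp : p ≠ 0) : ∃ j : Om R →+* Ω, j '' Rt (io R) p = Rt φ p ∧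
      ∀ σ : RingAut Ω, (∀ r, σ (φ r) = φ r) → ∃ τ : Gl R, ∀ z, j (τ z) = σ (j z) := by
  obtain ⟨j, hj⟩ := A43.lift_hom (io R) φ (io_inj R) hφ A43.io_alg
  refine ⟨j, A43.Rt_image hj hp, fun σ hσ => ?_⟩
  have hr : ∀ z, ∃ w, j w = σ (j z) := by
    intro z
    obtain ⟨q, hq, hz⟩ := A43.io_alg z
    have h1 : j z ∈ Rt φ q := A43.Rt_image hj hq ▸ ⟨z, hz, rfl⟩
    have h2 := Rt_inv q σ hσ _ h1
    rw [← A43.Rt_image hj hq] at h2
    obtain ⟨w, -, hw⟩ := h2
    exact ⟨w, hw⟩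
  choose t ht using hr
  let τ : Om R →+* Om R :=
    { toFun := t
      map_one' := j.injective (by rw [ht, map_one, map_one])
      map_zero' := j.injective (by rw [ht, map_zero, map_zero])
      map_mul' := fun x y => j.injective (by rw [ht, map_mul, map_mul, map_mul, ht, ht])
      map_add' := fun x y => j.injective (by rw [ht, map_add, map_add, map_add, ht, ht]) }
  obtain ⟨τ', hτ⟩ := A43.gl_of_hom τ fun r => j.injective (by
    change j (t _) = _
    rw [ht, hj, hσ])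
  exact ⟨τ', fun z => by rw [hτ]; exact ht z⟩

theorem place_pure {Ω : Type} [Field Ω] [IsAlgClosed Ω] {φ : R →+* Ω}
    (hφ : Function.Injective φ) {p : R[X]} (hp : p ≠ 0) {σ : RingAut Ω}
    (hσ : ∀ r, σ (φ r) = φ r) {c : ℕ} (h : PureCyc σ (Rt φ p) c) :
    (Rt (io R) p).ncard = (Rt φ p).ncard ∧ ∃ τ : Gl R, PureCyc τ (Rt (io R) p) c := by
  obtain ⟨j, hj, hτ⟩ := place hφ hp
  obtain ⟨τ, hτ⟩ := hτ σ hσ
  rw [← hj] at h ⊢
  exact ⟨(Set.ncard_image_of_injective _ j.injective).symm, τ,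
    PureCyc.pull (σ := σ) j.injective hτ h⟩

theorem place_two {Ω : Type} [Field Ω] [IsAlgClosed Ω] {φ : R →+* Ω}
    (hφ : Function.Injective φ) {p : R[X]} (hp : p ≠ 0) {σ : RingAut Ω}
    (hσ : ∀ r, σ (φ r) = φ r) {c d : ℕ} (h : TwoOrb σ (Rt φ p) c d) :
    (Rt (io R) p).ncard = (Rt φ p).ncard ∧ ∃ τ : Gl R, TwoOrb τ (Rt (io R) p) c d := by
  obtain ⟨j, hj, hτ⟩ := place hφ hp
  obtain ⟨τ, hτ⟩ := hτ σ hσ
  rw [← hj] at h ⊢
  exact ⟨(Set.ncard_image_of_injective _ j.injective).symm, τ,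
    TwoOrb.pull (σ := σ) j.injective hτ h⟩

theorem A43.gl_eval (σ : Gl R) (q : R[X]) (y : Om R) :
    σ (q.eval₂ (io R) y) = q.eval₂ (io R) (σ y) := by
  have hc : (σ : Om R →+* Om R).comp (io R) = io R := RingHom.ext (gl_io σ)
  have := hom_eval₂ q (io R) (σ : Om R →+* Om R) y
  rw [hc] at this
  exact this

theorem A43.Rt_gl (p : R[X]) (σ : Gl R) : ∀ y ∈ Rt (io R) p, σ y ∈ Rt (io R) p := by
  intro y hy
  change p.eval₂ (io R) (σ y) = 0
  rw [← A43.gl_eval, show p.eval₂ (io R) y = 0 from hy, map_zero]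

theorem core {p D E : R[X]} (hp : p ≠ 0)
    (htr : ∀ y ∈ Rt (io R) p, ∀ y' ∈ Rt (io R) p, ∃ σ : Gl R, σ y = y')
    (hD : ∀ y ∈ Rt (io R) p, D.eval₂ (io R) y ≠ 0) (hDE : D.natDegree < E.natDegree)
    (hE : E.natDegree < (Rt (io R) p).ncard) (hQ : ∀ e M, ¬ QOut (Gl R) (Rt (io R) p) e M) :
    ∀ y ∈ Rt (io R) p, ∀ n, ∃ σ ∈ derivedSeries (Gl R) n,
      σ (E.eval₂ (io R) y / D.eval₂ (io R) y) ≠ E.eval₂ (io R) y / D.eval₂ (io R) y := by
  intro y hy n
  by_contra hc
  push Not at hc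
  set v := E.eval₂ (io R) y / D.eval₂ (io R) y with hv
  have hσv : ∀ σ : Gl R, σ v = E.eval₂ (io R) (σ y) / D.eval₂ (io R) (σ y) := fun σ => by
    rw [hv, map_div₀, A43.gl_eval, A43.gl_eval]
  have hmv : ∃ g : Gl R, g • v ≠ v := by
    by_contra hall
    push Not at hall
    let F : (Om R)[X] := E.map (io R) - C v * D.map (io R)
    have hE0 : (E.map (io R)).natDegree = E.natDegree := natDegree_map_eq_of_injective (io_inj R) E
    have hlt : (C v * D.map (io R)).natDegree < (E.map (io R)).natDegree := by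
      rw [hE0]
      exact lt_of_le_of_lt ((natDegree_C_mul_le _ _).trans natDegree_map_le) hDE
    have hF : F.natDegree = E.natDegree := by
      rw [← hE0]; exact natDegree_sub_eq_left_of_natDegree_lt hlt
    have hF0 : F ≠ 0 := by
      intro h; rw [h, natDegree_zero] at hF; omega
    have hsub : Rt (io R) p ⊆ Rt (RingHom.id (Om R)) F := by
      intro y' hy'
      obtain ⟨σ, rfl⟩ := htr y hy y' hy'
      have h1 : σ v = v := hall σ
      rw [hσv, div_eq_iff (hD _ hy')] at h1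
      change F.eval₂ (RingHom.id _) (σ y) = 0
      rw [eval₂_id]
      simp only [F, eval_sub, eval_mul, eval_C, eval_map]
      rw [h1, sub_self]
    have h1 := Set.ncard_le_ncard hsub (Rt_finite (fun _ _ h => h) hF0)
    have h2 := Rt_ncard_le (φ := RingHom.id (Om R)) (fun _ _ h => h) hF0
    omega
  obtain ⟨e, M, h⟩ := Q_main (G := Gl R) (Rt (io R) p) (Rt_finite (io_inj R) hp) y v hy
    (fun g => A43.Rt_gl p g) (htr y hy)
    (fun g hg => by
      have : g y = y := hg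
      change g v = v
      rw [hσv, this]) hmv n hc
  exact hQ e M h

end Pool.Agent.Lib.MP_55068a_an.Dy
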