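import Mathlib
import Pool.Agent.Lib.MP_55068a_an.Dy.Alg

/-! Passage from rational to complex constants. -/

namespace Pool.Agent.Lib.MP_55068a_an.Dy

open Polynomial

section Groups

variable {G Ω : Type} [Group G] [MulAction G Ω]

theorem push_pow {G' Ω' : Type} [Group G'] [MulAction G' Ω'] {j : Ω' → Ω} {τ : G'} {σ : G}
    (h : ∀ z, j (τ • z) = σ • j z) (n : ℕ) (z : Ω') : j (τ ^ n • z) = σ ^ n • j z := by
  induction n with
  | zero => simp
  | succ n ih => rw [pow_succ', pow_succ', mul_smul, mul_smul, h, ih]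

theorem QOut.pull {G' Ω' : Type} [Group G'] [MulAction G' Ω'] {j : Ω' → Ω}
    (hj : Function.Injective j) (h : ∀ τ : G', ∃ σ : G, ∀ z, j (τ • z) = σ • j z) {X : Set Ω'}
    {e M : ℕ} (hQ : QOut G (j '' X) e M) : QOut G' X e M := by
  have hn : ∀ C : Set Ω', (j '' C).ncard = C.ncard := fun C => Set.ncard_image_of_injective C hj
  have ht : ∀ {τ : G'} {σ : G}, (∀ z, j (τ • z) = σ • j z) → ∀ C : Set Ω',
      (∀ x ∈ C, ∀ y ∈ C, ∃ n : ℕ, τ ^ n • x = y) →
      ∀ x ∈ j '' C, ∀ y ∈ j '' C, ∃ n : ℕ, σ ^ n • x = y := by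
    rintro τ σ hσ C hC _ ⟨x, hx, rfl⟩ _ ⟨y, hy, rfl⟩
    obtain ⟨n, rfl⟩ := hC x hx y hy
    exact ⟨n, (push_pow hσ n x).symm⟩
  have hp : ∀ (τ : G') (c : ℕ), PureCyc τ X c → ∃ σ : G, PureCyc σ (j '' X) c := by
    rintro τ c ⟨C, hC, rfl, h1, h2⟩
    obtain ⟨σ, hσ⟩ := h τ
    refine ⟨σ, j '' C, Set.image_mono hC, hn C, ?_, ht hσ C h2⟩
    rintro _ ⟨x, hx, rfl⟩ hx'
    rw [← hσ, h1 x hx fun hc => hx' ⟨x, hc, rfl⟩]
  obtain ⟨h1, h2, h3, h4, h5⟩ := hQ
  rw [hn] at h2 h3 h5
  refine ⟨h1, h2, fun τ c hc => ?_, ?_, fun τ h6 hc => ?_⟩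
  · obtain ⟨σ, hσ⟩ := hp τ c hc
    exact h3 σ c hσ
  · rintro τ c d ⟨C, D, rfl, hd, rfl, rfl, hC, hD, tC, tD⟩
    obtain ⟨σ, hσ⟩ := h τ
    refine h4 σ _ _ ⟨j '' C, j '' D, (Set.image_union _ _ _).symm,
      Set.disjoint_image_of_injective hj hd, hn C, hn D, ?_, ?_, ht hσ C tC, ht hσ D tD⟩
    · rintro _ ⟨x, hx, rfl⟩
      exact ⟨_, hC x hx, hσ x⟩
    · rintro _ ⟨x, hx, rfl⟩
      exact ⟨_, hD x hx, hσ x⟩
  · obtain ⟨σ, hσ⟩ := hp τ 5 hc
    exact h5 σ h6 hσ

/-- Lemma Q along the derived series of a transitive normal subgroup. -/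
theorem Q_normal (N : Subgroup G) [N.Normal] (X : Set Ω) (hX : X.Finite) (x v : Ω)
    (hx : x ∈ X) (hinv : ∀ g : G, ∀ y ∈ X, g • y ∈ X) (htr : ∀ y ∈ X, ∃ g ∈ N, g • x = y)
    (hst : ∀ g : G, g • x = x → g • v = v) (hmv : ∃ g : G, g • v ≠ v)
    (n : ℕ) (hfix : ∀ g ∈ derivedSeries N n, (g : G) • v = v) : ∃ e M, QOut G X e M := by
  classical
  obtain ⟨D, hD⟩ : ∃ D : ℕ → Subgroup G, ∀ j, D j = (derivedSeries N j).map N.subtype :=
    ⟨_, fun _ => rfl⟩
  have hDn : ∀ j, (D j).Normal := fun j => by rw [hD]; infer_instance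
  have hDs : ∀ j, D (j + 1) = ⁅D j, D j⁆ := fun j => by
    rw [hD, hD, derivedSeries_succ, Subgroup.map_commutator]
  obtain ⟨j, h1, h2⟩ : ∃ j, MulAction.stabilizer G v ⊔ D j = ⊤ ∧
      MulAction.stabilizer G v ⊔ D (j + 1) ≠ ⊤ := by
    by_contra hn
    have : ∀ j, MulAction.stabilizer G v ⊔ D j = ⊤ := fun j => by
      induction j with
      | zero =>
        rw [eq_top_iff]
        intro g _
        obtain ⟨a, ha, e⟩ := htr _ (hinv g x hx)
        have h1 : a⁻¹ * g ∈ MulAction.stabilizer G v :=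
          hst _ (by rw [mul_smul, ← e, inv_smul_smul])
        have h2 : a ∈ D 0 := by rw [hD]; exact ⟨⟨a, ha⟩, trivial, rfl⟩
        simpa using Subgroup.mul_mem _ (Subgroup.mem_sup_right h2) (Subgroup.mem_sup_left h1)
      | succ j ih => exact by_contra fun h => hn ⟨j, ih, h⟩
    obtain ⟨g, hg⟩ := hmv
    have h3 : MulAction.stabilizer G v ⊔ D n ≤ MulAction.stabilizer G v := by
      refine sup_le le_rfl ?_
      rw [hD]
      rintro _ ⟨a, ha, rfl⟩
      exact hfix a ha
    exact hg (h3 (this n ▸ Subgroup.mem_top g))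
  obtain ⟨H, hH⟩ : ∃ H, H = MulAction.stabilizer G v ⊔ D (j + 1) := ⟨_, rfl⟩
  rw [← hH] at h2
  have s1 : MulAction.stabilizer G v ≤ H := hH ▸ le_sup_left
  have s2 : D (j + 1) ≤ H := hH ▸ le_sup_right
  choose! t _ ht using htr
  have hπ : ∀ g : G, ∀ y ∈ X, ((t (g • y) : G) : G ⧸ H) = g • ((t y : G) : G ⧸ H) := by
    intro g y hy
    rw [MulAction.Quotient.smul_coe, smul_eq_mul, QuotientGroup.eq]
    refine s1 (hst _ ?_)
    rw [mul_smul, mul_smul, ht y hy, inv_smul_eq_iff, ht _ (hinv g y hy)]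
  have hs : ∀ z : G ⧸ H, ∃ y ∈ X, ((t y : G) : G ⧸ H) = z := fun z => by
    obtain ⟨g, rfl⟩ := MulAction.exists_smul_eq G ((t x : G) : G ⧸ H) z
    exact ⟨g • x, hinv g x hx, hπ g x hx⟩
  have : Finite X := hX
  have : Finite (G ⧸ H) := Finite.of_surjective (fun y : X => ((t y : G) : G ⧸ H)) fun z => by
    obtain ⟨y, hy, rfl⟩ := hs z
    exact ⟨⟨y, hy⟩, rfl⟩
  have := hDn j
  have base : ∀ z : G ⧸ H, ∃ a ∈ D j, a • ((1 : G) : G ⧸ H) = z := fun z => by
    obtain ⟨g, rfl⟩ := QuotientGroup.mk_surjective z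
    have hg : g ∈ ((D j ⊔ MulAction.stabilizer G v : Subgroup G) : Set G) := by
      rw [sup_comm, h1]
      trivial
    rw [Subgroup.normal_mul] at hg
    obtain ⟨a, ha, s, hs, rfl⟩ := hg
    refine ⟨a, ha, ?_⟩
    rw [MulAction.Quotient.smul_coe, smul_eq_mul, QuotientGroup.eq]
    simpa using s1 hs
  refine Q_core X hX hinv (fun y => ((t y : G) : G ⧸ H)) hπ hs (D j)
    (fun z w => ?_) (fun a ha b hb z => ?_) ?_
  · obtain ⟨a, ha, rfl⟩ := base z
    obtain ⟨b, hb, rfl⟩ := base w
    exact ⟨b * a⁻¹, Subgroup.mul_mem _ hb (Subgroup.inv_mem _ ha), by rw [mul_smul, inv_smul_smul]⟩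
  · obtain ⟨g, rfl⟩ := QuotientGroup.mk_surjective z
    simp only [MulAction.Quotient.smul_coe, smul_eq_mul, QuotientGroup.eq]
    have h3 : b⁻¹ * a⁻¹ * b⁻¹⁻¹ * a⁻¹⁻¹ ∈ D (j + 1) := by
      rw [hDs]
      exact Subgroup.commutator_mem_commutator (Subgroup.inv_mem _ hb) (Subgroup.inv_mem _ ha)
    have h4 := s2 ((hDn (j + 1)).conj_mem _ h3 g⁻¹)
    convert h4 using 1
    group
  · have h3 : H.index ≠ 1 := fun h => h2 (Subgroup.index_eq_one.1 h)
    have h4 : H.index ≠ 0 := Subgroup.index_ne_zero_of_finite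
    rw [← Subgroup.index_eq_card]
    omega

end Groups

/-- automorphisms extend to an algebraic closure -/
theorem ext_gen {S Ω : Type} [CommRing S] [Field Ω] [IsAlgClosed Ω] (χ : S →+* Ω)
    (hχ : Function.Injective χ) (ha : ∀ z : Ω, ∃ q : S[X], q ≠ 0 ∧ q.eval₂ χ z = 0)
    (e : S ≃+* S) : ∃ σ : RingAut Ω, ∀ s, σ (χ s) = χ (e s) := by
  have : IsDomain S := hχ.isDomain χ
  let : Algebra S Ω := χ.toAlgebra
  have : FaithfulSMul S Ω := (faithfulSMul_iff_algebraMap_injective S Ω).2 hχ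
  have : Algebra.IsAlgebraic S Ω := ⟨fun z => ha z⟩
  have : IsAlgClosure S Ω := ⟨inferInstance, inferInstance⟩
  exact ⟨IsAlgClosure.equivOfEquiv Ω Ω e, fun s => IsAlgClosure.equivOfEquiv_algebraMap Ω Ω e s⟩

theorem indep_ext {R K L ι : Type} [CommRing R] [Field K] [Field L] (f : R →+* K)
    (hf : Function.Injective f) (ha : ∀ z : K, ∃ q : R[X], q ≠ 0 ∧ q.eval₂ f z = 0) (j : K →+* L)
    (x : ι → L) (h : Function.Injective (MvPolynomial.eval₂Hom (j.comp f) x)) :
    Function.Injective (MvPolynomial.eval₂Hom j x) := by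
  have : IsDomain R := hf.isDomain f
  let : Algebra R K := f.toAlgebra
  let : Algebra K L := j.toAlgebra
  let : Algebra R L := (j.comp f).toAlgebra
  have : IsScalarTower R K L := IsScalarTower.of_algebraMap_eq fun _ => rfl
  have : FaithfulSMul R K := (faithfulSMul_iff_algebraMap_injective R K).2 hf
  have : Algebra.IsAlgebraic R K := ⟨fun z => ha z⟩
  have h1 : AlgebraicIndependent R x := h
  exact h1.extendScalars K

abbrev P2C : Type := MvPolynomial (Fin 2) ℂ

/-- complex constants of `Om P2C` -/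
noncomputable def cC : ℂ →+* Om P2C := (io P2C).comp MvPolynomial.C

/-- the embedding of `P2` -/
noncomputable def pC : P2 →+* Om P2C := (io P2C).comp (MvPolynomial.map (algebraMap ℚ ℂ))

theorem pC_inj : Function.Injective pC :=
  (io_inj P2C).comp (MvPolynomial.map_injective _ (algebraMap ℚ ℂ).injective)

theorem pC_X (i : Fin 2) : pC (MvPolynomial.X i) = io P2C (MvPolynomial.X i) := by simp [pC]

/-- automorphisms of `Om P2` lift to automorphisms of `Om P2C` that preserve the constants -/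
theorem exists_lift : ∃ j : Om P2 →+* Om P2C, (∀ r, j (io P2 r) = pC r) ∧
    ∀ τ : Gl P2, ∃ σ : RingAut (Om P2C), (∀ z, j (τ z) = σ (j z)) ∧
      (∀ c, ∃ c', σ (cC c) = cC c') ∧ ∀ c, ∃ c', σ.symm (cC c) = cC c' := by
  obtain ⟨j, hj⟩ := A43.lift_hom (io P2) pC (io_inj P2) pC_inj A43.io_alg
  refine ⟨j, hj, fun τ => ?_⟩
  obtain ⟨s, hs⟩ := exists_isTranscendenceBasis ℚ ℂ
  let e0 : MvPolynomial s ℚ →+* ℂ := (MvPolynomial.aeval ((↑) : s → ℂ)).toRingHom
  have he0 : Function.Injective e0 := hs.1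
  have halg0 : ∀ c : ℂ, ∃ q : (MvPolynomial s ℚ)[X], q ≠ 0 ∧ q.eval₂ e0 c = 0 := by
    intro c
    obtain ⟨q, hq, hc⟩ := hs.isAlgebraic.isAlgebraic c
    refine ⟨q.map hs.1.repr.toRingHom,
      (Polynomial.map_ne_zero_iff hs.1.aevalEquiv.symm.injective).2 hq, ?_⟩
    rw [eval₂_map]
    have : e0.comp hs.1.repr.toRingHom = algebraMap _ ℂ := RingHom.ext fun z => hs.1.aeval_repr z
    rw [this]
    exact hc
  let χ : MvPolynomial s (Om P2) →+* Om P2C := MvPolynomial.eval₂Hom j fun i => cC i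
  have hχ : Function.Injective χ := by
    refine indep_ext (io P2) (io_inj P2) A43.io_alg j _ ?_
    have e : (MvPolynomial.eval₂Hom (j.comp (io P2)) fun i : s => cC i)
        = ((io P2C).comp (MvPolynomial.map e0)).comp
          (MvPolynomial.commAlgEquiv ℚ s (Fin 2)).toRingEquiv.toRingHom := by
      refine MvPolynomial.ringHom_ext' (MvPolynomial.ringHom_ext' (RingHom.ext_rat _ _) ?_) ?_
      · intro i
        simp [hj, pC_X]
      · intro i
        simp [cC, e0]
    rw [e]
    exact ((io_inj P2C).comp (MvPolynomial.map_injective _ he0)).comp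
      (MvPolynomial.commAlgEquiv ℚ s (Fin 2)).injective
  have hc0 : χ.comp (MvPolynomial.map (algebraMap ℚ (Om P2))) = cC.comp e0 := by
    refine MvPolynomial.ringHom_ext' (RingHom.ext_rat _ _) fun i => ?_
    simp [χ, e0]
  have halg : ∀ z : Om P2C, ∃ q : (MvPolynomial s (Om P2))[X], q ≠ 0 ∧ q.eval₂ χ z = 0 := by
    let : Algebra (MvPolynomial s (Om P2)) (Om P2C) := χ.toAlgebra
    have : FaithfulSMul (MvPolynomial s (Om P2)) (Om P2C) :=
      (faithfulSMul_iff_algebraMap_injective _ _).2 hχ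
    let L := Subalgebra.algebraicClosure (MvPolynomial s (Om P2)) (Om P2C)
    have hL : ∀ r : P2C, io P2C r ∈ L := by
      intro r
      induction r using MvPolynomial.induction_on with
      | C c =>
        obtain ⟨q, hq, hc⟩ := halg0 c
        refine ⟨q.map (MvPolynomial.map (algebraMap ℚ (Om P2))), (Polynomial.map_ne_zero_iff
          (MvPolynomial.map_injective _ (algebraMap ℚ (Om P2)).injective)).2 hq, ?_⟩
        rw [aeval_def, eval₂_map, RingHom.algebraMap_toAlgebra, hc0]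
        exact (hom_eval₂ q e0 cC c).symm.trans (by rw [hc, map_zero])
      | add p q hp hq => rw [map_add]; exact L.add_mem hp hq
      | mul_X p i hp =>
        rw [map_mul]
        refine L.mul_mem hp ?_
        have : io P2C (MvPolynomial.X i) = algebraMap (MvPolynomial s (Om P2)) (Om P2C)
            (MvPolynomial.C (io P2 (MvPolynomial.X i))) := by
          simp [RingHom.algebraMap_toAlgebra, χ, hj, pC_X]
        rw [this]
        exact L.algebraMap_mem _
    intro z
    obtain ⟨q, hq, hz⟩ := A43.io_alg z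
    have hinj : Function.Injective ((io P2C).codRestrict L hL) := fun x y h =>
      io_inj P2C (congrArg Subtype.val h)
    have h1 : IsAlgebraic L z := ⟨q.map ((io P2C).codRestrict L hL),
      (Polynomial.map_ne_zero_iff hinj).2 hq, by rw [aeval_def, eval₂_map]; exact hz⟩
    exact h1.restrictScalars (MvPolynomial s (Om P2))
  obtain ⟨σ, hσ⟩ := ext_gen χ hχ halg (MvPolynomial.mapEquiv s τ.toRingEquiv)
  have hfix : ∀ r, σ ((cC.comp e0) r) = (cC.comp e0) r := by
    intro r
    rw [← hc0, RingHom.comp_apply, hσ]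
    congr 1
    rw [MvPolynomial.mapEquiv_apply, MvPolynomial.map_map]
    congr 2
    exact RingHom.ext_rat _ _
  have hpres : ∀ σ : RingAut (Om P2C), (∀ r, σ ((cC.comp e0) r) = (cC.comp e0) r) →
      ∀ c, ∃ c', σ (cC c) = cC c' := by
    intro σ hσ c
    obtain ⟨q, hq, hc⟩ := halg0 c
    have h1 : cC c ∈ Rt (cC.comp e0) q := (hom_eval₂ q e0 cC c).symm.trans (by rw [hc, map_zero])
    have h2 := Rt_inv q σ hσ _ h1
    have hi : Function.Injective (cC.comp e0) := cC.injective.comp he0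
    rw [A43.Rt_eq hi hq, ← Polynomial.map_map,
      (IsAlgClosed.splits (q.map e0)).roots_map cC] at h2
    obtain ⟨c', -, h3⟩ := Multiset.mem_map.1 h2
    exact ⟨c', h3.symm⟩
  refine ⟨σ, fun z => ?_, hpres σ hfix, hpres σ.symm fun r => ?_⟩
  · have := hσ (MvPolynomial.C z)
    simpa [χ] using this.symm
  · rw [RingEquiv.symm_apply_eq, hfix]

section Param

variable {k Ω : Type} [Field k] [Field Ω]

theorem indep_swapF [Algebra k Ω] {x y : Fin 2 → Ω} (hx : AlgebraicIndependent k x)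
    (h : ∀ i, IsAlgebraic (Algebra.adjoin k (Set.range y)) (x i)) : AlgebraicIndependent k y := by
  have hI : (AlgebraicIndependent.matroid k Ω).Indep (Set.range x) :=
    AlgebraicIndependent.matroid_indep_iff.mpr hx.to_subtype_range
  have hs : Set.range x ⊆ (AlgebraicIndependent.matroid k Ω).closure (Set.range y) := by
    rintro _ ⟨i, rfl⟩
    rw [AlgebraicIndependent.matroid_closure_eq]
    exact h i
  have h0 := hI.encard_le_eRk_of_subset hs
  rw [Matroid.eRk_closure_eq] at h0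
  have h1 : ((2 : ℕ) : ℕ∞) ≤ (AlgebraicIndependent.matroid k Ω).eRk (Set.range y) := by
    simpa using hx.injective.encard_range.trans h0
  have h2 := (AlgebraicIndependent.matroid k Ω).eRk_le_encard (Set.range y)
  have hr : Set.range y = {y 0, y 1} := by
    ext z
    simp only [Set.mem_range, Fin.exists_fin_two, Set.mem_insert_iff, Set.mem_singleton_iff,
      eq_comm]
  have hne : y 0 ≠ y 1 := by
    intro he
    have h3 := h1.trans h2
    rw [hr, he, Set.pair_eq_singleton, Set.encard_singleton] at h3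
    exact absurd h3 (by decide)
  have hinj : Function.Injective y := by
    intro i j hij
    fin_cases i <;> fin_cases j
    · rfl
    · exact absurd hij hne
    · exact absurd hij.symm hne
    · rfl
  have h4 : (Set.range y).encard = (2 : ℕ) := by
    rw [hr, Set.encard_pair hne]; rfl
  have hI : (AlgebraicIndependent.matroid k Ω).Indep (Set.range y) := by
    rw [Matroid.indep_iff_eRk_eq_encard_of_finite (Set.finite_range y)]
    exact le_antisymm h2 (h4 ▸ h1)
  exact (algebraicIndependent_subtype_range hinj).mp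
    (AlgebraicIndependent.matroid_indep_iff.mp hI)

theorem gen_relF [Algebra k Ω] {S : Subalgebra k Ω} {u v z : Ω} (hu : u ∈ S) (hv : v ∈ S)
    (h0 : u ≠ 0) {m n : ℕ} (hmn : m ≠ n) (e : u * z ^ m = v * z ^ n) : IsAlgebraic S z := by
  refine ⟨C (⟨u, hu⟩ : S) * X ^ m - C (⟨v, hv⟩ : S) * X ^ n, fun hp => h0 ?_, ?_⟩
  · have := congrArg (fun p => p.coeff m) hp
    simp only [coeff_sub, coeff_C_mul, coeff_X_pow, if_true, if_neg hmn, mul_one, mul_zero,
      sub_zero, coeff_zero] at this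
    exact congrArg Subtype.val this
  · simp only [map_sub, map_mul, map_pow, aeval_C, aeval_X]
    exact sub_eq_zero.mpr e

theorem indep_param [Algebra ℚ k] [Algebra ℚ Ω] {δ : P2} {a b : T δ} (φ : k →+* Ω)
    (F : T δ →+* Ω) (h : Function.Injective (MvPolynomial.eval₂Hom φ ![F a, F b])) :
    Function.Injective (MvPolynomial.eval₂Hom φ fun i => F (xT δ i)) := by
  let : Algebra k Ω := φ.toAlgebra
  have hm : ∀ p : P2, MvPolynomial.aeval (fun i => F (xT δ i)) p
      ∈ Algebra.adjoin k (Set.range fun i => F (xT δ i)) := fun p => by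
    induction p using MvPolynomial.induction_on with
    | C q =>
      have : algebraMap ℚ Ω q = algebraMap k Ω (algebraMap ℚ k q) :=
        (RingHom.map_rat_algebraMap φ q).symm
      rw [MvPolynomial.aeval_C, this]
      exact Subalgebra.algebraMap_mem _ _
    | add p q hp hq => rw [map_add]; exact Subalgebra.add_mem _ hp hq
    | mul_X p i hp =>
      rw [map_mul, MvPolynomial.aeval_X]
      exact Subalgebra.mul_mem _ hp (Algebra.subset_adjoin ⟨i, rfl⟩)
  have ha : ∀ r, IsAlgebraic (Algebra.adjoin k (Set.range fun i => F (xT δ i))) (F r) := by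
    intro r
    obtain ⟨n, A, hA⟩ := IsLocalization.Away.surj δ r
    have h1 := congrArg F hA
    rw [map_mul, map_pow, gen_alg, gen_alg] at h1
    refine gen_relF (pow_mem (hm δ) n) (hm A) (pow_ne_zero n (gen_den F)) one_ne_zero ?_
    rw [pow_one, pow_zero, mul_one, mul_comm, h1]
  have hx : AlgebraicIndependent k ![F a, F b] := h
  refine indep_swapF (y := fun i => F (xT δ i)) hx fun i => ?_
  fin_cases i
  · exact ha a
  · exact ha b

theorem indep_restrict {k' : Type} [Field k'] (ι : k' →+* k) {φ : k →+* Ω} {w : Fin 2 → Ω}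
    (h : Function.Injective (MvPolynomial.eval₂Hom φ w)) :
    Function.Injective (MvPolynomial.eval₂Hom (φ.comp ι) w) := by
  have e : MvPolynomial.eval₂Hom (φ.comp ι) w
      = (MvPolynomial.eval₂Hom φ w).comp (MvPolynomial.map ι) := by
    refine MvPolynomial.ringHom_ext (fun c => ?_) fun i => ?_ <;> simp
  rw [e]
  exact h.comp (MvPolynomial.map_injective _ ι.injective)

theorem indep_rat [Algebra ℚ k] [Algebra ℚ Ω] {φ : k →+* Ω} {w : Fin 2 → Ω}
    (h : Function.Injective (MvPolynomial.eval₂Hom φ w)) : AlgebraicIndependent ℚ w := by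
  have := indep_restrict (algebraMap ℚ k) h
  rwa [RingHom.ext_rat (φ.comp (algebraMap ℚ k)) (algebraMap ℚ Ω)] at this

theorem indep_of_bad [Algebra ℚ Ω] {δ : P2} {a b v : T δ} (h : Bad a b v) (f : T δ →+* Ω)
    (hf : Function.Injective f) : AlgebraicIndependent ℚ ![f a, f b] := by
  obtain ⟨Ω0, _, _, _, φ, f0, _, _, _, h0, -⟩ := h
  have h1 : AlgebraicIndependent ℚ ![a, b] := by
    refine AlgebraicIndependent.of_comp f0.toRatAlgHom ?_
    rw [gen_pair_comp]
    exact indep_rat h0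
  have h2 := h1.map' (f := f.toRatAlgHom) hf
  rw [gen_pair_comp] at h2
  exact h2

/-- the function field of the parameter plane over `k` -/
theorem ext_const (k : Type) [Field k] [Algebra ℚ k] {δ : P2} (hδ : δ ≠ 0) :
    ∃ ι : T δ →+* FractionRing (MvPolynomial (Fin 2) k),
      ∀ {Ω : Type} [Field Ω] [Algebra ℚ Ω] (φ : k →+* Ω) (F : T δ →+* Ω),
        Function.Injective (MvPolynomial.eval₂Hom φ fun i => F (xT δ i)) →
        ∃ Ψ : FractionRing (MvPolynomial (Fin 2) k) →+* Ω, (∀ r, Ψ (ι r) = F r) ∧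
          ∀ c, Ψ (algebraMap (MvPolynomial (Fin 2) k) _ (MvPolynomial.C c)) = φ c := by
  let m : P2 →+* FractionRing (MvPolynomial (Fin 2) k) :=
    (algebraMap (MvPolynomial (Fin 2) k) _).comp (MvPolynomial.map (algebraMap ℚ k))
  have hm : Function.Injective m :=
    (IsFractionRing.injective _ _).comp (MvPolynomial.map_injective _ (algebraMap ℚ k).injective)
  refine ⟨IsLocalization.Away.lift δ (g := m) (Ne.isUnit ((map_ne_zero_iff _ hm).2 hδ)),
    fun φ F h => ⟨IsFractionRing.lift h, fun r => ?_, fun c => ?_⟩⟩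
  · refine RingHom.congr_fun (IsLocalization.ringHom_ext (Submonoid.powers δ)
      (j := (IsFractionRing.lift h).comp (IsLocalization.Away.lift δ (g := m) _)) (k := F) ?_) r
    refine MvPolynomial.ringHom_ext' (RingHom.ext_rat _ _) fun i => ?_
    simp [m, xT]
  · simp

end Param

theorem indep_monoC {κ : Type} [Field κ] (ψ : ℂ →+* κ) {c : κ} (hc : ∀ z, c ≠ ψ z)
    {p q x y : ℕ} (h : p * y ≠ q * x) {α β : Om (PowerSeries κ)}
    (hα : α * io (PowerSeries κ) PowerSeries.X ^ x = io (PowerSeries κ) (PowerSeries.C (c ^ p)))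
    (hβ : β * io (PowerSeries κ) PowerSeries.X ^ y = io (PowerSeries κ) (PowerSeries.C (c ^ q))) :
    Function.Injective
      (MvPolynomial.eval₂Hom (((io (PowerSeries κ)).comp PowerSeries.C).comp ψ) ![α, β]) := by
  let : Algebra ℂ κ := ψ.toAlgebra
  let : Algebra ℂ (Om (PowerSeries κ)) :=
    (((io (PowerSeries κ)).comp PowerSeries.C).comp ψ).toAlgebra
  have hX : Transcendental κ (PowerSeries.X : PowerSeries κ) := by
    intro hal
    have hi : Function.Injective (coeToPowerSeries.algHom κ : κ[X] →ₐ[κ] PowerSeries κ) := by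
      intro p q hpq
      simpa [coeToPowerSeries.algHom_apply] using hpq
    have he : (coeToPowerSeries.algHom κ : κ[X] →ₐ[κ] PowerSeries κ) X = PowerSeries.X := by
      simp [coeToPowerSeries.algHom_apply]
    rw [← he, isAlgebraic_algHom_iff _ hi] at hal
    exact transcendental_X κ hal
  have h1 : AlgebraicIndependent ℂ ![c] :=
    algebraicIndependent_iff_transcendental.mpr (transcendental_iff_injective.mpr (inj_eval ψ hc))
  have h2 : AlgebraicIndependent κ ![(PowerSeries.X : PowerSeries κ)] :=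
    algebraicIndependent_iff_transcendental.mpr hX
  have h3 := ((h1.sumElim_comp h2).comp (![Sum.inr 0, Sum.inl 0] : Fin 2 → Fin 1 ⊕ Fin 1)
    (by decide)).map' (f := { io (PowerSeries κ) with
      commutes' := fun c => congrArg (io (PowerSeries κ)) (PowerSeries.algebraMap_apply (r := c)) })
      (io_inj _)
  simp only [map_pow] at hα hβ
  set g := io (PowerSeries κ) (PowerSeries.C c) with hg
  set t := io (PowerSeries κ) PowerSeries.X with ht
  have h4 : AlgebraicIndependent ℂ ![g, t] := by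
    convert h3 using 1
    funext i
    fin_cases i <;> rfl
  have hg0 : g ≠ 0 := h4.ne_zero 0
  have hα0 : α ≠ 0 := by
    rintro rfl
    exact pow_ne_zero p hg0 (by rw [← hα, zero_mul])
  have ma : α ∈ Algebra.adjoin ℂ (Set.range ![α, β]) := Algebra.subset_adjoin ⟨0, rfl⟩
  have mb : β ∈ Algebra.adjoin ℂ (Set.range ![α, β]) := Algebra.subset_adjoin ⟨1, rfl⟩
  refine indep_swapF (y := ![α, β]) h4 fun i => ?_
  fin_cases i
  · refine gen_relF (z := g) (pow_mem ma y) (pow_mem mb x) (pow_ne_zero y hα0) h.symm ?_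
    rw [pow_mul, pow_mul, ← hα, ← hβ]
    ring
  · refine gen_relF (z := t) (pow_mem ma q) (pow_mem mb p) (pow_ne_zero q hα0)
      (m := x * q) (n := y * p) (fun e => h (by rw [mul_comm p, mul_comm q, e])) ?_
    rw [pow_mul, pow_mul, ← mul_pow, ← mul_pow, hα, hβ]
    ring

/-- real points that are generic over a countable field of complex constants -/
theorem exists_indep_over (k : Subfield ℂ) [Countable k] {O : Set (ℝ × ℝ)}
    (hO : IsOpen O) (hne : O.Nonempty) :
    ∃ a b : ℝ, (a, b) ∈ O ∧ AlgebraicIndependent k ![(a : ℂ), (b : ℂ)] := by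
  have key : ∀ (S : Subalgebra k ℂ) [Countable S] {U : Set ℝ}, IsOpen U → U.Nonempty →
      ∃ x ∈ U, Transcendental S (x : ℂ) := by
    intro S _ U hU hne
    by_contra hcon
    have hsub : U ⊆ Complex.ofReal ⁻¹' {x : ℂ | IsAlgebraic S x} := by
      intro x hx
      by_contra hx'
      exact hcon ⟨x, hx, hx'⟩
    have hc : U.Countable :=
      ((Algebraic.countable S ℂ).preimage Complex.ofReal_injective).mono hsub
    have h1 := continuum_le_cardinal_of_isOpen ℝ hU hne
    have h2 := Cardinal.le_aleph0_iff_set_countable.mpr hc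
    exact absurd (h1.trans h2) (not_le.mpr Cardinal.aleph0_lt_continuum)
  obtain ⟨w, hw⟩ := hne
  obtain ⟨ε, hε, hb⟩ := Metric.isOpen_iff.mp hO w hw
  have : Countable (⊥ : Subalgebra k ℂ) := (Algebra.botEquiv k ℂ).injective.countable
  obtain ⟨a, ha, hta⟩ := key ⊥ (Metric.isOpen_ball (x := w.1) (ε := ε))
    ⟨w.1, Metric.mem_ball_self hε⟩
  have h1 : AlgebraicIndependent k ![(a : ℂ)] := algebraicIndependent_iff_transcendental.mpr
    (hta.restrictScalars (algebraMap k (⊥ : Subalgebra k ℂ)).injective)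
  have hP : Countable (MvPolynomial (Fin 1) k) := by
    rw [← Cardinal.mk_le_aleph0_iff]
    refine MvPolynomial.cardinalMk_le_max.trans ?_
    simp
  have hc : Countable (Algebra.adjoin k (Set.range ![(a : ℂ)])) :=
    h1.aevalEquiv.surjective.countable
  obtain ⟨b, hb', htb⟩ := key (Algebra.adjoin k (Set.range ![(a : ℂ)]))
    (Metric.isOpen_ball (x := w.2) (ε := ε)) ⟨w.2, Metric.mem_ball_self hε⟩
  refine ⟨a, b, hb ?_, ?_⟩
  · rw [← ball_prod_same]
    exact ⟨ha, hb'⟩
  · convert ((h1.option_iff_transcendental (b : ℂ)).mpr htb).comp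
      (![some 0, none] : Fin 2 → Option (Fin 1)) (by decide) using 1
    funext i
    fin_cases i <;> rfl

end Pool.Agent.Lib.MP_55068a_an.Dy
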