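import Mathlib
import Pool.Agent.Lib.MP_55068a_an.Dy.Geo

namespace Pool.Agent.Lib.MP_55068a_an.Dy

open Polynomial

/-- Every root of `p` comes from a point of the parameter plane. -/
def Lifts {δ : P2} (a b v y : T δ) (p D E : P2[X]) : Prop :=
  ∀ Y ∈ Rt (io P2) p, D.eval₂ (io P2) Y ≠ 0 ∧ ∃ f : T δ →+* Om P2,
    f a = io P2 (MvPolynomial.X 0) ∧ f b = io P2 (MvPolynomial.X 1) ∧ f y = Y ∧
    f v * D.eval₂ (io P2) Y = E.eval₂ (io P2) Y

theorem A43.indep {δ : P2} {a b : T δ} {f : T δ →+* Om P2}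
    (ha : f a = io P2 (MvPolynomial.X 0)) (hb : f b = io P2 (MvPolynomial.X 1)) :
    AlgebraicIndependent ℚ ![f a, f b] := by
  rw [ha, hb]; exact indep_io

theorem A43.comp_eq {δ : P2} {a b : T δ} {f : T δ →+* Om P2}
    (ha : f a = io P2 (MvPolynomial.X 0)) (hb : f b = io P2 (MvPolynomial.X 1)) (r : P2) :
    f ((MvPolynomial.aeval ![a, b] : P2 →ₐ[ℚ] T δ).toRingHom r) = io P2 r := by
  have : f.comp (MvPolynomial.aeval ![a, b] : P2 →ₐ[ℚ] T δ).toRingHom = io P2 := by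
    apply MvPolynomial.ringHom_ext'
    · exact RingHom.ext_rat _ _
    · intro i
      fin_cases i
      · simpa using ha
      · simpa using hb
  exact RingHom.congr_fun this r

theorem A43.trans {δ : P2} {a b v y : T δ} {p D E : P2[X]} (H : Lifts a b v y p D E) :
    ∀ Y ∈ Rt (io P2) p, ∀ Y' ∈ Rt (io P2) p, ∃ σ : Gl P2, σ Y = Y' := by
  intro Y hY Y' hY'
  obtain ⟨-, f, ha, hb, hy, -⟩ := H Y hY
  obtain ⟨-, f', ha', hb', hy', -⟩ := H Y' hY'
  obtain ⟨σ, hσ⟩ := conj _ f f' (inj_of_indep f (A43.indep ha hb))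
    (inj_of_indep f' (A43.indep ha' hb')) (A43.comp_eq ha hb) (A43.comp_eq ha' hb')
  exact ⟨σ, by rw [← hy, hσ, hy']⟩

/-- automorphisms fixing the coordinates and preserving the constants -/
def GT : Subgroup (RingAut (Om P2C)) where
  carrier := {σ | (∀ i, σ (io P2C (MvPolynomial.X i)) = io P2C (MvPolynomial.X i)) ∧
    (∀ c, ∃ c', σ (cC c) = cC c') ∧ ∀ c, ∃ c', σ.symm (cC c) = cC c'}
  one_mem' := ⟨fun _ => rfl, fun c => ⟨c, rfl⟩, fun c => ⟨c, rfl⟩⟩
  mul_mem' := by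
    rintro σ τ ⟨h1, h2, h3⟩ ⟨g1, g2, g3⟩
    refine ⟨fun i => ?_, fun c => ?_, fun c => ?_⟩
    · change σ (τ _) = _
      rw [g1, h1]
    · obtain ⟨c', e⟩ := g2 c
      obtain ⟨c'', e'⟩ := h2 c'
      exact ⟨c'', by change σ (τ _) = _; rw [e, e']⟩
    · obtain ⟨c', e⟩ := h3 c
      obtain ⟨c'', e'⟩ := g3 c'
      exact ⟨c'', by change τ.symm (σ.symm _) = _; rw [e, e']⟩
  inv_mem' := by
    rintro σ ⟨h1, h2, h3⟩
    refine ⟨fun i => ?_, h3, h2⟩
    change σ.symm _ = _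
    rw [RingEquiv.symm_apply_eq, h1]

/-- those fixing the constants -/
def HT : Subgroup GT where
  carrier := {σ | ∀ c, σ.1 (cC c) = cC c}
  one_mem' := fun _ => rfl
  mul_mem' := fun {σ τ} h g c => by
    change σ.1 (τ.1 _) = _
    rw [g, h]
  inv_mem' := fun {σ} h c => by
    change σ.1.symm _ = _
    rw [RingEquiv.symm_apply_eq, h]

instance : HT.Normal := ⟨fun σ h g c => by
  obtain ⟨c', e⟩ := g.2.2.2 c
  change g.1 (σ.1 (g.1.symm _)) = _
  rw [e, h, ← e, RingEquiv.apply_symm_apply]⟩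

theorem GT_fix (g : GT) (r : P2) : g.1 (pC r) = pC r := by
  have : (g.1 : Om P2C →+* Om P2C).comp pC = pC := by
    refine MvPolynomial.ringHom_ext' (RingHom.ext_rat _ _) fun i => ?_
    rw [RingHom.comp_apply, pC_X]
    exact g.2.1 i
  exact RingHom.congr_fun this r

theorem GT_eval (g : GT) (q : P2[X]) (y : Om P2C) : g.1 (q.eval₂ pC y) = q.eval₂ pC (g.1 y) := by
  have hc : (g.1 : Om P2C →+* Om P2C).comp pC = pC := RingHom.ext (GT_fix g)
  have := hom_eval₂ q pC (g.1 : Om P2C →+* Om P2C) y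
  rw [hc] at this
  exact this

theorem eval_io {w : Fin 2 → Om P2C} (h0 : w 0 = io P2C (MvPolynomial.X 0))
    (h1 : w 1 = io P2C (MvPolynomial.X 1)) : MvPolynomial.eval₂Hom cC w = io P2C := by
  refine MvPolynomial.ringHom_ext (fun c => ?_) fun i => ?_
  · simp [cC]
  · fin_cases i
    · simpa using h0
    · simpa using h1

/-- two points over the same `(a, b)` are conjugate over the complex constants -/
theorem conjC {δ : P2} {a b : T δ} (F F' : T δ →+* Om P2C)
    (ha : F a = io P2C (MvPolynomial.X 0)) (hb : F b = io P2C (MvPolynomial.X 1))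
    (ha' : F' a = io P2C (MvPolynomial.X 0)) (hb' : F' b = io P2C (MvPolynomial.X 1)) :
    ∃ g ∈ HT, ∀ r, g.1 (F r) = F' r := by
  have hδ : δ ≠ 0 := by
    rintro rfl
    exact gen_den F (map_zero _)
  obtain ⟨ι, hι⟩ := ext_const ℂ hδ
  have key : ∀ F : T δ →+* Om P2C, F a = io P2C (MvPolynomial.X 0) →
      F b = io P2C (MvPolynomial.X 1) → ∃ Ψ : FractionRing P2C →+* Om P2C, (∀ r, Ψ (ι r) = F r) ∧
        ∀ r, Ψ (MvPolynomial.eval₂Hom ((algebraMap P2C (FractionRing P2C)).comp MvPolynomial.C)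
          ![ι a, ι b] r) = io P2C r := by
    intro F ha hb
    obtain ⟨Ψ, h1, h2⟩ := hι cC F (indep_param (a := a) (b := b) cC F (by
      rw [eval_io (w := ![F a, F b]) ha hb]; exact io_inj P2C))
    refine ⟨Ψ, h1, fun r => ?_⟩
    have : Ψ.comp (MvPolynomial.eval₂Hom ((algebraMap P2C (FractionRing P2C)).comp MvPolynomial.C)
        ![ι a, ι b]) = io P2C := by
      refine MvPolynomial.ringHom_ext (fun c => ?_) fun i => ?_
      · simpa [cC] using h2 c
      · fin_cases i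
        · simpa [h1] using ha
        · simpa [h1] using hb
    exact RingHom.congr_fun this r
  obtain ⟨Ψ, h1, h2⟩ := key F ha hb
  obtain ⟨Ψ', h1', h2'⟩ := key F' ha' hb'
  obtain ⟨σ, hσ⟩ := conj _ Ψ Ψ' Ψ.injective Ψ'.injective h2 h2'
  refine ⟨⟨σ.toRingEquiv, fun i => gl_io σ _, fun c => ⟨c, gl_io σ _⟩,
    fun c => ⟨c, gl_io σ.symm _⟩⟩, fun c => gl_io σ _, fun r => ?_⟩
  rw [← h1, ← h1']
  exact hσ _

theorem bad_net {δ : P2} {a b v y : T δ} {p D E : P2[X]} (hp : p ≠ 0) (H : Lifts a b v y p D E)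
    (hDE : D.natDegree < E.natDegree) (hE : E.natDegree < (Rt (io P2) p).ncard)
    (hQ : ∀ e M, ¬ QOut (Gl P2) (Rt (io P2) p) e M) : Bad a b v := by
  obtain ⟨Y, hY⟩ := Set.nonempty_of_ncard_ne_zero (s := Rt (io P2) p) (by omega)
  obtain ⟨hD, f, ha, hb, hy, hv⟩ := H Y hY
  have hv' : f v = E.eval₂ (io P2) Y / D.eval₂ (io P2) Y := by rw [eq_div_iff hD, hv]
  obtain ⟨j, hj, hl⟩ := exists_lift
  have hjc : j.comp (io P2) = pC := RingHom.ext hj
  have hX : ∀ i, j (io P2 (MvPolynomial.X i)) = io P2C (MvPolynomial.X i) := fun i => by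
    rw [hj, pC_X]
  have hl' : ∀ τ : Gl P2, ∃ σ : GT, ∀ z, j (τ • z) = σ • j z := fun τ => by
    obtain ⟨σ, h1, h2, h3⟩ := hl τ
    exact ⟨⟨σ, fun i => by rw [← hX, ← h1, gl_io], h2, h3⟩, h1⟩
  have him : j '' Rt (io P2) p = Rt pC p := A43.Rt_image hj hp
  have ja : j.comp f a = io P2C (MvPolynomial.X 0) := by rw [RingHom.comp_apply, ha, hX]
  have jb : j.comp f b = io P2C (MvPolynomial.X 1) := by rw [RingHom.comp_apply, hb, hX]
  have jv : j.comp f v = E.eval₂ pC (j Y) / D.eval₂ pC (j Y) := by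
    rw [RingHom.comp_apply, hv', map_div₀, hom_eval₂, hom_eval₂, hjc]
  refine ⟨Om P2C, inferInstance, inferInstance, inferInstance, cC, j.comp f, HT, inferInstance,
    GT.subtype.comp HT.subtype, ?_, fun g => ⟨g.2, ?_, ?_⟩, fun n => ?_⟩
  · rw [eval_io (w := ![j.comp f a, j.comp f b]) ja jb]
    exact io_inj P2C
  · rw [ja]; exact g.1.2.1 0
  · rw [jb]; exact g.1.2.1 1
  · by_contra hc
    push Not at hc
    obtain ⟨e, M, h⟩ := Q_normal HT (Rt pC p) (Rt_finite pC_inj hp) (j Y) (j.comp f v)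
      (him ▸ ⟨Y, hY, rfl⟩) (fun g => Rt_inv p g.1 (GT_fix g)) (by
        rw [← him]
        rintro _ ⟨Y', hY', rfl⟩
        obtain ⟨-, f', ha', hb', hy', -⟩ := H Y' hY'
        obtain ⟨g, hg, e⟩ := conjC (j.comp f) (j.comp f') ja jb
          (by rw [RingHom.comp_apply, ha', hX]) (by rw [RingHom.comp_apply, hb', hX])
        exact ⟨g, hg, by rw [← hy, ← hy']; exact e y⟩)
      (fun g hg => by
        have : g.1 (j Y) = j Y := hg
        change g.1 _ = _
        rw [jv, map_div₀, GT_eval, GT_eval, this]) (by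
        obtain ⟨τ, -, hτ⟩ := core hp (A43.trans H) (fun Y hY => (H Y hY).1) hDE hE hQ Y hY 0
        obtain ⟨σ, hσ⟩ := hl' τ
        refine ⟨σ, fun h => hτ (j.injective ?_)⟩
        rw [← hv']
        exact (hσ _).trans h) n hc
    rw [← him] at h
    exact hQ e M (QOut.pull j.injective hl' h)

/-- number of roots of a minimal polynomial in characteristic zero -/
theorem A43.card_min {K Ω : Type} [Field K] [CharZero K] [Field Ω] [Algebra K Ω]
    [IsAlgClosure K Ω] (u : Ω) :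
    (MulAction.orbit (Ω ≃ₐ[K] Ω) u).ncard = (minpoly K u).natDegree := by
  classical
  have : IsAlgClosed Ω := IsAlgClosure.isAlgClosed K
  have hu : IsIntegral K u := Algebra.IsIntegral.isIntegral u
  have h1 : MulAction.orbit (Ω ≃ₐ[K] Ω) u = (minpoly K u).rootSet Ω := by
    ext z
    rw [← Normal.minpoly_eq_iff_mem_orbit, mem_rootSet]
    constructor
    · intro h
      exact ⟨minpoly.ne_zero hu, by rw [← h]; exact minpoly.aeval K z⟩
    · rintro ⟨-, h⟩
      exact (minpoly.eq_of_irreducible_of_monic (minpoly.irreducible hu) h (minpoly.monic hu)).symm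
  rw [h1, ← card_rootSet_eq_natDegree (K := Ω) (minpoly.irreducible hu).separable
    (IsAlgClosed.splits _), ← Nat.card_coe_set_eq, Nat.card_eq_fintype_card]

theorem A43.ncard_eq {p : P2[X]} (hp : p ≠ 0)
    (htr : ∀ Y ∈ Rt (io P2) p, ∀ Y' ∈ Rt (io P2) p, ∃ σ : Gl P2, σ Y = Y')
    (h2 : p.natDegree < 2 * (Rt (io P2) p).ncard) : (Rt (io P2) p).ncard = p.natDegree := by
  obtain ⟨Y, hY⟩ := Set.nonempty_of_ncard_ne_zero (s := Rt (io P2) p) (by omega)
  have horb : Rt (io P2) p = MulAction.orbit (Gl P2) Y := by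
    ext z
    exact ⟨fun hz => htr Y hY z hz, by rintro ⟨σ, rfl⟩; exact A43.Rt_gl p σ Y hY⟩
  have hc : (Rt (io P2) p).ncard = (minpoly (FractionRing P2) Y).natDegree := by
    rw [horb]; exact A43.card_min Y
  set p' := p.map (algebraMap P2 (FractionRing P2)) with hp'
  have hinj := IsFractionRing.injective P2 (FractionRing P2)
  have hp0 : p' ≠ 0 := (Polynomial.map_ne_zero_iff hinj).2 hp
  have hdeg : p'.natDegree = p.natDegree := natDegree_map_eq_of_injective hinj p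
  have hev : ∀ z : Om P2, aeval z p' = p.eval₂ (io P2) z := fun z => by
    rw [hp', aeval_def, eval₂_map]; rfl
  obtain ⟨ν, hν⟩ := minpoly.dvd (FractionRing P2) Y (p := p') (by rw [hev]; exact hY)
  have hν0 : ν ≠ 0 := by rintro rfl; exact hp0 (by rw [hν, mul_zero])
  have hμ0 : minpoly (FractionRing P2) Y ≠ 0 := by
    intro h; exact hp0 (by rw [hν, h, zero_mul])
  have hadd : p'.natDegree = (minpoly (FractionRing P2) Y).natDegree + ν.natDegree := by
    rw [hν, natDegree_mul hμ0 hν0]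
  rcases Nat.eq_zero_or_pos ν.natDegree with h0 | h0
  · omega
  · obtain ⟨z, hz⟩ := IsAlgClosed.exists_aeval_eq_zero (Om P2) ν
      (degree_ne_of_natDegree_ne h0.ne')
    have hzr : z ∈ Rt (io P2) p := by
      change p.eval₂ (io P2) z = 0
      rw [← hev, hν, map_mul, hz, mul_zero]
    obtain ⟨σ, rfl⟩ := htr Y hY z hzr
    have hd := minpoly.dvd (FractionRing P2) (σ Y) hz
    rw [minpoly.algEquiv_eq] at hd
    have := natDegree_le_of_dvd hd hν0
    omega

theorem bad_prime {δ : P2} {a b v y : T δ} {p D E : P2[X]} (H : Lifts a b v y p D E)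
    (hDE : D.natDegree < E.natDegree) (hE : E.natDegree < p.natDegree) {q : ℕ} (hq : q.Prime)
    (h2 : p.natDegree < 2 * q) (h3 : q + 2 ≤ p.natDegree ∨ (p.natDegree = 6 ∧ q = 5))
    {K Ω : Type} [Field K] [Algebra ℚ K] [Field Ω] [Algebra K Ω] [IsAlgClosure K Ω]
    {w : Fin 2 → K} (hw : AlgebraicIndependent ℚ w) {u : Ω}
    (hu : aeval u (p.map (MvPolynomial.aeval w : P2 →ₐ[ℚ] K).toRingHom) = 0)
    (hdeg : q ∣ (minpoly K u).natDegree) : Bad a b v := by
  have hp : p ≠ 0 := by rintro rfl; simp at hE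
  have : IsAlgClosed Ω := IsAlgClosure.isAlgClosed K
  have : CharZero K := algebraRat.charZero K
  let φ : P2 →+* Ω := (algebraMap K Ω).comp (MvPolynomial.aeval w : P2 →ₐ[ℚ] K).toRingHom
  have hφ : Function.Injective φ := (algebraMap K Ω).injective.comp hw
  have hu' : u ∈ Rt φ p := by
    rw [aeval_def, eval₂_map] at hu; exact hu
  have hfix : ∀ (g : Ω ≃ₐ[K] Ω) (r : P2), (g.toRingEquiv : RingAut Ω) (φ r) = φ r :=
    fun g r => g.commutes _
  obtain ⟨g, hg⟩ := order_q (G := Ω ≃ₐ[K] Ω) (Rt φ p) (Rt_finite hφ hp)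
    (fun g => Rt_inv p g.toRingEquiv (hfix g)) hu' hq (by rw [A43.card_min]; exact hdeg)
    ((Rt_ncard_le hφ hp).trans_lt h2)
  have hg' : PureCyc (G := RingAut Ω) g.toRingEquiv (Rt φ p) q :=
    PureCyc.pull (G' := RingAut Ω) (j := id) (σ := g) (τ := g.toRingEquiv)
      Function.injective_id (fun _ => rfl)
      (by rw [Set.image_id]; exact hg)
  obtain ⟨-, τ, hτ⟩ := place_pure hφ hp (hfix g) hg'
  have hle : q ≤ (Rt (io P2) p).ncard := by
    obtain ⟨C, hC, hn, -⟩ := hτ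
    rw [← hn]; exact Set.ncard_le_ncard hC (Rt_finite (io_inj P2) hp)
  have hN := A43.ncard_eq hp (A43.trans H) (by omega)
  exact bad_net hp H hDE (by omega) fun e M h =>
    Q_prime h hτ hq (by omega) (by rw [hN]; exact h3)

theorem Bad.of_sq {δ : P2} {a b v : T δ} (h : Bad a b (v ^ 2)) : Bad a b v := by
  obtain ⟨Ω, i1, i2, i3, φ, f, G, i4, ρ, h1, h2, h3⟩ := h
  refine ⟨Ω, i1, i2, i3, φ, f, G, i4, ρ, h1, h2, fun n => ?_⟩
  obtain ⟨g, hg, hne⟩ := h3 n
  exact ⟨g, hg, fun h => hne (by rw [map_pow, map_pow, h])⟩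

end Pool.Agent.Lib.MP_55068a_an.Dy
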