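import Mathlib
import Pool.Agent.Lib.MP_55068a_an.Dy.Base

namespace Pool.Agent.Lib.MP_55068a_an.Dy

open Polynomial

variable {κ : Type} [Field κ]

theorem fixpt {ι : Type} (Φ : (ι → PowerSeries κ) → (ι → PowerSeries κ))
    (h : ∀ (N : ℕ) (x y : ι → PowerSeries κ),
      (∀ i, (PowerSeries.X : PowerSeries κ) ^ N ∣ x i - y i) →
      ∀ i, (PowerSeries.X : PowerSeries κ) ^ (N + 1) ∣ Φ x i - Φ y i) : ∃ x, Φ x = x := by
  set s : ℕ → ι → PowerSeries κ := fun n => Φ^[n] 0 with hs
  have hsucc : ∀ n, s (n + 1) = Φ (s n) := fun n => Function.iterate_succ_apply' Φ n 0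
  have h1 : ∀ n i, (PowerSeries.X : PowerSeries κ) ^ n ∣ s (n + 1) i - s n i := by
    intro n
    induction n with
    | zero => intro i; simp
    | succ n ih =>
      intro i
      have := h n _ _ ih i
      rwa [← hsucc, ← hsucc] at this
  have h2 : ∀ n d i, (PowerSeries.X : PowerSeries κ) ^ n ∣ s (n + d) i - s n i := by
    intro n d i
    induction d with
    | zero => simp
    | succ d ih =>
      have h3 := (pow_dvd_pow (PowerSeries.X : PowerSeries κ) (Nat.le_add_right n d)).trans
        (h1 (n + d) i)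
      have := dvd_add h3 ih
      rwa [sub_add_sub_cancel] at this
  set L : ι → PowerSeries κ :=
    fun i => PowerSeries.mk fun n => PowerSeries.coeff n (s (n + 1) i) with hL
  have h3 : ∀ N i, (PowerSeries.X : PowerSeries κ) ^ N ∣ L i - s N i := by
    intro N i
    rw [PowerSeries.X_pow_dvd_iff]
    intro m hm
    obtain ⟨d, rfl⟩ : ∃ d, N = m + 1 + d := ⟨N - (m + 1), by omega⟩
    have := (PowerSeries.X_pow_dvd_iff.1 (h2 (m + 1) d i)) m (by omega)
    rw [map_sub] at this ⊢
    rw [hL]
    simp only [PowerSeries.coeff_mk]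
    linear_combination -this
  refine ⟨L, funext fun i => ?_⟩
  ext n
  have h4 := h n _ _ (h3 n) i
  rw [← hsucc] at h4
  have h5 := dvd_sub h4 (h3 (n + 1) i)
  have h6 := (PowerSeries.X_pow_dvd_iff.1 h5) n (by omega)
  rw [sub_sub_sub_cancel_right, map_sub] at h6
  exact sub_eq_zero.1 h6

private theorem cc_eval₂ {σ : Type} (a : σ → κ) (u : σ → PowerSeries κ)
    (hu : ∀ i, PowerSeries.constantCoeff (u i) = a i) (E : MvPolynomial σ κ) :
    PowerSeries.constantCoeff (MvPolynomial.eval₂ PowerSeries.C u E) = MvPolynomial.eval a E := by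
  induction E using MvPolynomial.induction_on with
  | C c => simp
  | add p q hp hq => simp [MvPolynomial.eval₂_add, hp, hq]
  | mul_X p j hp => simp [MvPolynomial.eval₂_mul, hp, hu]

private theorem taylor1 {σ : Type} [Fintype σ] [DecidableEq σ] (a : σ → κ)
    (u v : σ → PowerSeries κ) (hu : ∀ i, PowerSeries.constantCoeff (u i) = a i)
    (hv : ∀ i, PowerSeries.constantCoeff (v i) = a i) (N : ℕ)
    (hN : ∀ i, (PowerSeries.X : PowerSeries κ) ^ N ∣ u i - v i) (E : MvPolynomial σ κ) :
    (PowerSeries.X : PowerSeries κ) ^ (N + 1) ∣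
      MvPolynomial.eval₂ PowerSeries.C u E - MvPolynomial.eval₂ PowerSeries.C v E
        - ∑ i, PowerSeries.C (MvPolynomial.eval a (MvPolynomial.pderiv i E)) * (u i - v i) := by
  induction E using MvPolynomial.induction_on with
  | C c => simp
  | add p q hp hq =>
    have := dvd_add hp hq
    convert this using 1
    simp only [MvPolynomial.eval₂_add, map_add, add_mul, Finset.sum_add_distrib]
    ring
  | mul_X p j hp =>
    have e1 : ∑ i, PowerSeries.C (MvPolynomial.eval a
          (MvPolynomial.pderiv i (p * MvPolynomial.X j))) * (u i - v i)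
        = (∑ i, PowerSeries.C (MvPolynomial.eval a (MvPolynomial.pderiv i p)) * (u i - v i))
            * PowerSeries.C (a j) + PowerSeries.C (MvPolynomial.eval a p) * (u j - v j) := by
      have e2 : ∀ i, PowerSeries.C (MvPolynomial.eval a
            (MvPolynomial.pderiv i (p * MvPolynomial.X j))) * (u i - v i)
          = PowerSeries.C (MvPolynomial.eval a (MvPolynomial.pderiv i p)) * (u i - v i)
              * PowerSeries.C (a j)
            + if i = j then PowerSeries.C (MvPolynomial.eval a p) * (u i - v i) else 0 := by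
        intro i
        rw [MvPolynomial.pderiv_mul]
        by_cases hij : i = j
        · subst hij
          simp only [MvPolynomial.pderiv_X_self, map_add, map_mul, MvPolynomial.eval_X, mul_one,
            if_true]
          ring
        · rw [MvPolynomial.pderiv_X_of_ne (Ne.symm hij), if_neg hij]
          simp only [map_mul, MvPolynomial.eval_X, mul_zero, add_zero]
          ring
      simp only [e2, Finset.sum_add_distrib, Finset.sum_ite_eq', Finset.mem_univ, if_true,
        Finset.sum_mul]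
    have d1 : (PowerSeries.X : PowerSeries κ) ^ N ∣
        ∑ i, PowerSeries.C (MvPolynomial.eval a (MvPolynomial.pderiv i p)) * (u i - v i) :=
      Finset.dvd_sum fun i _ => (hN i).mul_left _
    have d2 : (PowerSeries.X : PowerSeries κ) ∣ u j - PowerSeries.C (a j) := by
      rw [PowerSeries.X_dvd_iff]; simp [hu]
    have d3 : (PowerSeries.X : PowerSeries κ) ∣
        MvPolynomial.eval₂ PowerSeries.C v p - PowerSeries.C (MvPolynomial.eval a p) := by
      rw [PowerSeries.X_dvd_iff]; simp [cc_eval₂ a v hv]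
    have t1 := hp.mul_right (u j)
    have t2 := mul_dvd_mul d1 d2
    have t3 := mul_dvd_mul (hN j) d3
    rw [← pow_succ] at t2 t3
    have := dvd_add (dvd_add t1 t2) t3
    convert this using 1
    rw [e1]
    simp only [MvPolynomial.eval₂_mul, MvPolynomial.eval₂_X]
    ring

/-- projection onto the series with constant term `c` -/
private noncomputable def prj (c : κ) (x : PowerSeries κ) : PowerSeries κ :=
  x - PowerSeries.C (PowerSeries.constantCoeff x) + PowerSeries.C c

private theorem prj_cc (c : κ) (x : PowerSeries κ) : PowerSeries.constantCoeff (prj c x) = c := by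
  simp [prj]

private theorem prj_eq {c : κ} {x : PowerSeries κ} (h : PowerSeries.constantCoeff x = c) :
    prj c x = x := by
  simp [prj, h]

private theorem prj_dvd (c : κ) {x y : PowerSeries κ} {N : ℕ}
    (h : (PowerSeries.X : PowerSeries κ) ^ N ∣ x - y) :
    (PowerSeries.X : PowerSeries κ) ^ N ∣ prj c x - prj c y := by
  rcases Nat.eq_zero_or_pos N with rfl | hN
  · simp
  · have h0 : PowerSeries.constantCoeff (x - y) = 0 :=
      PowerSeries.X_dvd_iff.1 ((dvd_pow_self _ hN.ne').trans h)
    rw [map_sub, sub_eq_zero] at h0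
    have : prj c x - prj c y = x - y := by
      rw [prj, prj, h0]; ring
    rwa [this]

theorem newton2 (E1 E2 : MvPolynomial (Fin 3) κ) (y0 w0 : κ)
    (h1 : MvPolynomial.eval ![0, y0, w0] E1 = 0) (h2 : MvPolynomial.eval ![0, y0, w0] E2 = 0)
    (hJ : MvPolynomial.eval ![0, y0, w0] (MvPolynomial.pderiv 1 E1)
        * MvPolynomial.eval ![0, y0, w0] (MvPolynomial.pderiv 2 E2)
      ≠ MvPolynomial.eval ![0, y0, w0] (MvPolynomial.pderiv 2 E1)
        * MvPolynomial.eval ![0, y0, w0] (MvPolynomial.pderiv 1 E2)) :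
    ∃ Y W : PowerSeries κ, PowerSeries.constantCoeff Y = y0 ∧ PowerSeries.constantCoeff W = w0 ∧
      MvPolynomial.eval₂ PowerSeries.C ![PowerSeries.X, Y, W] E1 = 0 ∧
      MvPolynomial.eval₂ PowerSeries.C ![PowerSeries.X, Y, W] E2 = 0 := by
  obtain ⟨a, ha⟩ : ∃ a, a = MvPolynomial.eval ![0, y0, w0] (MvPolynomial.pderiv 1 E1) := ⟨_, rfl⟩
  obtain ⟨b, hb⟩ : ∃ b, b = MvPolynomial.eval ![0, y0, w0] (MvPolynomial.pderiv 2 E1) := ⟨_, rfl⟩
  obtain ⟨c, hc⟩ : ∃ c, c = MvPolynomial.eval ![0, y0, w0] (MvPolynomial.pderiv 1 E2) := ⟨_, rfl⟩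
  obtain ⟨d, hd⟩ : ∃ d, d = MvPolynomial.eval ![0, y0, w0] (MvPolynomial.pderiv 2 E2) := ⟨_, rfl⟩
  rw [← ha, ← hb, ← hc, ← hd] at hJ
  have hΔ : a * d - b * c ≠ 0 := sub_ne_zero.2 hJ
  obtain ⟨e, he⟩ : ∃ e : κ, e * (a * d - b * c) = 1 := ⟨_, inv_mul_cancel₀ hΔ⟩
  have heC : PowerSeries.C e * (PowerSeries.C a * PowerSeries.C d
      - PowerSeries.C b * PowerSeries.C c) = (1 : PowerSeries κ) := by
    rw [← map_mul, ← map_mul, ← map_sub, ← map_mul, he, map_one]
  let U : (Fin 2 → PowerSeries κ) → Fin 3 → PowerSeries κ :=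
    fun x => ![PowerSeries.X, prj y0 (x 0), prj w0 (x 1)]
  have hU : ∀ x i, PowerSeries.constantCoeff (U x i) = (![0, y0, w0] : Fin 3 → κ) i := by
    intro x i
    fin_cases i <;> simp [U, prj_cc]
  let Φ : (Fin 2 → PowerSeries κ) → Fin 2 → PowerSeries κ := fun x =>
    ![prj y0 (x 0) - PowerSeries.C e *
        (PowerSeries.C d * MvPolynomial.eval₂ PowerSeries.C (U x) E1
          - PowerSeries.C b * MvPolynomial.eval₂ PowerSeries.C (U x) E2),
      prj w0 (x 1) - PowerSeries.C e *
        (PowerSeries.C a * MvPolynomial.eval₂ PowerSeries.C (U x) E2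
          - PowerSeries.C c * MvPolynomial.eval₂ PowerSeries.C (U x) E1)]
  obtain ⟨x, hx⟩ := fixpt Φ (by
    intro N x y hxy
    have hN : ∀ i, (PowerSeries.X : PowerSeries κ) ^ N ∣ U x i - U y i := by
      intro i
      fin_cases i
      · simp [U]
      · exact prj_dvd y0 (hxy 0)
      · exact prj_dvd w0 (hxy 1)
    have t1 := taylor1 _ (U x) (U y) (hU x) (hU y) N hN E1
    have t2 := taylor1 _ (U x) (U y) (hU x) (hU y) N hN E2
    rw [Fin.sum_univ_three, ← ha, ← hb] at t1
    rw [Fin.sum_univ_three, ← hc, ← hd] at t2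
    have u0 : U x 0 - U y 0 = 0 := sub_self _
    have u1 : U x 1 - U y 1 = prj y0 (x 0) - prj y0 (y 0) := rfl
    have u2 : U x 2 - U y 2 = prj w0 (x 1) - prj w0 (y 1) := rfl
    rw [u0, u1, u2] at t1 t2
    intro i
    fin_cases i
    · have := dvd_sub (t2.mul_left (PowerSeries.C e * PowerSeries.C b))
        (t1.mul_left (PowerSeries.C e * PowerSeries.C d))
      convert this using 1
      simp only [Φ, Fin.zero_eta, Matrix.cons_val_zero]
      linear_combination (-(prj y0 (x 0) - prj y0 (y 0))) * heC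
    · have := dvd_sub (t1.mul_left (PowerSeries.C e * PowerSeries.C c))
        (t2.mul_left (PowerSeries.C e * PowerSeries.C a))
      convert this using 1
      simp only [Φ, Fin.mk_one, Matrix.cons_val_one, Matrix.cons_val_zero]
      linear_combination (-(prj w0 (x 1) - prj w0 (y 1))) * heC)
  have x0 : prj y0 (x 0) - PowerSeries.C e *
        (PowerSeries.C d * MvPolynomial.eval₂ PowerSeries.C (U x) E1
          - PowerSeries.C b * MvPolynomial.eval₂ PowerSeries.C (U x) E2) = x 0 := congrFun hx 0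
  have x1 : prj w0 (x 1) - PowerSeries.C e *
        (PowerSeries.C a * MvPolynomial.eval₂ PowerSeries.C (U x) E2
          - PowerSeries.C c * MvPolynomial.eval₂ PowerSeries.C (U x) E1) = x 1 := congrFun hx 1
  have c1 := (cc_eval₂ _ (U x) (hU x) E1).trans h1
  have c2 := (cc_eval₂ _ (U x) (hU x) E2).trans h2
  have y1 : PowerSeries.constantCoeff (x 0) = y0 := by
    rw [← x0]; simp [prj_cc, c1, c2]
  have y2 : PowerSeries.constantCoeff (x 1) = w0 := by
    rw [← x1]; simp [prj_cc, c1, c2]
  have hUx : U x = ![PowerSeries.X, x 0, x 1] := by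
    simp only [U, prj_eq y1, prj_eq y2]
  rw [prj_eq y1, hUx] at x0
  rw [prj_eq y2, hUx] at x1
  refine ⟨x 0, x 1, y1, y2, ?_, ?_⟩
  · linear_combination (-PowerSeries.C a) * x0 + (-PowerSeries.C b) * x1
      - MvPolynomial.eval₂ PowerSeries.C ![PowerSeries.X, x 0, x 1] E1 * heC
  · linear_combination (-PowerSeries.C c) * x0 + (-PowerSeries.C d) * x1
      - MvPolynomial.eval₂ PowerSeries.C ![PowerSeries.X, x 0, x 1] E2 * heC

private theorem cc_eval (G : (PowerSeries κ)[X]) (Z : PowerSeries κ) :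
    PowerSeries.constantCoeff (G.eval Z)
      = (G.map PowerSeries.constantCoeff).eval (PowerSeries.constantCoeff Z) := by
  rw [Polynomial.eval_map, Polynomial.eval₂_at_apply]

private theorem sub_factor (G : (PowerSeries κ)[X]) {z : κ} {Z Z' : PowerSeries κ}
    (hZ : PowerSeries.constantCoeff Z = z) (hZ' : PowerSeries.constantCoeff Z' = z) :
    ∃ V : PowerSeries κ, G.eval Z - G.eval Z' = (Z - Z') * V ∧ PowerSeries.constantCoeff V
      = (derivative (G.map PowerSeries.constantCoeff)).eval z := by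
  obtain ⟨k, hk⟩ := G.binomExpansion Z' (Z - Z')
  refine ⟨G.derivative.eval Z' + k * (Z - Z'), ?_, ?_⟩
  · rw [add_sub_cancel] at hk
    rw [hk]; ring
  · rw [map_add, map_mul, map_sub, hZ, hZ', sub_self, mul_zero, add_zero, cc_eval, hZ',
      derivative_map]

theorem hensel1 (G : (PowerSeries κ)[X]) (z : κ)
    (h0 : (G.map PowerSeries.constantCoeff).eval z = 0)
    (h1 : (derivative (G.map PowerSeries.constantCoeff)).eval z ≠ 0) :
    ∃! Z : PowerSeries κ, PowerSeries.constantCoeff Z = z ∧ G.eval Z = 0 := by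
  obtain ⟨e, he⟩ : ∃ e : κ, e * (derivative (G.map PowerSeries.constantCoeff)).eval z = 1 :=
    ⟨_, inv_mul_cancel₀ h1⟩
  have he0 : e ≠ 0 := left_ne_zero_of_mul_eq_one he
  obtain ⟨x, hx⟩ := fixpt (ι := Unit)
    (fun x _ => prj z (x ()) - PowerSeries.C e * G.eval (prj z (x ()))) (by
    intro N x y hxy _
    obtain ⟨V, hV, hV'⟩ := sub_factor G (prj_cc z (x ())) (prj_cc z (y ()))
    have d1 := prj_dvd z (hxy ())
    have d2 : (PowerSeries.X : PowerSeries κ) ∣ 1 - PowerSeries.C e * V := by
      rw [PowerSeries.X_dvd_iff, map_sub, map_mul, hV', PowerSeries.constantCoeff_C, he, map_one,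
        sub_self]
    have := mul_dvd_mul d1 d2
    rw [← pow_succ] at this
    convert this using 1
    linear_combination (-PowerSeries.C e) * hV)
  have x0 : prj z (x ()) - PowerSeries.C e * G.eval (prj z (x ())) = x () := congrFun hx ()
  have y1 : PowerSeries.constantCoeff (x ()) = z := by
    rw [← x0, map_sub, map_mul, cc_eval, prj_cc, h0, mul_zero, sub_zero]
  rw [prj_eq y1, sub_eq_self, mul_eq_zero] at x0
  have y2 : G.eval (x ()) = 0 := by
    refine x0.resolve_left fun h => he0 ?_
    simpa using congrArg PowerSeries.constantCoeff h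
  refine ⟨x (), ⟨y1, y2⟩, ?_⟩
  rintro Z ⟨hZ, hZ0⟩
  obtain ⟨V, hV, hV'⟩ := sub_factor G hZ y1
  rw [hZ0, y2, sub_self] at hV
  rcases mul_eq_zero.1 hV.symm with h | h
  · exact sub_eq_zero.1 h
  · rw [h, map_zero] at hV'
    exact absurd hV'.symm h1

end Pool.Agent.Lib.MP_55068a_an.Dy
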