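import Mathlib
import Pool.Agent.Lib.MP_55068a_an.Dy.Alg
import Pool.Agent.Lib.MP_55068a_an.Dy.Newton

namespace Pool.Agent.Lib.MP_55068a_an.Dy

open Polynomial

abbrev PS : Type := PowerSeries ℂ

abbrev Ot : Type := Om PS

/-- the uniformiser -/
noncomputable def tt : Ot := io PS PowerSeries.X

/-- the constants -/
noncomputable def cT : ℂ →+* Ot := (io PS).comp PowerSeries.C

/-- `σ` is a lift of `t ↦ ζ t` -/
def Resc (σ : RingAut Ot) (ζ : ℂ) : Prop := ∀ Z : PS, σ (io PS Z) = io PS (PowerSeries.rescale ζ Z)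

private theorem cT_eq (c : ℂ) : cT c = io PS (PowerSeries.C c) := rfl

private theorem tt_eq : tt = io PS PowerSeries.X := rfl

theorem tt_ne : tt ≠ 0 := by
  intro h
  rw [tt_eq, ← map_zero (io PS)] at h
  exact PowerSeries.X_ne_zero (io_inj PS h)

theorem exists_resc {ζ : ℂ} (hζ : ζ ≠ 0) : ∃ σ : RingAut Ot, Resc σ ζ := by
  let e : PS ≃+* PS := RingEquiv.ofRingHom (PowerSeries.rescale ζ) (PowerSeries.rescale ζ⁻¹)
    (by rw [← PowerSeries.rescale_mul, inv_mul_cancel₀ hζ, PowerSeries.rescale_one])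
    (by rw [← PowerSeries.rescale_mul, mul_inv_cancel₀ hζ, PowerSeries.rescale_one])
  obtain ⟨σ, hσ⟩ := ext_aut e
  exact ⟨σ, fun Z => hσ Z⟩

private theorem rescale_C (ζ c : ℂ) :
    PowerSeries.rescale ζ (PowerSeries.C c) = PowerSeries.C c := by
  ext n
  rw [PowerSeries.coeff_rescale, PowerSeries.coeff_C]
  split_ifs with h
  · rw [h, pow_zero, one_mul]
  · rw [mul_zero]

private theorem cc_rescale (ζ : ℂ) (Z : PS) :
    PowerSeries.constantCoeff (PowerSeries.rescale ζ Z) = PowerSeries.constantCoeff Z := by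
  rw [← PowerSeries.coeff_zero_eq_constantCoeff_apply, PowerSeries.coeff_rescale, pow_zero,
    one_mul, PowerSeries.coeff_zero_eq_constantCoeff_apply]

theorem Resc.const {σ : RingAut Ot} {ζ : ℂ} (h : Resc σ ζ) (c : ℂ) : σ (cT c) = cT c := by
  rw [cT_eq, h, rescale_C]

theorem Resc.tt {σ : RingAut Ot} {ζ : ℂ} (h : Resc σ ζ) : σ tt = cT ζ * tt := by
  rw [tt_eq, h, PowerSeries.rescale_X, map_mul, cT_eq]

/-- homogenisation `t^(w D) p(Z / t^w)` -/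
noncomputable def hm (p : ℂ[X]) (D w : ℕ) : PS[X] :=
  ∑ j ∈ Finset.range (D + 1),
    C (PowerSeries.C (p.coeff j) * PowerSeries.X ^ (w * (D - j))) * X ^ j

theorem hm_eval {p : ℂ[X]} {D : ℕ} (hD : p.natDegree ≤ D) (w : ℕ) (Z : PS) :
    io PS ((hm p D w).eval Z) = tt ^ (w * D) * p.eval₂ cT ((tt ^ w)⁻¹ * io PS Z) := by
  rw [hm, eval_finsetSum, map_sum, eval₂_eq_sum_range' cT (Nat.lt_succ_of_le hD),
    Finset.mul_sum]
  refine Finset.sum_congr rfl fun j hj => ?_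
  have hj' : j ≤ D := Nat.lt_succ_iff.1 (Finset.mem_range.1 hj)
  obtain ⟨d, rfl⟩ := Nat.exists_eq_add_of_le hj'
  rw [eval_mul, eval_C, eval_pow, eval_X, map_mul, map_mul, map_pow, map_pow, ← cT_eq, ← tt_eq,
    Nat.add_sub_cancel_left]
  have h1 : (tt ^ w) ^ j * ((tt ^ w)⁻¹) ^ j = 1 := by
    rw [← mul_pow, mul_inv_cancel₀ (pow_ne_zero w tt_ne), one_pow]
  rw [mul_add, pow_add, pow_mul tt w j, mul_pow]
  linear_combination (-(cT (p.coeff j) * tt ^ (w * d) * io PS Z ^ j)) * h1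

theorem hm_res (p : ℂ[X]) (D : ℕ) {w : ℕ} (hw : 0 < w) :
    (hm p D w).map PowerSeries.constantCoeff = C (p.coeff D) * X ^ D := by
  rw [hm, Polynomial.map_sum, Finset.sum_range_succ, Finset.sum_eq_zero, zero_add]
  · simp
  · intro j hj
    have hj' : w * (D - j) ≠ 0 :=
      Nat.mul_ne_zero hw.ne' (Nat.sub_ne_zero_of_lt (Finset.mem_range.1 hj))
    rw [Polynomial.map_mul, map_C, map_mul, map_pow, PowerSeries.constantCoeff_X, zero_pow hj',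
      mul_zero, map_zero, zero_mul]

theorem val_ne {w w' : ℕ} (h : w < w') (Z : PS) {Z' : PS}
    (hZ : PowerSeries.constantCoeff Z' ≠ 0) : (tt ^ w)⁻¹ * io PS Z ≠ (tt ^ w')⁻¹ * io PS Z' := by
  intro he
  obtain ⟨d, rfl⟩ := Nat.exists_eq_add_of_lt h
  have h1 : tt ^ w * (tt ^ w)⁻¹ = 1 := mul_inv_cancel₀ (pow_ne_zero w tt_ne)
  have h2 : tt ^ (w + d + 1) * (tt ^ (w + d + 1))⁻¹ = 1 := mul_inv_cancel₀ (pow_ne_zero _ tt_ne)
  have h3 : io PS (PowerSeries.X ^ (d + 1) * Z) = io PS Z' := by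
    rw [map_mul, map_pow, ← tt_eq]
    have h4 : tt ^ (w + d + 1) = tt ^ w * tt ^ (d + 1) := by rw [← pow_add, add_assoc]
    calc tt ^ (d + 1) * io PS Z = tt ^ (d + 1) * (tt ^ w * (tt ^ w)⁻¹) * io PS Z := by
          rw [h1, mul_one]
      _ = tt ^ (w + d + 1) * ((tt ^ w)⁻¹ * io PS Z) := by rw [h4]; ring
      _ = io PS Z' := by rw [he, ← mul_assoc, h2, one_mul]
  apply hZ
  rw [← io_inj PS h3, map_mul, map_pow, PowerSeries.constantCoeff_X, zero_pow (Nat.succ_ne_zero d),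
    zero_mul]

theorem inv_not_const {w : ℕ} (hw : 0 < w) (c : ℂ) : (tt ^ w)⁻¹ ≠ cT c := by
  have := val_ne hw (PowerSeries.C c) (Z' := 1) (by simp)
  rw [pow_zero, inv_one, one_mul, map_one, mul_one, ← cT_eq] at this
  exact this.symm

theorem seg {σ : RingAut Ot} {ζ : ℂ} (hσ : Resc σ ζ) {Xs : Set Ot} (hX : ∀ x ∈ Xs, σ x ∈ Xs)
    {c0 c : Ot} {η : ℂ} (h0 : σ c0 = c0) (hc0 : c ≠ 0) (hc : σ c = cT η * c) {G : PS[X]}
    (hG : ∀ Z : PS, c0 + c * io PS Z ∈ Xs ↔ G.eval Z = 0) {S : Set ℂ}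
    (hS : ∀ z ∈ S, (G.map PowerSeries.constantCoeff).eval z = 0 ∧
      (derivative (G.map PowerSeries.constantCoeff)).eval z ≠ 0) (hη : ∀ z ∈ S, η * z ∈ S) :
    ∃ r : ℂ → Ot, Set.InjOn r S ∧ ∀ z ∈ S, r z ∈ Xs ∧ σ (r z) = r (η * z) ∧
      ∃ Z : PS, PowerSeries.constantCoeff Z = z ∧ r z = c0 + c * io PS Z := by
  have hex : ∀ z : ℂ, ∃ Z : PS, z ∈ S → (PowerSeries.constantCoeff Z = z ∧ G.eval Z = 0) ∧
      ∀ Z' : PS, PowerSeries.constantCoeff Z' = z ∧ G.eval Z' = 0 → Z' = Z := by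
    intro z
    by_cases hz : z ∈ S
    · obtain ⟨Z, hZ, hu⟩ := hensel1 G z (hS z hz).1 (hS z hz).2
      exact ⟨Z, fun _ => ⟨hZ, hu⟩⟩
    · exact ⟨0, fun h => absurd h hz⟩
  choose Zf hZf using hex
  refine ⟨fun z => c0 + c * io PS (Zf z), ?_, fun z hz => ?_⟩
  · intro z hz z' hz' he
    have h1 : Zf z = Zf z' := io_inj PS (mul_left_cancel₀ hc0 (add_left_cancel he))
    rw [← (hZf z hz).1.1, h1, (hZf z' hz').1.1]
  · have hmem : c0 + c * io PS (Zf z) ∈ Xs := (hG _).2 (hZf z hz).1.2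
    refine ⟨hmem, ?_, Zf z, (hZf z hz).1.1, rfl⟩
    have h1 : σ (c0 + c * io PS (Zf z))
        = c0 + c * io PS (PowerSeries.C η * PowerSeries.rescale ζ (Zf z)) := by
      rw [map_add, map_mul, h0, hc, hσ, map_mul, ← cT_eq]; ring
    have h2 := hX _ hmem
    rw [h1] at h2
    have h3 := (hZf _ (hη z hz)).2 _ ⟨by
      rw [map_mul, PowerSeries.constantCoeff_C, cc_rescale, (hZf z hz).1.1], (hG _).1 h2⟩
    show σ (c0 + c * io PS (Zf z)) = c0 + c * io PS (Zf (η * z))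
    rw [h1, h3]

private theorem ncard_roots {a : ℂ} (ha : a ≠ 0) {h : ℕ} (hh : 0 < h) :
    {z : ℂ | z ^ h = a}.ncard = h := by
  classical
  have hprim := Complex.isPrimitiveRoot_exp h hh.ne'
  have h1 : {z : ℂ | z ^ h = a} = ((nthRoots h a).toFinset : Set ℂ) := by
    ext z
    simp [mem_nthRoots hh]
  rw [h1, Set.ncard_coe_finset, Multiset.toFinset_card_of_nodup (hprim.nthRoots_nodup ha),
    hprim.card_nthRoots, if_pos (IsAlgClosed.exists_pow_nat_eq a hh)]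

theorem seg_binom {σ : RingAut Ot} {ζ : ℂ} (hσ : Resc σ ζ) {Xs : Set Ot}
    (hX : ∀ x ∈ Xs, σ x ∈ Xs) {c0 c : Ot} {η : ℂ} (h0 : σ c0 = c0) (hc0 : c ≠ 0)
    (hc : σ c = cT η * c) {G : PS[X]} (hG : ∀ Z : PS, c0 + c * io PS Z ∈ Xs ↔ G.eval Z = 0)
    {c1 c2 : ℂ} {i h : ℕ} (h1 : c1 ≠ 0) (h2 : c2 ≠ 0) (hh : 0 < h)
    (hres : G.map PowerSeries.constantCoeff = C c1 * X ^ (i + h) - C c2 * X ^ i)
    (hη : η ^ h = 1) :
    ∃ D ⊆ Xs, D.ncard = h ∧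
      (∀ x ∈ D, ∃ Z : PS, PowerSeries.constantCoeff Z ≠ 0 ∧ x = c0 + c * io PS Z) ∧
      (∀ x ∈ D, σ x ∈ D) ∧ (η = 1 → ∀ x ∈ D, σ x = x) ∧
      (IsPrimitiveRoot η h → ∀ x ∈ D, ∀ y ∈ D, ∃ n : ℕ, σ ^ n • x = y) := by
  have ha : c2 / c1 ≠ 0 := div_ne_zero h2 h1
  set S : Set ℂ := {z : ℂ | z ^ h = c2 / c1} with hSdef
  have hne : ∀ z ∈ S, z ≠ 0 := by
    intro z hz hz0
    have hz' : z ^ h = c2 / c1 := hz
    rw [hz0, zero_pow hh.ne'] at hz'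
    exact ha hz'.symm
  have hηS : ∀ z ∈ S, η * z ∈ S := by
    intro z hz
    have hz' : z ^ h = c2 / c1 := hz
    show (η * z) ^ h = c2 / c1
    rw [mul_pow, hη, one_mul, hz']
  have hfac : (C c1 * X ^ (i + h) - C c2 * X ^ i : ℂ[X]) = X ^ i * (C c1 * X ^ h - C c2) := by
    ring
  obtain ⟨r, hinj, hr⟩ := seg hσ hX h0 hc0 hc hG (S := S) (by
    intro z hz
    have hz' : z ^ h = c2 / c1 := hz
    have hz2 : c1 * z ^ h - c2 = 0 := by rw [hz']; field_simp; ring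
    rw [hres, hfac]
    constructor
    · simp [hz2]
    · rw [derivative_mul, derivative_sub, derivative_C, derivative_C_mul_X_pow, sub_zero]
      simp only [eval_add, eval_mul, eval_sub, eval_C, eval_pow, eval_X, hz2, mul_zero, zero_add]
      exact mul_ne_zero (pow_ne_zero _ (hne z hz))
        (mul_ne_zero (mul_ne_zero h1 (Nat.cast_ne_zero.2 hh.ne')) (pow_ne_zero _ (hne z hz))))
    hηS
  refine ⟨r '' S, ?_, ?_, ?_, ?_, ?_, ?_⟩
  · rintro _ ⟨z, hz, rfl⟩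
    exact (hr z hz).1
  · rw [hinj.ncard_image, hSdef, ncard_roots ha hh]
  · rintro _ ⟨z, hz, rfl⟩
    obtain ⟨Z, hZ, he⟩ := (hr z hz).2.2
    exact ⟨Z, by rw [hZ]; exact hne z hz, he⟩
  · rintro _ ⟨z, hz, rfl⟩
    exact ⟨η * z, hηS z hz, (hr z hz).2.1.symm⟩
  · rintro rfl _ ⟨z, hz, rfl⟩
    rw [(hr z hz).2.1, one_mul]
  · rintro hp _ ⟨z, hz, rfl⟩ _ ⟨z', hz', rfl⟩
    have hit : ∀ n : ℕ, η ^ n * z ∈ S ∧ σ ^ n • r z = r (η ^ n * z) := by
      intro n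
      induction n with
      | zero => simpa using hz
      | succ n ih =>
        have e1 : η ^ (n + 1) * z = η * (η ^ n * z) := by ring
        rw [e1, pow_succ', mul_smul, ih.2, RingAut.smul_def]
        exact ⟨hηS _ ih.1, (hr _ ih.1).2.1⟩
    have hq : (z' / z) ^ h = 1 := by
      have a1 : z ^ h = c2 / c1 := hz
      have a2 : z' ^ h = c2 / c1 := hz'
      rw [div_pow, a1, a2, div_self ha]
    have : NeZero h := ⟨hh.ne'⟩
    obtain ⟨n, -, hn⟩ := hp.eq_pow_of_pow_eq_one hq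
    refine ⟨n, ?_⟩
    rw [(hit n).2, hn, div_mul_cancel₀ _ (hne z hz)]

theorem seg_sep {σ : RingAut Ot} {ζ : ℂ} (hσ : Resc σ ζ) {Xs : Set Ot}
    (hX : ∀ x ∈ Xs, σ x ∈ Xs) {G : PS[X]} (hG : ∀ Z : PS, io PS Z ∈ Xs ↔ G.eval Z = 0)
    {S : Set ℂ} (hS : ∀ z ∈ S, (G.map PowerSeries.constantCoeff).eval z = 0 ∧
      (derivative (G.map PowerSeries.constantCoeff)).eval z ≠ 0) :
    ∃ D ⊆ Xs, D.ncard = S.ncard ∧ (∀ x ∈ D, σ x = x) ∧
      ∀ x ∈ D, ∃ Z : PS, PowerSeries.constantCoeff Z ∈ S ∧ x = io PS Z := by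
  obtain ⟨r, hinj, hr⟩ := seg hσ hX (c0 := 0) (c := 1) (η := 1) (map_zero σ) one_ne_zero
    (by rw [map_one, map_one, one_mul]) (G := G)
    (fun Z => by rw [zero_add, one_mul]; exact hG Z) hS
    (fun z hz => by rwa [one_mul])
  refine ⟨r '' S, ?_, hinj.ncard_image, ?_, ?_⟩
  · rintro _ ⟨z, hz, rfl⟩
    exact (hr z hz).1
  · rintro _ ⟨z, hz, rfl⟩
    rw [(hr z hz).2.1, one_mul]
  · rintro _ ⟨z, hz, rfl⟩
    obtain ⟨Z, hZ, he⟩ := (hr z hz).2.2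
    exact ⟨Z, by rw [hZ]; exact hz, by rw [he, zero_add, one_mul]⟩

end Pool.Agent.Lib.MP_55068a_an.Dy
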