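import Mathlib
import Pool.Agent.Lib.MP_55068a_an.Dy.Seg

namespace Pool.Agent.Lib.MP_55068a_an.Dy

open Polynomial

theorem oneP_mem_gen {Ω : Type} [Field Ω] (φ : ℂ[X] →+* Ω) (N : ℂ[X]) (τ : ℂ) (k : ℕ) (y : Ω) :
    y ∈ Rt φ (oneP N τ k) ↔ N.eval₂ (φ.comp C) y = φ (C τ) * φ X * y ^ k := by
  unfold Rt oneP
  rw [Set.mem_ofPred_eq, eval₂_sub, eval₂_map, eval₂_mul, eval₂_C, eval₂_X_pow, map_mul,
    sub_eq_zero]

theorem oneP_mem_ev {Ω : Type} [Field Ω] (f : ℂ →+* Ω) (a : Ω) (N : ℂ[X]) (τ : ℂ) (k : ℕ)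
    (y : Ω) : y ∈ Rt (eval₂RingHom f a) (oneP N τ k) ↔ N.eval₂ f y = f τ * a * y ^ k := by
  have h : (eval₂RingHom f a).comp C = f := by
    ext c
    simp
  rw [oneP_mem_gen, h]
  simp

theorem oneP_mem (N : ℂ[X]) (τ : ℂ) (k : ℕ) (y : Om ℂ[X]) :
    y ∈ Rt (io ℂ[X]) (oneP N τ k) ↔ N.eval₂ cO y = cO τ * AO * y ^ k :=
  oneP_mem_gen (io ℂ[X]) N τ k y

theorem oneP_ne (N : ℂ[X]) {τ : ℂ} (hτ : τ ≠ 0) (k : ℕ) : oneP N τ k ≠ 0 := by
  intro h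
  have h1 := congrArg (fun p : ℂ[X][X] => (p.coeff k).coeff 1) h
  simp only [oneP, coeff_sub, coeff_map, coeff_C_mul, coeff_X_pow, if_true, mul_one, coeff_zero,
    coeff_C_succ, coeff_X_one, zero_sub, neg_eq_zero] at h1
  exact hτ h1

theorem oneP_deg (N : ℂ[X]) (τ : ℂ) {k n : ℕ} (hN : N.natDegree ≤ n) (hk : k ≤ n) :
    (oneP N τ k).natDegree ≤ n := by
  unfold oneP
  refine (natDegree_sub_le _ _).trans (max_le (natDegree_map_le.trans hN) ?_)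
  exact (natDegree_C_mul_X_pow_le _ _).trans hk

theorem one_root_ne {N : ℂ[X]} {τ : ℂ} {k : ℕ} (hN : N.coeff 0 ≠ 0) (hk : 0 < k) {y : Om ℂ[X]}
    (hy : y ∈ Rt (io ℂ[X]) (oneP N τ k)) : y ≠ 0 := by
  rintro rfl
  rw [oneP_mem, eval₂_at_zero, zero_pow hk.ne', mul_zero] at hy
  exact hN (cO.injective (by rw [hy, map_zero]))

theorem one_root_not_const {N : ℂ[X]} {τ : ℂ} {k : ℕ} (hτ : τ ≠ 0) (hN : N.coeff 0 ≠ 0)
    (hk : 0 < k) {y : Om ℂ[X]} (hy : y ∈ Rt (io ℂ[X]) (oneP N τ k)) (c : ℂ) : y ≠ cO c := by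
  have h0 := one_root_ne hN hk hy
  rintro rfl
  rw [oneP_mem, eval₂_hom] at hy
  apply AO_not_const (N.eval c / (τ * c ^ k))
  have hτ' : cO τ ≠ 0 := (map_ne_zero cO).2 hτ
  rw [map_div₀, map_mul, map_pow, hy]
  field_simp

/-- the rational function `N / (τ X^k)` -/
noncomputable def oneTh (N : ℂ[X]) (τ : ℂ) (k : ℕ) : ℂ[X] →+* FractionRing ℂ[X] :=
  eval₂RingHom ((algebraMap ℂ[X] (FractionRing ℂ[X])).comp C)
    (algebraMap ℂ[X] (FractionRing ℂ[X]) N / algebraMap ℂ[X] (FractionRing ℂ[X]) (C τ * X ^ k))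

theorem one_lift {N : ℂ[X]} {τ : ℂ} {k : ℕ} (hτ : τ ≠ 0) (hN : N.coeff 0 ≠ 0) (hk : 0 < k)
    {y : Om ℂ[X]} (hy : y ∈ Rt (io ℂ[X]) (oneP N τ k)) :
    ∃ ψ : FractionRing ℂ[X] →+* Om ℂ[X], (∀ r, ψ (oneTh N τ k r) = io ℂ[X] r) ∧
      ψ (algebraMap ℂ[X] (FractionRing ℂ[X]) X) = y := by
  have hi := inj_eval cO (one_root_not_const hτ hN hk hy)
  have h0 := one_root_ne hN hk hy
  have hτ' : cO τ ≠ 0 := (map_ne_zero cO).2 hτ
  let ψ : FractionRing ℂ[X] →+* Om ℂ[X] := IsFractionRing.lift hi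
  have hψ : ∀ r, ψ (algebraMap ℂ[X] (FractionRing ℂ[X]) r) = r.eval₂ cO y := fun r =>
    IsFractionRing.lift_algebraMap hi r
  refine ⟨ψ, ?_, by rw [hψ, eval₂_X]⟩
  have h : ψ.comp (oneTh N τ k) = io ℂ[X] := by
    apply Polynomial.ringHom_ext
    · intro a
      rw [RingHom.comp_apply, oneTh, coe_eval₂RingHom, eval₂_C, RingHom.comp_apply, hψ, eval₂_C]
      rfl
    · rw [RingHom.comp_apply, oneTh, coe_eval₂RingHom, eval₂_X, map_div₀, hψ, hψ,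
        (oneP_mem _ _ _ _).1 hy, eval₂_mul, eval₂_C, eval₂_X_pow]
      change _ = AO
      field_simp
  intro r
  rw [← h]
  rfl

theorem one_tr {N : ℂ[X]} {τ : ℂ} {k : ℕ} (hτ : τ ≠ 0) (hN : N.coeff 0 ≠ 0) (hk : 0 < k) :
    ∀ y ∈ Rt (io ℂ[X]) (oneP N τ k), ∀ y' ∈ Rt (io ℂ[X]) (oneP N τ k),
      ∃ σ : Gl ℂ[X], σ y = y' := by
  intro y hy y' hy'
  obtain ⟨ψ, h1, h2⟩ := one_lift hτ hN hk hy
  obtain ⟨ψ', h1', h2'⟩ := one_lift hτ hN hk hy'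
  obtain ⟨σ, hσ⟩ := conj (oneTh N τ k) ψ ψ' ψ.injective ψ'.injective h1 h1'
  exact ⟨σ, by rw [← h2, hσ, h2']⟩

theorem fix_ev {σ : RingAut Ot} {ζ : ℂ} (hσ : Resc σ ζ) {a : Ot} (ha : σ a = a) (r : ℂ[X]) :
    σ (eval₂RingHom cT a r) = eval₂RingHom cT a r := by
  have h : (σ : Ot →+* Ot).comp (eval₂RingHom cT a) = eval₂RingHom cT a := by
    apply Polynomial.ringHom_ext
    · intro c
      simp [hσ.const]
    · simp [ha]
  exact congrArg (fun f : ℂ[X] →+* Ot => f r) h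

theorem io_eval_map (p : ℂ[X]) (Z : PS) :
    io PS ((p.map PowerSeries.C).eval Z) = p.eval₂ cT (io PS Z) := by
  rw [eval_map, hom_eval₂]
  rfl

theorem io_eq_zero {Z : PS} : io PS Z = 0 ↔ Z = 0 :=
  map_eq_zero_iff _ (io_inj PS)

theorem io_C (c : ℂ) : io PS (PowerSeries.C c) = cT c := rfl

theorem io_X : io PS PowerSeries.X = tt := rfl

theorem map_res (p : ℂ[X]) :
    (p.map (PowerSeries.C : ℂ →+* PS)).map PowerSeries.constantCoeff = p := by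
  rw [Polynomial.map_map]
  simp

theorem one_two {N : ℂ[X]} {τ : ℂ} {k : ℕ} (hτ : τ ≠ 0) (hN : N.coeff 0 ≠ 0) (hk : 0 < k)
    (hkn : k < N.natDegree) : (Rt (io ℂ[X]) (oneP N τ k)).ncard = N.natDegree ∧
      ∃ g : Gl ℂ[X], TwoOrb g (Rt (io ℂ[X]) (oneP N τ k)) k (N.natDegree - k) := by
  obtain ⟨m, hm'⟩ : ∃ m, N.natDegree = k + m := ⟨N.natDegree - k, by omega⟩
  have hm0 : 0 < m := by omega
  have hkm : 0 < k * m := Nat.mul_pos hk hm0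
  have hN0 : N ≠ 0 := by
    rintro rfl
    simp at hN
  have hlead : N.coeff (k + m) ≠ 0 := by
    rw [← hm']
    exact leadingCoeff_ne_zero.2 hN0
  obtain ⟨ζ, hζ⟩ : ∃ ζ : ℂ, IsPrimitiveRoot ζ (k * m) :=
    ⟨_, Complex.isPrimitiveRoot_exp _ hkm.ne'⟩
  have hζ0 : ζ ≠ 0 := hζ.ne_zero hkm.ne'
  obtain ⟨σ, hσ⟩ := exists_resc hζ0
  have ht := tt_ne
  have hφ := inj_eval cT (inv_not_const hkm)
  have hfix : ∀ r, σ (eval₂RingHom cT (tt ^ (k * m))⁻¹ r) = eval₂RingHom cT (tt ^ (k * m))⁻¹ r := by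
    apply fix_ev hσ
    rw [map_inv₀, map_pow, hσ.tt, mul_pow, ← map_pow, hζ.pow_eq_one, map_one, one_mul]
  have hp := oneP_ne N hτ k
  have hinv := Rt_inv (oneP N τ k) σ hfix
  have hη1 : IsPrimitiveRoot (ζ⁻¹ ^ k) m := hζ.inv.pow hkm rfl
  have hη2 : IsPrimitiveRoot (ζ ^ m) k := hζ.pow hkm (Nat.mul_comm k m)
  obtain ⟨D, hD, hDn, hDv, hDi, -, hDt⟩ := seg_binom hσ hinv (c0 := 0) (c := (tt ^ k)⁻¹)
    (η := ζ⁻¹ ^ k) (map_zero σ) (inv_ne_zero (pow_ne_zero _ ht))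
    (by rw [map_inv₀, map_pow, hσ.tt, mul_pow, mul_inv, map_pow, map_inv₀, inv_pow])
    (G := hm N (k + m) k - C (PowerSeries.C τ) * X ^ k)
    (by
      intro Z
      rw [oneP_mem_ev, zero_add, ← io_eq_zero, eval_sub, map_sub, hm_eval hm'.le, eval_mul, eval_C,
        eval_pow, eval_X, map_mul, map_pow, io_C, sub_eq_zero]
      have e : tt ^ (k * (k + m)) * (cT τ * (tt ^ (k * m))⁻¹ * ((tt ^ k)⁻¹ * io PS Z) ^ k)
          = cT τ * io PS Z ^ k := by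
        rw [mul_add, pow_add, mul_pow, inv_pow, ← pow_mul]
        field_simp
      rw [← e]
      exact (mul_right_inj' (pow_ne_zero _ ht)).symm)
    (c1 := N.coeff (k + m)) (c2 := τ) (i := k) (h := m) hlead hτ hm0
    (by
      rw [Polynomial.map_sub, hm_res _ _ hk]
      simp)
    hη1.pow_eq_one
  obtain ⟨E, hE, hEn, hEv, hEi, -, hEt⟩ := seg_binom hσ hinv (c0 := 0) (c := tt ^ m)
    (η := ζ ^ m) (map_zero σ) (pow_ne_zero _ ht)
    (by rw [map_pow, hσ.tt, mul_pow, map_pow])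
    (G := (N.map PowerSeries.C).comp (C (PowerSeries.X ^ m) * X) - C (PowerSeries.C τ) * X ^ k)
    (by
      intro Z
      rw [oneP_mem_ev, zero_add, ← io_eq_zero, eval_sub, map_sub, eval_comp, io_eval_map, eval_mul,
        eval_C, eval_X, map_mul, map_pow, io_X, eval_mul, eval_C, eval_pow, eval_X, map_mul,
        map_pow, io_C, sub_eq_zero]
      have e : cT τ * (tt ^ (k * m))⁻¹ * (tt ^ m * io PS Z) ^ k = cT τ * io PS Z ^ k := by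
        rw [mul_pow, ← pow_mul, Nat.mul_comm m k]
        field_simp
      rw [e])
    (c1 := -τ) (c2 := -N.coeff 0) (i := 0) (h := k) (neg_ne_zero.2 hτ) (neg_ne_zero.2 hN) hk
    (by
      rw [Polynomial.map_sub, map_comp, map_res]
      simp [hm0.ne', coeff_zero_eq_eval_zero]
      ring)
    hη2.pow_eq_one
  have hdis : Disjoint E D := by
    rw [Set.disjoint_left]
    intro x hxE hxD
    obtain ⟨Z, -, h1⟩ := hEv x hxE
    obtain ⟨Z', hZ', h2⟩ := hDv x hxD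
    apply val_ne hk (PowerSeries.X ^ m * Z) hZ'
    rw [pow_zero, inv_one, one_mul, map_mul, map_pow, io_X, ← zero_add (tt ^ m * _), ← h1, h2,
      zero_add]
  obtain ⟨h1, h2⟩ := two_of_cover (g := σ) (Rt_finite hφ hp) (N := k + m)
    ((Rt_ncard_le hφ hp).trans (oneP_deg N τ hm'.le (by omega))) hE hD hdis (by omega)
    hEi hDi (hEt hη2) (hDt hη1)
  obtain ⟨h3, h4⟩ := place_two hφ hp hfix h2
  rw [hEn, hDn] at h4
  refine ⟨by rw [h3, h1, hm'], ?_⟩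
  rw [hm', Nat.add_sub_cancel_left]
  exact h4

end Pool.Agent.Lib.MP_55068a_an.Dy
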