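import Mathlib
import Pool.Agent.Lib.MP_55068a_an.Dy.One

namespace Pool.Agent.Lib.MP_55068a_an.Dy

open Polynomial

theorem eval_euler (c z : ℂ) (n : ℕ) :
    z * (derivative (C c * X ^ n)).eval z = n * (c * z ^ n) := by
  rcases n with _ | n
  · simp
  · rw [derivative_C_mul_X_pow]
    simp
    ring

theorem eval_euler2 (c z : ℂ) (n : ℕ) :
    z ^ 2 * (derivative (derivative (C c * X ^ n))).eval z = n * (n - 1) * (c * z ^ n) := by
  rcases n with _ | n
  · simp
  · have h := eval_euler (c * (n + 1 : ℕ)) z n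
    rw [derivative_C_mul_X_pow, Nat.add_sub_cancel, pow_two, mul_assoc, h]
    push_cast
    ring

theorem eq_of_pow_coprime {z w : ℂ} {k n : ℕ} (hw : w ≠ 0) (hc : Nat.Coprime k n)
    (h1 : z ^ k = w ^ k) (h2 : z ^ n = w ^ n) : z = w := by
  have e1 : (z / w) ^ k = 1 := by rw [div_pow, h1, div_self (pow_ne_zero _ hw)]
  have e2 : (z / w) ^ n = 1 := by rw [div_pow, h2, div_self (pow_ne_zero _ hw)]
  have e3 : (z / w) ^ Nat.gcd k n = 1 := pow_gcd_eq_one.2 ⟨e1, e2⟩
  rw [hc, pow_one] at e3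
  exact (div_eq_one_iff_eq hw).1 e3

/-- The trinomial with exactly one multiple root, of multiplicity two. -/
theorem tri_double {γ : ℂ} {n k : ℕ} (hγ : γ ≠ 0) (hk : 0 < k) (hkn : k < n)
    (hc : Nat.Coprime k n) : ∃ (B z0 : ℂ) (H : ℂ[X]) (S : Set ℂ), z0 ≠ 0 ∧ H.eval z0 ≠ 0 ∧
      1 - C γ * X ^ n - C B * X ^ k = (X - C z0) ^ 2 * H ∧ z0 ∉ S ∧ S.ncard + 2 = n ∧
      ∀ z ∈ S, ((X - C z0) ^ 2 * H).eval z = 0 ∧
        (derivative ((X - C z0) ^ 2 * H)).eval z ≠ 0 := by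
  have hn : 0 < n := by omega
  have hk' : (k : ℂ) ≠ 0 := Nat.cast_ne_zero.2 hk.ne'
  have hn' : (n : ℂ) ≠ 0 := Nat.cast_ne_zero.2 hn.ne'
  have hd : (k : ℂ) - n ≠ 0 := sub_ne_zero.2 (fun h => hkn.ne (Nat.cast_injective h))
  obtain ⟨z0, hz0⟩ := IsAlgClosed.exists_pow_nat_eq ((k : ℂ) / (γ * (k - n))) hn
  have hz : z0 ≠ 0 := by
    rintro rfl
    rw [zero_pow hn.ne'] at hz0
    exact div_ne_zero hk' (mul_ne_zero hγ hd) hz0.symm
  have hzk := pow_ne_zero k hz
  set B : ℂ := -n / ((k - n) * z0 ^ k) with hB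
  have hB0 : B ≠ 0 := div_ne_zero (neg_ne_zero.2 hn') (mul_ne_zero hd hzk)
  have hU : γ * z0 ^ n = k / (k - n) := by
    rw [hz0]
    field_simp
  have hV : B * z0 ^ k = -n / (k - n) := by
    rw [hB]
    field_simp
  set F : ℂ[X] := 1 - C γ * X ^ n - C B * X ^ k with hF
  have ev0 : ∀ z, F.eval z = 1 - γ * z ^ n - B * z ^ k := by
    intro z
    simp [hF]
  have ev1 : ∀ z, z * (derivative F).eval z = -(n * (γ * z ^ n)) - k * (B * z ^ k) := by
    intro z
    rw [← eval_euler, ← eval_euler, hF, derivative_sub, derivative_sub, derivative_one, eval_sub,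
      eval_sub, eval_zero]
    ring
  have ev2 : z0 ^ 2 * (derivative (derivative F)).eval z0
      = -(n * (n - 1) * (γ * z0 ^ n)) - k * (k - 1) * (B * z0 ^ k) := by
    rw [← eval_euler2, ← eval_euler2, hF]
    simp only [derivative_sub, derivative_one, derivative_zero, eval_sub, eval_zero]
    ring
  have hF0 : F ≠ 0 := by
    intro h
    have := ev0 0
    rw [h] at this
    simp [hn.ne', hk.ne'] at this
  have hdeg : F.natDegree = n := by
    rw [hF]
    compute_degree!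
    · rw [if_neg hn.ne', if_neg hkn.ne']
      simpa using hγ
    all_goals exact hkn.le
  have r0 : F.eval z0 = 0 := by
    rw [ev0, hU, hV]
    field_simp
    ring
  have r1 : (derivative F).eval z0 = 0 := by
    have := ev1 z0
    rw [hU, hV] at this
    have e : -((n : ℂ) * (k / (k - n))) - k * (-n / (k - n)) = 0 := by ring
    rw [e] at this
    exact (mul_eq_zero.1 this).resolve_left hz
  have uniq : ∀ z, F.eval z = 0 → (derivative F).eval z = 0 → z = z0 := by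
    intro z h0 h1
    have e1 := ev1 z
    rw [h1, mul_zero] at e1
    rw [ev0] at h0
    have a1 : γ * z ^ n = k / (k - n) := by
      rw [eq_div_iff hd]
      linear_combination -e1 - (k : ℂ) * h0
    have a2 : B * z ^ k = -n / (k - n) := by
      rw [eq_div_iff hd]
      linear_combination e1 + (n : ℂ) * h0
    exact eq_of_pow_coprime hz hc (mul_left_cancel₀ hB0 (a2.trans hV.symm))
      (mul_left_cancel₀ hγ (a1.trans hU.symm))
  have hdv : (X - C z0) ^ 2 ∣ F :=
    (le_rootMultiplicity_iff hF0).1 ((one_lt_rootMultiplicity_iff_isRoot hF0).2 ⟨r0, r1⟩)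
  obtain ⟨H, hH⟩ := hdv
  have hH0 : H ≠ 0 := by
    rintro rfl
    exact hF0 (by rw [hH, mul_zero])
  have hHz : H.eval z0 ≠ 0 := by
    intro h
    have e : (derivative (derivative F)).eval z0 = 0 := by
      rw [hH]
      simp [derivative_mul, derivative_pow, h]
    rw [e, mul_zero, hU, hV] at ev2
    have e2 : -((n : ℂ) * (n - 1) * (k / (k - n))) - k * (k - 1) * (-n / (k - n)) = n * k := by
      field_simp
      ring
    rw [e2] at ev2
    exact mul_ne_zero hn' hk' ev2.symm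
  have hHd : H.natDegree + 2 = n := by
    rw [← hdeg, hH, natDegree_mul (pow_ne_zero _ (X_sub_C_ne_zero z0)) hH0, natDegree_pow,
      natDegree_X_sub_C]
    omega
  have hnd : H.roots.Nodup := by
    classical
    rw [Multiset.nodup_iff_count_le_one]
    intro z
    rw [count_roots]
    by_contra hlt
    obtain ⟨h0, h1⟩ := (one_lt_rootMultiplicity_iff_isRoot hH0).1 (not_le.1 hlt)
    have : z = z0 := by
      apply uniq
      · rw [hH, eval_mul, h0.eq_zero, mul_zero]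
      · rw [hH, derivative_mul, eval_add, eval_mul, eval_mul, h0.eq_zero, h1.eq_zero]
        simp
    exact hHz (this ▸ h0.eq_zero)
  classical
  refine ⟨B, z0, H, (H.roots.toFinset : Set ℂ), hz, hHz, hH, ?_, ?_, ?_⟩
  · intro h
    exact hHz (by simpa [hH0] using h)
  · rw [Set.ncard_coe_finset, Multiset.toFinset_card_of_nodup hnd,
      ← (IsAlgClosed.splits H).natDegree_eq_card_roots, hHd]
  · intro z hzS
    have h0 : H.eval z = 0 := by simpa [hH0] using hzS
    have h1 : F.eval z = 0 := by rw [hH, eval_mul, h0, mul_zero]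
    rw [← hH]
    refine ⟨h1, fun h2 => hHz ?_⟩
    rw [← uniq z h1 h2]
    exact h0

theorem tri_swap {γ τ : ℂ} {n k : ℕ} (hγ : γ ≠ 0) (hτ : τ ≠ 0) (hk : 0 < k) (hkn : k < n)
    (hc : Nat.Coprime k n) :
    ∃ g : Gl ℂ[X], PureCyc g (Rt (io ℂ[X]) (oneP (1 - C γ * X ^ n) τ k)) 2 := by
  obtain ⟨B, z0, H, S, hz, hHz, hF, hS0, hSn, hS⟩ := tri_double hγ hk hkn hc
  obtain ⟨σ, hσ⟩ := exists_resc (ζ := -1) (by simp)
  have ht := tt_ne
  have hσt : σ tt = cT (-1) * tt := hσ.tt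
  have hnc : ∀ c, cT (B / τ) + tt ^ 2 ≠ cT c := by
    intro c h
    apply inv_not_const (w := 2) (by simp) (c - B / τ)⁻¹
    rw [map_inv₀, map_sub, ← h, add_sub_cancel_left]
  have hφ := inj_eval cT hnc
  have hfix : ∀ r, σ (eval₂RingHom cT (cT (B / τ) + tt ^ 2) r)
      = eval₂RingHom cT (cT (B / τ) + tt ^ 2) r := by
    apply fix_ev hσ
    rw [map_add, hσ.const, map_pow, hσt]
    simp
  have hp := oneP_ne (1 - C γ * X ^ n) hτ k
  have hinv := Rt_inv (oneP (1 - C γ * X ^ n) τ k) σ hfix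
  have hmem : ∀ y : Ot, y ∈ Rt (eval₂RingHom cT (cT (B / τ) + tt ^ 2))
      (oneP (1 - C γ * X ^ n) τ k) ↔
      ((X - C z0) ^ 2 * H).eval₂ cT y = cT τ * tt ^ 2 * y ^ k := by
    intro y
    have e : cT τ * cT (B / τ) = cT B := by
      rw [← map_mul, mul_div_cancel₀ _ hτ]
    rw [oneP_mem_ev, ← hF, eval₂_sub (p := 1 - C γ * X ^ n), eval₂_mul (p := C B), eval₂_C,
      eval₂_X_pow, mul_add, e, add_mul, sub_eq_iff_eq_add']
  have hη : IsPrimitiveRoot (-1 : ℂ) 2 := IsPrimitiveRoot.neg_one 0 (by simp)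
  obtain ⟨D, hD, hDn, hDv, -, -, hDt⟩ := seg_binom hσ hinv (c0 := cT z0) (c := tt)
    (η := -1) (hσ.const z0) ht hσt
    (G := X ^ 2 * (H.map PowerSeries.C).comp (C (PowerSeries.C z0) + C PowerSeries.X * X)
      - C (PowerSeries.C τ) * (C (PowerSeries.C z0) + C PowerSeries.X * X) ^ k)
    (by
      intro Z
      rw [hmem, ← io_eq_zero, eval_sub, map_sub, eval_mul, eval_comp, map_mul, io_eval_map,
        sub_eq_zero]
      simp only [eval_pow, eval_X, eval_add, eval_C, eval_mul, map_add, map_mul, map_pow, io_C,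
        io_X, eval₂_mul, eval₂_pow, eval₂_sub, eval₂_X, eval₂_C, add_sub_cancel_left]
      constructor
      · intro h
        apply mul_left_cancel₀ (pow_ne_zero 2 ht)
        linear_combination h
      · intro h
        linear_combination tt ^ 2 * h)
    (c1 := H.eval z0) (c2 := τ * z0 ^ k) (i := 0) (h := 2) hHz
    (mul_ne_zero hτ (pow_ne_zero _ hz)) (by simp)
    (by
      rw [Polynomial.map_sub, Polynomial.map_mul, map_comp, map_res]
      simp)
    hη.pow_eq_one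
  obtain ⟨E, hE, hEn, hEf, hEv⟩ := seg_sep hσ hinv
    (G := ((X - C z0) ^ 2 * H).map PowerSeries.C
      - C (PowerSeries.C τ * PowerSeries.X ^ 2) * X ^ k)
    (by
      intro Z
      rw [hmem, ← io_eq_zero, eval_sub, map_sub, io_eval_map, sub_eq_zero]
      simp only [eval_pow, eval_X, eval_C, eval_mul, map_mul, map_pow, io_C, io_X])
    (S := S)
    (by
      have e : (((X - C z0) ^ 2 * H).map (PowerSeries.C : ℂ →+* PS)
          - C (PowerSeries.C τ * PowerSeries.X ^ 2) * X ^ k).map PowerSeries.constantCoeff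
          = (X - C z0) ^ 2 * H := by
        rw [Polynomial.map_sub, map_res]
        simp
      rw [e]
      exact hS)
  have hdis : Disjoint D E := by
    rw [Set.disjoint_left]
    intro x hxD hxE
    obtain ⟨Z, -, h1⟩ := hDv x hxD
    obtain ⟨Z', hZ', h2⟩ := hEv x hxE
    have e : Z' = PowerSeries.C z0 + PowerSeries.X * Z := by
      apply io_inj PS
      rw [← h2, h1, map_add, map_mul, io_C, io_X]
    rw [e] at hZ'
    apply hS0
    simpa using hZ'
  have hdg : (1 - C γ * X ^ n : ℂ[X]).natDegree ≤ n := by compute_degree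
  obtain ⟨-, h2⟩ := pure_of_cover (g := σ) (Rt_finite hφ hp) (N := n)
    ((Rt_ncard_le hφ hp).trans (oneP_deg _ τ hdg hkn.le)) hD hE hdis (by omega) hEf (hDt hη)
  rw [hDn] at h2
  exact (place_pure hφ hp hfix h2).2

theorem gl_root_one {d : ℕ} (hd : 0 < d) (g : Gl ℂ[X]) (w : Om ℂ[X]) (hw : w ^ d = 1) :
    g • w = w := by
  have : NeZero d := ⟨hd.ne'⟩
  have hζ := (Complex.isPrimitiveRoot_exp d hd.ne').map_of_injective cO.injective
  obtain ⟨j, -, rfl⟩ := hζ.eq_pow_of_pow_eq_one hw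
  rw [← map_pow]
  exact gl_io g _

theorem tri_core {γ τ : ℂ} {i k : ℕ} (hγ : γ ≠ 0) (hτ : τ ≠ 0) (hi : 0 < i) (hk : 0 < k)
    (hc : Nat.Coprime k i) (h5 : 5 ≤ k + i) :
    ∃ Z ∈ Rt (io ℂ[X]) (oneP (1 - C γ * X ^ (k + i)) τ k),
      ∀ n, ∃ σ ∈ derivedSeries (Gl ℂ[X]) n, σ Z ≠ Z := by
  have hN : (1 - C γ * X ^ (k + i) : ℂ[X]).coeff 0 ≠ 0 := by
    simp [coeff_zero_eq_eval_zero, hk.ne']
  have hdeg : (1 - C γ * X ^ (k + i) : ℂ[X]).natDegree = k + i := by
    compute_degree!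
    rw [if_neg (by omega)]
    simpa using hγ
  obtain ⟨hn, g, hg⟩ := one_two hτ hN hk (by omega)
  rw [hdeg] at hn
  rw [hdeg, Nat.add_sub_cancel_left] at hg
  obtain ⟨g', hg'⟩ := tri_swap hγ hτ hk (show k < k + i by omega) (by simpa using hc)
  obtain ⟨Z, hZ⟩ : (Rt (io ℂ[X]) (oneP (1 - C γ * X ^ (k + i)) τ k)).Nonempty :=
    Set.nonempty_of_ncard_ne_zero (by omega)
  refine ⟨Z, hZ, ?_⟩
  have := core (D := 1) (E := X) (oneP_ne _ hτ k) (one_tr hτ hN hk) (by simp) (by simp)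
    (by rw [hn, natDegree_X]; omega)
    (by
      rintro e M ⟨-, -, h1, h2, -⟩
      have he := (h2 g k i hg hk hi hc).1
      subst he
      rcases h1 g' 2 hg' (by omega) with h | ⟨-, h⟩
      · omega
      · rw [hn] at h
        have h' : k + i - 2 ∣ 2 := by
          have := Nat.dvd_sub h (dvd_refl (k + i - 2))
          rwa [show k + i - (k + i - 2) = 2 by omega] at this
        have := Nat.le_of_dvd (by omega) h'
        omega) Z hZ
  simpa using this

theorem tri {γ τ : ℂ} {i k d : ℕ} (hγ : γ ≠ 0) (hτ : τ ≠ 0) (hi : 0 < i) (hk : 0 < k)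
    (hd : 0 < d) (h5 : 5 * Nat.gcd k i ≤ k + i) :
    ∃ Y : Om ℂ[X], cO γ * Y ^ (i + k) + cO τ * AO * Y ^ k = 1 ∧
      ((i + k : ℕ) : Om ℂ[X]) * cO γ * Y ^ (i + k) + (k : Om ℂ[X]) * cO τ * AO * Y ^ k ≠ 0 ∧
      ∀ n, ∃ σ ∈ derivedSeries (Gl ℂ[X]) n, σ (Y ^ d) ≠ Y ^ d := by
  obtain ⟨g, k1, i1, hg, hc, rfl, rfl⟩ := Nat.exists_coprime' (Nat.gcd_pos_of_pos_left i hk)
  have hk1 : 0 < k1 := Nat.pos_of_mul_pos_right hk
  have hi1 : 0 < i1 := Nat.pos_of_mul_pos_right hi
  have h5' : 5 ≤ k1 + i1 := by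
    rw [Nat.gcd_mul_right, hc, one_mul, ← add_mul] at h5
    exact Nat.le_of_mul_le_mul_right h5 hg
  obtain ⟨Z, hZ, hmv⟩ := tri_core hγ hτ hi1 hk1 hc h5'
  obtain ⟨Y, rfl⟩ := IsAlgClosed.exists_pow_nat_eq Z hg
  rw [oneP_mem, eval₂_sub, eval₂_one, eval₂_mul, eval₂_C, eval₂_X_pow, ← pow_mul, ← pow_mul,
    show g * (k1 + i1) = i1 * g + k1 * g by ring, Nat.mul_comm g k1] at hZ
  refine ⟨Y, by linear_combination -hZ, ?_, ?_⟩
  · intro h
    have hN : (1 - C γ * X ^ (i1 * g + k1 * g) : ℂ[X]).coeff 0 ≠ 0 := by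
      rw [coeff_zero_eq_eval_zero, eval_sub, eval_mul, eval_pow, eval_X, zero_pow (by omega)]
      simp
    have hY : Y ∈ Rt (io ℂ[X]) (oneP (1 - C γ * X ^ (i1 * g + k1 * g)) τ (k1 * g)) := by
      rw [oneP_mem, eval₂_sub, eval₂_one, eval₂_mul, eval₂_C, eval₂_X_pow]
      exact hZ
    have hinj := inj_eval cO (one_root_not_const hτ hN hk hY)
    have e : (C ((i1 * g : ℕ) * γ) * X ^ (i1 * g + k1 * g) + C ((k1 * g : ℕ) : ℂ) : ℂ[X]) = 0 := by
      apply hinj
      rw [map_zero, coe_eval₂RingHom, eval₂_add, eval₂_mul, eval₂_C, eval₂_C, eval₂_X_pow, map_mul,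
        map_natCast, map_natCast]
      rw [Nat.cast_add] at h
      linear_combination h + ((k1 * g : ℕ) : Om ℂ[X]) * hZ
    have e0 := congrArg (eval 0) e
    rw [eval_add, eval_mul, eval_pow, eval_X, zero_pow (by omega), mul_zero, zero_add, eval_C,
      eval_zero] at e0
    exact hk.ne' (Nat.cast_eq_zero.1 e0)
  · apply pow_fixed (G := Gl ℂ[X]) Y hd (gl_root_one hd)
    intro n
    obtain ⟨σ, hσ, h⟩ := hmv n
    refine ⟨σ, hσ, fun h' => h ?_⟩
    rw [map_pow, show σ Y = Y from h']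

end Pool.Agent.Lib.MP_55068a_an.Dy
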