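import Mathlib
import Pool.Agent.Lib.MP_55068a_an.Dy.Tri
import Pool.Agent.Lib.MP_55068a_an.Dy.Geo

namespace Pool.Agent.Lib.MP_55068a_an.Dy

open Polynomial

abbrev KS : Type := PowerSeries (Om ℂ[X])

/-- coefficientwise action -/
noncomputable def mapKS (σ : Gl ℂ[X]) : KS ≃+* KS :=
  RingEquiv.ofRingHom (PowerSeries.map (σ : Om ℂ[X] →+* Om ℂ[X]))
    (PowerSeries.map (σ.symm : Om ℂ[X] →+* Om ℂ[X])) (by ext Z n <;> simp) (by ext Z n <;> simp)

theorem coeff_mapKS (σ : Gl ℂ[X]) (Z : KS) (n : ℕ) :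
    PowerSeries.coeff n (mapKS σ Z) = σ (PowerSeries.coeff n Z) := by
  simp [mapKS]

/-- pairs of compatible automorphisms -/
noncomputable def GamKS : Subgroup (Gl ℂ[X] × RingAut (Om KS)) where
  carrier := {g | ∀ Z, g.2 (io KS Z) = io KS (mapKS g.1 Z)}
  one_mem' := fun Z => by
    have : mapKS 1 Z = Z := by ext n; rw [coeff_mapKS]; rfl
    simp [this]
  mul_mem' := by
    intro g h hg hh Z
    have : mapKS (g.1 * h.1) Z = mapKS g.1 (mapKS h.1 Z) := by
      ext n; simp only [coeff_mapKS]; rfl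
    rw [Prod.fst_mul, Prod.snd_mul, this, ← hg, ← hh]; rfl
  inv_mem' := by
    intro g hg Z
    have : mapKS g.1 (mapKS g.1⁻¹ Z) = Z := by
      ext n; simp only [coeff_mapKS]; exact g.1.apply_symm_apply _
    apply g.2.injective
    rw [Prod.fst_inv, hg, this]
    exact g.2.apply_symm_apply _

theorem bad_of_series {δ : P2} {a b v : T δ} (f : T δ →+* Om KS) {p q x y j : ℕ}
    (hpq : p * y ≠ q * x)
    (ha : f a * io KS PowerSeries.X ^ x = io KS (PowerSeries.C (AO ^ p)))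
    (hb : f b * io KS PowerSeries.X ^ y = io KS (PowerSeries.C (AO ^ q)))
    {L M : KS} (hM : PowerSeries.constantCoeff M ≠ 0)
    (hv : f v * io KS PowerSeries.X ^ j * io KS M = io KS L)
    (h : ∀ n, ∃ σ ∈ derivedSeries (Gl ℂ[X]) n,
      σ (PowerSeries.constantCoeff L / PowerSeries.constantCoeff M)
        ≠ PowerSeries.constantCoeff L / PowerSeries.constantCoeff M) : Bad a b v := by
  have hs : io KS PowerSeries.X ≠ 0 := (map_ne_zero_iff _ (io_inj KS)).2 PowerSeries.X_ne_zero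
  have hX : ∀ g : GamKS, g.1.2 (io KS PowerSeries.X) = io KS PowerSeries.X := fun g => by
    rw [g.2]; simp [mapKS]
  have hA : ∀ (g : GamKS) (n : ℕ), g.1.2 (io KS (PowerSeries.C (AO ^ n)))
      = io KS (PowerSeries.C (AO ^ n)) := fun g n => by
    rw [g.2]; simp [mapKS, AO, gl_io]
  have hfix : ∀ (g : GamKS) (z : Om KS) (n m : ℕ),
      z * io KS PowerSeries.X ^ n = io KS (PowerSeries.C (AO ^ m)) → g.1.2 z = z := by
    intro g z n m hz
    have := congrArg g.1.2 hz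
    rw [map_mul, map_pow, hX, hA, ← hz] at this
    exact mul_right_cancel₀ (pow_ne_zero n hs) this
  have hC : ∀ (g : GamKS) (c : ℂ), g.1.2 (io KS (PowerSeries.C (cO c)))
      = io KS (PowerSeries.C (cO c)) := fun g c => by
    rw [g.2]; simp [mapKS, cO, gl_io]
  refine ⟨Om KS, inferInstance, inferInstance, inferInstance,
    ((io KS).comp PowerSeries.C).comp cO, f, GamKS, inferInstance,
    (MonoidHom.snd _ _).comp GamKS.subtype, indep_monoC cO AO_not_const hpq ha hb,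
    fun g => ⟨hC g, hfix g _ _ _ ha, hfix g _ _ _ hb⟩, fun n => ?_⟩
  obtain ⟨σ, hσ, hne⟩ := h n
  obtain ⟨g, hg, rfl⟩ := transfer GamKS (fun σ => by
    obtain ⟨τ, hτ⟩ := ext_aut (mapKS σ)
    exact ⟨τ, hτ⟩) n σ hσ
  refine ⟨g, hg, fun he => hne ?_⟩
  have he' : g.1.2 (f v) = f v := he
  have h1 := congrArg g.1.2 hv
  rw [map_mul, map_mul, map_pow, hX, he', g.2, g.2] at h1
  have h2 : L * mapKS g.1.1 M = mapKS g.1.1 L * M := by
    apply io_inj KS
    rw [map_mul, map_mul, ← hv, ← h1]; ring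
  have h3 := congrArg (PowerSeries.coeff 0) h2
  simp only [PowerSeries.coeff_zero_eq_constantCoeff, map_mul] at h3
  simp only [← PowerSeries.coeff_zero_eq_constantCoeff_apply, coeff_mapKS] at h3 hM ⊢
  rw [map_div₀, div_eq_div_iff ((_root_.map_ne_zero _).2 hM) hM, h3]

theorem bad_of_tri {δ : P2} {a b v : T δ} {i k ν μ j d : ℕ} {α τ γ c : ℂ} (B : ℂ[X])
    (f1 h1 g1 L1 : MvPolynomial (Fin 3) ℂ) (hα : α ≠ 0) (hτ : τ ≠ 0) (hγ : γ ≠ 0) (hc : c ≠ 0)
    (hi : 0 < i) (hk : 0 < k) (hd : 0 < d) (h5 : 5 * Nat.gcd k i ≤ k + i)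
    (H : ∀ (Ω : Type) [Field Ω] [Algebra ℚ Ω] (φ : ℂ →+* Ω) (s Y W : Ω), s ≠ 0 → Y ≠ 0 →
      ∃ f : T δ →+* Ω,
        f a * s ^ i * Y ^ ν
          = φ α * Y ^ μ * W + B.eval₂ φ Y + s * MvPolynomial.eval₂Hom φ ![s, Y, W] f1 ∧
        f b * s ^ (i + k) = (φ τ * Y ^ k + s * MvPolynomial.eval₂Hom φ ![s, Y, W] h1) * (f a * s ^ i)
          + φ γ * Y ^ (i + k) + s * MvPolynomial.eval₂Hom φ ![s, Y, W] g1 ∧
        f v * s ^ j * Y ^ ν = φ c * Y ^ (ν + d) + s * MvPolynomial.eval₂Hom φ ![s, Y, W] L1) :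
    Bad a b v := by
  obtain ⟨y0, e0, e1, hσ⟩ := tri hγ hτ hi hk hd h5
  have hy0 : y0 ≠ 0 := by
    rintro rfl
    rw [zero_pow hk.ne', zero_pow (by omega)] at e0
    simp at e0
  have hα' : cO α * y0 ^ μ ≠ 0 := mul_ne_zero ((_root_.map_ne_zero _).2 hα) (pow_ne_zero _ hy0)
  obtain ⟨w0, hw⟩ : ∃ w0, cO α * y0 ^ μ * w0 = AO * y0 ^ ν - B.eval₂ cO y0 :=
    ⟨_, mul_div_cancel₀ _ hα'⟩
  have hB : ∀ {S : Type} [CommRing S] (ψ : MvPolynomial (Fin 3) (Om ℂ[X]) →+* S),
      ψ (B.eval₂ (MvPolynomial.C.comp cO) (MvPolynomial.X 1))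
        = B.eval₂ ((ψ.comp MvPolynomial.C).comp cO) (ψ (MvPolynomial.X 1)) := fun ψ => by
    rw [hom_eval₂]; rfl
  have hB2 : MvPolynomial.pderiv 2 (B.eval₂ (MvPolynomial.C.comp cO) (MvPolynomial.X 1) :
      MvPolynomial (Fin 3) (Om ℂ[X])) = 0 := by
    rw [eval₂_eq_sum_range, map_sum]
    refine Finset.sum_eq_zero fun n _ => ?_
    simp [Derivation.leibniz_pow]
  obtain ⟨Y, W, hY, hW, E1, E2⟩ := newton2
    (MvPolynomial.C (cO α) * MvPolynomial.X 1 ^ μ * MvPolynomial.X 2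
      + B.eval₂ (MvPolynomial.C.comp cO) (MvPolynomial.X 1)
      + MvPolynomial.X 0 * MvPolynomial.map cO f1 - MvPolynomial.C AO * MvPolynomial.X 1 ^ ν)
    ((MvPolynomial.C (cO τ) * MvPolynomial.X 1 ^ k + MvPolynomial.X 0 * MvPolynomial.map cO h1)
      * MvPolynomial.C AO + MvPolynomial.C (cO γ) * MvPolynomial.X 1 ^ (i + k)
      + MvPolynomial.X 0 * MvPolynomial.map cO g1 - 1) y0 w0
    (by
      have : ((MvPolynomial.eval ![0, y0, w0]).comp MvPolynomial.C).comp cO = cO := by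
        ext z; simp
      simp [hB, this]
      linear_combination hw)
    (by
      simp
      linear_combination e0)
    (by
      simp only [map_add, map_sub, hB2]
      simp [Derivation.leibniz_pow]
      refine ⟨⟨hα, fun h => absurd h hy0⟩, ?_⟩
      intro h
      apply e1
      obtain ⟨k, rfl⟩ : ∃ k', k = k' + 1 := ⟨k - 1, by omega⟩
      simp only [← add_assoc, Nat.add_sub_cancel] at h ⊢
      push_cast at h ⊢
      linear_combination y0 * h)
  have hs : io KS PowerSeries.X ≠ 0 := (map_ne_zero_iff _ (io_inj KS)).2 PowerSeries.X_ne_zero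
  have hY0 : io KS Y ≠ 0 :=
    (map_ne_zero_iff _ (io_inj KS)).2 (by rintro rfl; exact hy0 (by simpa using hY.symm))
  set φ : ℂ →+* Om KS := ((io KS).comp PowerSeries.C).comp cO with hφ
  obtain ⟨f, ha, hb, hv⟩ := H (Om KS) φ _ _ (io KS W) hs hY0
  have hF : ∀ F : MvPolynomial (Fin 3) ℂ,
      io KS (MvPolynomial.eval₂Hom PowerSeries.C ![PowerSeries.X, Y, W] (MvPolynomial.map cO F))
        = MvPolynomial.eval₂Hom φ ![io KS PowerSeries.X, io KS Y, io KS W] F := by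
    intro F
    rw [MvPolynomial.eval₂Hom_map_hom, MvPolynomial.map_eval₂Hom]
    congr 2
    ext i
    fin_cases i <;> rfl
  have hφ' : ∀ z, io KS (PowerSeries.C (cO z)) = φ z := fun z => rfl
  rw [← MvPolynomial.coe_eval₂Hom] at E1 E2
  have hB3 : io KS (MvPolynomial.eval₂Hom PowerSeries.C ![PowerSeries.X, Y, W]
      (B.eval₂ (MvPolynomial.C.comp cO) (MvPolynomial.X 1))) = B.eval₂ φ (io KS Y) := by
    rw [hB, hom_eval₂]
    congr 1
    · ext z; simp [hφ]
    · simp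
  replace E1 := congrArg (io KS) E1
  replace E2 := congrArg (io KS) E2
  simp only [map_add, map_sub, map_mul, map_pow, map_one, map_zero, hF, hB3, hφ',
    MvPolynomial.eval₂Hom_C, MvPolynomial.eval₂Hom_X', Matrix.cons_val_zero, Matrix.cons_val_one,
    Matrix.cons_val_two, Matrix.head_cons, Matrix.tail_cons] at E1 E2
  have ha' : f a * io KS PowerSeries.X ^ i = io KS (PowerSeries.C AO) :=
    mul_right_cancel₀ (pow_ne_zero ν hY0) (by linear_combination ha + E1)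
  refine bad_of_series f (p := 1) (q := 0) (x := i) (y := i + k) (j := j) (by omega)
    (by rw [ha', pow_one]) (by rw [hb, ha', pow_zero, map_one, map_one]; linear_combination E2)
    (M := Y ^ ν) (L := PowerSeries.C (cO c) * Y ^ (ν + d) + PowerSeries.X
      * MvPolynomial.eval₂Hom PowerSeries.C ![PowerSeries.X, Y, W] (MvPolynomial.map cO L1))
    (by simp [hY, hy0]) (by simp only [map_add, map_mul, map_pow, hF, hφ', hv]) fun n => ?_
  obtain ⟨σ, h1, h2⟩ := hσ n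
  refine ⟨σ, h1, fun h => h2 ?_⟩
  have e : PowerSeries.constantCoeff (PowerSeries.C (cO c) * Y ^ (ν + d) + PowerSeries.X
      * MvPolynomial.eval₂Hom PowerSeries.C ![PowerSeries.X, Y, W] (MvPolynomial.map cO L1))
      / PowerSeries.constantCoeff (Y ^ ν) = cO c * y0 ^ d := by
    simp [hY, pow_add]
    field_simp
  rw [e, map_mul, show σ (cO c) = cO c from gl_io σ _] at h
  exact mul_left_cancel₀ ((_root_.map_ne_zero _).2 hc) h

end Pool.Agent.Lib.MP_55068a_an.Dy
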