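import Mathlib
import Pool.Agent.Lib.MP_55068a_an.Dy.Geo

namespace Pool.Agent.Lib.MP_55068a_an.Dy

open Polynomial

/-- A group of automorphisms over `K` moves a root of a polynomial with solvable Galois group
only outside some derived subgroup. -/
theorem fixed_of_solvable {K Ω G : Type} [Field K] [Field Ω] [Algebra K Ω] [IsAlgClosed Ω]
    [Group G] (ρ : G →* RingAut Ω) (hρ : ∀ g z, ρ g (algebraMap K Ω z) = algebraMap K Ω z)
    {p : K[X]} (hp : p ≠ 0) (hs : Group.IsSolvable p.Gal) {y : Ω} (hy : aeval y p = 0) :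
    ∃ n, ∀ g ∈ derivedSeries G n, ρ g y = y := by
  obtain ⟨n, hn⟩ := hs.solvable
  have : Fact ((p.map (algebraMap K Ω)).Splits) := ⟨IsAlgClosed.splits _⟩
  let φ : G →* (Ω ≃ₐ[K] Ω) :=
    { toFun := fun g => { ρ g with commutes' := hρ g }
      map_one' := by
        ext z
        change ρ 1 z = z
        rw [map_one]; rfl
      map_mul' := fun g h => by
        ext z
        change ρ (g * h) z = ρ g (ρ h z)
        rw [map_mul]; rfl }
  refine ⟨n, fun g hg => ?_⟩
  have h1 : ((Gal.restrict p Ω).comp φ) g ∈ derivedSeries p.Gal n :=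
    map_derivedSeries_le_derivedSeries _ n ⟨g, hg, rfl⟩
  rw [hn, Subgroup.mem_bot] at h1
  have hy' : y ∈ p.rootSet Ω := by
    rw [mem_rootSet]; exact ⟨hp, hy⟩
  have h2 := Gal.galActionHom_restrict p Ω (φ g) ⟨y, hy'⟩
  rw [show Gal.restrict p Ω (φ g) = 1 from h1, map_one] at h2
  exact h2.symm

theorem not_rad_of_bad {δ : P2} {a b v : T δ} (h : Bad a b v) (k : Subfield ℂ) (f : T δ →+* ℂ)
    (hf : AlgebraicIndependent k ![f a, f b]) :
    f v ∉ solvableByRad (IntermediateField.adjoin k ({f a, f b} : Set ℂ)) ℂ := by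
  obtain ⟨Ω, _, _, _, φ, f0, G, _, ρ, hind, hfix, hmv⟩ := h
  intro hv
  have hδ : δ ≠ 0 := by
    rintro rfl
    exact gen_den f (map_zero _)
  obtain ⟨ι, hι⟩ := ext_const k hδ
  let E := FractionRing (MvPolynomial (Fin 2) k)
  obtain ⟨F, hF, hFc⟩ := hι (algebraMap k ℂ) f (indep_param (a := a) (b := b) _ f hf)
  obtain ⟨F0, hF0, hFc0⟩ := hι (φ.comp (algebraMap k ℂ)) f0
    (indep_param (a := a) (b := b) _ f0 (indep_restrict _ hind))
  set K := IntermediateField.adjoin k ({f a, f b} : Set ℂ) with hK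
  have hle0 : K.toSubfield ≤ (⨅ g, RingHom.eqLocusField ((ρ g : Ω →+* Ω).comp F0) F0).map F := by
    rw [hK, IntermediateField.adjoin_toSubfield, Subfield.closure_le]
    rintro w (⟨q, rfl⟩ | rfl | rfl)
    · refine ⟨_, Subfield.mem_iInf.2 fun g => ?_, hFc q⟩
      change ρ g (F0 _) = F0 _
      rw [hFc0]
      exact (hfix g).1 _
    · refine ⟨_, Subfield.mem_iInf.2 fun g => ?_, hF a⟩
      change ρ g (F0 _) = F0 _
      rw [hF0]
      exact (hfix g).2.1
    · refine ⟨_, Subfield.mem_iInf.2 fun g => ?_, hF b⟩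
      change ρ g (F0 _) = F0 _
      rw [hF0]
      exact (hfix g).2.2
  have hle : ∀ z : K, (z : ℂ) ∈ F.fieldRange := fun z => by
    obtain ⟨e, -, he⟩ := hle0 z.2
    exact ⟨e, he⟩
  let s : K →+* E := (F.rangeRestrictFieldEquiv.symm : F.fieldRange →+* E).comp
    ((algebraMap K ℂ).codRestrict F.fieldRange hle)
  have hs : ∀ z, F (s z) = z := fun z => by
    have := F.rangeRestrictFieldEquiv.apply_symm_apply ⟨z, hle z⟩
    exact congrArg Subtype.val this
  let _ : Algebra K Ω := (F0.comp s).toAlgebra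
  have hρ : ∀ g (z : K), ρ g (algebraMap K Ω z) = algebraMap K Ω z := by
    intro g z
    obtain ⟨e, he, he'⟩ := hle0 z.2
    have : s z = e := F.injective (by rw [hs, he'])
    change ρ g (F0 (s z)) = F0 (s z)
    rw [this]
    exact Subfield.mem_iInf.1 he g
  have hint := isIntegral_of_mem_solvableByRad hv
  have hroot : aeval (f0 v) (minpoly K (f v)) = 0 := by
    have h1 : eval₂ (F.comp s) (F (ι v)) (minpoly K (f v)) = 0 := by
      have : F.comp s = algebraMap K ℂ := RingHom.ext hs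
      rw [this, hF]; exact minpoly.aeval K (f v)
    rw [← hom_eval₂, map_eq_zero_iff F F.injective] at h1
    have h2 := congrArg F0 h1
    rw [hom_eval₂, map_zero, hF0] at h2
    exact h2
  obtain ⟨n, hn⟩ := fixed_of_solvable ρ hρ (minpoly.ne_zero hint) (isSolvable_gal_minpoly hv) hroot
  obtain ⟨g, hg, hne⟩ := hmv n
  exact hne (hn g hg)

end Pool.Agent.Lib.MP_55068a_an.Dy
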