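import Mathlib
import Pool.Agent.Lib.MP_55068a_an.Dy.RadF

namespace Pool.Agent.Lib.MP_55068a_an.Dy

open Polynomial Filter Topology

open Classical in
/-- the real function of two variables attached to an element of `T δ` -/
noncomputable def evR {δ : P2} (r : T δ) (w : Fin 2 → ℝ) : ℝ :=
  if h : MvPolynomial.aeval w δ ≠ 0 then evT δ w h r else 0

theorem evR_eq {δ : P2} (r : T δ) {w : Fin 2 → ℝ} (h : MvPolynomial.aeval w δ ≠ 0) :
    evR r w = evT δ w h r := dif_pos h

theorem diff_aeval (A : P2) (v : Fin 2 → ℝ) :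
    DifferentiableAt ℝ (fun w : Fin 2 → ℝ => MvPolynomial.aeval w A) v := by
  induction A using MvPolynomial.induction_on with
  | C q => simp
  | add p q hp hq => simpa only [map_add] using hp.fun_add hq
  | mul_X p i hp =>
    simpa only [map_mul, MvPolynomial.aeval_X] using hp.fun_mul (differentiableAt_apply i v)

theorem near_ne {δ : P2} {v : Fin 2 → ℝ} (h : MvPolynomial.aeval v δ ≠ 0) :
    ∀ᶠ w in 𝓝 v, MvPolynomial.aeval w δ ≠ 0 :=
  (diff_aeval δ v).continuousAt.eventually_ne h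

theorem diff_evR {δ : P2} (r : T δ) {v : Fin 2 → ℝ} (h : MvPolynomial.aeval v δ ≠ 0) :
    DifferentiableAt ℝ (evR r) v := by
  obtain ⟨A, n, hA⟩ := evT_rep r
  have h1 : DifferentiableAt ℝ
      (fun w : Fin 2 → ℝ => MvPolynomial.aeval w A * (MvPolynomial.aeval w δ ^ n)⁻¹) v :=
    (diff_aeval A v).fun_mul (((diff_aeval δ v).fun_pow n).fun_inv (pow_ne_zero n h))
  refine h1.congr_of_eventuallyEq ?_
  filter_upwards [near_ne h] with w hw
  rw [evR_eq r hw, hA w hw, div_eq_mul_inv]

theorem cd_aeval (A : P2) : ContDiff ℝ 1 fun w : Fin 2 → ℝ => MvPolynomial.aeval w A := by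
  induction A using MvPolynomial.induction_on with
  | C q => simpa using contDiff_const
  | add p q hp hq => simpa only [map_add] using hp.add hq
  | mul_X p i hp => simpa only [map_mul, MvPolynomial.aeval_X] using hp.mul (contDiff_apply ℝ ℝ i)

theorem cd_evR {δ : P2} (r : T δ) {v : Fin 2 → ℝ} (h : MvPolynomial.aeval v δ ≠ 0) :
    ContDiffAt ℝ 1 (evR r) v := by
  obtain ⟨A, n, hA⟩ := evT_rep r
  have h1 : ContDiffAt ℝ 1
      (fun w : Fin 2 → ℝ => MvPolynomial.aeval w A / MvPolynomial.aeval w δ ^ n) v :=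
    (cd_aeval A).contDiffAt.div ((cd_aeval δ).contDiffAt.pow n) (pow_ne_zero n h)
  refine h1.congr_of_eventuallyEq ?_
  filter_upwards [near_ne h] with w hw
  rw [evR_eq r hw, hA w hw]

/-- the differential at `v` -/
noncomputable def dR {δ : P2} (v : Fin 2 → ℝ) (r : T δ) : (Fin 2 → ℝ) →L[ℝ] ℝ :=
  fderiv ℝ (evR r) v

section

variable {δ : P2} {v : Fin 2 → ℝ} (h : MvPolynomial.aeval v δ ≠ 0)
include h

theorem dR_add (r s : T δ) : dR v (r + s) = dR v r + dR v s := by
  have e : evR (r + s) =ᶠ[𝓝 v] fun w => evR r w + evR s w := by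
    filter_upwards [near_ne h] with w hw
    rw [evR_eq _ hw, evR_eq _ hw, evR_eq _ hw, map_add]
  rw [dR, e.fderiv_eq, fderiv_fun_add (diff_evR r h) (diff_evR s h)]
  rfl

theorem dR_mul (r s : T δ) :
    dR v (r * s) = evT δ v h r • dR v s + evT δ v h s • dR v r := by
  have e : evR (r * s) =ᶠ[𝓝 v] fun w => evR r w * evR s w := by
    filter_upwards [near_ne h] with w hw
    rw [evR_eq _ hw, evR_eq _ hw, evR_eq _ hw, map_mul]
  rw [dR, e.fderiv_eq, fderiv_fun_mul (diff_evR r h) (diff_evR s h), evR_eq _ h, evR_eq _ h]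
  rfl

theorem dR_const (q : ℚ) : dR v (algebraMap ℚ (T δ) q) = 0 := by
  have e : evR (algebraMap ℚ (T δ) q) =ᶠ[𝓝 v] fun _ => (q : ℝ) := by
    filter_upwards [near_ne h] with w hw
    rw [evR_eq _ hw, RingHom.map_rat_algebraMap]
    rfl
  rw [dR, e.fderiv_eq]
  exact fderiv_const_apply _

theorem dR_x (i : Fin 2) (u : Fin 2 → ℝ) : dR v (xT δ i) u = u i := by
  have e : evR (xT δ i) =ᶠ[𝓝 v] fun w => w i := by
    filter_upwards [near_ne h] with w hw
    rw [evR_eq _ hw, evT_x]
  rw [dR, e.fderiv_eq, (hasFDerivAt_apply i v).fderiv]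
  rfl

theorem dR_aeval (u : Fin 3 → T δ) (F : MvPolynomial (Fin 3) ℚ) :
    dR v (MvPolynomial.aeval u F) = ∑ i,
      MvPolynomial.aeval (fun j => evT δ v h (u j)) (MvPolynomial.pderiv i F) • dR v (u i) := by
  induction F using MvPolynomial.induction_on with
  | C q => simp [dR_const h]
  | add p q hp hq =>
    simp only [map_add, dR_add h, hp, hq, add_smul, Finset.sum_add_distrib]
  | mul_X p i hp =>
    have e : evT δ v h (MvPolynomial.aeval u p)
        = MvPolynomial.aeval (fun j => evT δ v h (u j)) p := by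
      have := MvPolynomial.comp_aeval_apply (f := u) (evT δ v h).toRatAlgHom p
      exact this
    rw [map_mul, MvPolynomial.aeval_X, dR_mul h, hp, e]
    simp only [Derivation.leibniz, smul_eq_mul, map_add, map_mul, MvPolynomial.aeval_X, add_smul,
      Finset.sum_add_distrib, Finset.smul_sum, smul_smul, MvPolynomial.pderiv_X]
    congr 1
    rw [Finset.sum_eq_single i]
    · simp
    · intro j _ hj
      simp [Pi.single_eq_of_ne hj.symm]
    · simp

/-- the differential of any element is a combination of the differentials of `a` and `b` -/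
theorem dR_span {a b : T δ} (hab : AlgebraicIndependent ℚ ![evT δ v h a, evT δ v h b]) (r : T δ) :
    ∃ (c : ℝ) (F G : MvPolynomial (Fin 3) ℚ), dR v r = c • dR v a -
      (MvPolynomial.aeval ![evT δ v h a, evT δ v h b, evT δ v h r] F /
        MvPolynomial.aeval ![evT δ v h a, evT δ v h b, evT δ v h r] G) • dR v b := by
  obtain ⟨F, hF, hX⟩ := exists_rel (evT δ v h) hab r
  have h1 := dR_aeval h ![a, b, r] F
  have e : (fun j => evT δ v h (![a, b, r] j)) = ![evT δ v h a, evT δ v h b, evT δ v h r] := by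
    funext j; fin_cases j <;> rfl
  have h0 : dR v (0 : T δ) = 0 := by simpa using dR_const h 0
  rw [hF, h0, e, Fin.sum_univ_three] at h1
  refine ⟨-(MvPolynomial.aeval ![evT δ v h a, evT δ v h b, evT δ v h r] (MvPolynomial.pderiv 0 F)
    / MvPolynomial.aeval ![evT δ v h a, evT δ v h b, evT δ v h r] (MvPolynomial.pderiv 2 F)),
    MvPolynomial.pderiv 1 F, MvPolynomial.pderiv 2 F, ?_⟩
  ext1 u
  have h2 := DFunLike.congr_fun h1 u
  simp only [zero_apply, add_apply,
    smul_apply, smul_eq_mul, Matrix.cons_val_zero, Matrix.cons_val_one,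
    Matrix.cons_val] at h2
  simp only [sub_apply, smul_apply, smul_eq_mul]
  field_simp
  linear_combination -h2

theorem dR_indep {a b : T δ} (hab : AlgebraicIndependent ℚ ![evT δ v h a, evT δ v h b])
    {s t : ℝ} (e : s • dR v a + t • dR v b = 0) : t = 0 := by
  obtain ⟨c1, F, G, hc⟩ := dR_span h hab (xT δ 0)
  obtain ⟨d1, F', G', hd⟩ := dR_span h hab (xT δ 1)
  obtain ⟨c2, hc⟩ : ∃ c2 : ℝ, dR v (xT δ 0) = c1 • dR v a - c2 • dR v b := ⟨_, hc⟩
  obtain ⟨d2, hd⟩ : ∃ d2 : ℝ, dR v (xT δ 1) = d1 • dR v a - d2 • dR v b := ⟨_, hd⟩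
  have c0 := DFunLike.congr_fun hc ![1, 0]
  have c1' := DFunLike.congr_fun hc ![0, 1]
  have d0 := DFunLike.congr_fun hd ![1, 0]
  have d1' := DFunLike.congr_fun hd ![0, 1]
  have e0 := DFunLike.congr_fun e ![1, 0]
  have e1 := DFunLike.congr_fun e ![0, 1]
  rw [dR_x h] at c0 c1' d0 d1'
  simp only [zero_apply, add_apply,
    sub_apply, smul_apply, smul_eq_mul,
    Matrix.cons_val_zero, Matrix.cons_val_one] at c0 c1' d0 d1' e0 e1
  generalize dR v a ![1, 0] = a0 at *
  generalize dR v a ![0, 1] = a1 at *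
  generalize dR v b ![1, 0] = b0 at *
  generalize dR v b ![0, 1] = b1 at *
  have hdet : (c2 * d1 - c1 * d2) * (a0 * b1 - a1 * b0) = 1 := by
    have : (c2 * d1 - c1 * d2) * (a0 * b1 - a1 * b0)
        = (c1 * a0 - c2 * b0) * (d1 * a1 - d2 * b1) - (c1 * a1 - c2 * b1) * (d1 * a0 - d2 * b0) := by
      ring
    rw [this, ← c0, ← c1', ← d0, ← d1']; norm_num
  have ht : t * (a0 * b1 - a1 * b0) = 0 := by linear_combination a0 * e1 - a1 * e0
  linear_combination (c2 * d1 - c1 * d2) * ht - t * hdet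

/-- the map to `(a, b)` is open at a generic point -/
theorem map_open {a b : T δ} (hab : AlgebraicIndependent ℚ ![evT δ v h a, evT δ v h b]) :
    map (fun w => (evR a w, evR b w)) (𝓝 v) = 𝓝 (evR a v, evR b v) := by
  have hba : AlgebraicIndependent ℚ ![evT δ v h b, evT δ v h a] := by
    convert hab.comp ![1, 0] (by decide) using 1
    funext i
    fin_cases i <;> rfl
  have hs : HasStrictFDerivAt (fun w => (evR a w, evR b w)) ((dR v a).prod (dR v b)) v :=
    ((cd_evR a h).hasStrictFDerivAt one_ne_zero).prodMk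
      ((cd_evR b h).hasStrictFDerivAt one_ne_zero)
  refine hs.map_nhds_eq_of_surj ?_
  by_contra hne
  obtain ⟨g, hg0, hg⟩ := Submodule.exists_le_ker_of_lt_top _ (lt_top_iff_ne_top.2 hne)
  have e : ∀ x y : ℝ, g (x, y) = g (1, 0) * x + g (0, 1) * y := fun x y => by
    have : ((x, y) : ℝ × ℝ) = x • (1, 0) + y • (0, 1) := by simp
    rw [this, map_add, map_smul, map_smul, smul_eq_mul, smul_eq_mul]
    ring
  have e1 : g (1, 0) • dR v a + g (0, 1) • dR v b = 0 := by
    ext1 u
    have : g (dR v a u, dR v b u) = 0 := hg ⟨u, rfl⟩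
    rw [e] at this
    simpa using this
  have t0 := dR_indep h hab e1
  have s0 := dR_indep h hba (by rw [add_comm]; exact e1)
  refine hg0 (LinearMap.ext fun p => ?_)
  rw [show p = (p.1, p.2) from rfl, e, t0, s0]
  simp

end

theorem aeval_mem {K : Type} [Field K] [Algebra K ℂ] (S : IntermediateField K ℂ) (u : Fin 3 → ℝ)
    (hu : ∀ i, (u i : ℂ) ∈ S) (F : MvPolynomial (Fin 3) ℚ) :
    ((MvPolynomial.aeval u F : ℝ) : ℂ) ∈ S := by
  induction F using MvPolynomial.induction_on with
  | C q => simp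
  | add p q hp hq => rw [map_add, Complex.ofReal_add]; exact add_mem hp hq
  | mul_X p i hp =>
    rw [map_mul, MvPolynomial.aeval_X, Complex.ofReal_mul]; exact mul_mem hp (hu i)

theorem mem_rad {k : Subfield ℂ} {S : Set ℂ} {z : ℂ} (hz : z ∈ S) :
    z ∈ solvableByRad (IntermediateField.adjoin k S) ℂ :=
  IntermediateField.algebraMap_mem (solvableByRad (IntermediateField.adjoin k S) ℂ)
    ⟨z, IntermediateField.subset_adjoin k S hz⟩

theorem neg_of {k l : ℕ} {δ : P2} {a b lam : T δ} (hP : Piece k l a b lam) (hB : Bad a b lam) :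
    Neg k l := by
  obtain ⟨x, O, hO, hne, hgood⟩ := hP
  obtain ⟨v0, hv0, hind⟩ := exists_indep hO hne
  obtain ⟨h0, -⟩ := hgood v0 hv0
  have hn : (fun w => (evR a w, evR b w)) '' O ∈ 𝓝 (evR a v0, evR b v0) := by
    rw [← map_open h0 (indep_of_bad hB (evT δ v0 h0) (evT_inj hind h0))]
    exact image_mem_map (hO.mem_nhds hv0)
  refine ⟨interior ((fun w => (evR a w, evR b w)) '' O), isOpen_interior,
    ⟨_, mem_interior_iff_mem_nhds.2 hn⟩, fun a' b' hab' => ?_⟩
  obtain ⟨v, hv, e⟩ := interior_subset hab'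
  obtain ⟨h, hmax, mu, hmu⟩ := hgood v hv
  obtain ⟨rfl, rfl⟩ : evT δ v h a = a' ∧ evT δ v h b = b' := by
    rw [← evR_eq _ h, ← evR_eq _ h]
    exact Prod.mk.inj e
  refine ⟨_, hmax, fun K hK hrad => ?_⟩
  have hab : AlgebraicIndependent ℚ ![evT δ v h a, evT δ v h b] := by
    refine AlgebraicIndependent.of_comp Complex.ofRealHom.toRatAlgHom ?_
    rw [gen_pair_comp]
    exact indep_rat (φ := algebraMap K ℂ) hK
  refine not_rad_of_bad hB K (Complex.ofRealHom.comp (evT δ v h)) hK ?_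
  have hloc : IsLocalMax (fun w => evR x w + evT δ v h lam * evR b w + mu * evR a w) v := by
    filter_upwards [hO.mem_nhds hv] with w hw
    obtain ⟨hw', hmax', -⟩ := hgood w hw
    rw [evR_eq _ hw', evR_eq _ hw', evR_eq _ hw', evR_eq _ h, evR_eq _ h, evR_eq _ h]
    exact hmu _ _ _ hmax'.1
  have hder : HasFDerivAt (fun w => evR x w + evT δ v h lam * evR b w + mu * evR a w)
      (dR v x + evT δ v h lam • dR v b + mu • dR v a) v :=
    ((diff_evR x h).hasFDerivAt.fun_add ((diff_evR b h).hasFDerivAt.const_mul _)).fun_add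
      ((diff_evR a h).hasFDerivAt.const_mul _)
  have hz := hloc.hasFDerivAt_eq_zero hder
  obtain ⟨c, F, G, hc⟩ := dR_span h hab x
  have hlam := dR_indep h hab (s := c + mu) (t := evT δ v h lam -
      MvPolynomial.aeval ![evT δ v h a, evT δ v h b, evT δ v h x] F /
        MvPolynomial.aeval ![evT δ v h a, evT δ v h b, evT δ v h x] G) (by
    rw [← hz, hc]; module)
  change ((evT δ v h lam : ℝ) : ℂ) ∈ solvableByRad
    (IntermediateField.adjoin K ({((evT δ v h a : ℝ) : ℂ), ((evT δ v h b : ℝ) : ℂ)} : Set ℂ)) ℂ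
  have hu : ∀ i, ((![evT δ v h a, evT δ v h b, evT δ v h x] i : ℝ) : ℂ) ∈ solvableByRad
      (IntermediateField.adjoin K ({((evT δ v h a : ℝ) : ℂ), ((evT δ v h b : ℝ) : ℂ)} : Set ℂ))
      ℂ := by
    intro i
    fin_cases i
    · exact mem_rad (Set.mem_insert _ _)
    · exact mem_rad (Set.mem_insert_of_mem _ rfl)
    · exact hrad
  rw [sub_eq_zero.1 hlam, Complex.ofReal_div]
  exact div_mem (aeval_mem _ _ hu F) (aeval_mem _ _ hu G)

end Pool.Agent.Lib.MP_55068a_an.Dy
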