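import Mathlib
import Pool.Agent.Lib.MP_55068a_an.Dy.Base

namespace Pool.Agent.Lib.MP_55068a_an.Dy

open Polynomial

section Nat

variable {A B : Type} [CommRing A] [Algebra ℚ A] [CommRing B] [Algebra ℚ B] (φ : A →+* B)

theorem map_Lg (y e : A) (n : ℕ) : φ (Lg y e n) = Lg (φ y) (φ e) n := by
  induction n using Nat.twoStepInduction with
  | zero => simp [Lg]
  | one => simp [Lg]
  | more n h0 h1 => simp only [Lg, map_sub, map_mul, RingHom.map_rat_algebraMap, h0, h1]

omit [Algebra ℚ A] [Algebra ℚ B] in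
theorem map_sh {c : ℕ → A} {c' : ℕ → B} (h : ∀ n, φ (c n) = c' n) (j d : ℕ) :
    φ (sh c j d) = sh c' j d := by
  unfold sh
  split_ifs
  · exact h _
  · exact map_zero φ

theorem map_Mg (y e : A) (n : ℕ) : φ (Mg y e n) = Mg (φ y) (φ e) n := by
  simp only [Mg, map_add, map_sub, map_mul, map_ofNat, map_sh φ (map_Lg φ y e), map_Lg]

theorem map_Sg (y e u : A) (m n : ℕ) : φ (Sg y e u m n) = Sg (φ y) (φ e) (φ u) m n := by
  simp only [Sg, map_add, map_sub, map_mul, map_pow, map_sh φ (map_Lg φ y e), map_Lg,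
    RingHom.map_rat_algebraMap]

theorem map_Tg (y e u : A) (m n : ℕ) : φ (Tg y e u m n) = Tg (φ y) (φ e) (φ u) m n := by
  simp only [Tg, map_sub, map_mul, map_sh φ (map_Mg φ y e), map_Mg, RingHom.map_rat_algebraMap]

theorem map_aR1 (y e u : A) (k l : ℕ) : φ (aR1 y e u k l) = aR1 (φ y) (φ e) (φ u) k l := by
  simp only [aR1, map_neg, map_Sg]

theorem map_bR1 (y e u : A) (k l : ℕ) : φ (bR1 y e u k l) = bR1 (φ y) (φ e) (φ u) k l := by
  simp only [bR1, map_neg, map_sum, map_mul, map_pow, map_Sg, map_Tg]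

theorem map_Gg (g h : A) (n : ℕ) : φ (Gg g h n) = Gg (φ g) (φ h) n := by
  induction n using Nat.strong_induction_on with
  | _ n ih =>
    match n with
    | 0 => simp [Gg]
    | 1 => simp [Gg]
    | 2 => simp [Gg]
    | 3 => simp only [Gg, map_add, map_sub, map_mul, map_pow, map_ofNat]
    | n + 4 =>
      simp only [Gg, map_add, map_sub, map_mul, map_pow, map_ofNat, map_natCast,
        RingHom.map_rat_algebraMap, ih (n + 3) (by omega), ih (n + 2) (by omega),
        ih (n + 1) (by omega), ih n (by omega)]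

theorem map_bMain (a u : A) (k l : ℕ) : φ (bMain a u k l) = bMain (φ a) (φ u) k l := by
  unfold bMain
  rw [map_add, map_sum]
  congr 1
  · simp only [map_mul, map_pow, RingHom.map_rat_algebraMap]
  · split_ifs
    · simp only [map_mul, map_pow, RingHom.map_rat_algebraMap]
    · exact map_zero φ

end Nat

section Hom

variable {A : Type} [CommRing A] [Algebra ℚ A]

theorem Lg_hom (s y e : A) (n : ℕ) : Lg (s * y) (s ^ 2 * e) n = s ^ n * Lg y e n := by
  induction n using Nat.twoStepInduction with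
  | zero => simp [Lg]
  | one => simp [Lg]
  | more n h0 h1 => simp only [Lg, h0, h1]; ring

omit [Algebra ℚ A] in
theorem sh_hom {s : A} {c c' : ℕ → A} (h : ∀ n, c' n = s ^ n * c n) (j d : ℕ) :
    s ^ d * sh c' j d = s ^ j * sh c j d := by
  unfold sh
  split_ifs with hd
  · rw [h, ← mul_assoc, ← pow_add, Nat.add_sub_cancel' hd]
  · simp

theorem Mg_hom (s y e : A) (n : ℕ) : Mg (s * y) (s ^ 2 * e) n = s ^ n * Mg y e n := by
  simp only [Mg, Lg_hom]
  have h1 := sh_hom (Lg_hom s y e) n 1
  have h2 := sh_hom (Lg_hom s y e) n 2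
  linear_combination (-2 * y) * h1 + e * h2

theorem Sg_hom (s y e u : A) (m n : ℕ) :
    Sg (s * y) (s ^ 2 * e) (s ^ m * u) m n = s ^ n * Sg y e u m n := by
  simp only [Sg, Lg_hom]
  have h1 := sh_hom (Lg_hom s y e) n m
  have h2 := sh_hom (Lg_hom s y e) n (2 * m)
  linear_combination (algebraMap ℚ A (1 / 2) * u) * h1 - (algebraMap ℚ A (1 / 8) * u ^ 2) * h2

theorem Tg_hom (s y e u : A) (m n : ℕ) :
    Tg (s * y) (s ^ 2 * e) (s ^ m * u) m n = s ^ n * Tg y e u m n := by
  simp only [Tg, Mg_hom]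
  have h1 := sh_hom (Mg_hom s y e) n m
  linear_combination (-(algebraMap ℚ A (1 / 2) * u)) * h1

theorem aR1_hom (s y e u : A) (k l : ℕ) :
    aR1 (s * y) (s ^ 2 * e) (s ^ (l - k) * u) k l = s ^ (l - 1) * aR1 y e u k l := by
  simp only [aR1, Sg_hom]; ring

theorem bR1_hom (s y e u : A) {k l : ℕ} (hkl : k < l) :
    bR1 (s * y) (s ^ 2 * e) (s ^ (l - k) * u) k l = s ^ (l - 1 + k) * bR1 y e u k l := by
  simp only [bR1, Sg_hom, Tg_hom, mul_neg, Finset.mul_sum]
  congr 1
  refine Finset.sum_congr rfl fun i hi => ?_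
  have hi' : i ≤ k := Nat.lt_succ_iff.1 (Finset.mem_range.1 hi)
  have e1 : l - 1 + k = 2 * i + (l - 1 - i) + (k - i) := by omega
  rw [e1]
  ring

theorem cast_mul_div (n : ℕ) (c p : ℚ) (hc : 0 < c) :
    ((n : A) + algebraMap ℚ A c) * algebraMap ℚ A (p / (n + c)) = algebraMap ℚ A p := by
  rw [← map_natCast (algebraMap ℚ A), ← map_add, ← map_mul]
  congr 1
  have : (n : ℚ) + c ≠ 0 := by positivity
  field_simp

theorem Lg_rec' (y e : A) (n : ℕ) :
    ((n : A) + 2) * Lg y e (n + 2) = (2 * n + 3) * y * Lg y e (n + 1) - (n + 1) * e * Lg y e n := by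
  have h1 := cast_mul_div (A := A) n 2 (2 * n + 3) (by norm_num)
  have h2 := cast_mul_div (A := A) n 2 (n + 1) (by norm_num)
  simp only [map_add, map_mul, map_ofNat, map_natCast, map_one] at h1 h2
  simp only [Lg]
  linear_combination (y * Lg y e (n + 1)) * h1 - (e * Lg y e n) * h2

theorem eq_one_of_deriv {F : PowerSeries A} (h0 : PowerSeries.constantCoeff F = 1)
    (hd : PowerSeries.derivative A F = 0) : F = 1 := by
  ext n
  rcases n with _ | n
  · simpa using h0
  · have h1 := congrArg (PowerSeries.coeff n) hd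
    rw [PowerSeries.coeff_derivative, map_zero] at h1
    have h2 := cast_mul_div (A := A) n 1 1 (by norm_num)
    rw [map_one] at h2
    rw [PowerSeries.coeff_one, if_neg (by omega)]
    linear_combination (algebraMap ℚ A (1 / (n + 1))) * h1 - (PowerSeries.coeff (n + 1) F) * h2

omit [Algebra ℚ A] in
theorem coeff_X_mul' (F : PowerSeries A) (n : ℕ) :
    PowerSeries.coeff n (PowerSeries.X * F) = if 1 ≤ n then PowerSeries.coeff (n - 1) F else 0 := by
  rw [← PowerSeries.coeff_X_pow_mul', pow_one]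

theorem Lg_sq (y e : A) :
    (1 - PowerSeries.C (2 * y) * PowerSeries.X + PowerSeries.C e * PowerSeries.X ^ 2)
      * PowerSeries.mk (Lg y e) ^ 2 = 1 := by
  have hd : (1 - PowerSeries.C (2 * y) * PowerSeries.X + PowerSeries.C e * PowerSeries.X ^ 2)
      * PowerSeries.derivative A (PowerSeries.mk (Lg y e))
      = (PowerSeries.C y - PowerSeries.C e * PowerSeries.X) * PowerSeries.mk (Lg y e) := by
    ext n
    simp only [add_mul, sub_mul, one_mul, mul_assoc, map_add, map_sub, PowerSeries.coeff_C_mul,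
      PowerSeries.coeff_X_pow_mul', coeff_X_mul', PowerSeries.coeff_derivative,
      PowerSeries.coeff_mk]
    rcases n with _ | _ | n
    · simp [Lg]
    · have := Lg_rec' y e 0
      simp [Lg] at this ⊢
      linear_combination this
    · have := Lg_rec' y e (n + 1)
      rw [if_pos (by omega), if_pos (by omega), if_pos (by omega)]
      have e1 : n + 1 + 1 - 1 = n + 1 := by omega
      have e2 : n + 1 + 1 - 2 = n := by omega
      rw [e1, e2]
      push_cast at this ⊢
      linear_combination this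
  apply eq_one_of_deriv
  · simp [Lg]
  · simp only [Derivation.leibniz, Derivation.leibniz_pow, map_add, map_sub, smul_eq_mul,
      PowerSeries.derivative_C, PowerSeries.derivative_X, Derivation.map_one_eq_zero, map_mul,
      map_ofNat, nsmul_eq_mul]
    simp only [map_mul, map_ofNat] at hd
    have h2 : PowerSeries.derivative A (2 : PowerSeries A) = 0 := by
      have := (PowerSeries.derivative A).map_natCast 2
      exact_mod_cast this
    rw [h2]
    push_cast
    linear_combination (2 * PowerSeries.mk (Lg y e)) * hd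

theorem mk_Mg (y e : A) : PowerSeries.mk (Mg y e)
    = (1 - PowerSeries.C (2 * y) * PowerSeries.X + PowerSeries.C e * PowerSeries.X ^ 2)
      * PowerSeries.mk (Lg y e) := by
  ext n
  simp only [add_mul, sub_mul, one_mul, mul_assoc, map_add, map_sub, PowerSeries.coeff_C_mul,
    PowerSeries.coeff_X_pow_mul', coeff_X_mul', PowerSeries.coeff_mk, Mg, sh]

omit [Algebra ℚ A] in
theorem mk_sh (c : ℕ → A) (d : ℕ) :
    PowerSeries.mk (fun j => sh c j d) = PowerSeries.mk c * PowerSeries.X ^ d := by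
  ext n
  simp only [PowerSeries.coeff_mul_X_pow', PowerSeries.coeff_mk, sh]

theorem Gg_rec (g h : A) (n : ℕ) :
    ((n : A) + 4) * Gg g h (n + 4) = (2 * n + 7) * g * Gg g h (n + 3)
      - (n + 3) * (3 * g ^ 2 - 2 * h) * Gg g h (n + 2) + (2 * n + 5) * g * Gg g h (n + 1)
      - (n + 2) * Gg g h n := by
  have h1 := cast_mul_div (A := A) n 4 1 (by norm_num)
  simp only [map_ofNat, map_one] at h1
  rw [Gg, ← mul_assoc, h1, one_mul]

theorem Gg_sq (g h : A) :
    (1 - PowerSeries.C (2 * g) * PowerSeries.X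
      + PowerSeries.C (3 * g ^ 2 - 2 * h) * PowerSeries.X ^ 2
      - PowerSeries.C (2 * g) * PowerSeries.X ^ 3 + PowerSeries.X ^ 4)
      * PowerSeries.mk (Gg g h) ^ 2 = 1 := by
  have hd : (1 - PowerSeries.C (2 * g) * PowerSeries.X
      + PowerSeries.C (3 * g ^ 2 - 2 * h) * PowerSeries.X ^ 2
      - PowerSeries.C (2 * g) * PowerSeries.X ^ 3 + PowerSeries.X ^ 4)
      * PowerSeries.derivative A (PowerSeries.mk (Gg g h))
      = (PowerSeries.C g - PowerSeries.C (3 * g ^ 2 - 2 * h) * PowerSeries.X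
        + PowerSeries.C (3 * g) * PowerSeries.X ^ 2 - PowerSeries.C 2 * PowerSeries.X ^ 3)
        * PowerSeries.mk (Gg g h) := by
    ext n
    simp only [add_mul, sub_mul, one_mul, mul_assoc, map_add, map_sub (PowerSeries.coeff n),
      PowerSeries.coeff_C_mul,
      PowerSeries.coeff_X_pow_mul', coeff_X_mul', PowerSeries.coeff_derivative,
      PowerSeries.coeff_mk]
    rcases n with _ | _ | _ | _ | n
    · simp [Gg]
    · simp [Gg]; ring
    · simp [Gg]; ring
    · have := Gg_rec g h 0
      simp at this ⊢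
      simp only [Gg] at this ⊢
      linear_combination this
    · have := Gg_rec g h (n + 1)
      rw [if_pos (by omega), if_pos (by omega), if_pos (by omega), if_pos (by omega),
        if_pos (by omega), if_pos (by omega), if_pos (by omega)]
      have e1 : n + 1 + 1 + 1 + 1 - 1 = n + 3 := by omega
      have e2 : n + 1 + 1 + 1 + 1 - 2 = n + 2 := by omega
      have e3 : n + 1 + 1 + 1 + 1 - 3 = n + 1 := by omega
      have e4 : n + 1 + 1 + 1 + 1 - 4 = n := by omega
      rw [e1, e2, e3, e4]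
      push_cast at this ⊢
      linear_combination this
  apply eq_one_of_deriv
  · simp [Gg]
  · have h2 : PowerSeries.C (2 * g) = 2 * PowerSeries.C g := by rw [map_mul, map_ofNat]
    have h3 : PowerSeries.C (3 * g) = 3 * PowerSeries.C g := by rw [map_mul, map_ofNat]
    have h4 : PowerSeries.C (2 : A) = 2 := map_ofNat _ _
    simp only [Derivation.leibniz, Derivation.leibniz_pow, map_add,
      map_sub (PowerSeries.derivative A), smul_eq_mul,
      PowerSeries.derivative_C, PowerSeries.derivative_X, Derivation.map_one_eq_zero,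
      nsmul_eq_mul]
    rw [h2, h3, h4] at hd
    rw [h2]
    push_cast
    linear_combination (2 * PowerSeries.mk (Gg g h)) * hd

theorem Lg_one (n : ℕ) : Lg (1 : A) 1 n = 1 := by
  induction n using Nat.twoStepInduction with
  | zero => simp [Lg]
  | one => simp [Lg]
  | more n h0 h1 =>
    simp only [Lg, h0, h1, mul_one]
    rw [← map_sub, ← map_one (algebraMap ℚ A)]
    congr 1
    have : (n : ℚ) + 2 ≠ 0 := by positivity
    field_simp
    ring

theorem Lg_zero (y : A) (n : ℕ) : Lg y 0 n = algebraMap ℚ A (cQ n) * y ^ n := by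
  have h := Lg_hom y (1 : A) 0 n
  rw [mul_one, mul_zero] at h
  rw [h, cQ, map_Lg, map_one, map_zero, mul_comm]

theorem Mg_zero (y : A) (n : ℕ) : Mg y 0 n = algebraMap ℚ A (sQ n) * y ^ n := by
  have h := Mg_hom y (1 : A) 0 n
  rw [mul_one, mul_zero] at h
  rw [h, sQ, map_Mg, map_one, map_zero, mul_comm]

/-- the recurrence without denominators -/
theorem Lg_rec (y e : A) (n : ℕ) :
    ((n : A) + 2) * Lg y e (n + 2) = (2 * n + 3) * y * Lg y e (n + 1) - (n + 1) * e * Lg y e n := by
  exact Lg_rec' y e n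

theorem Mg_rec (y e : A) (n : ℕ) :
    (2 * (n : A) + 3) * Mg y e (n + 2) = e * Lg y e n - Lg y e (n + 2) := by
  have h := Lg_rec y e n
  simp only [Mg, sh]
  rw [if_pos (by omega), if_pos (by omega)]
  have e1 : n + 2 - 1 = n + 1 := by omega
  have e2 : n + 2 - 2 = n := by omega
  rw [e1, e2]
  linear_combination 2 * h

end Hom

theorem cQ_zero : cQ 0 = 1 := by
  simp [cQ, Lg]

theorem cQ_succ (n : ℕ) : cQ (n + 1) = (2 * n + 1) / (n + 1) * cQ n := by
  rcases n with _ | n
  · simp [cQ, Lg]
  · have h := Lg_rec (1 : ℚ) 0 n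
    have h2 : (n : ℚ) + 1 + 1 ≠ 0 := by positivity
    simp only [cQ]
    push_cast
    field_simp
    linear_combination h

theorem cQ_pos (n : ℕ) : 0 < cQ n := by
  induction n with
  | zero => rw [cQ_zero]; exact one_pos
  | succ n ih => rw [cQ_succ]; positivity

theorem sQ_zero : sQ 0 = 1 := by
  simp [sQ, Mg, Lg, sh]

theorem sQ_succ (n : ℕ) : sQ (n + 1) = -cQ n / (n + 1) := by
  have h := cQ_succ n
  have h2 : (n : ℚ) + 1 ≠ 0 := by positivity
  simp only [sQ, Mg, sh, cQ] at h ⊢
  rw [if_pos (by omega), Nat.add_sub_cancel, h]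
  field_simp
  ring

end Pool.Agent.Lib.MP_55068a_an.Dy
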