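import Mathlib
import Pool.Agent.Lib.MP_55068a_an.Dy.Ser

namespace Pool.Agent.Lib.MP_55068a_an.Dy

open Polynomial

/-- `Cert` with the two multipliers displayed. -/
def CertM (k l : ℕ) (a b x lam mu : ℝ) : Prop :=
  ∃ (n r : ℕ) (ε : ℝ) (s R P : ℝ[X]), n + r = l ∧ (ε = 1 ∨ ε = -1) ∧ s.natDegree ≤ n ∧
    Stable s ∧ (∀ z : ℂ, ‖z‖ = 1 → ∃ ρ : ℝ, 0 ≤ ρ ∧ (ε : ℂ) * aeval z R = ρ * z ^ r) ∧
    X ^ (l + 1) ∣ R * s ^ 2 - (1 + C lam * X ^ (l - k) + C mu * X ^ l) ∧
    X ^ (l + 1) ∣ P * s - C ε * reflect n s ∧ P.coeff 0 = a ∧ P.coeff k = b ∧ P.coeff l = x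

theorem CertM.expand {k l : ℕ} {a b x lam mu : ℝ} (h : CertM k l a b x lam mu) {g : ℕ}
    (hg : 0 < g) : CertM (g * k) (g * l) a b x lam mu := by
  obtain ⟨n, r, ε, s, R, P, hl, hε, hs, hs0, hR, h1, h2, ha, hb, hx⟩ := h
  have hd : ∀ Q : ℝ[X], X ^ (l + 1) ∣ Q → X ^ (g * l + 1) ∣ Polynomial.expand ℝ g Q := by
    intro Q hQ
    have := map_dvd (Polynomial.expand ℝ g) hQ
    rw [map_pow, expand_X, ← pow_mul] at this
    exact (pow_dvd_pow X (by nlinarith)).trans this
  refine ⟨g * n, g * r, ε, Polynomial.expand ℝ g s, Polynomial.expand ℝ g R,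
    Polynomial.expand ℝ g P, by rw [← mul_add, hl], hε, ?_, ?_, ?_, ?_, ?_, ?_, ?_, ?_⟩
  · rw [natDegree_expand, mul_comm]; exact Nat.mul_le_mul_left _ hs
  · intro z hz
    rw [expand_aeval]
    exact hs0 _ (by rw [norm_pow]; exact pow_lt_one₀ (norm_nonneg _) hz hg.ne')
  · intro z hz
    rw [expand_aeval, pow_mul]
    exact hR _ (by rw [norm_pow, hz, one_pow])
  · have := hd _ h1
    simpa [← pow_mul, Nat.mul_sub] using this
  · have := hd _ h2
    simpa [reflect_expand hg] using this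
  · simpa [ha] using coeff_expand_mul' hg P 0
  · rw [coeff_expand_mul' hg, hb]
  · rw [coeff_expand_mul' hg, hx]

theorem CertM.good_one {k l : ℕ} (hkl : k < l) {a b x lam mu : ℝ} (ha : |a| < 1)
    (h : CertM k l a b x lam mu) : Good k l a b x lam := by
  obtain ⟨n, r, ε, s, R, P, hl, hε, hs, hs0, hR, h1, h2, h0, hb, hx⟩ := h
  refine ⟨Cert.isGreatest hkl ha ⟨n, r, ε, mu, lam, s, R, P, hl, hε, hs, hs0, hR, h1, h2, h0, hb,
    hx⟩, mu, ?_⟩
  have hε1 : |ε| = 1 := by rcases hε with rfl | rfl <;> simp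
  have hval : ∀ c' : ℕ → ℝ,
      PowerSeries.coeff l (PowerSeries.mk c' * ((R * s ^ 2 : ℝ[X]) : PowerSeries ℝ))
        = c' l + lam * c' k + mu * c' 0 := by
    intro c'
    obtain ⟨H, hH⟩ := h1
    have h3 := congrArg (fun Q : ℝ[X] => (Q : PowerSeries ℝ)) (sub_eq_iff_eq_add.1 hH)
    simp only [Polynomial.coe_add, Polynomial.coe_mul (X ^ _), Polynomial.coe_mul (C _),
      Polynomial.coe_pow (φ := X), Polynomial.coe_X, Polynomial.coe_C, Polynomial.coe_one] at h3
    have h4 := coeff_mul_F (PowerSeries.mk c') hkl.le mu lam 1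
    rw [h3, mul_add, map_add, mul_left_comm, PowerSeries.coeff_X_pow_mul', if_neg (by omega),
      zero_add]
    simpa using h4
  have hP : (C ε * reflect n s * (R * s)).coeff l = x + lam * b + mu * a := by
    have e : PowerSeries.mk P.coeff = (P : PowerSeries ℝ) := by
      ext j; rw [PowerSeries.coeff_mk, Polynomial.coeff_coe]
    have h3 := hval P.coeff
    rw [e, ← Polynomial.coe_mul, Polynomial.coeff_coe, h0, hb, hx] at h3
    have h4 : X ^ (l + 1) ∣ P * (R * s ^ 2) - C ε * reflect n s * (R * s) := by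
      have := h2.mul_right (R * s)
      convert this using 1
      ring
    have h5 := X_pow_dvd_iff.1 h4 l (by omega)
    rw [coeff_sub, sub_eq_zero] at h5
    rw [← h5, h3]
  rintro a' b' x' ⟨c', hc', rfl, rfl, rfl⟩
  have h3 := cert_bound (sch_of_inHR hc').1 s R hs hl hε1 hR
  rwa [hval, hP] at h3

theorem CertM.good {k l : ℕ} (hkl : k < l) {a b x lam mu : ℝ} (ha : |a| < 1)
    (h : CertM k l a b x lam mu) {g : ℕ} (hg : 0 < g) : Good (g * k) (g * l) a b x lam := by
  exact (h.expand hg).good_one (Nat.mul_lt_mul_of_pos_left hkl hg) ha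

theorem Free.zero : Free (fun _ => 1) 0 := by
  intro z _
  simp

theorem aeval_sum {s : ℝ[X]} {n : ℕ} (hs : s.natDegree < n) {c : ℕ → ℝ}
    (hc : ∀ j, j < n → s.coeff j = c j) (z : ℂ) :
    aeval z s = ∑ j ∈ Finset.range n, (c j : ℂ) * z ^ j := by
  rw [aeval_eq_sum_range' hs]
  refine Finset.sum_congr rfl fun j hj => ?_
  rw [hc j (Finset.mem_range.1 hj), Complex.real_smul]

/-- one step of the Schur recursion -/
theorem Free.step {c c' : ℕ → ℝ} {n : ℕ} (h : Free c n) {γ : ℝ} (hγ : |γ| < 1)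
    (h0 : c' 0 = c 0) (h1 : ∀ j, j < n → c' (j + 1) = c (j + 1) + γ * c (n - j))
    (h2 : c' (n + 1) = γ * c 0) : Free c' (n + 1) := by
  set s : ℝ[X] := PowerSeries.trunc (n + 1) (PowerSeries.mk c) with hsdef
  have hs : s.natDegree < n + 1 := PowerSeries.natDegree_trunc_lt _ _
  have hsc : ∀ j, j < n + 1 → s.coeff j = c j := by
    intro j hj
    rw [hsdef, PowerSeries.coeff_trunc, if_pos hj, PowerSeries.coeff_mk]
  have hr : (reflect n s).natDegree < n + 1 := by
    rw [Nat.lt_succ_iff, natDegree_le_iff_coeff_eq_zero]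
    intro j hj
    rw [coeff_reflect, revAt_eq_self_of_lt hj]
    exact coeff_eq_zero_of_natDegree_lt (by omega)
  have hrc : ∀ j, j < n + 1 → (reflect n s).coeff j = c (n - j) := by
    intro j hj
    rw [coeff_reflect, revAt_le (by omega), hsc _ (by omega)]
  have hq : ∀ z : ℂ, ‖z‖ ≤ 1 → aeval z s ≠ 0 := by
    intro z hz
    rw [aeval_sum hs hsc]
    exact h z hz
  intro z hz hzero
  have e : ∑ j ∈ Finset.range (n + 1 + 1), (c' j : ℂ) * z ^ j
      = aeval z s + γ * (z * aeval z (reflect n s)) := by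
    rw [aeval_sum hs hsc, aeval_sum hr hrc, Finset.sum_range_succ, Finset.sum_range_succ',
      Finset.sum_range_succ' (fun j => (c j : ℂ) * z ^ j),
      Finset.sum_range_succ (fun j => (c (n - j) : ℂ) * z ^ j), h0, h2, Nat.sub_self]
    have e2 : ∑ j ∈ Finset.range n, (c' (j + 1) : ℂ) * z ^ (j + 1)
        = ∑ j ∈ Finset.range n, (c (j + 1) : ℂ) * z ^ (j + 1)
          + γ * (z * ∑ j ∈ Finset.range n, (c (n - j) : ℂ) * z ^ j) := by
      rw [Finset.mul_sum, Finset.mul_sum, ← Finset.sum_add_distrib]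
      refine Finset.sum_congr rfl fun j hj => ?_
      rw [h1 j (Finset.mem_range.1 hj)]
      push_cast
      ring
    rw [e2]
    push_cast
    ring
  rw [e] at hzero
  have h3 : ‖aeval z (reflect n s)‖ ≤ ‖aeval z s‖ :=
    norm_le_on_disc hq (fun w hw => (norm_aeval_reflect s (by omega) hw).le) hz
  have h4 : aeval z s = -(γ * (z * aeval z (reflect n s))) := by linear_combination hzero
  have h5 : ‖aeval z s‖ = |γ| * (‖z‖ * ‖aeval z (reflect n s)‖) := by
    rw [h4, norm_neg, norm_mul, norm_mul, Complex.norm_real, Real.norm_eq_abs]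
  have h6 : 0 < ‖aeval z s‖ := norm_pos_iff.2 (hq z hz)
  have h7 : ‖z‖ * ‖aeval z (reflect n s)‖ ≤ 1 * ‖aeval z s‖ := by gcongr
  have h8 : |γ| * (‖z‖ * ‖aeval z (reflect n s)‖) ≤ |γ| * (1 * ‖aeval z s‖) := by gcongr
  nlinarith

theorem dvd_of_coe {A : Type} [CommRing A] {Q : A[X]} {m : ℕ}
    (h : (PowerSeries.X : PowerSeries A) ^ m ∣ (Q : PowerSeries A)) : X ^ m ∣ Q := by
  rw [X_pow_dvd_iff]
  intro d hd
  rw [← Polynomial.coeff_coe]
  exact PowerSeries.X_pow_dvd_iff.1 h d hd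

theorem dvd_sub_trunc {A : Type} [CommRing A] (F : PowerSeries A) (m : ℕ) :
    (PowerSeries.X : PowerSeries A) ^ m ∣ F - (PowerSeries.trunc m F : A[X]) := by
  rw [PowerSeries.X_pow_dvd_iff]
  intro d hd
  rw [map_sub, Polynomial.coeff_coe, PowerSeries.coeff_trunc, if_pos hd, sub_self]

/-- the algebraic part of a certificate, over any ring of parameters -/
theorem cert_ring {A : Type} [CommRing A] {k l n r : ℕ} (hkn : k ≤ n) (hnr : n + r = l)
    (hr : 0 < r) (ε : A) (R : A[X]) (S Tt : PowerSeries A)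
    (lam : A) (h0 : PowerSeries.constantCoeff S = 1)
    (h1 : (PowerSeries.X : PowerSeries A) ^ (l + 1) ∣
      (R : PowerSeries A) * S ^ 2 - (1 + PowerSeries.C lam * PowerSeries.X ^ (l - k)))
    (h2 : ∀ j, n < j → j < l → PowerSeries.coeff j S = 0)
    (h3 : (PowerSeries.X : PowerSeries A) ^ (k + 1) ∣ Tt * S - 1) :
    ∃ (s P : A[X]) (mu : A), s.natDegree < n + 1 ∧
      (∀ j, j < n + 1 → s.coeff j = PowerSeries.coeff j S) ∧
      X ^ (l + 1) ∣ R * s ^ 2 - (1 + C lam * X ^ (l - k) + C mu * X ^ l) ∧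
      X ^ (l + 1) ∣ P * s - C ε * reflect n s ∧ P.coeff 0 = ε * PowerSeries.coeff n S ∧
      P.coeff k = ε * ∑ i ∈ Finset.range (k + 1),
        PowerSeries.coeff (n - i) S * PowerSeries.coeff (k - i) Tt := by
  set s : A[X] := PowerSeries.trunc (n + 1) S with hsdef
  have hsc : ∀ j, j < n + 1 → s.coeff j = PowerSeries.coeff j S := by
    intro j hj
    rw [hsdef, PowerSeries.coeff_trunc, if_pos hj]
  have hs0 : PowerSeries.constantCoeff (s : PowerSeries A) = ((1 : Aˣ) : A) := by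
    rw [Polynomial.constantCoeff_coe, hsc 0 (by omega), PowerSeries.coeff_zero_eq_constantCoeff_apply,
      h0, Units.val_one]
  set I : PowerSeries A := PowerSeries.invOfUnit (s : PowerSeries A) 1 with hIdef
  have hI : (s : PowerSeries A) * I = 1 := PowerSeries.mul_invOfUnit _ _ hs0
  set F : PowerSeries A := ((C ε * reflect n s : A[X]) : PowerSeries A) * I with hFdef
  have hIT : ∀ j, j < k + 1 → PowerSeries.coeff j I = PowerSeries.coeff j Tt := by
    have e1 : (PowerSeries.X : PowerSeries A) ^ (k + 1) ∣ S - (s : PowerSeries A) :=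
      (pow_dvd_pow _ (by omega)).trans (dvd_sub_trunc S (n + 1))
    have e2 : (PowerSeries.X : PowerSeries A) ^ (k + 1) ∣ Tt - I := by
      have := (h3.mul_right I).sub (e1.mul_left (Tt * I))
      convert this using 1
      linear_combination (-Tt) * hI
    intro j hj
    have := PowerSeries.X_pow_dvd_iff.1 e2 j hj
    rw [map_sub, sub_eq_zero] at this
    exact this.symm
  have hF : ∀ j, j ≤ k → PowerSeries.coeff j F = ε * ∑ i ∈ Finset.range (j + 1),
      PowerSeries.coeff (n - i) S * PowerSeries.coeff (j - i) Tt := by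
    intro j hj
    rw [hFdef, Polynomial.coe_mul, Polynomial.coe_C, mul_assoc, PowerSeries.coeff_C_mul,
      PowerSeries.coeff_mul, Finset.Nat.sum_antidiagonal_eq_sum_range_succ_mk]
    congr 1
    refine Finset.sum_congr rfl fun i hi => ?_
    have hi' : i < j + 1 := Finset.mem_range.1 hi
    rw [Polynomial.coeff_coe, coeff_reflect, revAt_le (by omega), hsc _ (by omega),
      hIT _ (by omega)]
  have hT0 : PowerSeries.coeff 0 Tt = 1 := by
    have := PowerSeries.X_pow_dvd_iff.1 h3 0 (by omega)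
    simp only [PowerSeries.coeff_zero_eq_constantCoeff, map_sub, map_mul, map_one, h0] at this ⊢
    linear_combination this
  have hR0 : PowerSeries.constantCoeff (R : PowerSeries A) = 1 := by
    have := PowerSeries.X_pow_dvd_iff.1 h1 0 (by omega)
    simp only [PowerSeries.coeff_zero_eq_constantCoeff, map_sub, map_add, map_mul, map_one,
      map_pow, h0, PowerSeries.constantCoeff_X, zero_pow (show l - k ≠ 0 by omega)] at this
    linear_combination this
  refine ⟨s, PowerSeries.trunc (l + 1) F, -2 * PowerSeries.coeff l S,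
    PowerSeries.natDegree_trunc_lt _ _, hsc, ?_, ?_, ?_, ?_⟩
  · apply dvd_of_coe
    obtain ⟨D, hD⟩ : (PowerSeries.X : PowerSeries A) ^ (l + 1) ∣
        S - (s : PowerSeries A) - PowerSeries.C (PowerSeries.coeff l S) * PowerSeries.X ^ l := by
      rw [PowerSeries.X_pow_dvd_iff]
      intro d hd
      rw [map_sub, map_sub, Polynomial.coeff_coe, hsdef, PowerSeries.coeff_trunc,
        PowerSeries.coeff_C_mul, PowerSeries.coeff_X_pow]
      by_cases hdl : d = l
      · rw [if_neg (by omega), if_pos hdl, hdl]; ring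
      · rw [if_neg hdl]
        by_cases hdn : d < n + 1
        · rw [if_pos hdn]; ring
        · rw [if_neg hdn, h2 d (by omega) (by omega)]; ring
    obtain ⟨E, hE⟩ : (PowerSeries.X : PowerSeries A) ∣ (R : PowerSeries A) * S - 1 := by
      rw [PowerSeries.X_dvd_iff, map_sub, map_mul, hR0, h0, map_one]; ring
    obtain ⟨H, hH⟩ := h1
    obtain ⟨l', rfl⟩ : ∃ l', l = l' + 1 := ⟨l - 1, by omega⟩
    simp only [Polynomial.coe_sub, Polynomial.coe_add, Polynomial.coe_mul, Polynomial.coe_pow,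
      Polynomial.coe_X, Polynomial.coe_C, Polynomial.coe_one]
    rw [map_mul, map_neg, map_ofNat]
    set c := PowerSeries.C (PowerSeries.coeff (l' + 1) S) with hc
    have hs' : (s : PowerSeries A) = S - c * PowerSeries.X ^ (l' + 1)
        - PowerSeries.X ^ (l' + 1 + 1) * D := by linear_combination (-1 : PowerSeries A) * hD
    refine ⟨H - 2 * c * E - 2 * (R : PowerSeries A) * S * D
      + (R : PowerSeries A) * PowerSeries.X ^ l' * (c + PowerSeries.X * D) ^ 2, ?_⟩
    rw [hs']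
    linear_combination hH - (2 * c * PowerSeries.X ^ (l' + 1)) * hE
  · apply dvd_of_coe
    have := (dvd_sub_trunc F (l + 1)).mul_right (-(s : PowerSeries A))
    convert this using 1
    rw [Polynomial.coe_sub, Polynomial.coe_mul (PowerSeries.trunc (l + 1) F), hFdef]
    linear_combination ((C ε * reflect n s : A[X]) : PowerSeries A) * hI
  · rw [PowerSeries.coeff_trunc, if_pos (by omega), hF 0 (by omega)]
    simp only [zero_add, Finset.range_one, Finset.sum_singleton, Nat.sub_zero, hT0, mul_one]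
  · rw [PowerSeries.coeff_trunc, if_pos (by omega), hF k le_rfl]

theorem cont_aeval (p : P2) : Continuous fun v : Fin 2 → ℝ => MvPolynomial.aeval v p := by
  have : (fun v : Fin 2 → ℝ => MvPolynomial.aeval v p)
      = fun v => MvPolynomial.eval v (MvPolynomial.map (algebraMap ℚ ℝ) p) := by
    ext v
    rw [MvPolynomial.aeval_def, MvPolynomial.eval₂_eq_eval_map]
  rw [this]
  exact MvPolynomial.continuous_eval _

theorem exists_cont {δ : P2} (t : T δ) {v0 : Fin 2 → ℝ} (hδ : MvPolynomial.aeval v0 δ ≠ 0) :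
    ∃ f : (Fin 2 → ℝ) → ℝ, ContinuousAt f v0 ∧
      ∀ (v : Fin 2 → ℝ) (h : MvPolynomial.aeval v δ ≠ 0), evT δ v h t = f v := by
  obtain ⟨A, m, hA⟩ := evT_rep t
  exact ⟨fun v => MvPolynomial.aeval v A / MvPolynomial.aeval v δ ^ m,
    (cont_aeval A).continuousAt.div ((cont_aeval δ).pow m).continuousAt (pow_ne_zero m hδ),
    fun v h => hA v h⟩

theorem eventually_free {δ : P2} (c : ℕ → T δ) (n : ℕ) {v0 : Fin 2 → ℝ}
    (hδ : MvPolynomial.aeval v0 δ ≠ 0) (hs : Free (fun j => evT δ v0 hδ (c j)) n)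
    (ha : |evT δ v0 hδ (c n)| < 1) :
    ∀ᶠ v in nhds v0, ∃ h : MvPolynomial.aeval v δ ≠ 0,
      Free (fun j => evT δ v h (c j)) n ∧ |evT δ v h (c n)| < 1 := by
  choose f hf hfe using fun j => exists_cont (c j) hδ
  have e1 : ∀ᶠ v in nhds v0, MvPolynomial.aeval v δ ≠ 0 :=
    (cont_aeval δ).continuousAt.eventually_ne hδ
  have e2 : ∀ᶠ v in nhds v0, |f n v| < 1 :=
    (hf n).abs.eventually_lt continuousAt_const (by rwa [hfe] at ha)
  have e3 : ∀ᶠ v in nhds v0, ∀ z ∈ Metric.closedBall (0 : ℂ) 1,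
      ∑ j ∈ Finset.range (n + 1), (f j v : ℂ) * z ^ j ≠ 0 := by
    refine (isCompact_closedBall (0 : ℂ) 1).eventually_forall_of_forall_eventually fun z hz => ?_
    have hc : ContinuousAt (fun p : (Fin 2 → ℝ) × ℂ =>
        ∑ j ∈ Finset.range (n + 1), (f j p.1 : ℂ) * p.2 ^ j) (v0, z) := by
      refine tendsto_finsetSum _ fun j _ => ContinuousAt.mul ?_ (continuousAt_snd.pow j)
      exact Complex.continuous_ofReal.continuousAt.comp
        (ContinuousAt.comp (f := Prod.fst) (hf j) continuousAt_fst)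
    refine hc.eventually_ne ?_
    have := hs z (by simpa using hz)
    simpa only [hfe] using this
  filter_upwards [e1, e2, e3] with v h1 h2 h3
  refine ⟨h1, fun z hz => ?_, by rwa [hfe]⟩
  simpa only [hfe] using h3 z (by simpa using hz)

theorem piece_gen {δ : P2} {k l n r : ℕ} (hk : 0 < k) (hkn : k ≤ n) (hnr : n + r = l)
    (hr : 0 < r) {ε : ℤ} (hε : ε = 1 ∨ ε = -1) (R : (T δ)[X]) (S Tt : PowerSeries (T δ))
    (lam : T δ) (h0 : PowerSeries.constantCoeff S = 1)
    (h1 : (PowerSeries.X : PowerSeries (T δ)) ^ (l + 1) ∣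
      (R : PowerSeries (T δ)) * S ^ 2 - (1 + PowerSeries.C lam * PowerSeries.X ^ (l - k)))
    (h2 : ∀ j, n < j → j < l → PowerSeries.coeff j S = 0)
    (h3 : (PowerSeries.X : PowerSeries (T δ)) ^ (k + 1) ∣ Tt * S - 1)
    {Oc : Set (Fin 2 → ℝ)} (hOc : IsOpen Oc) {v0 : Fin 2 → ℝ} (hv0 : v0 ∈ closure Oc)
    (hδ : MvPolynomial.aeval v0 δ ≠ 0)
    (hR : ∀ v ∈ Oc, ∀ h : MvPolynomial.aeval v δ ≠ 0, ∀ z : ℂ, ‖z‖ = 1 → ∃ ρ : ℝ, 0 ≤ ρ ∧
      ((ε : ℝ) : ℂ) * aeval z (R.map (evT δ v h)) = ρ * z ^ r)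
    (hs : Free (fun j => evT δ v0 hδ (PowerSeries.coeff j S)) n)
    (ha : |evT δ v0 hδ (PowerSeries.coeff n S)| < 1) {g : ℕ} (hg : 0 < g) :
    Piece (g * k) (g * l) ((ε : T δ) * PowerSeries.coeff n S)
      ((ε : T δ) * ∑ i ∈ Finset.range (k + 1),
        PowerSeries.coeff (n - i) S * PowerSeries.coeff (k - i) Tt) lam := by
  obtain ⟨s, P, mu, hsd, hsc, d1, d2, p0, pk⟩ :=
    cert_ring hkn hnr hr (ε : T δ) R S Tt lam h0 h1 h2 h3
  have hU := eventually_free (fun j => PowerSeries.coeff j S) n hδ hs ha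
  obtain ⟨U, hUs, hUo, hUv⟩ := mem_nhds_iff.1 hU
  refine ⟨P.coeff l, U ∩ Oc, hUo.inter hOc, mem_closure_iff.1 hv0 U hUo hUv, ?_⟩
  rintro v ⟨hvU, hvO⟩
  obtain ⟨h, hfree, hav⟩ := hUs hvU
  refine ⟨h, CertM.good (mu := evT δ v h mu) (by omega) ?_ ?_ hg⟩
  · rw [map_mul, map_intCast, abs_mul]
    rcases hε with rfl | rfl <;> simpa using hav
  · have hd : (s.map (evT δ v h)).natDegree < n + 1 := natDegree_map_le.trans_lt hsd
    refine ⟨n, r, (ε : ℝ), s.map (evT δ v h), R.map (evT δ v h), P.map (evT δ v h), hnr, ?_,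
      by omega, ?_, hR v hvO h, ?_, ?_, ?_, ?_, ?_⟩
    · rcases hε with rfl | rfl <;> simp
    · intro z hz
      rw [aeval_sum hd (c := fun j => evT δ v h (PowerSeries.coeff j S))
        (fun j hj => by rw [coeff_map, hsc j hj])]
      exact hfree z hz.le
    · simpa using Polynomial.map_dvd (evT δ v h) d1
    · have := Polynomial.map_dvd (evT δ v h) d2
      rwa [Polynomial.map_pow, map_X, Polynomial.map_sub, Polynomial.map_mul, Polynomial.map_mul,
        map_C, map_intCast, ← reflect_map] at this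
    · rw [coeff_map, p0]
    · rw [coeff_map, pk]
    · rw [coeff_map]

end Pool.Agent.Lib.MP_55068a_an.Dy
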