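import Mathlib
import Pool.Agent.Lib.MP_55068a_an.Dy.PieceGen

namespace Pool.Agent.Lib.MP_55068a_an.Dy

open Polynomial

theorem Free.congr {c c' : ℕ → ℝ} {n : ℕ} (h : Free c n) (e : ∀ j, j ≤ n → c' j = c j) :
    Free c' n := by
  intro z hz h0
  refine h z hz ?_
  rw [← h0]
  exact Finset.sum_congr rfl fun j hj => by rw [e j (Nat.lt_succ_iff.1 (Finset.mem_range.1 hj))]

namespace R12

section

variable {A : Type} [CommRing A] [Algebra ℚ A]

theorem half : 2 * algebraMap ℚ A (1 / 2) = 1 := by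
  rw [← map_ofNat (algebraMap ℚ A) 2, ← map_mul]; norm_num

theorem eighth : algebraMap ℚ A (1 / 8) = algebraMap ℚ A (1 / 2) ^ 3 := by
  rw [← map_pow]; norm_num

theorem mk_Sg (y e u : A) (m : ℕ) : PowerSeries.mk (Sg y e u m) = PowerSeries.mk (Lg y e)
    * (1 + PowerSeries.C (algebraMap ℚ A (1 / 2)) * (PowerSeries.C u * PowerSeries.X ^ m)
      - PowerSeries.C (algebraMap ℚ A (1 / 2)) ^ 3 * (PowerSeries.C u * PowerSeries.X ^ m) ^ 2) := by
  have : PowerSeries.mk (Sg y e u m) = PowerSeries.mk (Lg y e)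
      + PowerSeries.C (algebraMap ℚ A (1 / 2) * u) * PowerSeries.mk (fun j => sh (Lg y e) j m)
      - PowerSeries.C (algebraMap ℚ A (1 / 8) * u ^ 2)
        * PowerSeries.mk (fun j => sh (Lg y e) j (2 * m)) := by
    ext j
    simp only [map_add, map_sub, PowerSeries.coeff_mk, PowerSeries.coeff_C_mul, Sg]
  rw [this, mk_sh, mk_sh, eighth]
  simp only [map_mul, map_pow]
  ring

theorem mk_Tg (y e u : A) (m : ℕ) : PowerSeries.mk (Tg y e u m) = PowerSeries.mk (Mg y e)
    * (1 - PowerSeries.C (algebraMap ℚ A (1 / 2)) * (PowerSeries.C u * PowerSeries.X ^ m)) := by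
  have : PowerSeries.mk (Tg y e u m) = PowerSeries.mk (Mg y e)
      - PowerSeries.C (algebraMap ℚ A (1 / 2) * u) * PowerSeries.mk (fun j => sh (Mg y e) j m) := by
    ext j
    simp only [map_sub, PowerSeries.coeff_mk, PowerSeries.coeff_C_mul, Tg]
  rw [this, mk_sh]
  simp only [map_mul]
  ring

theorem halfC : 2 * PowerSeries.C (algebraMap ℚ A (1 / 2)) = 1 := by
  have := congrArg PowerSeries.C (half (A := A))
  rwa [map_mul, map_ofNat, map_one] at this

end

theorem coeffT {A : Type} [CommRing A] (r1 r2 : A) (G : ℕ → A) (n : ℕ) (hn : n < 3) :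
    PowerSeries.coeff n ((1 - PowerSeries.C r1 * PowerSeries.X
      + PowerSeries.C r2 * PowerSeries.X ^ 2 - PowerSeries.C r1 * PowerSeries.X ^ 3
      + PowerSeries.X ^ 4) * PowerSeries.mk G)
      = G n - r1 * sh G n 1 + r2 * sh G n 2 := by
  have e : (1 - PowerSeries.C r1 * PowerSeries.X
      + PowerSeries.C r2 * PowerSeries.X ^ 2 - PowerSeries.C r1 * PowerSeries.X ^ 3
      + PowerSeries.X ^ 4) * PowerSeries.mk G = PowerSeries.mk G
      - PowerSeries.C r1 * (PowerSeries.mk G * PowerSeries.X ^ 1)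
      + PowerSeries.C r2 * (PowerSeries.mk G * PowerSeries.X ^ 2)
      + (PowerSeries.X - PowerSeries.C r1) * PowerSeries.mk G * PowerSeries.X ^ 3 := by ring
  rw [e, ← mk_sh, ← mk_sh]
  simp only [map_add, map_sub, PowerSeries.coeff_C_mul, PowerSeries.coeff_mk,
    PowerSeries.coeff_mul_X_pow', if_neg (not_le.2 hn), add_zero]

theorem geo (z : ℂ) {d l : ℕ} (h : d ≤ l) :
    (1 - z) * ∑ j ∈ Finset.range l, (if d ≤ j then z ^ j else 0) = z ^ d - z ^ l := by
  induction l, h using Nat.le_induction with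
  | base =>
    rw [Finset.sum_eq_zero fun j hj => if_neg (by simpa using hj)]
    simp
  | succ l h ih => rw [Finset.sum_range_succ, mul_add, ih, if_pos h]; ring

theorem eq_one_of_re {w : ℂ} (h : ‖w‖ ≤ 1) (h1 : 1 ≤ w.re) : w = 1 := by
  have h2 := Complex.sq_norm w
  rw [Complex.normSq_apply] at h2
  have h3 : ‖w‖ ^ 2 ≤ 1 := pow_le_one₀ (norm_nonneg _) h
  apply Complex.ext
  · simp only [Complex.one_re]; nlinarith [mul_self_nonneg w.im]
  · simp only [Complex.one_im]; nlinarith [mul_self_nonneg w.im]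

theorem Sg_one (m j : ℕ) : Sg (1 : ℝ) 1 (-1) m j
    = 1 - 1 / 2 * (if m ≤ j then 1 else 0) - 1 / 8 * (if 2 * m ≤ j then 1 else 0) := by
  simp only [Sg, sh, Lg_one]
  split_ifs <;> norm_num

theorem free1 {m n : ℕ} (hm : m ≤ n + 1) (hc : Nat.Coprime m (n + 1)) :
    Free (Sg (1 : ℝ) 1 (-1) m) n := by
  intro z hz h0
  have e : ∑ j ∈ Finset.range (n + 1), ((Sg (1 : ℝ) 1 (-1) m j : ℝ) : ℂ) * z ^ j
      = ∑ j ∈ Finset.range (n + 1), (if 0 ≤ j then z ^ j else 0)
        - 1 / 2 * ∑ j ∈ Finset.range (n + 1), (if m ≤ j then z ^ j else 0)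
        - 1 / 8 * ∑ j ∈ Finset.range (n + 1), (if min (2 * m) (n + 1) ≤ j then z ^ j else 0) := by
    rw [Finset.mul_sum, Finset.mul_sum, ← Finset.sum_sub_distrib, ← Finset.sum_sub_distrib]
    refine Finset.sum_congr rfl fun j hj => ?_
    have hj' := Finset.mem_range.1 hj
    rw [Sg_one, if_pos (Nat.zero_le j)]
    simp only [show min (2 * m) (n + 1) ≤ j ↔ 2 * m ≤ j by omega]
    split_ifs <;> push_cast <;> ring
  have h1 : 1 = 1 / 2 * z ^ m + 1 / 8 * z ^ min (2 * m) (n + 1) + 3 / 8 * z ^ (n + 1) := by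
    have g0 := geo z (Nat.zero_le (n + 1))
    have g1 := geo z hm
    have g2 := geo z (min_le_right (2 * m) (n + 1))
    rw [e] at h0
    linear_combination (1 - z) * h0 - g0 + 1 / 2 * g1 + 1 / 8 * g2
  have hn : ∀ d : ℕ, ‖z ^ d‖ ≤ 1 := fun d => by
    rw [norm_pow]; exact pow_le_one₀ (norm_nonneg _) hz
  have hr : ∀ d : ℕ, (z ^ d).re ≤ 1 := fun d => (Complex.re_le_norm _).trans (hn d)
  have h2 : (1 : ℝ) = 1 / 2 * (z ^ m).re + 1 / 8 * (z ^ min (2 * m) (n + 1)).re
      + 3 / 8 * (z ^ (n + 1)).re := by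
    have := congrArg Complex.re h1
    simpa using this
  have h3 := hr m
  have h4 := hr (min (2 * m) (n + 1))
  have h5 := hr (n + 1)
  have h6 : z = 1 := by
    have := pow_gcd_eq_one.2 ⟨eq_one_of_re (hn m) (by linarith),
      eq_one_of_re (hn (n + 1)) (by linarith)⟩
    rwa [hc.gcd_eq_one, pow_one] at this
  subst h6
  simp only [one_pow, mul_one] at h0
  rw [← Complex.ofReal_sum, Complex.ofReal_eq_zero] at h0
  refine (Finset.sum_pos (fun j _ => ?_) (by simp)).ne' h0
  rw [Sg_one]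
  split_ifs <;> norm_num

/-- the common part of the two pieces with `r = 2` -/
theorem piece2 {δ : P2} {k l g : ℕ} (hk : 0 < k) (hl : 2 * k < l) (hl2 : k + 2 ≤ l) (lam : T δ)
    (hlam : lam * Gg (xT δ 0) (xT δ 1) (k - 1) = -2 * Gg (xT δ 0) (xT δ 1) (l - 1))
    {p q : ℝ} (hδ : MvPolynomial.aeval ![p, q] δ ≠ 0) (h1 : 1 < p ^ 2 - q)
    (c : ℕ → T δ) (hc : ∀ j, c j = Gg (xT δ 0) (xT δ 1) j
      + algebraMap ℚ (T δ) (1 / 2) * lam * sh (Gg (xT δ 0) (xT δ 1)) j (l - k))
    (hs : Free (fun j => evT δ ![p, q] hδ (c j)) (l - 2))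
    (ha : |evT δ ![p, q] hδ (c (l - 2))| < 1) (hg : 0 < g) :
    Piece (g * k) (g * l) (c (l - 2))
      (∑ i ∈ Finset.range (k + 1), c (l - 2 - i) * PowerSeries.coeff (k - i)
        ((1 - PowerSeries.C (2 * xT δ 0) * PowerSeries.X
          + PowerSeries.C (3 * xT δ 0 ^ 2 - 2 * xT δ 1) * PowerSeries.X ^ 2
          - PowerSeries.C (2 * xT δ 0) * PowerSeries.X ^ 3 + PowerSeries.X ^ 4)
          * PowerSeries.mk (Gg (xT δ 0) (xT δ 1)))) lam := by
  have hS : PowerSeries.mk c = PowerSeries.mk (Gg (xT δ 0) (xT δ 1))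
      * (1 + PowerSeries.C (algebraMap ℚ (T δ) (1 / 2))
        * (PowerSeries.C lam * PowerSeries.X ^ (l - k))) := by
    have : PowerSeries.mk c = PowerSeries.mk (Gg (xT δ 0) (xT δ 1))
        + PowerSeries.C (algebraMap ℚ (T δ) (1 / 2) * lam)
          * PowerSeries.mk (fun j => sh (Gg (xT δ 0) (xT δ 1)) j (l - k)) := by
      ext j
      simp only [map_add, PowerSeries.coeff_mk, PowerSeries.coeff_C_mul, hc]
    rw [this, mk_sh, map_mul]
    ring
  have hG := Gg_sq (xT δ 0) (xT δ 1)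
  have hh := halfC (A := T δ)
  have key := piece_gen (k := k) (l := l) (n := l - 2) (r := 2) hk (by omega) (by omega) two_pos
    (ε := 1) (Or.inl rfl)
    (1 + C (-2 * xT δ 0) * X + C (3 * xT δ 0 ^ 2 - 2 * xT δ 1) * X ^ 2 + C (-2 * xT δ 0) * X ^ 3
      + X ^ 4) (PowerSeries.mk c)
    ((1 - PowerSeries.C (2 * xT δ 0) * PowerSeries.X
          + PowerSeries.C (3 * xT δ 0 ^ 2 - 2 * xT δ 1) * PowerSeries.X ^ 2
          - PowerSeries.C (2 * xT δ 0) * PowerSeries.X ^ 3 + PowerSeries.X ^ 4)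
          * PowerSeries.mk (Gg (xT δ 0) (xT δ 1))) lam
    (by
      rw [← PowerSeries.coeff_zero_eq_constantCoeff_apply, PowerSeries.coeff_mk, hc, sh,
        if_neg (by omega)]
      simp [Gg])
    (by
      refine (pow_dvd_pow _ (show l + 1 ≤ (l - k) * 2 by omega)).trans
        ⟨(PowerSeries.C (algebraMap ℚ (T δ) (1 / 2)) * PowerSeries.C lam) ^ 2, ?_⟩
      rw [hS, pow_mul]
      simp only [Polynomial.coe_add, Polynomial.coe_mul, Polynomial.coe_one, Polynomial.coe_C,
        Polynomial.coe_X, Polynomial.coe_pow]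
      simp only [neg_mul, map_neg]
      linear_combination (1 + PowerSeries.C (algebraMap ℚ (T δ) (1 / 2))
        * (PowerSeries.C lam * PowerSeries.X ^ (l - k))) ^ 2 * hG
        + (PowerSeries.C lam * PowerSeries.X ^ (l - k)) * hh)
    (fun j h2 h3 => by
      obtain rfl : j = l - 1 := by omega
      rw [PowerSeries.coeff_mk, hc, sh, if_pos (by omega), show l - 1 - (l - k) = k - 1 by omega,
        mul_assoc, hlam]
      linear_combination -Gg (xT δ 0) (xT δ 1) (l - 1) * half (A := T δ))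
    (by
      refine (pow_dvd_pow _ (show k + 1 ≤ l - k by omega)).trans
        ⟨PowerSeries.C (algebraMap ℚ (T δ) (1 / 2)) * PowerSeries.C lam, ?_⟩
      rw [hS]
      linear_combination (1 + PowerSeries.C (algebraMap ℚ (T δ) (1 / 2))
        * (PowerSeries.C lam * PowerSeries.X ^ (l - k))) * hG)
    (Oc := {v | 1 < v 0 ^ 2 - v 1}) (isOpen_lt continuous_const (by fun_prop)) (v0 := ![p, q])
    (subset_closure (by simpa using h1)) hδ
    (fun v hv h => by
      have := circle_R2 (p := -2 * v 0) (q := 3 * v 0 ^ 2 - 2 * v 1)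
        (fun c => by
          have : 1 < v 0 ^ 2 - v 1 := hv
          nlinarith [sq_nonneg (2 * c - v 0)])
      simpa only [Polynomial.map_add, Polynomial.map_mul, Polynomial.map_pow, Polynomial.map_one,
        map_C, map_X, map_mul (evT δ v h), map_sub (evT δ v h), map_neg (evT δ v h),
        map_pow (evT δ v h), map_ofNat (evT δ v h), evT_x, Int.cast_one] using this)
    (by simpa only [PowerSeries.coeff_mk] using hs) (by simpa only [PowerSeries.coeff_mk] using ha)
    hg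
  simpa only [PowerSeries.coeff_mk, Int.cast_one, one_mul] using key

end R12

open R12

theorem piece_R1 {k l g : ℕ} (hk : 0 < k) (hkl : k < l) (hc : Nat.Coprime k l)
    (h3 : 3 * k < 2 * l) (hg : 0 < g) : Piece (g * k) (g * l) (a1 k l) (b1 k l) (xT 1 1) := by
  have hG := Lg_sq (xT 1 0) 1
  have hh := halfC (A := T 1)
  have hev : ∀ j, evT 1 ![1, -1] (one_ne _) (Sg (xT 1 0) 1 (xT 1 1) (l - k) j)
      = Sg (1 : ℝ) 1 (-1) (l - k) j := fun j => by
    simp only [map_Sg, evT_x, map_one, Matrix.cons_val_zero, Matrix.cons_val_one]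
  have key := piece_gen (k := k) (l := l) (n := l - 1) (r := 1) hk (by omega) (by omega) one_pos
    (ε := -1) (Or.inr rfl) (1 + C (2 * -1 * xT 1 0) * X + X ^ 2)
    (PowerSeries.mk (Sg (xT 1 0) 1 (xT 1 1) (l - k)))
    (PowerSeries.mk (Tg (xT 1 0) 1 (xT 1 1) (l - k))) (xT 1 1)
    (by
      rw [← PowerSeries.coeff_zero_eq_constantCoeff_apply, PowerSeries.coeff_mk, Sg, sh, sh,
        if_neg (by omega), if_neg (by omega)]
      simp [Lg])
    (by
      refine (pow_dvd_pow _ (show l + 1 ≤ (l - k) * 3 by omega)).trans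
        ⟨PowerSeries.C (xT 1 1) ^ 3 * (-2 * PowerSeries.C (algebraMap ℚ (T 1) (1 / 2)) ^ 4
          + PowerSeries.C (algebraMap ℚ (T 1) (1 / 2)) ^ 6
            * (PowerSeries.C (xT 1 1) * PowerSeries.X ^ (l - k))), ?_⟩
      rw [mk_Sg, pow_mul]
      simp only [Polynomial.coe_add, Polynomial.coe_mul, Polynomial.coe_one, Polynomial.coe_C,
        Polynomial.coe_X, Polynomial.coe_pow]
      simp only [mul_neg, mul_one, neg_mul, map_neg, map_one] at hG ⊢
      linear_combination (1 + PowerSeries.C (algebraMap ℚ (T 1) (1 / 2))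
          * (PowerSeries.C (xT 1 1) * PowerSeries.X ^ (l - k))
        - PowerSeries.C (algebraMap ℚ (T 1) (1 / 2)) ^ 3
          * (PowerSeries.C (xT 1 1) * PowerSeries.X ^ (l - k)) ^ 2) ^ 2 * hG
        + (PowerSeries.C (xT 1 1) * PowerSeries.X ^ (l - k)
          - PowerSeries.C (algebraMap ℚ (T 1) (1 / 2)) ^ 2
            * (PowerSeries.C (xT 1 1) * PowerSeries.X ^ (l - k)) ^ 2) * hh)
    (fun j h1 h2 => by omega)
    (by
      refine (pow_dvd_pow _ (show k + 1 ≤ (l - k) * 2 by omega)).trans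
        ⟨PowerSeries.C (xT 1 1) ^ 2 * (-PowerSeries.C (algebraMap ℚ (T 1) (1 / 2)) ^ 2
          - PowerSeries.C (algebraMap ℚ (T 1) (1 / 2)) ^ 3
          + PowerSeries.C (algebraMap ℚ (T 1) (1 / 2)) ^ 4
            * (PowerSeries.C (xT 1 1) * PowerSeries.X ^ (l - k))), ?_⟩
      rw [mk_Sg, mk_Tg, mk_Mg, pow_mul]
      linear_combination (1 + PowerSeries.C (algebraMap ℚ (T 1) (1 / 2))
          * (PowerSeries.C (xT 1 1) * PowerSeries.X ^ (l - k))
        - PowerSeries.C (algebraMap ℚ (T 1) (1 / 2)) ^ 3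
          * (PowerSeries.C (xT 1 1) * PowerSeries.X ^ (l - k)) ^ 2)
        * (1 - PowerSeries.C (algebraMap ℚ (T 1) (1 / 2))
          * (PowerSeries.C (xT 1 1) * PowerSeries.X ^ (l - k))) * hG)
    (Oc := {v | 1 < v 0}) (isOpen_lt continuous_const (by fun_prop)) (v0 := ![1, -1])
    (by
      have ht : Filter.Tendsto (fun t : ℝ => (![t, -1] : Fin 2 → ℝ)) (nhdsWithin 1 (Set.Ioi 1))
          (nhds ![1, -1]) :=
        (Continuous.tendsto (by fun_prop) 1).mono_left nhdsWithin_le_nhds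
      exact mem_closure_of_tendsto ht (eventually_nhdsWithin_of_forall fun t ht => by simpa using ht))
    (one_ne _)
    (fun v hv h => by
      have := circle_R1 (ε := -1) (y := v 0) (Or.inr rfl) (le_of_lt hv)
      simpa only [Polynomial.map_add, Polynomial.map_mul, Polynomial.map_pow, Polynomial.map_one,
        map_C, map_X, map_mul (evT 1 v h), map_neg (evT 1 v h), map_one (evT 1 v h),
        map_ofNat (evT 1 v h), evT_x, Int.cast_one, Int.cast_neg] using this)
    (by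
      simp only [PowerSeries.coeff_mk, hev]
      refine free1 (by omega) ?_
      rw [show l - 1 + 1 = l by omega]
      exact (Nat.coprime_self_sub_left hkl.le).2 hc)
    (by
      rw [PowerSeries.coeff_mk, hev, Sg_one, if_pos (by omega), abs_lt]
      split_ifs <;> norm_num)
    hg
  simpa only [PowerSeries.coeff_mk, Int.cast_one, Int.cast_neg, neg_mul, one_mul, a1, b1, aR1, bR1,
    one_pow] using key

theorem piece_R21 {l g : ℕ} (hl : 4 ≤ l) {p q : ℝ} (h1 : 1 < p ^ 2 - q)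
    (hs : Free (Gg p q) (l - 2)) (ha : |Gg p q (l - 2)| < 1) (hg : 0 < g) :
    Piece (g * 1) (g * l) (a21 l) (b21 l) (l21 l) := by
  obtain ⟨c, hc⟩ : ∃ c : ℕ → T 1, ∀ j, c j = Gg (xT 1 0) (xT 1 1) j
      + algebraMap ℚ (T 1) (1 / 2) * l21 l * sh (Gg (xT 1 0) (xT 1 1)) j (l - 1) := ⟨_, fun _ => rfl⟩
  have hc' : ∀ j, j ≤ l - 2 → c j = Gg (xT 1 0) (xT 1 1) j := fun j hj => by
    rw [hc, sh, if_neg (by omega), mul_zero, add_zero]
  have hev : ∀ j, j ≤ l - 2 → evT 1 ![p, q] (one_ne _) (c j) = Gg p q j := fun j hj => by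
    simp only [hc' j hj, map_Gg, evT_x, Matrix.cons_val_zero, Matrix.cons_val_one]
  have key := piece2 (k := 1) (l := l) one_pos (by omega) (by omega) (l21 l) (by simp [l21, Gg])
    (one_ne _) h1 c hc
    (hs.congr hev)
    (by rwa [hev _ le_rfl]) hg
  convert key using 1
  · rw [hc' _ le_rfl, a21]
  · rw [Finset.sum_range_succ, Finset.sum_range_one, hc' _ (by omega), hc' _ (by omega), b21, a21,
      coeffT _ _ _ _ (by norm_num), coeffT _ _ _ _ (by norm_num)]
    simp [Gg, sh, Nat.sub_sub]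
    ring

theorem piece_R22 {l g : ℕ} (hl : 5 ≤ l) {p q : ℝ} (h0 : p ≠ 0) (h1 : 1 < p ^ 2 - q)
    (hs : Free (fun j => if j = l - 2 then Gg p q (l - 2) - Gg p q (l - 1) / p else Gg p q j)
      (l - 2))
    (ha : |Gg p q (l - 2) - Gg p q (l - 1) / p| < 1) (hg : 0 < g) :
    Piece (g * 2) (g * l) (a22 l) (b22 l) (l22 l) := by
  obtain ⟨c, hc⟩ : ∃ c : ℕ → T d2, ∀ j, c j = Gg (xT d2 0) (xT d2 1) j
      + algebraMap ℚ (T d2) (1 / 2) * l22 l * sh (Gg (xT d2 0) (xT d2 1)) j (l - 2) :=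
    ⟨_, fun _ => rfl⟩
  have hc' : ∀ j, j < l - 2 → c j = Gg (xT d2 0) (xT d2 1) j := fun j hj => by
    rw [hc, sh, if_neg (by omega), mul_zero, add_zero]
  have hc2 : c (l - 2) = a22 l := by
    rw [hc, sh, if_pos le_rfl, Nat.sub_self, a22, l22, Gg]
    linear_combination -Gg (xT d2 0) (xT d2 1) (l - 1) * iT d2 * half (A := T d2)
  have hδ : MvPolynomial.aeval ![p, q] d2 ≠ 0 := by simpa using h0
  have hi : xT d2 0 * iT d2 = 1 := IsLocalization.Away.mul_invSelf (S := T d2) d2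
  have hev2 : evT d2 ![p, q] hδ (c (l - 2)) = Gg p q (l - 2) - Gg p q (l - 1) / p := by
    simp [hc2, a22, map_Gg, evT_x, evT_inv, div_eq_mul_inv]
  have key := piece2 (k := 2) (l := l) two_pos (by omega) (by omega) (l22 l)
    (by
      rw [l22, show Gg (xT d2 0) (xT d2 1) (2 - 1) = xT d2 0 from rfl]
      linear_combination -2 * Gg (xT d2 0) (xT d2 1) (l - 1) * hi)
    hδ h1 c hc
    (hs.congr fun j hj => by
      split_ifs with h
      · rw [h, hev2]
      · simp only [hc' j (by omega), map_Gg, evT_x, Matrix.cons_val_zero, Matrix.cons_val_one])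
    (by rwa [hev2]) hg
  convert key using 1
  · rw [hc2]
  · rw [Finset.sum_range_succ, Finset.sum_range_succ, Finset.sum_range_one, Nat.sub_zero, hc2,
      hc' _ (by omega), hc' _ (by omega), b22, coeffT _ _ _ _ (by norm_num),
      coeffT _ _ _ _ (by norm_num), coeffT _ _ _ _ (by norm_num)]
    simp [Gg, sh, Nat.sub_sub]
    ring

end Pool.Agent.Lib.MP_55068a_an.Dy
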