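import Mathlib
import Pool.Agent.Lib.MP_55068a_an.Dy.R12

namespace Pool.Agent.Lib.MP_55068a_an.Dy

open Polynomial

section Exp

variable {Ω : Type} [Field Ω] [Algebra ℚ Ω]

theorem Gg_step (g h : Ω) (n : ℕ) : Gg g h (n + 4) = ((2 * n + 7) * g * Gg g h (n + 3)
      - (n + 3) * (3 * g ^ 2 - 2 * h) * Gg g h (n + 2) + (2 * n + 5) * g * Gg g h (n + 1)
      - (n + 2) * Gg g h n) / (n + 4) := by
  have := algebraRat.charZero Ω
  rw [Gg]
  simp [div_eq_inv_mul]

theorem Gg0 (g h : Ω) : Gg g h 0 = 1 := rfl
theorem Gg1 (g h : Ω) : Gg g h 1 = g := rfl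
theorem Gg2 (g h : Ω) : Gg g h 2 = h := rfl
theorem Gg3 (g h : Ω) : Gg g h 3 = 3 * g * h - 2 * g ^ 3 + g := rfl

theorem Gg4 (g h : Ω) :
    Gg g h 4 = -7 / 2 * g ^ 4 + 3 * g ^ 2 * h + 3 * g ^ 2 + 3 / 2 * h ^ 2 - 1 / 2 := by
  have := algebraRat.charZero Ω
  rw [Gg_step g h 0, Gg0, Gg1, Gg2, Gg3]
  push_cast
  ring

theorem Gg5 (g h : Ω) : Gg g h 5 = -3 / 2 * g ^ 5 - 5 * g ^ 3 * h + 3 * g ^ 3
    + 15 / 2 * g * h ^ 2 + 3 * g * h - 3 / 2 * g := by
  have := algebraRat.charZero Ω
  rw [Gg_step g h 1, Gg1, Gg2, Gg3, Gg4]
  push_cast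
  ring

theorem Gg6 (g h : Ω) : Gg g h 6 = 6 * g ^ 6 - 45 / 2 * g ^ 4 * h - 5 * g ^ 4
    + 15 * g ^ 2 * h ^ 2 + 15 * g ^ 2 * h + 5 / 2 * h ^ 3 - 3 / 2 * h := by
  have := algebraRat.charZero Ω
  rw [Gg_step g h 2, Gg2, Gg3, Gg4, Gg5]
  push_cast
  ring

theorem Gg7 (g h : Ω) : Gg g h 7 = 15 * g ^ 7 - 63 / 2 * g ^ 5 * h - 45 / 2 * g ^ 5
    + 30 * g ^ 3 * h + 10 * g ^ 3 + 35 / 2 * g * h ^ 3 + 15 / 2 * g * h ^ 2 - 15 / 2 * g * h
    - 3 / 2 * g := by
  have := algebraRat.charZero Ω
  rw [Gg_step g h 3, Gg3, Gg4, Gg5, Gg6]
  push_cast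
  ring

theorem Gg8 (g h : Ω) : Gg g h 8 = 99 / 8 * g ^ 8 + 21 / 2 * g ^ 6 * h - 63 / 2 * g ^ 6
    - 315 / 4 * g ^ 4 * h ^ 2 + 105 / 4 * g ^ 4 + 105 / 2 * g ^ 2 * h ^ 3
    + 105 / 2 * g ^ 2 * h ^ 2 - 15 / 2 * g ^ 2 * h - 15 / 2 * g ^ 2 + 35 / 8 * h ^ 4
    - 15 / 4 * h ^ 2 + 3 / 8 := by
  have := algebraRat.charZero Ω
  rw [Gg_step g h 4, Gg4, Gg5, Gg6, Gg7]
  push_cast
  ring

theorem Lg_step (y e : Ω) (n : ℕ) : Lg y e (n + 2)
    = ((2 * n + 3) * y * Lg y e (n + 1) - (n + 1) * e * Lg y e n) / (n + 2) := by
  have := algebraRat.charZero Ω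
  rw [Lg]
  simp
  ring

theorem Lg0 (y e : Ω) : Lg y e 0 = 1 := rfl
theorem Lg1 (y e : Ω) : Lg y e 1 = y := rfl

theorem Lg2 (y e : Ω) : Lg y e 2 = 3 / 2 * y ^ 2 - 1 / 2 * e := by
  have := algebraRat.charZero Ω
  rw [Lg_step y e 0, Lg0, Lg1]
  push_cast
  ring

theorem Lg3 (y e : Ω) : Lg y e 3 = 5 / 2 * y ^ 3 - 3 / 2 * y * e := by
  have := algebraRat.charZero Ω
  rw [Lg_step y e 1, Lg1, Lg2]
  push_cast
  ring

theorem Lg4 (y e : Ω) : Lg y e 4 = 35 / 8 * y ^ 4 - 15 / 4 * y ^ 2 * e + 3 / 8 * e ^ 2 := by
  have := algebraRat.charZero Ω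
  rw [Lg_step y e 2, Lg2, Lg3]
  push_cast
  ring

theorem Lg5 (y e : Ω) :
    Lg y e 5 = 63 / 8 * y ^ 5 - 35 / 4 * y ^ 3 * e + 15 / 8 * y * e ^ 2 := by
  have := algebraRat.charZero Ω
  rw [Lg_step y e 3, Lg3, Lg4]
  push_cast
  ring

theorem Lg6 (y e : Ω) : Lg y e 6
    = 231 / 16 * y ^ 6 - 315 / 16 * y ^ 4 * e + 105 / 16 * y ^ 2 * e ^ 2 - 5 / 16 * e ^ 3 := by
  have := algebraRat.charZero Ω
  rw [Lg_step y e 4, Lg4, Lg5]
  push_cast
  ring

theorem Lg7 (y e : Ω) : Lg y e 7 = 429 / 16 * y ^ 7 - 693 / 16 * y ^ 5 * e
    + 315 / 16 * y ^ 3 * e ^ 2 - 35 / 16 * y * e ^ 3 := by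
  have := algebraRat.charZero Ω
  rw [Lg_step y e 5, Lg5, Lg6]
  push_cast
  ring

end Exp

/-- no polynomial relation between the two generators -/
theorem io_rel {F : P2} (h : io P2 F = 0) (w : Fin 2 → ℚ) : MvPolynomial.eval w F = 0 := by
  rw [(map_eq_zero_iff _ (io_inj P2)).1 h, map_zero]

theorem free16 : Free (fun j => ([1, (17 / 10), (47 / 25), (731 / 500), (10777 / 20000)] : List ℝ).getD j 0) 4 := by
  have h0 : Free (fun j => ([1] : List ℝ).getD j 0) 0 := Free.zero.congr (by simp)
  have h1 : Free (fun j => ([1, (1006254854680 / 1866254187389)] : List ℝ).getD j 0) 1 :=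
    h0.step (γ := (1006254854680 / 1866254187389)) (by rw [abs_lt]; norm_num) (by simp)
      (fun j hj => by interval_cases j <;> norm_num) (by simp)
  have h2 : Free (fun j => ([1, (9280688524713640 / 10961228220675147), (6251234149613600 / 10961228220675147)] : List ℝ).getD j 0) 2 :=
    h1.step (γ := (6251234149613600 / 10961228220675147)) (by rw [abs_lt]; norm_num) (by simp)
      (fun j hj => by interval_cases j <;> norm_num) (by simp)
  have h3 : Free (fun j => ([1, (121626840 / 94618757), (37600 / 30777), (72794000 / 94618757)] : List ℝ).getD j 0) 3 :=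
    h2.step (γ := (72794000 / 94618757)) (by rw [abs_lt]; norm_num) (by simp)
      (fun j hj => by interval_cases j <;> norm_num) (by simp)
  have h4 : Free (fun j => ([1, (17 / 10), (47 / 25), (731 / 500), (10777 / 20000)] : List ℝ).getD j 0) 4 :=
    h3.step (γ := (10777 / 20000)) (by rw [abs_lt]; norm_num) (by simp)
      (fun j hj => by interval_cases j <;> norm_num) (by simp)
  exact h4

theorem free25 : Free (fun j => ([1, (3 / 4), (-1 / 2), (-269 / 384)] : List ℝ).getD j 0) 3 := by
  have h0 : Free (fun j => ([1] : List ℝ).getD j 0) 0 := Free.zero.congr (by simp)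
  have h1 : Free (fun j => ([1, (58944 / 78839)] : List ℝ).getD j 0) 1 :=
    h0.step (γ := (58944 / 78839)) (by rw [abs_lt]; norm_num) (by simp)
      (fun j hj => by interval_cases j <;> norm_num) (by simp)
  have h2 : Free (fun j => ([1, (58944 / 75095), (3744 / 75095)] : List ℝ).getD j 0) 2 :=
    h1.step (γ := (3744 / 75095)) (by rw [abs_lt]; norm_num) (by simp)
      (fun j hj => by interval_cases j <;> norm_num) (by simp)
  have h3 : Free (fun j => ([1, (3 / 4), (-1 / 2), (-269 / 384)] : List ℝ).getD j 0) 3 :=
    h2.step (γ := (-269 / 384)) (by rw [abs_lt]; norm_num) (by simp)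
      (fun j hj => by interval_cases j <;> norm_num) (by simp)
  exact h3

theorem free27 : Free (fun j => ([1, (1 / 2), (-49 / 64), (-115 / 128), (2755 / 8192), (179173 / 262144)] : List ℝ).getD j 0) 5 := by
  have h0 : Free (fun j => ([1] : List ℝ).getD j 0) 0 := Free.zero.congr (by simp)
  have h1 : Free (fun j => ([1, (15870150027610658272 / 30439555239133171097)] : List ℝ).getD j 0) 1 :=
    h0.step (γ := (15870150027610658272 / 30439555239133171097)) (by rw [abs_lt]; norm_num) (by simp)
      (fun j hj => by interval_cases j <;> norm_num) (by simp)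
  have h2 : Free (fun j => ([1, (326135649555291352306622325920 / 557913449540789649837120040179), (67627210302833715494325999616 / 557913449540789649837120040179)] : List ℝ).getD j 0) 2 :=
    h1.step (γ := (67627210302833715494325999616 / 557913449540789649837120040179)) (by rw [abs_lt]; norm_num) (by simp)
      (fun j hj => by interval_cases j <;> norm_num) (by simp)
  have h3 : Free (fun j => ([1, (74455906423652844512 / 148958796969707345577), (-548132864 / 1907503389), (-34704090181329711104 / 49652932323235781859)] : List ℝ).getD j 0) 3 :=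
    h2.step (γ := (-34704090181329711104 / 49652932323235781859)) (by rw [abs_lt]; norm_num) (by simp)
      (fun j hj => by interval_cases j <;> norm_num) (by simp)
  have h4 : Free (fun j => ([1, (2062649632 / 4068501423), (-10414524416 / 36616512807), (-25779417088 / 36616512807), (-41549824 / 4068501423)] : List ℝ).getD j 0) 4 :=
    h3.step (γ := (-41549824 / 4068501423)) (by rw [abs_lt]; norm_num) (by simp)
      (fun j hj => by interval_cases j <;> norm_num) (by simp)
  have h5 : Free (fun j => ([1, (1 / 2), (-49 / 64), (-115 / 128), (2755 / 8192), (179173 / 262144)] : List ℝ).getD j 0) 5 :=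
    h4.step (γ := (179173 / 262144)) (by rw [abs_lt]; norm_num) (by simp)
      (fun j hj => by interval_cases j <;> norm_num) (by simp)
  exact h5

theorem free29 : Free (fun j => ([1, (2 / 5), (-17 / 20), (-187 / 250), (11323 / 20000), (49807 / 50000), (-360273 / 2000000), (-143784659 / 320000000)] : List ℝ).getD j 0) 7 := by
  have h0 : Free (fun j => ([1] : List ℝ).getD j 0) 0 := Free.zero.congr (by simp)
  have h1 : Free (fun j => ([1, (31961489621082584962535574615622185532156602779680 / 73416587854778333035661521808155749263577729089159)] : List ℝ).getD j 0) 1 :=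
    h0.step (γ := (31961489621082584962535574615622185532156602779680 / 73416587854778333035661521808155749263577729089159)) (by rw [abs_lt]; norm_num) (by simp)
      (fun j hj => by interval_cases j <;> norm_num) (by simp)
  have h2 : Free (fun j => ([1, (91300598826726026178532553056047943919152770760471924315848034538774541345346472480 / 172169097062924963884617006720434198951958237766979334176488993884391416454525764599), (37551366983743042312465684442740069504748771244332985802657036100460634931513427200 / 172169097062924963884617006720434198951958237766979334176488993884391416454525764599)] : List ℝ).getD j 0) 2 :=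
    h1.step (γ := (37551366983743042312465684442740069504748771244332985802657036100460634931513427200 / 172169097062924963884617006720434198951958237766979334176488993884391416454525764599)) (by rw [abs_lt]; norm_num) (by simp)
      (fun j hj => by interval_cases j <;> norm_num) (by simp)
  have h3 : Free (fun j => ([1, (3037327988898412632134714767865028537171148549007701294895243229920 / 7387119165413602158544239909957791891480662277069117103575737183521), (-185005345632416028323552233299200 / 2585999824416853589321815194770961), (-4034856737429864552715461378383925644590795556033402138695278992000 / 7387119165413602158544239909957791891480662277069117103575737183521)] : List ℝ).getD j 0) 3 :=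
    h2.step (γ := (-4034856737429864552715461378383925644590795556033402138695278992000 / 7387119165413602158544239909957791891480662277069117103575737183521)) (by rw [abs_lt]; norm_num) (by simp)
      (fun j hj => by interval_cases j <;> norm_num) (by simp)
  have h4 : Free (fun j => ([1, (97418412379569929276256734891447999862115105179680 / 222394502414353820503094139223382684095180346093959), (-15127427019655459221765882783939979835813239724800 / 222394502414353820503094139223382684095180346093959), (-125971928536381044127003414005568459516351894768000 / 222394502414353820503094139223382684095180346093959), (-10943727935470924678659032922488980515024528640000 / 222394502414353820503094139223382684095180346093959)] : List ℝ).getD j 0) 4 :=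
    h3.step (γ := (-10943727935470924678659032922488980515024528640000 / 222394502414353820503094139223382684095180346093959)) (by rw [abs_lt]; norm_num) (by simp)
      (fun j hj => by interval_cases j <;> norm_num) (by simp)
  have h5 : Free (fun j => ([1, (2672741073794774433897635297258720 / 6679132746904850677088580541330961), (-3366663627071373123283014633299200 / 6679132746904850677088580541330961), (-50546020898288000 / 81684430588253719), (1923544871244585838659090525440000 / 6679132746904850677088580541330961), (5141537455851468952191658928000000 / 6679132746904850677088580541330961)] : List ℝ).getD j 0) 5 :=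
    h4.step (γ := (5141537455851468952191658928000000 / 6679132746904850677088580541330961)) (by rw [abs_lt]; norm_num) (by simp)
      (fun j hj => by interval_cases j <;> norm_num) (by simp)
  have h6 : Free (fun j => ([1, (32671723127694880 / 81725971836253719), (-41206511930796800 / 81725971836253719), (-50546020898288000 / 81725971836253719), (23557464021760000 / 81725971836253719), (62895308752000000 / 81725971836253719), (-41541248000000 / 81725971836253719)] : List ℝ).getD j 0) 6 :=
    h5.step (γ := (-41541248000000 / 81725971836253719)) (by rw [abs_lt]; norm_num) (by simp)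
      (fun j hj => by interval_cases j <;> norm_num) (by simp)
  have h7 : Free (fun j => ([1, (2 / 5), (-17 / 20), (-187 / 250), (11323 / 20000), (49807 / 50000), (-360273 / 2000000), (-143784659 / 320000000)] : List ℝ).getD j 0) 7 :=
    h6.step (γ := (-143784659 / 320000000)) (by rw [abs_lt]; norm_num) (by simp)
      (fun j hj => by interval_cases j <;> norm_num) (by simp)
  exact h7

end Pool.Agent.Lib.MP_55068a_an.Dy
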