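import Mathlib
import Pool.Agent.Lib.MP_55068a_an.Dy.Base

namespace Pool.Agent.Lib.MP_55068a_an.Dy

open Polynomial

namespace RadAux

theorem cardano {K : Subfield ℂ} (hK : ∀ (z : ℂ) (n : ℕ), n ≠ 0 → z ^ n ∈ K → z ∈ K) {t P Q : ℂ}
    (hP : P ∈ K) (hQ : Q ∈ K) (h : t ^ 3 + P * t + Q = 0) : t ∈ K := by
  obtain ⟨w, hw⟩ := IsAlgClosed.exists_pow_nat_eq (t ^ 2 + 4 * P / 3) two_pos
  obtain ⟨u, hu⟩ : ∃ u, u = (t + w) / 2 := ⟨_, rfl⟩
  obtain ⟨v, hv⟩ : ∃ v, v = (t - w) / 2 := ⟨_, rfl⟩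
  have e1 : t = u + v := by rw [hu, hv]; ring
  have e2 : P = -3 * (u * v) := by rw [hu, hv]; linear_combination (-3 / 4 : ℂ) * hw
  have e3 : Q = -(u ^ 3 + v ^ 3) := by rw [e1, e2] at h; linear_combination h
  have h4 : u ^ 3 - v ^ 3 ∈ K := by
    refine hK _ 2 two_ne_zero ?_
    have : (u ^ 3 - v ^ 3) ^ 2 = Q ^ 2 + 4 * P ^ 3 / 27 := by rw [e2, e3]; ring
    rw [this]
    exact add_mem (pow_mem hQ 2) (div_mem (mul_mem (ofNat_mem K 4) (pow_mem hP 3)) (ofNat_mem K 27))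
  have h5 : u ∈ K := by
    refine hK _ 3 three_ne_zero ?_
    have : u ^ 3 = (u ^ 3 - v ^ 3 - Q) / 2 := by rw [e3]; ring
    rw [this]
    exact div_mem (sub_mem h4 hQ) (ofNat_mem K 2)
  have h6 : v ∈ K := by
    refine hK _ 3 three_ne_zero ?_
    have : v ^ 3 = u ^ 3 - (u ^ 3 - v ^ 3) := by ring
    rw [this]
    exact sub_mem (pow_mem h5 3) h4
  rw [e1]
  exact add_mem h5 h6

theorem pos_large {p q r s : ℝ} (hp : 0 < p) :
    ∃ M : ℝ, ∀ x, M ≤ x → 0 < p * x ^ 3 + q * x ^ 2 + r * x + s := by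
  refine ⟨1 + (|q| + |r| + |s|) / p, fun x hx => ?_⟩
  have h0 : 0 ≤ (|q| + |r| + |s|) / p := by positivity
  have h1 : 1 ≤ x := by linarith
  have h2 : p + (|q| + |r| + |s|) ≤ p * x := by
    have := mul_le_mul_of_nonneg_left hx hp.le
    rwa [mul_add, mul_one, mul_div_cancel₀ _ hp.ne'] at this
  have h3 : x ≤ x ^ 2 := by nlinarith
  have h4 : (p + (|q| + |r| + |s|)) * x ^ 2 ≤ p * x * x ^ 2 := by gcongr
  have h5 : -|q| * x ^ 2 ≤ q * x ^ 2 := by gcongr; exact neg_abs_le q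
  have h6 : -|r| * x ≤ r * x := by gcongr; exact neg_abs_le r
  have h7 : |r| * x ≤ |r| * x ^ 2 := by gcongr
  have h8 : |s| * 1 ≤ |s| * x ^ 2 := by gcongr; linarith
  have h9 := neg_abs_le s
  have h10 : 0 < p * x ^ 2 := by positivity
  nlinarith

theorem bdd {p q r s : ℝ} (hp : 0 < p) :
    BddAbove {x : ℝ | p * x ^ 3 + q * x ^ 2 + r * x + s = 0} := by
  obtain ⟨M, hM⟩ := pos_large (q := q) (r := r) (s := s) hp
  refine ⟨M, fun x hx => ?_⟩
  by_contra hc
  exact (hM x (not_le.1 hc).le).ne' hx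

theorem root_above {p q r s x : ℝ} (hp : 0 < p) (h : p * x ^ 3 + q * x ^ 2 + r * x + s ≤ 0) :
    ∃ y, x ≤ y ∧ p * y ^ 3 + q * y ^ 2 + r * y + s = 0 := by
  obtain ⟨M, hM⟩ := pos_large (q := q) (r := r) (s := s) hp
  have hc : ContinuousOn (fun x : ℝ => p * x ^ 3 + q * x ^ 2 + r * x + s)
      (Set.Icc x (max x M)) := by fun_prop
  obtain ⟨y, hy, e⟩ := intermediate_value_Icc (le_max_left x M) hc
    ⟨h, (hM _ (le_max_right x M)).le⟩
  exact ⟨y, hy.1, e⟩

theorem quartic (a b : ℝ) : ∃ u : ℝ, 1 * u ^ 3 + 6 * a * u ^ 2 + 8 * u + -(16 * b) = 0 ∧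
    (⨅ u : ℝ, (1 - a ^ 2 + u ^ 2 / 4 + a * u ^ 3 / 8 + u ^ 4 / 64 - u * b))
      = 1 - a ^ 2 + u ^ 2 / 4 + a * u ^ 3 / 8 + u ^ 4 / 64 - u * b := by
  have hc : Continuous fun u : ℝ =>
      1 - a ^ 2 + u ^ 2 / 4 + a * u ^ 3 / 8 + u ^ 4 / 64 - u * b := by fun_prop
  obtain ⟨u, hu⟩ := hc.exists_forall_le_of_isBounded 0 (by
    refine (Metric.isBounded_closedBall (x := (0 : ℝ)) (r := 1 + 8 * |a| + 64 * |b|)).subset ?_
    intro x hx
    simp only [Set.mem_ofPred_eq] at hx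
    rw [mem_closedBall_zero_iff, Real.norm_eq_abs]
    by_contra hcon
    push Not at hcon
    have ha := abs_nonneg a
    have hb := abs_nonneg b
    have h1 : 1 ≤ |x| := by linarith
    have h2 : x ^ 4 = |x| * |x| ^ 3 := by
      rw [← pow_succ', ← abs_pow]
      exact (abs_of_nonneg (show (0 : ℝ) ≤ x ^ 4 by positivity)).symm
    have h3 : -(|a| * |x| ^ 3) ≤ a * x ^ 3 := by
      rw [← abs_pow, ← abs_mul]; exact neg_abs_le _
    have h4 : x * b ≤ |x| * |b| := by rw [← abs_mul]; exact le_abs_self _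
    have h5 : |x| * |b| ≤ |x| ^ 3 * |b| := by
      gcongr; exact le_self_pow₀ h1 three_ne_zero
    have h6 : (1 + 8 * |a| + 64 * |b|) * |x| ^ 3 ≤ |x| * |x| ^ 3 := by gcongr
    have h7 : 0 < |x| ^ 3 := by positivity
    nlinarith [sq_nonneg x])
  refine ⟨u, ?_, le_antisymm (ciInf_le ⟨_, Set.forall_mem_range.2 hu⟩ u) (le_ciInf hu)⟩
  have hd : HasDerivAt (fun u : ℝ =>
      1 - a ^ 2 + u ^ 2 / 4 + a * u ^ 3 / 8 + u ^ 4 / 64 - u * b) _ u :=
    (((((hasDerivAt_pow 2 u).div_const 4).const_add (1 - a ^ 2)).fun_add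
      (((hasDerivAt_pow 3 u).const_mul a).div_const 8)).fun_add
      ((hasDerivAt_pow 4 u).div_const 64)).fun_sub (hasDerivAt_mul_const b)
  have h0 := IsLocalMin.hasDerivAt_eq_zero (Filter.Eventually.of_forall hu) hd
  norm_num at h0
  linarith

end RadAux

/-- the real numbers in the radical closure of `ℚ(a, b)` -/
noncomputable def RadS (a b : ℝ) : Subfield ℝ :=
  (solvableByRad (IntermediateField.adjoin ℚ ({(a : ℂ), (b : ℂ)} : Set ℂ)) ℂ).toSubfield.comap
    Complex.ofRealHom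

theorem mem_RadS {a b x : ℝ} : x ∈ RadS a b ↔ Rad ℚ a b x := Iff.rfl

theorem RadS_a (a b : ℝ) : a ∈ RadS a b := by
  exact (solvableByRad (IntermediateField.adjoin ℚ ({(a : ℂ), (b : ℂ)} : Set ℂ)) ℂ).algebraMap_mem
    ⟨a, IntermediateField.subset_adjoin _ _ (by simp)⟩

theorem RadS_b (a b : ℝ) : b ∈ RadS a b := by
  exact (solvableByRad (IntermediateField.adjoin ℚ ({(a : ℂ), (b : ℂ)} : Set ℂ)) ℂ).algebraMap_mem
    ⟨b, IntermediateField.subset_adjoin _ _ (by simp)⟩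

theorem RadS_neg (a b : ℝ) : RadS (-a) (-b) = RadS a b := by
  have key : ∀ x y : ℂ, IntermediateField.adjoin ℚ ({-x, -y} : Set ℂ)
      ≤ IntermediateField.adjoin ℚ ({x, y} : Set ℂ) := by
    intro x y
    rw [IntermediateField.adjoin_le_iff]
    rintro z (rfl | rfl)
    · exact neg_mem (IntermediateField.subset_adjoin _ _ (by simp))
    · exact neg_mem (IntermediateField.subset_adjoin _ _ (by simp))
  have e : IntermediateField.adjoin ℚ ({((-a : ℝ) : ℂ), ((-b : ℝ) : ℂ)} : Set ℂ)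
      = IntermediateField.adjoin ℚ ({(a : ℂ), (b : ℂ)} : Set ℂ) := by
    rw [Complex.ofReal_neg, Complex.ofReal_neg]
    refine le_antisymm (key _ _) ?_
    simpa using key (-(a : ℂ)) (-(b : ℂ))
  unfold RadS
  rw [e]

theorem RadS_sqrt {a b x : ℝ} (h : x ∈ RadS a b) : √x ∈ RadS a b := by
  rcases le_total 0 x with hx | hx
  · refine solvableByRad.rad_mem (n := 2) two_ne_zero ?_
    have e : (Complex.ofRealHom √x) ^ 2 = Complex.ofRealHom x := by
      rw [← map_pow, Real.sq_sqrt hx]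
    rw [e]
    exact h
  · rw [Real.sqrt_eq_zero_of_nonpos hx]
    exact zero_mem _

theorem RadS_abs {a b x : ℝ} (h : x ∈ RadS a b) : |x| ∈ RadS a b := by
  rcases abs_cases x with ⟨e, -⟩ | ⟨e, -⟩ <;> rw [e]
  · exact h
  · exact neg_mem h

theorem RadS_max {a b x y : ℝ} (hx : x ∈ RadS a b) (hy : y ∈ RadS a b) : max x y ∈ RadS a b := by
  rcases max_cases x y with ⟨e, -⟩ | ⟨e, -⟩ <;> rw [e] <;> assumption

/-- Cardano -/
theorem RadS_cubic {a b p q r s x : ℝ} (hp : p ≠ 0) (h3 : p ∈ RadS a b) (h2 : q ∈ RadS a b)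
    (h1 : r ∈ RadS a b) (h0 : s ∈ RadS a b) (h : p * x ^ 3 + q * x ^ 2 + r * x + s = 0) :
    x ∈ RadS a b := by
  have hP : r / p - q ^ 2 / (3 * p ^ 2) ∈ RadS a b := by
    apply_rules (maxDepth := 400) (transparency := .instances) [add_mem, sub_mem, mul_mem,
      div_mem, neg_mem, pow_mem, one_mem, zero_mem, ofNat_mem, RadS_abs, RadS_sqrt, RadS_max]
  have hQ : s / p - q * r / (3 * p ^ 2) + 2 * q ^ 3 / (27 * p ^ 3) ∈ RadS a b := by
    apply_rules (maxDepth := 400) (transparency := .instances) [add_mem, sub_mem, mul_mem,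
      div_mem, neg_mem, pow_mem, one_mem, zero_mem, ofNat_mem, RadS_abs, RadS_sqrt, RadS_max]
  have hc : q / (3 * p) ∈ RadS a b := by
    apply_rules (maxDepth := 400) (transparency := .instances) [add_mem, sub_mem, mul_mem,
      div_mem, neg_mem, pow_mem, one_mem, zero_mem, ofNat_mem, RadS_abs, RadS_sqrt, RadS_max]
  have e : (x + q / (3 * p)) ^ 3 + (r / p - q ^ 2 / (3 * p ^ 2)) * (x + q / (3 * p))
      + (s / p - q * r / (3 * p ^ 2) + 2 * q ^ 3 / (27 * p ^ 3)) = 0 := by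
    field_simp
    linear_combination (729 * p ^ 2) * h
  have ht : x + q / (3 * p) ∈ RadS a b := by
    refine RadAux.cardano (K := (solvableByRad
      (IntermediateField.adjoin ℚ ({(a : ℂ), (b : ℂ)} : Set ℂ)) ℂ).toSubfield)
      (fun z n hn hz => solvableByRad.rad_mem hn hz) hP hQ ?_
    rw [← map_pow, ← map_mul, ← map_add, ← map_add, e, map_zero]
  simpa using sub_mem ht hc

theorem top_root {p q r s : ℝ} (hp : 0 < p) :
    p * top p q r s ^ 3 + q * top p q r s ^ 2 + r * top p q r s + s = 0 := by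
  obtain ⟨M, hM⟩ := RadAux.pos_large (q := -q) (r := r) (s := -s) hp
  obtain ⟨y, -, hy⟩ := RadAux.root_above (q := q) (r := r) (s := s) (x := -M) hp
    (by have := hM M le_rfl; linarith)
  have hc : IsClosed {x : ℝ | p * x ^ 3 + q * x ^ 2 + r * x + s = 0} :=
    isClosed_eq (by fun_prop) continuous_const
  exact hc.csSup_mem ⟨y, hy⟩ (RadAux.bdd hp)

theorem le_top' {p q r s x : ℝ} (hp : 0 < p) (h : p * x ^ 3 + q * x ^ 2 + r * x + s ≤ 0) :
    x ≤ top p q r s := by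
  obtain ⟨y, hxy, hy⟩ := RadAux.root_above hp h
  exact hxy.trans (le_csSup (RadAux.bdd hp) hy)

theorem rad_U2 (a b : ℝ) : Rad ℚ a b (U2 a b) := by
  have ha := RadS_a a b
  have hb := RadS_b a b
  rw [← mem_RadS, U2]
  apply_rules (maxDepth := 400) (transparency := .instances) [add_mem, sub_mem, mul_mem,
      div_mem, neg_mem, pow_mem, one_mem, zero_mem, ofNat_mem, RadS_abs, RadS_sqrt, RadS_max]

theorem rad_U3 (a b : ℝ) : Rad ℚ a b (U3 a b) := by
  have ha := RadS_a a b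
  have hb := RadS_b a b
  rw [← mem_RadS, U3]
  split_ifs <;>
    apply_rules (maxDepth := 400) (transparency := .instances) [add_mem, sub_mem, mul_mem,
      div_mem, neg_mem, pow_mem, one_mem, zero_mem, ofNat_mem, RadS_abs, RadS_sqrt, RadS_max]

theorem rad_U4 (a b : ℝ) : Rad ℚ a b (U4 a b) := by
  have ha := RadS_a a b
  have hb := RadS_b a b
  have hy : (-a + √(a ^ 2 + 3 + 6 * |b|)) / 3 ∈ RadS a b := by
    apply_rules (maxDepth := 400) (transparency := .instances) [add_mem, sub_mem, mul_mem,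
      div_mem, neg_mem, pow_mem, one_mem, zero_mem, ofNat_mem, RadS_abs, RadS_sqrt, RadS_max]
  rw [← mem_RadS, U4]
  generalize (-a + √(a ^ 2 + 3 + 6 * |b|)) / 3 = y at hy ⊢
  dsimp only
  split_ifs <;>
    apply_rules (maxDepth := 400) (transparency := .instances) [add_mem, sub_mem, mul_mem,
      div_mem, neg_mem, pow_mem, one_mem, zero_mem, ofNat_mem, RadS_abs, RadS_sqrt, RadS_max]

theorem rad_U5 (a b : ℝ) : Rad ℚ a b (U5 a b) := by
  have ha := RadS_a a b
  have hb := RadS_b a b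
  have ht := RadS_abs ha
  have hg : top 2 (-3 * |a|) (-(1 + 3 * b)) |a| ∈ RadS a b := by
    refine RadS_cubic two_ne_zero ?_ ?_ ?_ ?_ (top_root two_pos) <;>
    apply_rules (maxDepth := 400) (transparency := .instances) [add_mem, sub_mem, mul_mem,
      div_mem, neg_mem, pow_mem, one_mem, zero_mem, ofNat_mem, RadS_abs, RadS_sqrt, RadS_max]
  have hy : top 5 0 (-(3 + 2 * |a|)) (2 * b) ∈ RadS a b := by
    refine RadS_cubic (by norm_num) ?_ ?_ ?_ ?_ (top_root (by norm_num)) <;>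
    apply_rules (maxDepth := 400) (transparency := .instances) [add_mem, sub_mem, mul_mem,
      div_mem, neg_mem, pow_mem, one_mem, zero_mem, ofNat_mem, RadS_abs, RadS_sqrt, RadS_max]
  rw [← mem_RadS, U5]
  dsimp only
  generalize top 2 (-3 * |a|) (-(1 + 3 * b)) |a| = g at hg ⊢
  generalize top 5 0 (-(3 + 2 * |a|)) (2 * b) = y at hy ⊢
  generalize |a| = t at ht ⊢
  split_ifs <;>
    apply_rules (maxDepth := 400) (transparency := .instances) [add_mem, sub_mem, mul_mem,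
      div_mem, neg_mem, pow_mem, one_mem, zero_mem, ofNat_mem, RadS_abs, RadS_sqrt, RadS_max]

theorem rad_U32 (a b : ℝ) : Rad ℚ a b (U32 a b) := by
  have ha := RadS_a a b
  have hb := RadS_b a b
  have h1 : W a b ∈ RadS a b := by
    rw [W]
    apply_rules (maxDepth := 400) (transparency := .instances) [add_mem, sub_mem, mul_mem,
      div_mem, neg_mem, pow_mem, one_mem, zero_mem, ofNat_mem, RadS_abs, RadS_sqrt, RadS_max]
  have h2 : W (-a) (-b) ∈ RadS a b := by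
    rw [W]
    apply_rules (maxDepth := 400) (transparency := .instances) [add_mem, sub_mem, mul_mem,
      div_mem, neg_mem, pow_mem, one_mem, zero_mem, ofNat_mem, RadS_abs, RadS_sqrt, RadS_max]
  obtain ⟨u, hu, e⟩ := RadAux.quartic a b
  have h3 : u ∈ RadS a b := by
    refine RadS_cubic (by norm_num) ?_ ?_ ?_ ?_ hu <;>
    apply_rules (maxDepth := 400) (transparency := .instances) [add_mem, sub_mem, mul_mem,
      div_mem, neg_mem, pow_mem, one_mem, zero_mem, ofNat_mem, RadS_abs, RadS_sqrt, RadS_max]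
  rw [← mem_RadS, U32, e]
  generalize W a b = w at h1 ⊢
  generalize W (-a) (-b) = w' at h2 ⊢
  split_ifs <;>
    apply_rules (maxDepth := 400) (transparency := .instances) [add_mem, sub_mem, mul_mem,
      div_mem, neg_mem, pow_mem, one_mem, zero_mem, ofNat_mem, RadS_abs, RadS_sqrt, RadS_max]

end Pool.Agent.Lib.MP_55068a_an.Dy
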