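import Mathlib
import Pool.Agent.Lib.MP_55068a_an.Dy.RadLem

namespace Pool.Agent.Lib.MP_55068a_an.Dy

open Polynomial

namespace P23

theorem coeff_flip (p : ℝ[X]) (j : ℕ) :
    (p.comp (C (-1) * X)).coeff j = p.coeff j * (-1) ^ j := comp_C_mul_X_coeff

theorem dvd_flip {m : ℕ} {p : ℝ[X]} (h : X ^ m ∣ p) : X ^ m ∣ p.comp (C (-1) * X) := by
  rw [X_pow_dvd_iff] at h ⊢
  intro d hd
  rw [coeff_flip, h d hd, zero_mul]

theorem aeval_flip (p : ℝ[X]) (z : ℂ) : aeval z (p.comp (C (-1) * X)) = aeval (-z) p := by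
  rw [aeval_comp]; simp

theorem reflect_flip {n : ℕ} {s : ℝ[X]} (hs : s.natDegree ≤ n) :
    (reflect n s).comp (C (-1) * X) = C ((-1) ^ n) * reflect n (s.comp (C (-1) * X)) := by
  ext j
  rw [coeff_flip, coeff_C_mul, coeff_reflect, coeff_reflect, coeff_flip]
  by_cases hj : j ≤ n
  · rw [revAt_le hj]
    obtain ⟨i, rfl⟩ := Nat.exists_eq_add_of_le hj
    rw [Nat.add_sub_cancel_left, pow_add]
    have : ((-1 : ℝ) ^ i) * (-1) ^ i = 1 := by rw [← mul_pow]; simp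
    linear_combination (-(s.coeff i * (-1) ^ j)) * this
  · rw [revAt_eq_self_of_lt (not_le.1 hj), coeff_eq_zero_of_natDegree_lt (by omega)]
    simp

theorem X_pow_flip (j : ℕ) : (X ^ j : ℝ[X]).comp (C (-1) * X) = C ((-1) ^ j) * X ^ j := by
  rw [X_pow_comp, mul_pow, ← C_pow]

/-- A certificate with the multiplier of `c k` displayed. -/
def CertB (k l : ℕ) (a b x β : ℝ) : Prop :=
  ∃ (n r : ℕ) (ε α : ℝ) (s R P : ℝ[X]), n + r = l ∧ (ε = 1 ∨ ε = -1) ∧ s.natDegree ≤ n ∧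
    Stable s ∧ (∀ z : ℂ, ‖z‖ = 1 → ∃ ρ : ℝ, 0 ≤ ρ ∧ (ε : ℂ) * aeval z R = ρ * z ^ r) ∧
    X ^ (l + 1) ∣ R * s ^ 2 - (1 + C β * X ^ (l - k) + C α * X ^ l) ∧
    X ^ (l + 1) ∣ P * s - C ε * reflect n s ∧ P.coeff 0 = a ∧ P.coeff k = b ∧ P.coeff l = x

theorem CertB.cert {k l : ℕ} {a b x β : ℝ} (h : CertB k l a b x β) : Cert k l a b x := by
  obtain ⟨n, r, ε, α, s, R, P, h⟩ := h
  exact ⟨n, r, ε, α, β, s, R, P, h⟩

theorem dvd_expand {g l : ℕ} (hg : 0 < g) {Q : ℝ[X]} (hQ : X ^ (l + 1) ∣ Q) :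
    X ^ (g * l + 1) ∣ Polynomial.expand ℝ g Q := by
  have := map_dvd (Polynomial.expand ℝ g) hQ
  rw [map_pow, expand_X, ← pow_mul] at this
  exact (pow_dvd_pow X (by nlinarith)).trans this

theorem CertB.expand {k l : ℕ} {a b x β : ℝ} (h : CertB k l a b x β) {g : ℕ} (hg : 0 < g) :
    CertB (g * k) (g * l) a b x β := by
  obtain ⟨n, r, ε, α, s, R, P, hl, hε, hs, hs0, hR, h1, h2, ha, hb, hx⟩ := h
  refine ⟨g * n, g * r, ε, α, Polynomial.expand ℝ g s, Polynomial.expand ℝ g R,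
    Polynomial.expand ℝ g P, by rw [← mul_add, hl], hε, ?_, ?_, ?_, ?_, ?_, ?_, ?_, ?_⟩
  · rw [natDegree_expand, mul_comm]; exact Nat.mul_le_mul_left _ hs
  · intro z hz
    rw [expand_aeval]
    exact hs0 _ (by rw [norm_pow]; exact pow_lt_one₀ (norm_nonneg _) hz hg.ne')
  · intro z hz
    rw [expand_aeval, pow_mul]
    exact hR _ (by rw [norm_pow, hz, one_pow])
  · have := dvd_expand hg h1
    simpa [← pow_mul, Nat.mul_sub] using this
  · have := dvd_expand hg h2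
    simpa [reflect_expand hg] using this
  · simpa [ha] using coeff_expand_mul' hg P 0
  · rw [coeff_expand_mul' hg, hb]
  · rw [coeff_expand_mul' hg, hx]

/-- The Blaschke product of a stable polynomial is in the class. -/
theorem exists_inHR {n l : ℕ} {ε : ℝ} {s P : ℝ[X]} (hε : ε = 1 ∨ ε = -1) (hs : s.natDegree ≤ n)
    (hs0 : Stable s) (h2 : X ^ (l + 1) ∣ P * s - C ε * reflect n s) (ha : |P.coeff 0| < 1) :
    ∃ c : ℕ → ℝ, InHR c ∧ PowerSeries.mk c * (s : PowerSeries ℝ) =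
      ((C ε * reflect n s : ℝ[X]) : PowerSeries ℝ) ∧ ∀ j ≤ l, c j = P.coeff j := by
  have hε1 : |ε| = 1 := by rcases hε with rfl | rfl <;> simp
  obtain ⟨c, hc, hform⟩ := exists_sch (C ε * reflect n s) s hs0
    (fun z hz => by
      rw [map_mul, norm_mul, norm_aeval_reflect s hs hz, aeval_C]
      simp [hε1])
  have hsc : PowerSeries.constantCoeff (s : PowerSeries ℝ) ≠ 0 := by
    intro h0
    apply hs0 0 (by simp)
    rw [aeval_eq_eval_map, ← coeff_zero_eq_eval_zero]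
    simpa using h0
  have hag : ∀ j ≤ l, c j = P.coeff j := by
    obtain ⟨H, hH⟩ := h2
    have h3 := congrArg (fun Q : ℝ[X] => (Q : PowerSeries ℝ)) hH
    simp only [Polynomial.coe_sub, Polynomial.coe_mul P, ← hform, Polynomial.coe_mul (X ^ _),
      Polynomial.coe_pow, Polynomial.coe_X] at h3
    have hu : IsUnit (s : PowerSeries ℝ) := by
      rw [PowerSeries.isUnit_iff_constantCoeff]; exact hsc.isUnit
    have h4 : (PowerSeries.X : PowerSeries ℝ) ^ (l + 1) ∣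
        (P : PowerSeries ℝ) - PowerSeries.mk c := by
      rw [← hu.dvd_mul_right, sub_mul, h3]; exact dvd_mul_right _ _
    intro j hj
    have := PowerSeries.X_pow_dvd_iff.1 h4 j (by omega)
    rw [map_sub, Polynomial.coeff_coe, PowerSeries.coeff_mk, sub_eq_zero] at this
    exact this.symm
  refine ⟨c, inHR_of_sch hc ?_, hform, hag⟩
  have ha' : c 0 = P.coeff 0 := hag 0 (by omega)
  set a := P.coeff 0 with haa
  by_contra hcon
  push Not at hcon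
  have e : PowerSeries.mk c = ((C (c 0) : ℝ[X]) : PowerSeries ℝ) := by
    ext n
    rcases Nat.eq_zero_or_pos n with rfl | hn
    · simp
    · simp [hcon n hn, PowerSeries.coeff_C, hn.ne']
  rw [e, ← Polynomial.coe_mul, Polynomial.coe_inj] at hform
  have e0 := congrArg (fun Q : ℝ[X] => Q.coeff 0) hform
  have en := congrArg (fun Q : ℝ[X] => Q.coeff n) hform
  simp only [coeff_C_mul, coeff_reflect, revAt_zero, revAt_le le_rfl, Nat.sub_self, ha'] at e0 en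
  have hs00 : s.coeff 0 ≠ 0 := by simpa using hsc
  have hε2 : ε * ε = 1 := by rcases hε with rfl | rfl <;> simp
  have : (a * a - 1) * s.coeff 0 = 0 := by
    linear_combination a * e0 + ε * en + s.coeff 0 * hε2
  have h5 := (mul_eq_zero.1 this).resolve_right hs00
  have h6 : |a| * |a| < 1 := mul_lt_one_of_nonneg_of_lt_one_left (abs_nonneg a) ha ha.le
  rw [abs_mul_abs_self] at h6
  linarith

/-- The supporting line given by a certificate. -/
theorem CertB.bound {k l : ℕ} (hkl : k < l) {a b x β : ℝ} (ha : |a| < 1)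
    (h : CertB k l a b x β) {b' y : ℝ} (hy : y ∈ Vals k l a b') : y + β * b' ≤ x + β * b := by
  obtain ⟨n, r, ε, α, s, R, P, hl, hε, hs, hs0, hR, h1, h2, h0, hb, hx⟩ := h
  have hε1 : |ε| = 1 := by rcases hε with rfl | rfl <;> simp
  obtain ⟨c, -, hform, hag⟩ := exists_inHR hε hs hs0 h2 (by rwa [h0])
  have hval : ∀ c' : ℕ → ℝ,
      PowerSeries.coeff l (PowerSeries.mk c' * ((R * s ^ 2 : ℝ[X]) : PowerSeries ℝ))
        = c' l + β * c' k + α * c' 0 := by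
    intro c'
    obtain ⟨H, hH⟩ := h1
    have h3 := congrArg (fun Q : ℝ[X] => (Q : PowerSeries ℝ)) (sub_eq_iff_eq_add.1 hH)
    simp only [Polynomial.coe_add, Polynomial.coe_mul (X ^ _), Polynomial.coe_mul (C _),
      Polynomial.coe_pow (φ := X), Polynomial.coe_X, Polynomial.coe_C, Polynomial.coe_one] at h3
    have h4 := coeff_mul_F (PowerSeries.mk c') hkl.le α β 1
    rw [h3, mul_add, map_add, mul_left_comm, PowerSeries.coeff_X_pow_mul', if_neg (by omega),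
      zero_add]
    simpa using h4
  have ha' : c 0 = a := (hag 0 (by omega)).trans h0
  have hb' : c k = b := (hag k hkl.le).trans hb
  have hx' : c l = x := (hag l le_rfl).trans hx
  obtain ⟨c', hc', h0', hb'', rfl⟩ := hy
  have h3 := cert_bound (sch_of_inHR hc').1 s R hs hl hε1 hR
  rw [← cert_eq s R hform l, hval, hval, ha', hb', hx', h0', hb''] at h3
  linarith

/-- The symmetry `f(z) ↦ -f(-z)` for odd `l`. -/
theorem CertB.flip {k l : ℕ} {a b x β : ℝ} (h : CertB k l a b x β) (hodd : Odd l) :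
    CertB k l (-a) (-(b * (-1) ^ k)) x (β * (-1) ^ (l - k)) := by
  obtain ⟨n, r, ε, α, s, R, P, hl, hε, hs, hs0, hR, h1, h2, ha, hb, hx⟩ := h
  have hnr : ((-1 : ℝ) ^ n) * (-1) ^ r = -1 := by rw [← pow_add, hl, hodd.neg_one_pow]
  have hrr : ((-1 : ℝ) ^ r) * (-1) ^ r = 1 := by rw [← mul_pow]; simp
  have hn : (-1 : ℝ) ^ n = -(-1) ^ r := by linear_combination (-1) ^ r * hnr - (-1) ^ n * hrr
  refine ⟨n, r, ε * (-1) ^ r, α * (-1) ^ l, s.comp (C (-1) * X),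
    R.comp (C (-1) * X), -P.comp (C (-1) * X), hl, ?_, ?_, ?_, ?_, ?_, ?_, ?_, ?_, ?_⟩
  · rcases hε with rfl | rfl <;> rcases neg_one_pow_eq_or ℝ r with h | h <;> simp [h]
  · rw [natDegree_le_iff_coeff_eq_zero]
    intro N hN
    rw [coeff_flip, coeff_eq_zero_of_natDegree_lt (by omega), zero_mul]
  · intro z hz
    rw [aeval_flip]
    exact hs0 _ (by rwa [norm_neg])
  · intro z hz
    obtain ⟨ρ, hρ, h⟩ := hR (-z) (by rwa [norm_neg])
    refine ⟨ρ, hρ, ?_⟩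
    have hc : ((-1 : ℂ) ^ r) * (-1) ^ r = 1 := by rw [← mul_pow]; simp
    rw [aeval_flip]
    rw [neg_pow z] at h
    push_cast
    linear_combination (-1) ^ r * h + ρ * z ^ r * hc
  · have := dvd_flip h1
    rw [sub_comp, mul_comp, pow_comp, add_comp, add_comp, one_comp, mul_comp, mul_comp, C_comp,
      C_comp, X_pow_flip, X_pow_flip, ← mul_assoc, ← mul_assoc, ← C_mul, ← C_mul] at this
    exact this
  · have := (dvd_flip h2).neg_right
    have hC : C (ε * -(-1) ^ r) = -C (ε * (-1) ^ r) := by rw [← C_neg, mul_neg]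
    rw [sub_comp, mul_comp, mul_comp, C_comp, reflect_flip hs, ← mul_assoc, ← C_mul, hn,
      hC] at this
    have e : -P.comp (C (-1) * X) * s.comp (C (-1) * X) -
        C (ε * (-1) ^ r) * reflect n (s.comp (C (-1) * X)) =
        -(P.comp (C (-1) * X) * s.comp (C (-1) * X) -
          -C (ε * (-1) ^ r) * reflect n (s.comp (C (-1) * X))) := by ring
    rw [e]; exact this
  · rw [coeff_neg, coeff_flip, ha]; simp
  · rw [coeff_neg, coeff_flip, hb]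
  · rw [coeff_neg, coeff_flip, hx, hodd.neg_one_pow]; ring

theorem cert23main (a v : ℝ)
    (h : Stable (1 + C v * X + C (-(v ^ 2 / 2)) * X ^ 2 + C a * X ^ 3)) :
    Cert 2 3 a (v + v ^ 3 / 2 + 3 / 2 * a * v ^ 2)
      (1 - a ^ 2 - v ^ 2 - 2 * a * v ^ 3 - 3 / 4 * v ^ 4) := by
  refine ⟨3, 0, 1, (-1) * v ^ 3 + 2 * a,
    2 * v,
    1 + C v * X + C (-(v ^ 2 / 2)) * X ^ 2 + C a * X ^ 3,
    1,
    C (a) + C ((-1 / 2) * v ^ 2 + (-1) * a * v) * X + C (v + (1 / 2) * v ^ 3 + (3 / 2) * a * v ^ 2) * X ^ 2 + C (1 + (-1) * v ^ 2 + (-3 / 4) * v ^ 4 + (-2) * a * v ^ 3 + (-1) * a ^ 2) * X ^ 3,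
    rfl, Or.inl rfl, by compute_degree, h, circle_R0,
    ⟨C ((1 / 4) * v ^ 4 + 2 * a * v) + C ((-1) * a * v ^ 2) * X + C (a ^ 2) * X ^ 2, ?_⟩,
    ⟨C (v + (-3 / 2) * v ^ 3 + (-1) * v ^ 5 + (-1 / 2) * a * v ^ 2 + (-11 / 4) * a * v ^ 4 + (-2) * a ^ 2 * v) + C ((-1 / 2) * v ^ 2 + (1 / 2) * v ^ 4 + (3 / 8) * v ^ 6 + a * v + (1 / 2) * a * v ^ 3 + a * v ^ 5 + 2 * a ^ 2 * v ^ 2) * X + C (a + (-1) * a * v ^ 2 + (-3 / 4) * a * v ^ 4 + (-2) * a ^ 2 * v ^ 3 + (-1) * a ^ 3) * X ^ 2, ?_⟩, ?_, ?_, ?_⟩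
  · apply Polynomial.funext
    intro z
    simp only [eval_add, eval_sub, eval_mul, eval_C, eval_X, eval_pow, eval_one]
    ring
  · rw [reflect3]
    apply Polynomial.funext
    intro z
    simp only [eval_add, eval_sub, eval_mul, eval_C, eval_X, eval_pow, eval_one]
    ring
  · simp only [coeff_add, coeff_C_mul, coeff_X_pow, coeff_C, coeff_X]
    norm_num
    try ring
  · simp only [coeff_add, coeff_C_mul, coeff_X_pow, coeff_C, coeff_X]
    norm_num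
    try ring
  · simp only [coeff_add, coeff_C_mul, coeff_X_pow, coeff_C, coeff_X]
    norm_num
    try ring

theorem cert23top (a s y : ℝ)
    (h : Stable (1 + C s * X + C a * X ^ 2))
    (hy : 1 ≤ y) (hp : 1 + 4 * y * s + s ^ 2 + 2 * a = 0) :
    CertB 2 3 a (1 - a ^ 2 - (1 - a) * s ^ 2) (-(s * (1 - a) * (1 + 2 * a - s ^ 2)))
      (2 * y + 2 * s) := by
  refine ⟨2, 1, 1, 2 * s + 2 * s ^ 2 * y + 4 * a * y + 2 * a * s,
    1 + C s * X + C a * X ^ 2,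
    1 + C (2 * 1 * y) * X + X ^ 2,
    C (a) + C (s + (-1) * a * s) * X + C (1 + (-1) * s ^ 2 + a * s ^ 2 + (-1) * a ^ 2) * X ^ 2 + C ((-1) * s + s ^ 3 + (-1) * a * s + (-1) * a * s ^ 3 + 2 * a ^ 2 * s) * X ^ 3,
    rfl, Or.inl rfl, by compute_degree, h, circle_R1 (Or.inl rfl) hy,
    ⟨C (s ^ 2 + 2 * a + 4 * a * s * y + a ^ 2) + C (2 * a * s + 2 * a ^ 2 * y) * X + C (a ^ 2) * X ^ 2, ?_⟩,
    ⟨C ((-1) * s ^ 2 + s ^ 4 + a + (-2) * a * s ^ 2 + (-1) * a * s ^ 4 + 3 * a ^ 2 * s ^ 2 + (-1) * a ^ 3) + C ((-1) * a * s + a * s ^ 3 + (-1) * a ^ 2 * s + (-1) * a ^ 2 * s ^ 3 + 2 * a ^ 3 * s) * X, ?_⟩, ?_, ?_, ?_⟩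
  · apply Polynomial.funext
    intro z
    simp only [eval_add, eval_sub, eval_mul, eval_C, eval_X, eval_pow, eval_one]
    linear_combination (z ^ 2) * hp
  · rw [reflect2]
    apply Polynomial.funext
    intro z
    simp only [eval_add, eval_sub, eval_mul, eval_C, eval_X, eval_pow, eval_one]
    ring
  · simp only [coeff_add, coeff_C_mul, coeff_X_pow, coeff_C, coeff_X]
    norm_num
    try ring
  · simp only [coeff_add, coeff_C_mul, coeff_X_pow, coeff_C, coeff_X]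
    norm_num
    try ring
  · simp only [coeff_add, coeff_C_mul, coeff_X_pow, coeff_C, coeff_X]
    norm_num
    try ring

theorem CertB.two {g : ℕ} (hg : 0 < g) {a b x β : ℝ} (ha : |a| < 1) (h : CertB 2 3 a b x β) :
    IsGreatest (Vals (2 * g) (3 * g) a b) x := by
  have := (h.cert.expand hg).isGreatest (by omega) ha
  rwa [mul_comm g 2, mul_comm g 3] at this

theorem CertB.flip23 {a b x β : ℝ} (h : CertB 2 3 a b x β) : CertB 2 3 (-a) (-b) x (-β) := by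
  simpa using h.flip (by decide)

theorem CertB.bound23 {g : ℕ} (hg : 0 < g) {a b x β b' y : ℝ} (ha : |a| < 1)
    (h : CertB 2 3 a b x β) (hy : y ∈ Vals (2 * g) (3 * g) a b') : y + β * b' ≤ x + β * b := by
  rw [mul_comm 2 g, mul_comm 3 g] at hy
  exact (h.expand hg).bound (by omega) ha hy

theorem top_cert {a σ : ℝ} (ha : |a| < 1) (hσ : 0 < σ) (h1 : σ ≤ 1 + a)
    (h2 : σ ≤ |2 - √(3 - 2 * a)|) :
    ∃ β : ℝ, 0 ≤ β ∧ CertB 2 3 a (1 - a ^ 2 - (1 - a) * σ ^ 2)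
      (σ * (1 - a) * |1 + 2 * a - σ ^ 2|) β := by
  obtain ⟨ha1, ha2⟩ := abs_lt.1 ha
  have hρ := Real.sq_sqrt (by linarith : 0 ≤ 3 - 2 * a)
  have hρ1 : 1 < √(3 - 2 * a) := Real.lt_sqrt_of_sq_lt (by linarith)
  generalize √(3 - 2 * a) = ρ at hρ hρ1 h2
  rcases le_total ρ 2 with h | h
  · rw [abs_of_nonneg (by linarith)] at h2
    obtain ⟨y, hy⟩ : ∃ y : ℝ, 4 * y * σ = 1 + σ ^ 2 + 2 * a :=
      ⟨(1 + σ ^ 2 + 2 * a) / (4 * σ), by field_simp⟩
    have hy1 : 1 ≤ y := by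
      apply le_of_mul_le_mul_right _ hσ
      nlinarith [mul_nonneg (by linarith : 0 ≤ 2 - σ - ρ) (by linarith : 0 ≤ 2 - σ + ρ)]
    have hk : 0 ≤ 1 + 2 * a - σ ^ 2 := by
      nlinarith [mul_nonneg (by linarith : 0 ≤ 2 - ρ - σ) (by linarith : 0 ≤ 2 - ρ + σ),
        mul_nonneg (by linarith : 0 ≤ 2 - ρ) (by linarith : 0 ≤ ρ)]
    refine ⟨2 * y + 2 * -σ, by linarith, ?_⟩
    have := cert23top a (-σ) y (stable2 ha.le (by rwa [abs_neg, abs_of_pos hσ])) hy1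
      (by linear_combination -hy)
    rw [abs_of_nonneg hk]
    convert this using 1 <;> ring
  · rw [abs_of_nonpos (by linarith)] at h2
    obtain ⟨y, hy⟩ : ∃ y : ℝ, 4 * y * σ = -(1 + σ ^ 2 + 2 * a) :=
      ⟨-(1 + σ ^ 2 + 2 * a) / (4 * σ), by field_simp⟩
    have hy1 : 1 ≤ y := by
      apply le_of_mul_le_mul_right _ hσ
      nlinarith [mul_nonneg (by linarith : 0 ≤ ρ - 2 - σ) (by linarith : 0 ≤ ρ + 2 + σ)]
    have hk : 1 + 2 * a - σ ^ 2 ≤ 0 := by nlinarith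
    refine ⟨2 * y + 2 * σ, by linarith, ?_⟩
    have := cert23top a σ y (stable2 ha.le (by rwa [abs_of_pos hσ])) hy1
      (by linear_combination hy)
    rw [abs_of_nonpos hk]
    convert this using 1
    ring

theorem mem_deg {g : ℕ} (hg : 0 < g) {a ε : ℝ} (ha : |a| < 1) (hε : ε = 1 ∨ ε = -1) :
    (0 : ℝ) ∈ Vals (2 * g) (3 * g) (ε * a) (ε * (1 - a ^ 2)) := by
  have hε1 : |ε| = 1 := by rcases hε with rfl | rfl <;> simp
  have hs : Stable (1 + C a * X ^ (2 * g)) := by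
    have := stable_diamond (a := 0) (b := a) (m := 2 * g) (l := 1) (by simpa using ha.le)
      (by omega) one_ne_zero
    simpa using this
  have c0 : (C (ε * a) + C (ε * (1 - a ^ 2)) * X ^ (2 * g) : ℝ[X]).coeff 0 = ε * a := by
    rw [coeff_add, coeff_C_zero, coeff_C_mul_X_pow, if_neg (by omega), add_zero]
  obtain ⟨c, hc, -, hag⟩ := exists_inHR (n := 2 * g) (l := 3 * g) (ε := ε)
    (s := 1 + C a * X ^ (2 * g)) (P := C (ε * a) + C (ε * (1 - a ^ 2)) * X ^ (2 * g)) hε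
    (by compute_degree) hs
    (by
      rw [reflect_add, reflect_one, reflect_C_mul_X_pow, revAt_le le_rfl, Nat.sub_self]
      have e : (C (ε * a) + C (ε * (1 - a ^ 2)) * X ^ (2 * g)) * (1 + C a * X ^ (2 * g))
          - C ε * (X ^ (2 * g) + C a * X ^ 0)
          = X ^ (4 * g) * C (ε * a * (1 - a ^ 2)) := by
        simp only [map_mul, map_sub, map_one, map_pow]
        ring
      rw [e]
      exact (pow_dvd_pow X (by omega)).mul_right _)
    (by rw [c0, abs_mul, hε1, one_mul]; exact ha)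
  refine ⟨c, hc, ?_, ?_, ?_⟩
  · rw [hag 0 (by omega), c0]
  · rw [hag _ (by omega), coeff_add, coeff_C_of_ne_zero (by omega), coeff_C_mul_X_pow, if_pos rfl,
      zero_add]
  · rw [hag _ le_rfl, coeff_add, coeff_C_of_ne_zero (by omega), coeff_C_mul_X_pow,
      if_neg (by omega), zero_add]

theorem family {a δ : ℝ} (ha : |a| < 1) (hδ : 0 < δ) :
    ∃ b x β : ℝ, CertB 2 3 a b x β ∧ 0 ≤ β ∧ b ≤ 1 - a ^ 2 ∧ x ≤ δ := by
  obtain ⟨ha1, ha2⟩ := abs_lt.1 ha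
  by_cases hm : √(3 - 2 * a) = 2
  · have hρ := Real.sq_sqrt (by linarith : 0 ≤ 3 - 2 * a)
    rw [hm] at hρ
    refine ⟨_, _, _, cert23top a 0 1 (stable2 ha.le (by rw [abs_zero]; linarith)) le_rfl
      (by linarith), by norm_num, by norm_num, by simpa using hδ.le⟩
  · have h0 : 0 < |2 - √(3 - 2 * a)| := abs_pos.2 (sub_ne_zero.2 (Ne.symm hm))
    obtain ⟨σ, hσ, h1, h2, h3⟩ : ∃ σ : ℝ, 0 < σ ∧ σ ≤ 1 + a ∧ σ ≤ |2 - √(3 - 2 * a)| ∧
        σ ≤ δ / 10 :=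
      ⟨min (1 + a) (min |2 - √(3 - 2 * a)| (δ / 10)),
        lt_min (by linarith) (lt_min h0 (by linarith)), min_le_left _ _,
        (min_le_right _ _).trans (min_le_left _ _), (min_le_right _ _).trans (min_le_right _ _)⟩
    obtain ⟨β, hβ, h⟩ := top_cert ha hσ h1 h2
    refine ⟨_, _, _, h, hβ, by nlinarith [mul_nonneg (sub_pos.2 ha2).le (sq_nonneg σ)], ?_⟩
    have h4 : |1 + 2 * a - σ ^ 2| ≤ 5 := abs_le.2 ⟨by nlinarith, by nlinarith⟩
    have h5 : σ * (1 - a) ≤ σ * 2 := by gcongr; linarith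
    calc σ * (1 - a) * |1 + 2 * a - σ ^ 2| ≤ σ * 2 * 5 :=
          mul_le_mul h5 h4 (abs_nonneg _) (by positivity)
      _ ≤ δ := by linarith

theorem top_piece {g : ℕ} (hg : 0 < g) {a σ : ℝ} (ha : |a| < 1) (hσ : 0 ≤ σ) (h1 : σ ≤ 1 + a)
    (h2 : σ ≤ |2 - √(3 - 2 * a)|) :
    IsGreatest (Vals (2 * g) (3 * g) a (1 - a ^ 2 - (1 - a) * σ ^ 2))
        (σ * (1 - a) * |1 + 2 * a - σ ^ 2|) ∧
      IsGreatest (Vals (2 * g) (3 * g) (-a) (-(1 - a ^ 2 - (1 - a) * σ ^ 2)))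
        (σ * (1 - a) * |1 + 2 * a - σ ^ 2|) := by
  have ha' : |-a| < 1 := by rwa [abs_neg]
  rcases hσ.eq_or_lt with rfl | hσ
  · have e1 : 1 - a ^ 2 - (1 - a) * 0 ^ 2 = 1 - a ^ 2 := by ring
    rw [e1, zero_mul, zero_mul]
    refine ⟨⟨by simpa using mem_deg hg ha (Or.inl rfl), fun y hy => ?_⟩,
      ⟨by simpa only [neg_mul, one_mul] using mem_deg hg ha (Or.inr rfl), fun y hy => ?_⟩⟩
    · apply le_of_forall_pos_le_add
      intro δ hδ
      obtain ⟨b, x, β, h, hβ, hb, hx⟩ := family ha hδ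
      have := h.bound23 hg ha hy
      nlinarith [mul_le_mul_of_nonneg_left hb hβ]
    · apply le_of_forall_pos_le_add
      intro δ hδ
      obtain ⟨b, x, β, h, hβ, hb, hx⟩ := family ha hδ
      have := h.flip23.bound23 hg ha' hy
      nlinarith [mul_le_mul_of_nonneg_left hb hβ]
  · obtain ⟨β, -, h⟩ := top_cert ha hσ h1 h2
    exact ⟨h.two hg ha, h.flip23.two hg ha'⟩

theorem W_sq {a b : ℝ} (ha : a < 1) (hb : b ≤ 1 - a ^ 2) :
    1 - a ^ 2 - (1 - a) * W a b ^ 2 = b := by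
  have h : 0 < 1 - a := by linarith
  rw [W, Real.sq_sqrt (div_nonneg (by linarith) h.le)]
  field_simp
  ring

theorem exists_v {a b : ℝ} (ha : |a| < 1) (hb : b ≤ 1 - a ^ 2) (hQ : 0 ≤ a + b - a ^ 3)
    (h : ¬ W a b ≤ min (1 + a) |2 - √(3 - 2 * a)|) :
    ∃ v : ℝ, b = v + v ^ 3 / 2 + 3 / 2 * a * v ^ 2 ∧ v ^ 2 + 2 * (v + a) ≤ 2 ∧
      v ^ 2 - 2 * (v + a) ≤ 2 ∧ 3 * a ^ 2 - 2 ≤ (v + a) ^ 2 := by
  obtain ⟨ha1, ha2⟩ := abs_lt.1 ha
  have hW := W_sq ha2 hb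
  have hW0 : 0 ≤ W a b := Real.sqrt_nonneg _
  generalize W a b = σ at hW hW0 h
  have h1 : σ ≤ 1 + a := by
    have h0 : σ ^ 2 ≤ (1 + a) ^ 2 := by
      apply le_of_mul_le_mul_left _ (sub_pos.2 ha2)
      linarith
    exact (abs_le_of_sq_le_sq' h0 (by linarith)).2
  have h2 : |2 - √(3 - 2 * a)| < σ := by
    by_contra hc
    exact h (le_min h1 (not_lt.1 hc))
  have h3 : (2 - √(3 - 2 * a)) ^ 2 < σ ^ 2 := by
    rw [← sq_abs]
    exact pow_lt_pow_left₀ h2 (abs_nonneg _) two_ne_zero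
  have hρ := Real.sq_sqrt (by linarith : 0 ≤ 3 - 2 * a)
  have hρ1 : 1 < √(3 - 2 * a) := Real.lt_sqrt_of_sq_lt (by linarith)
  obtain ⟨p, hp⟩ : ∃ p : ℝ, √(3 - 2 * a) = p + 1 := ⟨√(3 - 2 * a) - 1, by ring⟩
  rw [hp] at h3 hρ hρ1
  clear h h2 hp
  have hp0 : 0 < p := by linarith
  have hpa : 0 < p + a := by nlinarith
  have h4 : 0 < (p + a) * ((p + a) ^ 2 - (3 * a ^ 2 - 2)) - 2 * (a + b - a ^ 3) := by
    have e : (p + a) * ((p + a) ^ 2 - (3 * a ^ 2 - 2)) - 2 * (a + b - a ^ 3)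
        = 2 * ((1 - a) * (σ ^ 2 - (2 - (p + 1)) ^ 2)) := by
      have ea : a = 1 - p - p ^ 2 / 2 := by linarith
      subst ea
      linear_combination 2 * hW
    rw [e]
    exact mul_pos two_pos (mul_pos (by linarith) (by linarith))
  have h5 : 0 < (p + a) ^ 2 - (3 * a ^ 2 - 2) :=
    (mul_pos_iff_of_pos_left hpa).1 (by linarith)
  have hr := top_root (p := 1) (q := 0) (r := -(3 * a ^ 2 - 2)) (s := -(2 * (a + b - a ^ 3)))
    one_pos
  have hl : ∀ x : ℝ, x * (x ^ 2 - (3 * a ^ 2 - 2)) ≤ 0 →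
      x ≤ top 1 0 (-(3 * a ^ 2 - 2)) (-(2 * (a + b - a ^ 3))) :=
    fun x hx => le_top' one_pos (by linarith)
  generalize top 1 0 (-(3 * a ^ 2 - 2)) (-(2 * (a + b - a ^ 3))) = t at hr hl
  have ht0 : 0 ≤ t := hl 0 (by simp)
  have ht1 : 3 * a ^ 2 - 2 ≤ t ^ 2 := by
    rcases le_total (3 * a ^ 2 - 2) 0 with h6 | h6
    · exact h6.trans (sq_nonneg t)
    · have h7 := Real.sq_sqrt h6
      have h8 := hl √(3 * a ^ 2 - 2) (by rw [h7]; simp)
      rw [← h7]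
      exact pow_le_pow_left₀ (Real.sqrt_nonneg _) h8 2
  have ht2 : t ≤ p + a := by
    by_contra hc
    push Not at hc
    have h6 : (p + a) ^ 2 < t ^ 2 := pow_lt_pow_left₀ hc hpa.le two_ne_zero
    have h7 : (p + a) * ((p + a) ^ 2 - (3 * a ^ 2 - 2)) ≤ t * (t ^ 2 - (3 * a ^ 2 - 2)) :=
      mul_le_mul hc.le (by linarith) h5.le ht0
    linarith
  have h9 : (t - a) ^ 2 + 2 * (t - a + a) ≤ 2 := by
    nlinarith [mul_nonneg (by linarith : 0 ≤ p - (t - a)) (by linarith : 0 ≤ p + (t - a) + 2)]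
  exact ⟨t - a, by linear_combination (-1 / 2) * hr, h9, by linarith, by simpa using ht1⟩

theorem main_piece {g : ℕ} (hg : 0 < g) {a b v : ℝ} (ha : |a| < 1)
    (hb : b = v + v ^ 3 / 2 + 3 / 2 * a * v ^ 2) (h1 : v ^ 2 + 2 * (v + a) ≤ 2)
    (h2 : v ^ 2 - 2 * (v + a) ≤ 2) (h3 : 3 * a ^ 2 - 2 ≤ (v + a) ^ 2) :
    IsGreatest (Vals (2 * g) (3 * g) a b)
      (⨅ u : ℝ, (1 - a ^ 2 + u ^ 2 / 4 + a * u ^ 3 / 8 + u ^ 4 / 64 - u * b)) := by
  obtain ⟨ha1, ha2⟩ := abs_lt.1 ha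
  have m1 := mul_nonneg (by linarith : 0 ≤ 1 + a) (sub_nonneg.2 h1)
  have m2 := mul_nonneg (by linarith : 0 ≤ 1 - a) (sub_nonneg.2 h2)
  have hs : Stable (1 + C v * X + C (-(v ^ 2 / 2)) * X ^ 2 + C a * X ^ 3) := by
    apply stable3 ha
    · rw [abs_le]; constructor <;> linarith
    · rw [abs_le]; constructor <;> linarith
  have hlow : ∀ u : ℝ, 1 - a ^ 2 - v ^ 2 - 2 * a * v ^ 3 - 3 / 4 * v ^ 4 ≤
      1 - a ^ 2 + u ^ 2 / 4 + a * u ^ 3 / 8 + u ^ 4 / 64 - u * b := by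
    intro u
    have e : 1 - a ^ 2 + u ^ 2 / 4 + a * u ^ 3 / 8 + u ^ 4 / 64 - u * b
        - (1 - a ^ 2 - v ^ 2 - 2 * a * v ^ 3 - 3 / 4 * v ^ 4)
        = (u / 2 - v) ^ 2 * ((u / 4 + a + v / 2) ^ 2 + ((v + a) ^ 2 - (3 * a ^ 2 - 2)) / 2) := by
      rw [hb]; ring
    have := mul_nonneg (sq_nonneg (u / 2 - v))
      (by linarith [sq_nonneg (u / 4 + a + v / 2)] :
        0 ≤ (u / 4 + a + v / 2) ^ 2 + ((v + a) ^ 2 - (3 * a ^ 2 - 2)) / 2)
    linarith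
  have e : (⨅ u : ℝ, (1 - a ^ 2 + u ^ 2 / 4 + a * u ^ 3 / 8 + u ^ 4 / 64 - u * b))
      = 1 - a ^ 2 - v ^ 2 - 2 * a * v ^ 3 - 3 / 4 * v ^ 4 := by
    refine le_antisymm ((ciInf_le ⟨1 - a ^ 2 - v ^ 2 - 2 * a * v ^ 3 - 3 / 4 * v ^ 4, ?_⟩
      (2 * v)).trans_eq ?_) (le_ciInf hlow)
    · rintro _ ⟨u, rfl⟩
      exact hlow u
    · rw [hb]; ring
  rw [e]
  have := ((cert23main a v hs).expand hg).isGreatest (by omega) ha
  rwa [mul_comm g 2, mul_comm g 3, ← hb] at this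

end P23

theorem pos23 {g : ℕ} (hg : 0 < g) {a b : ℝ} (ha : |a| < 1) (hb : |b| ≤ 1 - a ^ 2) :
    IsGreatest (Vals (2 * g) (3 * g) a b) (U32 a b) := by
  obtain ⟨ha1, ha2⟩ := abs_lt.1 ha
  obtain ⟨hb1, hb2⟩ := abs_le.1 hb
  have ha' : |-a| < 1 := by rwa [abs_neg]
  have hb' : -b ≤ 1 - (-a) ^ 2 := by linarith
  have e1 : 1 + -a = 1 - a := by ring
  have e2 : 3 - 2 * -a = 3 + 2 * a := by ring
  unfold U32
  split_ifs with h1 h2
  · have := (P23.top_piece (σ := W a b) hg ha (Real.sqrt_nonneg _) (h1.trans (min_le_left _ _))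
      (h1.trans (min_le_right _ _))).1
    rwa [P23.W_sq ha2 hb2] at this
  · have := (P23.top_piece (σ := W (-a) (-b)) hg ha' (Real.sqrt_nonneg _)
      (by rw [e1]; exact h2.trans (min_le_left _ _))
      (by rw [e2]; exact h2.trans (min_le_right _ _))).2
    rwa [P23.W_sq (by linarith) hb', neg_neg, neg_neg, sub_neg_eq_add,
      show 1 + 2 * -a = 1 - 2 * a by ring] at this
  · rcases le_total 0 (a + b - a ^ 3) with hQ | hQ
    · obtain ⟨v, k0, k1, k2, k3⟩ := P23.exists_v ha hb2 hQ h1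
      exact P23.main_piece hg ha k0 k1 k2 k3
    · obtain ⟨v, k0, k1, k2, k3⟩ := P23.exists_v ha' hb' (by linarith) (by rwa [e1, e2])
      exact P23.main_piece (v := -v) hg ha (by linarith) (by linarith) (by linarith) (by linarith)

end Pool.Agent.Lib.MP_55068a_an.Dy
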