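import Mathlib
import Pool.Agent.Lib.MP_55068a_an.SmallCert
import Pool.Agent.Lib.MP_55068a_an.Dy.Base

namespace Pool.Agent.Lib.MP_55068a_an.Dy

open Polynomial

namespace Pos3Aux

/-- Closed form of `U_{k,3k}(a,b)`. -/
noncomputable def U (a b : ℝ) : ℝ :=
  if -(1 - |a|) ≤ b then 1 - a ^ 2 - b ^ 2 else b ^ 3 / (1 - |a|) ^ 2 - (1 + 2 * |a|) * b

theorem cert {a b : ℝ} (ha : |a| < 1) (hb : |b| ≤ 1 - a ^ 2) : Cert 1 3 a b (U a b) := by
  have ha0 := abs_nonneg a
  have ha2 : a ^ 2 = |a| ^ 2 := (sq_abs a).symm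
  rw [U]
  split_ifs with h
  · apply cert13main
    apply stable3 ha (by simpa using hb)
    rw [zero_sub, abs_neg, abs_mul, mul_zero, sub_zero]
    rcases abs_cases b with ⟨h1, h2⟩ | ⟨h1, h2⟩ <;> rw [h1] <;> nlinarith
  · push Not at h
    set t := |a| with ht
    have hp : 0 < 1 - t := by linarith
    set y := -b / (1 - t) with hy
    have hb' : b = -((1 - t) * y) := by rw [hy]; field_simp
    have hy1 : 1 ≤ y := by rw [hy, le_div_iff₀ hp]; linarith
    have hy2 : y ≤ 1 + t := by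
      rw [hy, div_le_iff₀ hp]
      have := neg_abs_le b
      nlinarith
    have hv : b ^ 3 / (1 - t) ^ 2 - (1 + 2 * t) * b = (1 - t) * y * (1 + 2 * t - y ^ 2) := by
      rw [hb']; field_simp; ring
    have ht1 : |t| ≤ 1 := by rw [abs_of_nonneg ha0]; exact ha.le
    rw [hv]
    conv => arg 4; rw [hb']
    rcases abs_cases a with ⟨h1, -⟩ | ⟨h1, -⟩
    · have := cert13p t y (stable2 ht1 (by rw [abs_neg, abs_of_nonneg (by linarith)]; exact hy2)) hy1
      have e : a = t := by rw [ht, h1]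
      conv => arg 3; rw [e]
      exact this
    · have := cert13m t y (stable2 ht1 (by rw [abs_of_nonneg (by linarith)]; exact hy2)) hy1
      have e : a = -t := by rw [ht, h1, neg_neg]
      conv => arg 3; rw [e]
      exact this

theorem greatest {k : ℕ} (hk : 0 < k) {a b : ℝ} (ha : |a| < 1) (hb : |b| ≤ 1 - a ^ 2) :
    IsGreatest (Vals k (3 * k) a b) (U a b) := by
  have := ((cert ha hb).expand hk).isGreatest (by omega) ha
  rwa [mul_one, mul_comm] at this

end Pos3Aux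

namespace Pos4Aux

/-- The root `y ≥ 1` of `(3 y^2 - 1)/2 + a y = |b|`. -/
noncomputable def Y (a b : ℝ) : ℝ := (-a + √(a ^ 2 + 3 + 6 * |b|)) / 3

/-- Closed form of `U_{k,4k}(a,b)`. -/
noncomputable def U (a b : ℝ) : ℝ :=
  if 0 ≤ a then
    (if b ^ 2 ≤ (1 + a) * (1 - a) ^ 2 then 1 - a ^ 2 - b ^ 2
      else -b ^ 4 / (1 - a) ^ 3 + (1 + 3 * a) * b ^ 2 / (1 - a) - a * (1 - a ^ 2))
  else
    (if |b| ≤ 1 + a then 1 - a ^ 2 - b ^ 2
      else -3 * Y a b ^ 5 - 5 / 4 * a * Y a b ^ 4 + 3 * Y a b ^ 3 - 3 / 2 * a * Y a b ^ 2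
        - 2 * a ^ 2 * Y a b + 3 / 4 * a)

theorem diamond {a b : ℝ} (h : |a| + |b| ≤ 1) : Cert 1 4 a b (1 - a ^ 2 - b ^ 2) := by
  apply cert14main
  simpa using stable_diamond h (m := 3) (l := 4) (by norm_num) (by norm_num)

theorem cert {a b : ℝ} (ha : |a| < 1) (hb : |b| ≤ 1 - a ^ 2) : Cert 1 4 a b (U a b) := by
  have ha' := abs_lt.1 ha
  have hp : 0 < 1 - a := by linarith [ha'.2]
  have hq : 0 < 1 + a := by linarith [ha'.1]
  have hpq : 0 < 1 - a ^ 2 := by nlinarith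
  rw [U]
  split_ifs with h0 h1 h1
  · rcases h0.eq_or_lt with h0 | h0
    · subst h0
      exact diamond (by simpa using hb)
    apply cert14main
    set g := b / (1 - a ^ 2) with hg
    have hbg : b = g * (1 - a ^ 2) := by rw [hg]; field_simp
    have hg1 : g ^ 2 * (1 + a) ≤ 1 := by
      have h2 : (g ^ 2 * (1 + a)) * ((1 + a) * (1 - a) ^ 2) ≤ 1 * ((1 + a) * (1 - a) ^ 2) := by
        calc _ = b ^ 2 := by rw [hbg]; ring
          _ ≤ _ := by rwa [one_mul]
      exact le_of_mul_le_mul_right h2 (by positivity)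
    have hg2 : g ^ 2 < 1 := by nlinarith [sq_nonneg g]
    have hg3 : |g| < 1 := by rwa [← sq_lt_one_iff_abs_lt_one]
    refine stable4 (t1 := -a * g) (t2 := 0) (t3 := g) ha.le (stable3 hg3 ?_ ?_) (by ring) (by ring)
      (by rw [hbg]; ring)
    · rw [show 0 - g * (-a * g) = a * g ^ 2 by ring, abs_of_nonneg (by positivity)]
      nlinarith
    · rw [mul_zero, sub_zero, neg_mul, abs_neg, abs_mul, abs_of_pos h0,
        show 0 - g * -(a * g) = a * g ^ 2 by ring, ← sq_abs g]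
      have h3 : 0 ≤ (1 - |g|) * (1 + |g| - a * |g|) :=
        mul_nonneg (by linarith) (by nlinarith [abs_nonneg g])
      nlinarith
  · push Not at h1
    set y := b / (1 - a) with hy
    have hb' : b = (1 - a) * y := by rw [hy]; field_simp
    have hy1 : 1 + a ≤ y ^ 2 := by
      have h2 : (1 + a) * (1 - a) ^ 2 ≤ y ^ 2 * (1 - a) ^ 2 := by
        calc _ ≤ b ^ 2 := h1.le
          _ = _ := by rw [hb']; ring
      exact le_of_mul_le_mul_right h2 (by positivity)
    have hy2 : |y| ≤ 1 + a := by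
      rw [hy, abs_div, abs_of_pos hp, div_le_iff₀ hp]; nlinarith
    have hv : -b ^ 4 / (1 - a) ^ 3 + (1 + 3 * a) * b ^ 2 / (1 - a) - a * (1 - a ^ 2)
        = (1 - a) * (-y ^ 4 + (1 + 3 * a) * y ^ 2 - a * (1 + a)) := by
      rw [hb']; field_simp; ring
    rw [hv]
    conv => arg 4; rw [hb']
    exact cert14two a y (stable2 ha.le hy2) hy1
  · push Not at h0
    exact diamond (by rw [abs_of_neg h0]; linarith)
  · push Not at h0 h1
    set y := Y a b with hy
    have hb0 := abs_nonneg b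
    have hsq := Real.sq_sqrt (show 0 ≤ a ^ 2 + 3 + 6 * |b| by positivity)
    have hs : √(a ^ 2 + 3 + 6 * |b|) = 3 * y + a := by rw [hy, Y]; ring
    have hy1 : 1 ≤ y := by
      have : 3 + a ≤ √(a ^ 2 + 3 + 6 * |b|) := Real.le_sqrt_of_sq_le (by nlinarith)
      linarith
    have hroot : |b| = (3 * y ^ 2 - 1) / 2 + a * y := by
      rw [hs] at hsq; nlinarith
    have hP : y ≤ (3 * y ^ 2 - 1) / 2 := by nlinarith
    have k2 : |(3 * y ^ 2 - 1) / 2 + a * y| ≤ 1 - a ^ 2 := by rw [← hroot, abs_abs]; exact hb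
    have k1 : |y + a * ((3 * y ^ 2 - 1) / 2)| ≤ 1 - a ^ 2 + ((3 * y ^ 2 - 1) / 2 + a * y) := by
      rw [abs_le]
      constructor
      · nlinarith [mul_nonneg hq.le (show 0 ≤ (3 * y ^ 2 - 1) / 2 + y by linarith)]
      · nlinarith [mul_nonneg hp.le (show 0 ≤ (3 * y ^ 2 - 1) / 2 - y by linarith)]
    rcases abs_cases b with ⟨h2, -⟩ | ⟨h2, -⟩
    · have e : b = (3 * y ^ 2 - 1) / 2 + a * y := by rw [← hroot, h2]
      conv => arg 4; rw [e]
      refine cert14p a y (stable3 ha ?_ ?_) hy1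
      · convert k2 using 2; ring
      · rw [← abs_neg]; convert k1 using 2 <;> ring
    · have e : b = -((3 * y ^ 2 - 1) / 2 + a * y) := by rw [← hroot, h2, neg_neg]
      conv => arg 4; rw [e]
      refine cert14m a y (stable3 (by rwa [abs_neg]) ?_ ?_) hy1
      · convert k2 using 2 <;> ring
      · convert k1 using 2 <;> ring

theorem greatest {k : ℕ} (hk : 0 < k) {a b : ℝ} (ha : |a| < 1) (hb : |b| ≤ 1 - a ^ 2) :
    IsGreatest (Vals k (4 * k) a b) (U a b) := by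
  have := ((cert ha hb).expand hk).isGreatest (by omega) ha
  rwa [mul_one, mul_comm] at this

theorem U4_eq {a b : ℝ} (ha : |a| < 1) : U4 a b = U a b := by
  have ha' := abs_lt.1 ha
  have hp : 0 < 1 - a := by linarith [ha'.2]
  rw [U4, U]
  by_cases h0 : 0 ≤ a
  · rw [if_pos h0, if_pos h0]
    by_cases h1 : b ^ 2 ≤ (1 + a) * (1 - a) ^ 2
    · have h2 : b ^ 2 / (1 - a) ^ 2 ≤ 1 + a := by rwa [div_le_iff₀ (by positivity)]
      rw [if_pos h1, max_eq_left (by linarith)]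
      ring
    · have h2 : 1 + a ≤ b ^ 2 / (1 - a) ^ 2 := by
        rw [le_div_iff₀ (by positivity)]; exact (not_le.1 h1).le
      rw [if_neg h1, max_eq_right (by linarith)]
      field_simp
      ring
  · rw [if_neg h0, if_neg h0]
    have hb0 := abs_nonneg b
    have h3 : (-a + √(a ^ 2 + 3 + 6 * |b|)) / 3 ≤ 1 ↔ |b| ≤ 1 + a := by
      rw [div_le_one (by norm_num), neg_add_le_iff_le_add,
        Real.sqrt_le_left (by linarith [ha'.1])]
      constructor <;> intro h <;> nlinarith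
    simp only [h3, Y]

end Pos4Aux

namespace Pos2Aux

theorem cert12 (a y : ℝ) (h : Stable (1 + C y * X + C a * X ^ 2)) :
    Cert 1 2 a ((1 - a) * y) (1 - a ^ 2 - (1 - a) * y ^ 2) := by
  refine ⟨2, 0, 1, 2 * a + y ^ 2, 2 * y, 1 + C y * X + C a * X ^ 2, 1,
    C a + C ((1 - a) * y) * X + C (1 - a ^ 2 - (1 - a) * y ^ 2) * X ^ 2,
    rfl, Or.inl rfl, by compute_degree, h, circle_R0,
    ⟨C (2 * a * y) + C (a ^ 2) * X, ?_⟩,
    ⟨C (a * ((1 - a) * y) + y * (1 - a ^ 2 - (1 - a) * y ^ 2))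
      + C (a * (1 - a ^ 2 - (1 - a) * y ^ 2)) * X, ?_⟩, ?_, ?_, ?_⟩
  · apply Polynomial.funext
    intro x
    simp only [eval_add, eval_sub, eval_mul, eval_C, eval_X, eval_pow, eval_one]
    ring
  · rw [reflect2]
    apply Polynomial.funext
    intro x
    simp only [eval_add, eval_sub, eval_mul, eval_C, eval_X, eval_pow, eval_one]
    ring
  all_goals
    simp only [coeff_add, coeff_C_mul, coeff_X_pow, coeff_C, coeff_X]
    norm_num

end Pos2Aux

theorem pos2 {g : ℕ} (hg : 0 < g) {a b : ℝ} (ha : |a| < 1) (hb : |b| ≤ 1 - a ^ 2) :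
    IsGreatest (Vals g (2 * g) a b) (U2 a b) := by
  have ha' := abs_lt.1 ha
  have hp : 0 < 1 - a := by linarith [ha'.2]
  have hy : |b / (1 - a)| ≤ 1 + a := by
    rw [abs_div, abs_of_pos hp, div_le_iff₀ hp]; nlinarith
  have := ((Pos2Aux.cert12 a (b / (1 - a)) (stable2 ha.le hy)).expand hg).isGreatest (by omega) ha
  rw [mul_one, mul_comm g, mul_div_cancel₀ _ hp.ne'] at this
  have e : U2 a b = 1 - a ^ 2 - (1 - a) * (b / (1 - a)) ^ 2 := by
    rw [U2]; field_simp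
  rwa [e]

theorem pos3 {g : ℕ} (hg : 0 < g) {a b : ℝ} (ha : |a| < 1) (hb : |b| ≤ 1 - a ^ 2) :
    IsGreatest (Vals g (3 * g) a b) (U3 a b) := by
  have e : U3 a b = Pos3Aux.U a b := by rw [U3, Pos3Aux.U, neg_sub]
  rw [e]
  exact Pos3Aux.greatest hg ha hb

theorem pos4 {g : ℕ} (hg : 0 < g) {a b : ℝ} (ha : |a| < 1) (hb : |b| ≤ 1 - a ^ 2) :
    IsGreatest (Vals g (4 * g) a b) (U4 a b) := by
  rw [Pos4Aux.U4_eq ha]
  exact Pos4Aux.greatest hg ha hb

end Pool.Agent.Lib.MP_55068a_an.Dy
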