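import Mathlib
import Pool.Agent.Lib.MP_55068a_an.SmallCert
import Pool.Agent.Lib.MP_55068a_an.Dy.RadLem

namespace Pool.Agent.Lib.MP_55068a_an.Dy

open Polynomial

namespace P5

open ComplexConjugate

theorem coeff_flip (p : ℝ[X]) (j : ℕ) :
    (p.comp (C (-1) * X)).coeff j = p.coeff j * (-1) ^ j := comp_C_mul_X_coeff

theorem dvd_flip {m : ℕ} {p : ℝ[X]} (h : X ^ m ∣ p) : X ^ m ∣ p.comp (C (-1) * X) := by
  rw [X_pow_dvd_iff] at h ⊢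
  intro d hd
  rw [coeff_flip, h d hd, zero_mul]

theorem aeval_flip (p : ℝ[X]) (z : ℂ) : aeval z (p.comp (C (-1) * X)) = aeval (-z) p := by
  rw [aeval_comp]; simp

theorem reflect_flip {n : ℕ} {s : ℝ[X]} (hs : s.natDegree ≤ n) :
    (reflect n s).comp (C (-1) * X) = C ((-1) ^ n) * reflect n (s.comp (C (-1) * X)) := by
  ext j
  rw [coeff_flip, coeff_C_mul, coeff_reflect, coeff_reflect, coeff_flip]
  by_cases hj : j ≤ n
  · rw [revAt_le hj]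
    obtain ⟨i, rfl⟩ := Nat.exists_eq_add_of_le hj
    rw [Nat.add_sub_cancel_left, pow_add]
    have : ((-1 : ℝ) ^ i) * (-1) ^ i = 1 := by rw [← mul_pow]; simp
    linear_combination (-(s.coeff i * (-1) ^ j)) * this
  · rw [revAt_eq_self_of_lt (not_le.1 hj), coeff_eq_zero_of_natDegree_lt (by omega)]
    simp

theorem X_pow_flip (j : ℕ) : (X ^ j : ℝ[X]).comp (C (-1) * X) = C ((-1) ^ j) * X ^ j := by
  rw [X_pow_comp, mul_pow, ← C_pow]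

/-- The symmetry `f(z) ↦ -f(-z)` for odd `l`. -/
theorem cert_flip {k l : ℕ} {a b x : ℝ} (h : Cert k l a b x) (hodd : Odd l) :
    Cert k l (-a) (-(b * (-1) ^ k)) x := by
  obtain ⟨n, r, ε, α, β, s, R, P, hl, hε, hs, hs0, hR, h1, h2, ha, hb, hx⟩ := h
  have hnr : ((-1 : ℝ) ^ n) * (-1) ^ r = -1 := by rw [← pow_add, hl, hodd.neg_one_pow]
  have hrr : ((-1 : ℝ) ^ r) * (-1) ^ r = 1 := by rw [← mul_pow]; simp
  have hn : (-1 : ℝ) ^ n = -(-1) ^ r := by linear_combination (-1) ^ r * hnr - (-1) ^ n * hrr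
  refine ⟨n, r, ε * (-1) ^ r, α * (-1) ^ l, β * (-1) ^ (l - k), s.comp (C (-1) * X),
    R.comp (C (-1) * X), -P.comp (C (-1) * X), hl, ?_, ?_, ?_, ?_, ?_, ?_, ?_, ?_, ?_⟩
  · rcases hε with rfl | rfl <;> rcases neg_one_pow_eq_or ℝ r with h | h <;> simp [h]
  · rw [natDegree_le_iff_coeff_eq_zero]
    intro N hN
    rw [coeff_flip, coeff_eq_zero_of_natDegree_lt (by omega), zero_mul]
  · intro z hz
    rw [aeval_flip]
    exact hs0 _ (by rwa [norm_neg])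
  · intro z hz
    obtain ⟨ρ, hρ, h⟩ := hR (-z) (by rwa [norm_neg])
    refine ⟨ρ, hρ, ?_⟩
    have hc : ((-1 : ℂ) ^ r) * (-1) ^ r = 1 := by rw [← mul_pow]; simp
    rw [aeval_flip]
    rw [neg_pow z] at h
    push_cast
    linear_combination (-1) ^ r * h + ρ * z ^ r * hc
  · have := dvd_flip h1
    rw [sub_comp, mul_comp, pow_comp, add_comp, add_comp, one_comp, mul_comp, mul_comp, C_comp,
      C_comp, X_pow_flip, X_pow_flip, ← mul_assoc, ← mul_assoc, ← C_mul, ← C_mul] at this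
    exact this
  · have := (dvd_flip h2).neg_right
    have hC : C (ε * -(-1) ^ r) = -C (ε * (-1) ^ r) := by rw [← C_neg, mul_neg]
    rw [sub_comp, mul_comp, mul_comp, C_comp, reflect_flip hs, ← mul_assoc, ← C_mul, hn,
      hC] at this
    have e : -P.comp (C (-1) * X) * s.comp (C (-1) * X) -
        C (ε * (-1) ^ r) * reflect n (s.comp (C (-1) * X)) =
        -(P.comp (C (-1) * X) * s.comp (C (-1) * X) -
          -C (ε * (-1) ^ r) * reflect n (s.comp (C (-1) * X))) := by ring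
    rw [e]; exact this
  · rw [coeff_neg, coeff_flip, ha]; simp
  · rw [coeff_neg, coeff_flip, hb]
  · rw [coeff_neg, coeff_flip, hx, hodd.neg_one_pow]; ring

theorem reflect5 (s1 s2 s3 s4 s5 : ℝ) :
    reflect 5 (1 + C s1 * X + C s2 * X ^ 2 + C s3 * X ^ 3 + C s4 * X ^ 4 + C s5 * X ^ 5 : ℝ[X])
      = C s5 + C s4 * X + C s3 * X ^ 2 + C s2 * X ^ 3 + C s1 * X ^ 4 + X ^ 5 := by
  rw [← pow_one (X : ℝ[X]), ← pow_mul, ← pow_mul, ← pow_mul, ← pow_mul]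
  simp only [reflect_add, reflect_one, reflect_C_mul_X_pow]
  simp [revAt_le]; ring

theorem stable5 {s1 s2 s3 s4 s5 t1 t2 t3 t4 : ℝ} (h5 : |s5| ≤ 1)
    (h : Stable (1 + C t1 * X + C t2 * X ^ 2 + C t3 * X ^ 3 + C t4 * X ^ 4))
    (e1 : s1 = t1 + s5 * t4) (e2 : s2 = t2 + s5 * t3) (e3 : s3 = t3 + s5 * t2)
    (e4 : s4 = t4 + s5 * t1) :
    Stable (1 + C s1 * X + C s2 * X ^ 2 + C s3 * X ^ 3 + C s4 * X ^ 4 + C s5 * X ^ 5) := by
  have := h.step (n := 4) (by compute_degree) h5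
  rw [reflect4] at this
  have e : (1 + C s1 * X + C s2 * X ^ 2 + C s3 * X ^ 3 + C s4 * X ^ 4 + C s5 * X ^ 5 : ℝ[X]) =
      1 + C t1 * X + C t2 * X ^ 2 + C t3 * X ^ 3 + C t4 * X ^ 4 +
        C s5 * (X * (C t4 + C t3 * X + C t2 * X ^ 2 + C t1 * X ^ 3 + X ^ 4)) := by
    subst e1 e2 e3 e4
    simp only [map_mul, map_add]; ring
  rw [e]; exact this

theorem circle_R3 {p q w : ℝ}
    (h : ∀ x : ℝ, -2 ≤ x → x ≤ 2 → 0 ≤ x ^ 3 + p * x ^ 2 + (q - 3) * x + w - 2 * p) :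
    ∀ z : ℂ, ‖z‖ = 1 → ∃ ρ : ℝ, 0 ≤ ρ ∧ ((1 : ℝ) : ℂ) *
      aeval z (1 + C p * X + C q * X ^ 2 + C w * X ^ 3 + C q * X ^ 4 + C p * X ^ 5 + X ^ 6 : ℝ[X])
        = ρ * z ^ 3 := by
  intro z hz
  have h1 := conj_mul_self_of_norm hz
  have h2 := Complex.add_conj z
  have h3 : |z.re| ≤ 1 := hz ▸ Complex.abs_re_le_norm z
  rw [abs_le] at h3
  refine ⟨_, h (2 * z.re) (by linarith [h3.1]) (by linarith [h3.2]), ?_⟩
  simp only [map_add, map_one, map_mul (aeval z), aeval_C, map_pow, aeval_X,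
    Complex.coe_algebraMap]
  have h4 : ((2 * z.re : ℝ) : ℂ) * z = z ^ 2 + 1 := by
    rw [← h2]; linear_combination h1
  push_cast at h4 ⊢
  set t : ℂ := 2 * (z.re : ℂ) with ht
  linear_combination (-((t * z) ^ 2 + t * z * (z ^ 2 + 1) + (z ^ 2 + 1) ^ 2)
    - p * z * (t * z + (z ^ 2 + 1)) - (q - 3) * z ^ 2) * h4

theorem cert15main (t b : ℝ)
    (h : Stable (1 + C 0 * X + C 0 * X ^ 2 + C 0 * X ^ 3 + C b * X ^ 4 + C t * X ^ 5)) :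
    Cert 1 5 t b (1 - t ^ 2 - b ^ 2) := by
  refine ⟨5, 0, 1, 2 * t,
    2 * b,
    1 + C 0 * X + C 0 * X ^ 2 + C 0 * X ^ 3 + C b * X ^ 4 + C t * X ^ 5,
    1,
    C (t) + C (b) * X + C (0) * X ^ 2 + C (0) * X ^ 3 + C ((-1) * t * b) * X ^ 4 + C (1 + (-1) * b ^ 2 + (-1) * t ^ 2) * X ^ 5,
    rfl, Or.inl rfl, by compute_degree, h, circle_R0,
    ⟨C (0) + C (0) * X + C (b ^ 2) * X ^ 2 + C (2 * t * b) * X ^ 3 + C (t ^ 2) * X ^ 4, ?_⟩,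
    ⟨C (t * b) + C (0) * X + C ((-1) * t * b ^ 2) * X ^ 2 + C (b + (-1) * b ^ 3 + (-2) * t ^ 2 * b) * X ^ 3 + C (t + (-1) * t * b ^ 2 + (-1) * t ^ 3) * X ^ 4, ?_⟩, ?_, ?_, ?_⟩
  · apply Polynomial.funext
    intro z
    simp only [eval_add, eval_sub, eval_mul, eval_C, eval_X, eval_pow, eval_one]
    ring
  · rw [reflect5]
    apply Polynomial.funext
    intro z
    simp only [eval_add, eval_sub, eval_mul, eval_C, eval_X, eval_pow, eval_one]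
    ring
  · simp only [coeff_add, coeff_C_mul, coeff_X_pow, coeff_C, coeff_X]
    norm_num
    try ring
  · simp only [coeff_add, coeff_C_mul, coeff_X_pow, coeff_C, coeff_X]
    norm_num
    try ring
  · simp only [coeff_add, coeff_C_mul, coeff_X_pow, coeff_C, coeff_X]
    norm_num
    try ring

theorem cert15three (t b x : ℝ)
    (h : Stable (1 + C x * X + C (b + t * x) * X ^ 2 + C t * X ^ 3))
    (hp : 2 * x ^ 3 + -3 * t * x ^ 2 + -(1 + 3 * b) * x + t = 0)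
    (hd : 0 ≤ x ^ 2 - t * x - b - 1) :
    Cert 1 5 t b (1 - t ^ 2 - b ^ 2 - (x ^ 2 - t * x - b - 1) ^ 2 *
      (2 + (x ^ 2 - t * x - b - 1) + 9 * x ^ 2 * (1 + (x ^ 2 - t * x - b - 1)) - 3 * x ^ 4)) := by
  refine ⟨3, 2, 1, 2 * x + (-2) * x ^ 3 + (-4) * b * x + 6 * b * x ^ 3 + (-6) * b ^ 2 * x + (-2) * t * x ^ 2 + 6 * t * x ^ 4 + (-2) * t * b + (-12) * t * b * x ^ 2 + (-2) * t ^ 2 * x + (-6) * t ^ 2 * x ^ 3,
    1 + (-4) * x ^ 2 + 3 * x ^ 4 + (-3) * b ^ 2 + (-2) * t * x + (-6) * t * b * x + (-3) * t ^ 2 * x ^ 2,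
    1 + C x * X + C (b + t * x) * X ^ 2 + C t * X ^ 3,
    1 + C (-2 * x) * X + C (3 * x ^ 2 - 2 * (b + t * x)) * X ^ 2 + C (-2 * x) * X ^ 3 + X ^ 4,
    C (t) + C (b) * X + C (x + (-1) * b * x + (-1) * t * b + (-1) * t ^ 2 * x) * X ^ 2 + C (1 + (-1) * x ^ 2 + b * x ^ 2 + (-1) * b ^ 2 + (-1) * t ^ 2 + t ^ 2 * x ^ 2) * X ^ 3 + C ((-1) * x + x ^ 3 + (-1) * b * x + (-1) * b * x ^ 3 + 2 * b ^ 2 * x + (-1) * t * x ^ 2 + (-1) * t * b + t * b * x ^ 2 + t * b ^ 2 + t ^ 2 * x + (-1) * t ^ 2 * x ^ 3 + 2 * t ^ 2 * b * x + t ^ 3 * x ^ 2) * X ^ 4 + C (x ^ 2 + (-1) * x ^ 4 + (-1) * b + 2 * b * x ^ 2 + b * x ^ 4 + (-3) * b ^ 2 * x ^ 2 + b ^ 3 + (-2) * t * x + 2 * t * x ^ 3 + 2 * t * b * x + (-2) * t * b * x ^ 3 + (-1) * t ^ 2 * x ^ 2 + t ^ 2 * x ^ 4 + 2 * t ^ 2 * b + (-3) * t ^ 2 * b * x ^ 2 + 2 * t ^ 3 * x + (-2) * t ^ 3 * x ^ 3) * X ^ 5,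
    rfl, Or.inl rfl, by compute_degree, h, circle_R2 (fun c => by nlinarith [sq_nonneg (2 * c - x)]),
    ⟨C (x ^ 2 + 2 * b + (-4) * b * x ^ 2 + 3 * b ^ 2 * x ^ 2 + (-2) * b ^ 3 + (-2) * t * x + 2 * t * x ^ 3 + (-8) * t * b * x + 6 * t * b * x ^ 3 + (-6) * t * b ^ 2 * x + t ^ 2 + (-8) * t ^ 2 * x ^ 2 + 3 * t ^ 2 * x ^ 4 + (-6) * t ^ 2 * b * x ^ 2 + (-2) * t ^ 3 * x ^ 3) + C (2 * b * x + (-2) * b ^ 2 * x + 2 * t + (-2) * t * x ^ 2 + 2 * t * b * x ^ 2 + (-4) * t * b ^ 2 + (-2) * t ^ 2 * x + 4 * t ^ 2 * x ^ 3 + (-8) * t ^ 2 * b * x + (-4) * t ^ 3 * x ^ 2) * X + C (b ^ 2 + 2 * t * x + (-2) * t * b * x + (-2) * t ^ 2 * b + (-2) * t ^ 3 * x) * X ^ 2 + C (2 * t * b) * X ^ 3 + C (t ^ 2) * X ^ 4, ?_⟩,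
    ⟨C (x ^ 3 + (-1) * x ^ 5 + (-2) * b * x + 3 * b * x ^ 3 + b * x ^ 5 + (-1) * b ^ 2 * x + (-4) * b ^ 2 * x ^ 3 + 3 * b ^ 3 * x + t + (-4) * t * x ^ 2 + 3 * t * x ^ 4 + t * b * x ^ 2 + (-3) * t * b * x ^ 4 + (-2) * t * b ^ 2 + 3 * t * b ^ 2 * x ^ 2 + t * b ^ 3 + (-2) * t ^ 2 * x ^ 3 + t ^ 2 * x ^ 5 + 2 * t ^ 2 * b * x + (-3) * t ^ 2 * b * x ^ 3 + 3 * t ^ 2 * b ^ 2 * x + (-1) * t ^ 3 + 4 * t ^ 3 * x ^ 2 + (-3) * t ^ 3 * x ^ 4 + 3 * t ^ 3 * b * x ^ 2 + t ^ 4 * x ^ 3) + C (b * x ^ 2 + (-1) * b * x ^ 4 + (-1) * b ^ 2 + 2 * b ^ 2 * x ^ 2 + b ^ 2 * x ^ 4 + (-3) * b ^ 3 * x ^ 2 + b ^ 4 + (-1) * t * x + 2 * t * x ^ 3 + (-1) * t * x ^ 5 + (-4) * t * b * x + 3 * t * b * x ^ 3 + t * b * x ^ 5 + 4 * t * b ^ 2 * x + (-5) * t * b ^ 2 * x ^ 3 + t * b ^ 3 * x + (-3) * t ^ 2 * x ^ 2 + 2 * t ^ 2 * x ^ 4 + (-1) * t ^ 2 * b + 2 * t ^ 2 * b * x ^ 2 + (-1) * t ^ 2 * b * x ^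 4 + 3 * t ^ 2 * b ^ 2 + (-3) * t ^ 2 * b ^ 2 * x ^ 2 + t ^ 3 * x + (-2) * t ^ 3 * x ^ 3 + t ^ 3 * x ^ 5 + 6 * t ^ 3 * b * x + (-5) * t ^ 3 * b * x ^ 3 + 3 * t ^ 4 * x ^ 2 + (-2) * t ^ 4 * x ^ 4) * X + C (t * x ^ 2 + (-1) * t * x ^ 4 + (-1) * t * b + 2 * t * b * x ^ 2 + t * b * x ^ 4 + (-3) * t * b ^ 2 * x ^ 2 + t * b ^ 3 + (-2) * t ^ 2 * x + 2 * t ^ 2 * x ^ 3 + 2 * t ^ 2 * b * x + (-2) * t ^ 2 * b * x ^ 3 + (-1) * t ^ 3 * x ^ 2 + t ^ 3 * x ^ 4 + 2 * t ^ 3 * b + (-3) * t ^ 3 * b * x ^ 2 + 2 * t ^ 4 * x + (-2) * t ^ 4 * x ^ 3) * X ^ 2, ?_⟩, ?_, ?_, ?_⟩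
  · apply Polynomial.funext
    intro z
    simp only [eval_add, eval_sub, eval_mul, eval_C, eval_X, eval_pow, eval_one]
    linear_combination (2 * z ^ 3) * hp
  · rw [reflect3]
    apply Polynomial.funext
    intro z
    simp only [eval_add, eval_sub, eval_mul, eval_C, eval_X, eval_pow, eval_one]
    ring
  · simp only [coeff_add, coeff_C_mul, coeff_X_pow, coeff_C, coeff_X]
    norm_num
    try ring
  · simp only [coeff_add, coeff_C_mul, coeff_X_pow, coeff_C, coeff_X]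
    norm_num
    try ring
  · simp only [coeff_add, coeff_C_mul, coeff_X_pow, coeff_C, coeff_X]
    norm_num
    linear_combination ((-4) * x ^ 3 + 3 * x ^ 5 + 5 * b * x + (-6) * b * x ^ 3 + 3 * b ^ 2 * x + t + 3 * t * x ^ 2 + (-6) * t * x ^ 4 + 2 * t * b + 6 * t * b * x ^ 2 + 2 * t ^ 2 * x + 3 * t ^ 2 * x ^ 3) * hp

theorem cert15four (t y : ℝ)
    (h : Stable (1 + C (-y) * X + C ((3 * y ^ 2 - 1) / 2) * X ^ 2 + C (-((5 * y ^ 3 - 3 * y) / 2)) * X ^ 3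
      + C t * X ^ 4))
    (hy : 1 ≤ y) :
    Cert 1 5 t (t * y - (5 * y ^ 3 - 3 * y) / 2)
      ((-75 * y ^ 7 + (111 + 14 * t) * y ^ 5 + (20 * t - 45) * y ^ 3
        + (9 - 18 * t - 16 * t ^ 2) * y) / 8) := by
  refine ⟨4, 1, 1, 3 * y + (-10) * y ^ 3 + 7 * y ^ 5 + 2 * t * y,
    (-3 / 4) + (15 / 2) * y ^ 2 + (-35 / 4) * y ^ 4 + 2 * t,
    1 + C (-y) * X + C ((3 * y ^ 2 - 1) / 2) * X ^ 2 + C (-((5 * y ^ 3 - 3 * y) / 2)) * X ^ 3
      + C t * X ^ 4,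
    1 + C (2 * 1 * y) * X + X ^ 2,
    C (t) + C ((3 / 2) * y + (-5 / 2) * y ^ 3 + t * y) * X + C ((-1 / 2) + 3 * y ^ 2 + (-5 / 2) * y ^ 4 + (1 / 2) * t + (-1 / 2) * t * y ^ 2) * X ^ 2 + C ((-3 / 4) * y + (-1 / 2) * y ^ 3 + (5 / 4) * y ^ 5 + (-1 / 2) * t * y + (1 / 2) * t * y ^ 3) * X ^ 3 + C ((3 / 4) + (-3 / 4) * y ^ 2 + (5 / 4) * y ^ 4 + (-5 / 4) * y ^ 6 + (1 / 4) * t + (-3) * t * y ^ 2 + (15 / 4) * t * y ^ 4 + (-1) * t ^ 2) * X ^ 4 + C ((9 / 8) * y + (-45 / 8) * y ^ 3 + (111 / 8) * y ^ 5 + (-75 / 8) * y ^ 7 + (-9 / 4) * t * y + (5 / 2) * t * y ^ 3 + (7 / 4) * t * y ^ 5 + (-2) * t ^ 2 * y) * X ^ 5,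
    rfl, Or.inl rfl, by compute_degree, h, circle_R1 (Or.inl rfl) hy,
    ⟨C ((1 / 4) + (-21 / 4) * y ^ 2 + (55 / 4) * y ^ 4 + (-35 / 4) * y ^ 6 + t + (-1) * t * y ^ 2) + C ((-3 / 2) * y + (23 / 2) * y ^ 3 + (-45 / 2) * y ^ 5 + (25 / 2) * y ^ 7 + (-1) * t * y + t * y ^ 3) * X + C ((9 / 4) * y ^ 2 + (-15 / 2) * y ^ 4 + (25 / 4) * y ^ 6 + (-1) * t + 9 * t * y ^ 2 + (-10) * t * y ^ 4 + t ^ 2) * X ^ 2 + C (3 * t * y + (-5) * t * y ^ 3 + 2 * t ^ 2 * y) * X ^ 3 + C (t ^ 2) * X ^ 4, ?_⟩,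
    ⟨C ((-3 / 8) + (-3 / 4) * y ^ 2 + 5 * y ^ 4 + (-33 / 4) * y ^ 6 + (35 / 8) * y ^ 8 + (-5 / 8) * t + (51 / 8) * t * y ^ 2 + (-75 / 8) * t * y ^ 4 + (21 / 8) * t * y ^ 6 + t ^ 2) + C ((9 / 16) * y + (3 / 2) * y ^ 3 + (-93 / 8) * y ^ 5 + (41 / 2) * y ^ 7 + (-175 / 16) * y ^ 9 + (3 / 4) * t * y + (-41 / 4) * t * y ^ 3 + (69 / 4) * t * y ^ 5 + (-27 / 4) * t * y ^ 7 + (-1) * t ^ 2 * y) * X + C ((27 / 16) * y ^ 2 + (-45 / 4) * y ^ 4 + (279 / 8) * y ^ 6 + (-195 / 4) * y ^ 8 + (375 / 16) * y ^ 10 + (3 / 4) * t + (-33 / 8) * t * y ^ 2 + (85 / 8) * t * y ^ 4 + (-39 / 8) * t * y ^ 6 + (-35 / 8) * t * y ^ 8 + (1 / 4) * t ^ 2 + (-6) * t ^ 2 * y ^ 2 + (35 / 4) * t ^ 2 * y ^ 4 + (-1) * t ^ 3) * X ^ 2 + C ((9 / 8) * t * y + (-45 / 8) * t * y ^ 3 + (111 / 8) * t * y ^ 5 + (-75 / 8) * t * y ^ 7 + (-9 / 4) * t ^ 2 * y + (5 / 2) * t ^ 2 * y ^ 3 + (7 / 4) * t ^ 2 * y ^ 5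 + (-2) * t ^ 3 * y) * X ^ 3, ?_⟩, ?_, ?_, ?_⟩
  · apply Polynomial.funext
    intro z
    simp only [eval_add, eval_sub, eval_mul, eval_C, eval_X, eval_pow, eval_one]
    ring
  · rw [reflect4]
    apply Polynomial.funext
    intro z
    simp only [eval_add, eval_sub, eval_mul, eval_C, eval_X, eval_pow, eval_one]
    ring
  · simp only [coeff_add, coeff_C_mul, coeff_X_pow, coeff_C, coeff_X]
    norm_num
    try ring
  · simp only [coeff_add, coeff_C_mul, coeff_X_pow, coeff_C, coeff_X]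
    norm_num
    try ring
  · simp only [coeff_add, coeff_C_mul, coeff_X_pow, coeff_C, coeff_X]
    norm_num
    try ring

theorem cert15two (t y : ℝ)
    (h : Stable (1 + C (-y) * X + C t * X ^ 2))
    (hT : ∀ c : ℝ, -2 ≤ c → c ≤ 2 → 0 ≤ c ^ 3 + 2 * y * c ^ 2 + (3 * y ^ 2 - 2 * t - 3) * c
      + (4 * y ^ 3 - 6 * t * y) - 2 * (2 * y)) :
    Cert 1 5 t (-((1 - t) * y))
      ((1 - t) * y * (-y ^ 4 + (4 * t + 1) * y ^ 2 - 3 * t ^ 2 - 2 * t)) := by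
  refine ⟨2, 3, 1, 2 * y + (-6) * y ^ 3 + 4 * y ^ 5 + 4 * t * y + (-4) * t * y ^ 3 + (-6) * t ^ 2 * y,
    3 * y ^ 2 + (-5) * y ^ 4 + (-2) * t + 12 * t * y ^ 2 + (-3) * t ^ 2,
    1 + C (-y) * X + C t * X ^ 2,
    1 + C (2 * y) * X + C (3 * y ^ 2 - 2 * t) * X ^ 2 + C (4 * y ^ 3 - 6 * t * y) * X ^ 3
      + C (3 * y ^ 2 - 2 * t) * X ^ 4 + C (2 * y) * X ^ 5 + X ^ 6,
    C (t) + C ((-1) * y + t * y) * X + C (1 + (-1) * y ^ 2 + t * y ^ 2 + (-1) * t ^ 2) * X ^ 2 + C (y + (-1) * y ^ 3 + t * y + t * y ^ 3 + (-2) * t ^ 2 * y) * X ^ 3 + C (y ^ 2 + (-1) * y ^ 4 + (-1) * t + 2 * t * y ^ 2 + t * y ^ 4 + (-3) * t ^ 2 * y ^ 2 + t ^ 3) * X ^ 4 + C (y ^ 3 + (-1) * y ^ 5 + (-2) * t * y + 3 * t * y ^ 3 + t * y ^ 5 + (-1) * t ^ 2 * y + (-4) * t ^ 2 * y ^ 3 + 3 * t ^ 3 * y) * X ^ 5,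
    rfl, Or.inl rfl, by compute_degree, h, circle_R3 hT,
    ⟨C (1 + (-4) * y ^ 2 + 3 * y ^ 4 + 4 * t * y ^ 2 + (-8) * t * y ^ 4 + (-4) * t ^ 2 + 15 * t ^ 2 * y ^ 2 + (-2) * t ^ 3) + C ((-2) * y + 2 * y ^ 3 + 4 * t * y + (-6) * t * y ^ 3 + 4 * t ^ 2 * y + 4 * t ^ 2 * y ^ 3 + (-6) * t ^ 3 * y) * X + C (y ^ 2 + 2 * t + (-4) * t * y ^ 2 + 3 * t ^ 2 * y ^ 2 + (-2) * t ^ 3) * X ^ 2 + C ((-2) * t * y + 2 * t ^ 2 * y) * X ^ 3 + C (t ^ 2) * X ^ 4, ?_⟩,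
    ⟨C ((-1) * y ^ 4 + y ^ 6 + 3 * t * y ^ 2 + (-4) * t * y ^ 4 + (-1) * t * y ^ 6 + (-1) * t ^ 2 + 3 * t ^ 2 * y ^ 2 + 5 * t ^ 2 * y ^ 4 + (-6) * t ^ 3 * y ^ 2 + t ^ 4) + C (t * y ^ 3 + (-1) * t * y ^ 5 + (-2) * t ^ 2 * y + 3 * t ^ 2 * y ^ 3 + t ^ 2 * y ^ 5 + (-1) * t ^ 3 * y + (-4) * t ^ 3 * y ^ 3 + 3 * t ^ 4 * y) * X, ?_⟩, ?_, ?_, ?_⟩
  · apply Polynomial.funext
    intro z
    simp only [eval_add, eval_sub, eval_mul, eval_C, eval_X, eval_pow, eval_one]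
    ring
  · rw [reflect2]
    apply Polynomial.funext
    intro z
    simp only [eval_add, eval_sub, eval_mul, eval_C, eval_X, eval_pow, eval_one]
    ring
  · simp only [coeff_add, coeff_C_mul, coeff_X_pow, coeff_C, coeff_X]
    norm_num
    try ring
  · simp only [coeff_add, coeff_C_mul, coeff_X_pow, coeff_C, coeff_X]
    norm_num
    try ring
  · simp only [coeff_add, coeff_C_mul, coeff_X_pow, coeff_C, coeff_X]
    norm_num
    try ring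

/-- stability of the main polynomial outside the diamond -/
theorem stable_main {t b γ : ℝ} (ht : 0 ≤ t) (ht1 : t < 1) (hγ : 0 ≤ γ) (hγ1 : γ < 1)
    (hb : b = γ * (1 - t ^ 2)) (h : t ^ 2 * γ ^ 3 ≤ (1 + γ) * (1 - γ) ^ 2) :
    Stable (1 + C 0 * X + C 0 * X ^ 2 + C 0 * X ^ 3 + C b * X ^ 4 + C t * X ^ 5) := by
  have hG : 0 < 1 - γ ^ 2 := by nlinarith
  obtain ⟨μ, hμ⟩ : ∃ μ : ℝ, μ * (1 - γ ^ 2) = t * γ := ⟨t * γ / (1 - γ ^ 2), by field_simp⟩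
  have hμ0 : 0 ≤ μ := by
    by_contra hc
    push Not at hc
    nlinarith [mul_nonneg ht hγ, mul_pos_of_neg_of_neg hc (neg_neg_of_pos hG)]
  have h1 : γ * (1 + γ) * μ ^ 2 ≤ 1 := by
    have e : γ * (1 + γ) * μ ^ 2 * (1 - γ ^ 2) ^ 2 = (1 + γ) * (t ^ 2 * γ ^ 3) := by
      linear_combination γ * (1 + γ) * (μ * (1 - γ ^ 2) + t * γ) * hμ
    have e2 : (1 + γ) * (t ^ 2 * γ ^ 3) ≤ 1 * (1 - γ ^ 2) ^ 2 := by
      have := mul_le_mul_of_nonneg_left h (by linarith : 0 ≤ 1 + γ)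
      nlinarith
    rw [← e] at e2
    exact le_of_mul_le_mul_right e2 (by positivity)
  have h2 : μ ≤ 1 := by
    by_contra hc
    push Not at hc
    rcases le_or_gt 1 (γ * (1 + γ)) with h3 | h3
    · nlinarith [mul_le_mul h3 hc.le zero_le_one (by linarith)]
    · nlinarith [mul_le_mul_of_nonneg_right ht1.le hγ]
  have hγμ : γ * μ ≤ γ := by nlinarith
  have s3 : Stable (1 + C (-μ) * X + C 0 * X ^ 2 + C (γ * μ) * X ^ 3) := by
    apply stable3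
    · rw [abs_of_nonneg (by positivity)]; linarith
    · rw [abs_of_nonneg (by nlinarith [mul_nonneg hγ (sq_nonneg μ)])]; nlinarith
    · rw [abs_of_nonpos (by linarith)]
      nlinarith [mul_nonneg (mul_nonneg hγ (sub_nonneg.2 hγ1.le)) (sq_nonneg μ)]
  have s4 : Stable (1 + C (-(t * γ)) * X + C 0 * X ^ 2 + C 0 * X ^ 3 + C γ * X ^ 4) :=
    stable4 (by rw [abs_of_nonneg hγ]; exact hγ1.le) s3 (by linear_combination hμ) (by ring)
      (by ring)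
  exact stable5 (by rw [abs_of_nonneg ht]; exact ht1.le) s4 (by ring) (by ring) (by ring)
    (by rw [hb]; ring)

theorem main_case {t b : ℝ} (ht : 0 ≤ t) (ht1 : t < 1) (hb1 : t - 1 ≤ b) (hb2 : b ≤ 1 - t ^ 2)
    {g : ℝ} (hg : ∀ x : ℝ, 2 * x ^ 3 + -3 * t * x ^ 2 + -(1 + 3 * b) * x + t ≤ 0 → x ≤ g)
    (hp : 2 * g ^ 3 + -3 * t * g ^ 2 + -(1 + 3 * b) * g + t = 0)
    (hd : g ^ 2 - t * g - b - 1 ≤ 0) :
    Stable (1 + C 0 * X + C 0 * X ^ 2 + C 0 * X ^ 3 + C b * X ^ 4 + C t * X ^ 5) := by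
  rcases le_or_gt b (1 - t) with hb | hb
  · have := stable_diamond (a := t) (b := b) (m := 4) (l := 5)
      (by rw [abs_of_nonneg ht]; have : |b| ≤ 1 - t := abs_le.2 ⟨by linarith, hb⟩; linarith)
      (by norm_num) (by norm_num)
    simpa using this
  have hb0 : 0 < b := by linarith
  have ht0 : 0 < t := by nlinarith
  have hA : 0 < 1 - t ^ 2 := by linarith
  obtain ⟨x, hx0, hx⟩ : ∃ x : ℝ, t < x ∧ x ^ 2 - t * x - b - 1 = 0 := by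
    have hD : 0 ≤ t ^ 2 + 4 + 4 * b := by positivity
    have h1 := Real.sq_sqrt hD
    have h2 : t < √(t ^ 2 + 4 + 4 * b) := Real.lt_sqrt_of_sq_lt (by linarith)
    exact ⟨(t + √(t ^ 2 + 4 + 4 * b)) / 2, by linarith, by linear_combination (1 / 4) * h1⟩
  have key : t * b ≤ (1 - t ^ 2 - b) * x := by
    by_contra hc
    push Not at hc
    have h1 : 2 * x ^ 3 + -3 * t * x ^ 2 + -(1 + 3 * b) * x + t < 0 := by
      have : 2 * x ^ 3 + -3 * t * x ^ 2 + -(1 + 3 * b) * x + t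
          = (1 - t ^ 2 - b) * x - t * b := by linear_combination (2 * x - t) * hx
      linarith
    have h2 : x < g := lt_of_le_of_ne (hg x h1.le) (by rintro rfl; linarith)
    nlinarith [mul_pos (sub_pos.2 h2) (by linarith : 0 < g + x - t)]
  obtain ⟨γ, rfl⟩ : ∃ γ : ℝ, b = γ * (1 - t ^ 2) := ⟨b / (1 - t ^ 2), by field_simp⟩
  have hγ : 0 < γ := (mul_pos_iff_of_pos_right hA).1 hb0
  have key2 : t * γ ≤ (1 - γ) * x := by
    apply le_of_mul_le_mul_right _ hA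
    linarith
  have hγ1 : γ < 1 := by
    by_contra hc
    push Not at hc
    nlinarith [mul_pos ht0 hγ]
  refine stable_main ht ht1 hγ.le hγ1 rfl ?_
  have h3 : 0 ≤ ((1 - γ) * x - t * γ) * (t * γ + (1 - γ) * (x - t)) :=
    mul_nonneg (by linarith) (by nlinarith [mul_pos ht0 hγ])
  have h4 : ((1 - γ) * x - t * γ) * (t * γ + (1 - γ) * (x - t))
      = (1 + γ) * (1 - γ) ^ 2 - t ^ 2 * γ ^ 3 := by
    linear_combination (1 - γ) ^ 2 * hx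
  linarith

theorem three_case {t b : ℝ} (ht : 0 ≤ t) (ht1 : t < 1) (hb1 : t - 1 ≤ b) (hb2 : b ≤ 1 - t ^ 2)
    {g : ℝ} (hg : ∀ x : ℝ, 2 * x ^ 3 + -3 * t * x ^ 2 + -(1 + 3 * b) * x + t ≤ 0 → x ≤ g)
    (hp : 2 * g ^ 3 + -3 * t * g ^ 2 + -(1 + 3 * b) * g + t = 0)
    (hd : 0 < g ^ 2 - t * g - b - 1) :
    Stable (1 + C g * X + C (b + t * g) * X ^ 2 + C t * X ^ 3) := by
  have hA : 0 < 1 - t ^ 2 := by nlinarith
  have hid : (2 * g - t) * (g ^ 2 - t * g - b - 1) = t * b - (1 - t ^ 2 - b) * g := by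
    linear_combination hp
  have hg0 : 0 ≤ g := by
    by_contra hc
    push Not at hc
    have h1 : t * b < (1 - t ^ 2 - b) * g := by
      nlinarith [mul_pos hd (by linarith : 0 < t - 2 * g)]
    have h2 : (1 - t ^ 2 - b) * g ≤ 0 := mul_nonpos_of_nonneg_of_nonpos (by linarith) hc.le
    have hb0 : b < 0 := by
      by_contra hb
      push Not at hb
      nlinarith [mul_nonneg ht hb]
    have h3 : -g * (2 + t) ≤ t := by
      by_contra h4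
      push Not at h4
      have h5 : 0 < 1 - t ^ 2 - b := by linarith
      have h6 := mul_lt_mul_of_pos_right h4 h5
      have h7 := mul_lt_mul_of_pos_right h1 (by linarith : 0 < 2 + t)
      nlinarith [mul_nonneg ht (mul_nonneg (by linarith : 0 ≤ 1 + t) (by linarith : 0 ≤ 1 - t + b))]
    nlinarith [mul_nonneg ht (neg_nonneg.2 hc.le)]
  have hgt : t < g := by
    by_contra hc
    push Not at hc
    nlinarith [mul_nonneg hg0 (sub_nonneg.2 hc)]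
  have h1 : (1 - t ^ 2 - b) * g < t * b := by
    nlinarith [mul_pos hd (by linarith : 0 < 2 * g - t)]
  have h2 : (1 - t ^ 2 - b) * t ≤ (1 - t ^ 2 - b) * g :=
    mul_le_mul_of_nonneg_left hgt.le (by linarith)
  have hb3 : 1 - t ^ 2 < 2 * b := by
    by_contra hc
    push Not at hc
    nlinarith [mul_nonneg ht (sub_nonneg.2 hc)]
  obtain ⟨η, rfl⟩ : ∃ η : ℝ, b = η * (1 - t) := ⟨b / (1 - t), by field_simp [sub_ne_zero.2 ht1.ne']⟩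
  have hη : 1 + t < 2 * η := by
    by_contra hc
    push Not at hc
    nlinarith [mul_nonneg (sub_nonneg.2 hc) (sub_nonneg.2 ht1.le)]
  have hup : g ≤ 1 + η := by
    by_contra hc
    push Not at hc
    have e : (g - (1 + η)) * (2 * (g ^ 2 + g * (1 + η) + (1 + η) ^ 2) - 3 * t * (g + (1 + η))
        - 1 - 3 * (η * (1 - t))) + (1 - 2 * t + η * (2 - 3 * t) + 3 * η ^ 2 + 2 * η ^ 3) = 0 := by
      linear_combination hp
    have hη0 : 0 < η := by linarith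
    have p1 : 0 < 1 - 2 * t + η * (2 - 3 * t) + 3 * η ^ 2 + 2 * η ^ 3 := by
      nlinarith [mul_nonneg hη0.le (by linarith : 0 ≤ η - t), pow_pos hη0 3]
    have p2 : 0 < 2 * (g ^ 2 + g * (1 + η) + (1 + η) ^ 2) - 3 * t * (g + (1 + η))
        - 1 - 3 * (η * (1 - t)) := by
      nlinarith [mul_nonneg (by linarith : 0 ≤ g - 3 / 2) hg0,
        mul_nonneg (by linarith : 0 ≤ η - 1 / 2) (by linarith : 0 ≤ 1 + η),
        mul_nonneg (by linarith : 0 ≤ η - 1 / 2) hg0,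
        mul_nonneg (by linarith : 0 ≤ 1 - t) (by linarith : 0 ≤ g + (1 + η))]
    nlinarith [mul_pos (sub_pos.2 hc) p2]
  apply stable3
  · rwa [abs_of_nonneg ht]
  · rw [abs_le]; constructor <;> nlinarith
  · rw [abs_le]
    constructor
    · nlinarith [mul_nonneg hA.le hg0, mul_nonneg (by linarith : 0 ≤ η * (1 - t)) (sub_nonneg.2 ht1.le)]
    · nlinarith [mul_nonneg hA.le (sub_nonneg.2 hup)]

theorem four_case {t η y : ℝ} (ht : 0 ≤ t) (ht1 : t < 1) (hη2 : η ≤ 1 + t) (hy : 1 ≤ y)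
    (hp : 5 * y ^ 3 - (3 + 2 * t) * y = 2 * η * (1 - t))
    (hD : 3 * y ^ 2 - 2 * η * y + 2 * η ^ 2 - 3 - 2 * t < 0) :
    Stable (1 + C (-y) * X + C ((3 * y ^ 2 - 1) / 2) * X ^ 2
      + C (-((5 * y ^ 3 - 3 * y) / 2)) * X ^ 3 + C t * X ^ 4) := by
  have hN : 0 < 1 + t := by linarith
  have hy2 : 0 ≤ y ^ 2 - 1 := by nlinarith
  have h1 : 2 * (η - y) * (1 - t) = 5 * y * (y ^ 2 - 1) := by linear_combination -hp
  have h2 : 0 ≤ η - y := by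
    by_contra hc
    push Not at hc
    nlinarith [mul_pos (neg_pos.2 hc) (sub_pos.2 ht1), mul_nonneg (by linarith : 0 ≤ y) hy2]
  have h3 : 5 * y * (y ^ 2 - 1) ≤ 2 * (η - y) := by nlinarith [mul_nonneg h2 ht]
  have h4 : 5 * y ^ 2 * (y ^ 2 - 1) ≤ 2 * η * (η - y) := by
    nlinarith [mul_le_mul_of_nonneg_left h3 (by linarith : 0 ≤ y), mul_nonneg h2 h2]
  have h5 : (y - 1) * (5 * y ^ 2 + 2 * y + 1) ≤ 2 * t := by
    nlinarith [mul_nonneg (sub_nonneg.2 hy) (by positivity : 0 ≤ 5 * y ^ 3 + y + 2)]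
  have hη3 : η < 1 + t := by
    refine lt_of_le_of_ne hη2 ?_
    rintro rfl
    nlinarith [mul_nonneg (sub_nonneg.2 hy) (by linarith : 0 ≤ 3 * y + 1 - 2 * t), sq_nonneg t]
  obtain ⟨γ, rfl⟩ : ∃ γ : ℝ, η = γ * (1 + t) := ⟨η / (1 + t), by field_simp⟩
  obtain ⟨w, hw⟩ : ∃ w : ℝ, w * (1 + t) = (3 * y ^ 2 - 1) / 2 :=
    ⟨(3 * y ^ 2 - 1) / 2 / (1 + t), by field_simp⟩
  have hγ1 : γ < 1 := by
    by_contra hc
    push Not at hc
    nlinarith [mul_nonneg (sub_nonneg.2 hc) hN.le]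
  have hγ0 : 0 < γ := (mul_pos_iff_of_pos_right hN).1 (by linarith)
  have hw0 : 0 ≤ w := by
    by_contra hc
    push Not at hc
    nlinarith [mul_pos (neg_pos.2 hc) hN]
  have k1 : 0 ≤ 1 - γ + w + t * γ - y := by
    apply le_of_mul_le_mul_right _ hN
    nlinarith
  have k2 : 0 ≤ 1 + γ + w - t * γ + y := by nlinarith [mul_nonneg hγ0.le (sub_nonneg.2 ht1.le)]
  have k3 : w + (1 + t) * γ ^ 2 - γ * y ≤ 1 := by
    apply le_of_mul_le_mul_right _ hN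
    nlinarith
  have m1 := mul_nonneg (by linarith : 0 ≤ 1 + γ) k1
  have m2 := mul_nonneg (by linarith : 0 ≤ 1 - γ) k2
  have s3 : Stable (1 + C (t * γ - y) * X + C w * X ^ 2 + C (-γ) * X ^ 3) := by
    apply stable3
    · rwa [abs_neg, abs_of_pos hγ0]
    · rw [abs_le]; constructor <;> nlinarith
    · rw [abs_le]; constructor <;> nlinarith
  exact stable4 (by rw [abs_of_nonneg ht]; exact ht1.le) s3 (by ring)
    (by linear_combination -hw) (by linear_combination (-1 / 2) * hp)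

theorem cert_nonneg {t b : ℝ} (ht : 0 ≤ t) (ht1 : t < 1) (hb : |b| ≤ 1 - t ^ 2) :
    Cert 1 5 t b (U5 t b) := by
  obtain ⟨hb1, hb2⟩ := abs_le.1 hb
  unfold U5
  rw [abs_of_nonneg ht]
  dsimp only
  split_ifs with h1 h2
  · have hp := top_root (p := 2) (q := -3 * t) (r := -(1 + 3 * b)) (s := t) two_pos
    have hg : ∀ x : ℝ, 2 * x ^ 3 + -3 * t * x ^ 2 + -(1 + 3 * b) * x + t ≤ 0 →
        x ≤ top 2 (-3 * t) (-(1 + 3 * b)) t := fun x hx => le_top' two_pos hx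
    generalize top 2 (-3 * t) (-(1 + 3 * b)) t = g at hp hg ⊢
    rcases le_or_gt (g ^ 2 - t * g - b - 1) 0 with hd | hd
    · rw [max_eq_left hd]
      have := cert15main t b (main_case ht ht1 h1 hb2 hg hp hd)
      simpa using this
    · rw [max_eq_right hd.le]
      exact cert15three t b g (three_case ht ht1 h1 hb2 hg hp hd) hp hd.le
  all_goals
    obtain ⟨η, hη⟩ : ∃ η : ℝ, η = -b / (1 - t) := ⟨_, rfl⟩
    rw [← hη] at h2
    have h1t : 0 < 1 - t := by linarith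
    have hbη : b = -((1 - t) * η) := by rw [hη]; field_simp
    have hη1 : 1 < η := by
      by_contra hc
      push Not at hc h1
      nlinarith [mul_nonneg h1t.le (sub_nonneg.2 hc)]
    have hη2 : η ≤ 1 + t := by
      apply le_of_mul_le_mul_right _ h1t
      nlinarith
  · rw [← hη]
    have := cert15two t η (stable2 (by rw [abs_of_nonneg ht]; exact ht1.le)
      (by rw [abs_neg, abs_of_pos (by linarith)]; exact hη2))
      (fun c h3 h4 => by have := h2 c ⟨h3, h4⟩; linarith)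
    rwa [← hbη] at this
  · have hp := top_root (p := 5) (q := 0) (r := -(3 + 2 * t)) (s := 2 * b) (by norm_num)
    have hy : 1 ≤ top 5 0 (-(3 + 2 * t)) (2 * b) :=
      le_top' (by norm_num) (by push Not at h1; linarith)
    generalize top 5 0 (-(3 + 2 * t)) (2 * b) = y at hp hy ⊢
    have hp' : 5 * y ^ 3 - (3 + 2 * t) * y = 2 * η * (1 - t) := by
      linear_combination hp - 2 * hbη
    have hD : 3 * y ^ 2 - 2 * η * y + 2 * η ^ 2 - 3 - 2 * t < 0 := by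
      by_contra hc
      push Not at hc
      apply h2
      rintro c ⟨h3, h4⟩
      have e : c ^ 3 + 2 * η * c ^ 2 + (3 * η ^ 2 - 2 * t - 3) * c + 4 * η ^ 3 - 6 * t * η - 4 * η
          = (c - y + η) ^ 2 * (c + 2 * y)
            + (3 * y ^ 2 - 2 * η * y + 2 * η ^ 2 - 3 - 2 * t) * (c + y + 2 * η) := by
        linear_combination -hp'
      rw [e]
      exact add_nonneg (mul_nonneg (sq_nonneg _) (by linarith)) (mul_nonneg hc (by linarith))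
    have := cert15four t y (four_case ht ht1 hη2 hy hp' hD) hy
    rwa [show t * y - (5 * y ^ 3 - 3 * y) / 2 = b by linear_combination (-1 / 2) * hp] at this

end P5

theorem pos5 {g : ℕ} (hg : 0 < g) {a b : ℝ} (ha : |a| < 1) (hb : |b| ≤ 1 - a ^ 2) :
    IsGreatest (Vals g (5 * g) a b) (U5 a b) := by
  have key : Cert 1 5 a b (U5 a b) := by
    rcases le_total 0 a with h | h
    · exact P5.cert_nonneg h (lt_of_abs_lt ha) hb
    · have h1 := P5.cert_nonneg (t := -a) (b := b) (by linarith) (by linarith [(abs_lt.1 ha).1])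
        (by rwa [neg_sq])
      have h2 := P5.cert_flip h1 (by decide)
      have e : U5 (-a) b = U5 a b := by
        unfold U5
        rw [abs_neg, neg_sq]
      simpa [e] using h2
  have := (key.expand hg).isGreatest (by omega) ha
  rwa [mul_one, mul_comm g 5] at this

end Pool.Agent.Lib.MP_55068a_an.Dy
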