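import Mathlib
import Pool.Agent.Lib.MP_55068a_an.Dy.Gen

namespace Pool.Agent.Lib.MP_55068a_an.Dy

open Polynomial

namespace PadAux

/-- if all roots are large, the constant coefficient dominates -/
theorem big_roots {K : Type} [NormedField K] [IsUltrametricDist K] {ρ : ℝ} (hρ : 0 < ρ) {c : K}
    (hc : c ≠ 0) (m : Multiset K) (hm : ∀ u ∈ m, ρ < ‖u‖) :
    0 < ‖(C c * (m.map fun u => X - C u).prod).coeff 0‖ ∧
    ∀ j, ‖(C c * (m.map fun u => X - C u).prod).coeff (j + 1)‖ * ρ ^ (j + 1)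
      < ‖(C c * (m.map fun u => X - C u).prod).coeff 0‖ := by
  induction m using Multiset.induction_on with
  | empty => simp [hc, coeff_C_succ]
  | cons u m ih =>
    obtain ⟨a1, a2⟩ := ih fun v hv => hm v (Multiset.mem_cons_of_mem hv)
    have hu := hm u (Multiset.mem_cons_self _ _)
    have e : C c * ((u ::ₘ m).map fun u => X - C u).prod
        = (C c * (m.map fun u => X - C u).prod) * (X - C u) := by
      rw [Multiset.map_cons, Multiset.prod_cons]
      ring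
    rw [e]
    generalize C c * (m.map fun u => X - C u).prod = f at a1 a2
    have e0 : ‖(f * (X - C u)).coeff 0‖ = ‖f.coeff 0‖ * ‖u‖ := by
      rw [mul_coeff_zero]
      simp
    have a3 : ∀ j, ‖f.coeff j‖ * ρ ^ j ≤ ‖f.coeff 0‖ := fun j => by
      rcases j with _ | j
      · simp
      · exact (a2 j).le
    rw [e0]
    refine ⟨mul_pos a1 (hρ.trans hu), fun j => ?_⟩
    rw [coeff_mul_X_sub_C, sub_eq_add_neg]
    have b1 := IsUltrametricDist.norm_add_le_max (f.coeff j) (-(f.coeff (j + 1) * u))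
    rw [norm_neg, norm_mul] at b1
    have hp : 0 < ρ ^ (j + 1) := pow_pos hρ _
    refine (mul_le_mul_of_nonneg_right b1 hp.le).trans_lt ?_
    rw [max_mul_of_nonneg _ _ hp.le, max_lt_iff]
    constructor
    · calc ‖f.coeff j‖ * ρ ^ (j + 1) = ‖f.coeff j‖ * ρ ^ j * ρ := by ring
        _ ≤ ‖f.coeff 0‖ * ρ := mul_le_mul_of_nonneg_right (a3 j) hρ.le
        _ < ‖f.coeff 0‖ * ‖u‖ := mul_lt_mul_of_pos_left hu a1
    · calc ‖f.coeff (j + 1)‖ * ‖u‖ * ρ ^ (j + 1) = ‖f.coeff (j + 1)‖ * ρ ^ (j + 1) * ‖u‖ := by ring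
        _ < ‖f.coeff 0‖ * ‖u‖ := mul_lt_mul_of_pos_right (a2 j) (hρ.trans hu)

/-- if the constant coefficient dominates weakly at radius `ρ`, there is no smaller root -/
theorem no_small {K : Type} [NormedField K] [IsUltrametricDist K] {ρ : ℝ} {f : K[X]}
    (h0 : 0 < ‖f.coeff 0‖) (h : ∀ j, ‖f.coeff (j + 1)‖ * ρ ^ (j + 1) ≤ ‖f.coeff 0‖) {u : K}
    (hu : f.eval u = 0) : ρ ≤ ‖u‖ := by
  by_contra hlt
  rw [not_le] at hlt
  rw [eval_eq_sum_range, Finset.sum_range_succ', pow_zero, mul_one] at hu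
  have e : ‖f.coeff 0‖ = ‖∑ j ∈ Finset.range f.natDegree, f.coeff (j + 1) * u ^ (j + 1)‖ := by
    rw [eq_neg_of_add_eq_zero_right hu, norm_neg]
  rcases (Finset.range f.natDegree).eq_empty_or_nonempty with he | he
  · rw [he, Finset.sum_empty, norm_zero] at e
    exact h0.ne' e
  obtain ⟨j, -, hj⟩ := IsUltrametricDist.exists_norm_finsetSum_le_of_nonempty he
    fun j => f.coeff (j + 1) * u ^ (j + 1)
  rw [← e, norm_mul, norm_pow] at hj
  have a1 : ‖u‖ ^ (j + 1) < ρ ^ (j + 1) := pow_lt_pow_left₀ hlt (norm_nonneg _) (by omega)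
  rcases (norm_nonneg (f.coeff (j + 1))).eq_or_lt with b | b
  · rw [← b, zero_mul] at hj
    exact absurd h0 (not_lt.2 hj)
  · exact absurd ((mul_lt_mul_of_pos_left a1 b).trans_le (h j)) (not_lt.2 hj)

theorem zmod_zero {p : ℕ} [Fact p.Prime] {z : ℤ_[p]} : PadicInt.toZMod z = 0 ↔ ‖z‖ < 1 := by
  rw [← RingHom.mem_ker, PadicInt.ker_toZMod, IsLocalRing.mem_maximalIdeal, PadicInt.mem_nonunits]

theorem norm_one {p : ℕ} [Fact p.Prime] {z : ℤ_[p]} (h : PadicInt.toZMod z ≠ 0) : ‖z‖ = 1 :=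
  le_antisymm z.norm_le_one (not_lt.1 fun hz => h (zmod_zero.2 hz))

theorem zmod_val {p : ℕ} [Fact p.Prime] (x : ZMod p) :
    PadicInt.toZMod ((x.val : ℕ) : ℤ_[p]) = x := by
  rw [map_natCast, ZMod.natCast_zmod_val]

theorem base {p : ℕ} [Fact p.Prime] {Q : (ZMod p)[X]} (hQ : Irreducible Q) (F : ℤ_[p][X])
    (hF : F.map PadicInt.toZMod = Q) (hd : F.natDegree ≤ Q.natDegree) :
    ∃ u : PadicAlgCl p, aeval u (F.map (algebraMap ℤ_[p] ℚ_[p])) = 0 ∧
      (minpoly ℚ_[p] u).natDegree = Q.natDegree := by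
  have hd' : F.natDegree = Q.natDegree := le_antisymm hd (hF ▸ natDegree_map_le)
  have hl : PadicInt.toZMod F.leadingCoeff ≠ 0 := by
    rw [leadingCoeff, ← coeff_map, hF, hd']
    exact leadingCoeff_ne_zero.2 hQ.ne_zero
  obtain ⟨a, ha⟩ := PadicInt.isUnit_iff.2 (norm_one hl)
  have hm : (C ((a⁻¹ : ℤ_[p]ˣ) : ℤ_[p]) * F).Monic :=
    monic_C_mul_of_mul_leadingCoeff_eq_one (by rw [← ha, Units.inv_mul])
  have hi : Irreducible (C ((a⁻¹ : ℤ_[p]ˣ) : ℤ_[p]) * F) := by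
    refine Monic.irreducible_of_irreducible_map PadicInt.toZMod _ hm ?_
    rw [Polynomial.map_mul, hF, map_C]
    exact (irreducible_isUnit_mul (isUnit_C.2 ((Units.isUnit _).map _))).2 hQ
  have hi2 := (hm.irreducible_iff_irreducible_map_fraction_map (K := ℚ_[p])).1 hi
  obtain ⟨u, hu⟩ := IsAlgClosed.exists_aeval_eq_zero (PadicAlgCl p) _
    (degree_pos_of_irreducible hi2).ne'
  have hmin := minpoly.eq_of_irreducible_of_monic hi2 hu (hm.map _)
  refine ⟨u, ?_, ?_⟩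
  · have e : F = C (a : ℤ_[p]) * (C ((a⁻¹ : ℤ_[p]ˣ) : ℤ_[p]) * F) := by
      rw [← mul_assoc, ← C_mul, Units.mul_inv, C_1, one_mul]
    rw [e, Polynomial.map_mul, map_mul, hu, mul_zero]
  · rw [← hmin, hm.natDegree_map, natDegree_C_mul (Units.ne_zero _), hd']

end PadAux

theorem slope_root {q : ℕ} [Fact q.Prime] (p : ℚ_[q][X]) (h0 : ‖p.coeff 0‖ = q)
    (hq : ‖p.coeff q‖ = 1) (hlow : ∀ e, 0 < e → e ≤ q → ‖p.coeff e‖ ≤ 1)
    (hhigh : ∀ e, q < e → ‖p.coeff e‖ ≤ 1 / q) (hdeg : p.natDegree < 2 * q) :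
    ∃ u : PadicAlgCl q, aeval u p = 0 ∧ q ∣ (minpoly ℚ_[q] u).natDegree := by
  have hq1 : 1 < q := (Fact.out : q.Prime).one_lt
  have hq2 : (1 : ℝ) < q := by exact_mod_cast hq1
  have hq3 : (0 : ℝ) < q := by linarith
  obtain ⟨ρ, hρ1, hρ⟩ : ∃ ρ : ℝ, 1 < ρ ∧ ρ ^ q = q :=
    ⟨(q : ℝ) ^ ((q : ℝ)⁻¹), Real.one_lt_rpow hq2 (inv_pos.2 hq3),
      Real.rpow_inv_natCast_pow hq3.le (by omega)⟩
  have hρ0 : 0 < ρ := by linarith
  set f := p.map (algebraMap ℚ_[q] (PadicAlgCl q)) with hf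
  have hn : ∀ j, ‖f.coeff j‖ = ‖p.coeff j‖ := fun j => by
    rw [hf, coeff_map, norm_algebraMap']
  have hle : ∀ j, ‖f.coeff (j + 1)‖ * ρ ^ (j + 1) ≤ ‖f.coeff 0‖ := fun j => by
    rw [hn, hn, h0]
    by_cases h1 : j + 1 ≤ q
    · calc ‖p.coeff (j + 1)‖ * ρ ^ (j + 1) ≤ 1 * ρ ^ q :=
          mul_le_mul (hlow _ (by omega) h1) (pow_le_pow_right₀ hρ1.le h1) (by positivity)
            zero_le_one
        _ = q := by rw [one_mul, hρ]
    by_cases h2 : j + 1 ≤ 2 * q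
    · calc ‖p.coeff (j + 1)‖ * ρ ^ (j + 1) ≤ 1 / q * ρ ^ (2 * q) :=
          mul_le_mul (hhigh _ (by omega)) (pow_le_pow_right₀ hρ1.le h2) (by positivity)
            (by positivity)
        _ = q := by
          rw [mul_comm 2 q, pow_mul, hρ]
          field_simp
    · rw [coeff_eq_zero_of_natDegree_lt (by omega), norm_zero, zero_mul]
      exact hq3.le
  have hf0 : f ≠ 0 := fun h => by
    have := hn 0
    rw [h, h0, coeff_zero, norm_zero] at this
    exact hq3.ne this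
  obtain ⟨u, hu, hur⟩ : ∃ u ∈ f.roots, ‖u‖ ≤ ρ := by
    by_contra hc
    push Not at hc
    have a1 := (PadAux.big_roots hρ0 (leadingCoeff_ne_zero.2 hf0) f.roots hc).2 (q - 1)
    rw [← (IsAlgClosed.splits f).eq_prod_roots, Nat.sub_add_cancel hq1.le, hn, hn, hq, h0, hρ,
      one_mul] at a1
    exact lt_irrefl _ a1
  have hu0 : f.eval u = 0 := (mem_roots hf0).1 hu
  have hue : ‖u‖ = ρ := le_antisymm hur (PadAux.no_small (by rw [hn, h0]; exact hq3) hle hu0)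
  refine ⟨u, by rw [aeval_def, eval₂_eq_eval_map]; exact hu0, ?_⟩
  have hint : IsIntegral ℚ_[q] u := Algebra.IsIntegral.isIntegral u
  have hd := minpoly.natDegree_pos hint
  have hs := spectralNorm.spectralNorm_eq_norm_coeff_zero_rpow ℚ_[q] (PadicAlgCl q) u
  rw [PadicAlgCl.spectralNorm_eq, hue, one_div] at hs
  have hu1 : u ≠ 0 := fun h => by
    rw [h, norm_zero] at hue
    exact hρ0.ne hue
  have hc0 := minpoly.coeff_zero_ne_zero hint hu1
  have a1 : ρ ^ (minpoly ℚ_[q] u).natDegree = ‖(minpoly ℚ_[q] u).coeff 0‖ := by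
    rw [hs]
    exact Real.rpow_inv_natCast_pow (norm_nonneg _) hd.ne'
  rw [Padic.norm_eq_zpow_neg_valuation hc0] at a1
  generalize (minpoly ℚ_[q] u).natDegree = d at *
  generalize -((minpoly ℚ_[q] u).coeff 0).valuation = m at a1
  rw [← hρ, ← zpow_natCast, ← zpow_natCast, ← zpow_mul, zpow_right_inj₀ hρ0 hρ1.ne'] at a1
  exact Int.natCast_dvd_natCast.1 ⟨m, a1⟩

theorem deg_of_mod {p : ℕ} [Fact p.Prime] (r : List (ZMod p)) (hr : r.Nodup) {Q : (ZMod p)[X]}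
    (hQ : Irreducible Q) (hQr : ∀ x ∈ r, Q.eval x ≠ 0) (F : ℤ_[p][X])
    (hF : F.map PadicInt.toZMod = (r.map (fun x => X - C x)).prod * Q)
    (hd : F.natDegree ≤ r.length + Q.natDegree) :
    ∃ u : PadicAlgCl p, aeval u (F.map (algebraMap ℤ_[p] ℚ_[p])) = 0 ∧
      (minpoly ℚ_[p] u).natDegree = Q.natDegree := by
  induction r generalizing F with
  | nil => exact PadAux.base hQ F (by simpa using hF) (by simpa using hd)
  | cons x r ih =>
    rw [List.map_cons, List.prod_cons, mul_assoc] at hF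
    obtain ⟨hx, hr'⟩ := List.nodup_cons.1 hr
    have hH : ((r.map (fun x => X - C x)).prod * Q).eval x ≠ 0 := by
      rw [eval_mul, eval_list_prod]
      refine mul_ne_zero (List.prod_ne_zero fun h => hx ?_) (hQr x List.mem_cons_self)
      simp only [List.map_map, List.mem_map, Function.comp_apply, eval_sub, eval_X, eval_C] at h
      obtain ⟨y, hy, e⟩ := h
      rwa [sub_eq_zero.1 e]
    have ev : ∀ (G : ℤ_[p][X]) (z : ℤ_[p]), PadicInt.toZMod (G.aeval z)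
        = (G.map PadicInt.toZMod).eval (PadicInt.toZMod z) := fun G z => by
      rw [coe_aeval_eq_eval, eval_map, eval₂_at_apply]
    have a1 : ‖F.aeval ((x.val : ℕ) : ℤ_[p])‖ < 1 := by
      rw [← PadAux.zmod_zero, ev, hF, PadAux.zmod_val]
      simp
    have a2 : ‖F.derivative.aeval ((x.val : ℕ) : ℤ_[p])‖ = 1 := by
      refine PadAux.norm_one ?_
      rw [ev, ← derivative_map, hF, PadAux.zmod_val, derivative_mul]
      simpa using hH
    obtain ⟨z, b1, b2, -⟩ := hensels_lemma (F := F) (a := ((x.val : ℕ) : ℤ_[p]))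
      (by rw [a2, one_pow]; exact a1)
    rw [a2, ← PadAux.zmod_zero, map_sub, PadAux.zmod_val, sub_eq_zero] at b2
    rw [coe_aeval_eq_eval] at b1
    obtain ⟨G, rfl⟩ := dvd_iff_isRoot.2 b1
    rw [Polynomial.map_mul, Polynomial.map_sub, map_X, map_C, b2] at hF
    have hG := mul_left_cancel₀ (X_sub_C_ne_zero x) hF
    have hG0 : G ≠ 0 := fun h => by
      rw [← hG, h, Polynomial.map_zero, eval_zero] at hH
      exact hH rfl
    rw [natDegree_mul (X_sub_C_ne_zero z) hG0, natDegree_X_sub_C, List.length_cons] at hd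
    obtain ⟨u, c1, c2⟩ := ih hr' (fun y hy => hQr y (List.mem_cons_of_mem _ hy)) G hG (by omega)
    exact ⟨u, by rw [Polynomial.map_mul, map_mul, c1, mul_zero], c2⟩

/-- a quintic without roots and without quadratic factors -/
theorem irr5 {F : Type} [Field F] {c5 c4 c3 c2 c1 c0 : F} (h5 : c5 ≠ 0)
    (h1 : ∀ x : F, c5 * x ^ 5 + c4 * x ^ 4 + c3 * x ^ 3 + c2 * x ^ 2 + c1 * x + c0 ≠ 0)
    (h2 : ∀ u v : F, ¬ (c1 = v * (c3 - v * c5 - u * (c4 - u * c5))
        + u * (c2 - v * (c4 - u * c5) - u * (c3 - v * c5 - u * (c4 - u * c5))) ∧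
      c0 = v * (c2 - v * (c4 - u * c5) - u * (c3 - v * c5 - u * (c4 - u * c5))))) :
    Irreducible (C c5 * X ^ 5 + C c4 * X ^ 4 + C c3 * X ^ 3 + C c2 * X ^ 2 + C c1 * X + C c0 : F[X])
      ∧ (C c5 * X ^ 5 + C c4 * X ^ 4 + C c3 * X ^ 3 + C c2 * X ^ 2 + C c1 * X + C c0 :
        F[X]).natDegree = 5 := by
  have hd : (C c5 * X ^ 5 + C c4 * X ^ 4 + C c3 * X ^ 3 + C c2 * X ^ 2 + C c1 * X + C c0 :
      F[X]).natDegree = 5 := by
    compute_degree!
  refine ⟨?_, hd⟩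
  have h0 : (C c5 * X ^ 5 + C c4 * X ^ 4 + C c3 * X ^ 3 + C c2 * X ^ 2 + C c1 * X + C c0 :
      F[X]) ≠ 0 := fun h => by
    rw [h, natDegree_zero] at hd
    omega
  rw [irreducible_iff_lt_natDegree_lt h0 (not_isUnit_of_natDegree_pos _ (by omega)), hd]
  intro g hg hgd hdvd
  rw [Finset.mem_Ioc] at hgd
  rcases (by omega : g.natDegree = 1 ∨ g.natDegree = 2) with e | e
  · rw [hg.eq_X_add_C e, ← sub_neg_eq_add, ← C_neg, dvd_iff_isRoot] at hdvd
    refine h1 (-g.coeff 0) ?_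
    simpa using hdvd
  · have e1 : g = X ^ 2 + C (g.coeff 1) * X + C (g.coeff 0) := by
      conv_lhs => rw [hg.as_sum, e]
      simp only [Finset.sum_range_succ, Finset.sum_range_zero, pow_zero, pow_one]
      ring
    generalize g.coeff 1 = u at e1
    generalize g.coeff 0 = v at e1
    have e2 : (C c5 * X ^ 5 + C c4 * X ^ 4 + C c3 * X ^ 3 + C c2 * X ^ 2 + C c1 * X + C c0 : F[X])
        = g * (C c5 * X ^ 3 + C (c4 - u * c5) * X ^ 2 + C (c3 - v * c5 - u * (c4 - u * c5)) * X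
          + C (c2 - v * (c4 - u * c5) - u * (c3 - v * c5 - u * (c4 - u * c5))))
        + (C (c1 - (v * (c3 - v * c5 - u * (c4 - u * c5))
            + u * (c2 - v * (c4 - u * c5) - u * (c3 - v * c5 - u * (c4 - u * c5))))) * X
          + C (c0 - v * (c2 - v * (c4 - u * c5) - u * (c3 - v * c5 - u * (c4 - u * c5))))) := by
      rw [e1]
      simp only [map_sub, map_add, map_mul]
      ring
    rw [e2, dvd_add_right (dvd_mul_right _ _)] at hdvd
    have e3 := eq_zero_of_dvd_of_natDegree_lt hdvd (natDegree_linear_le.trans_lt (by omega))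
    have e4 := congrArg (fun s => s.coeff 1) e3
    have e5 := congrArg (fun s => s.coeff 0) e3
    simp only [coeff_add, coeff_C_mul, coeff_X_one, coeff_X_zero, coeff_C_zero, coeff_C_succ,
      coeff_zero, mul_one, mul_zero, add_zero, zero_add] at e4 e5
    exact h2 u v ⟨sub_eq_zero.1 e4, sub_eq_zero.1 e5⟩

/-- a generic `p`-adic point with a prescribed factorisation pattern -/
theorem mod_point {p : ℕ} [Fact p.Prime] (pz : (MvPolynomial (Fin 2) ℤ)[X]) (w0 : Fin 2 → ZMod p)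
    (r : List (ZMod p)) (hr : r.Nodup) {Q : (ZMod p)[X]} (hQ : Irreducible Q)
    (hQr : ∀ x ∈ r, Q.eval x ≠ 0)
    (hF : pz.map (MvPolynomial.eval₂Hom (Int.castRingHom (ZMod p)) w0)
      = (r.map (fun x => X - C x)).prod * Q)
    (hd : pz.natDegree ≤ r.length + Q.natDegree) :
    ∃ w : Fin 2 → ℚ_[p], AlgebraicIndependent ℚ w ∧ ∃ u : PadicAlgCl p,
      aeval u ((pz.map (MvPolynomial.map (Int.castRingHom ℚ))).map
        (MvPolynomial.aeval w : P2 →ₐ[ℚ] ℚ_[p]).toRingHom) = 0 ∧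
      (minpoly ℚ_[p] u).natDegree = Q.natDegree := by
  obtain ⟨w, hw, hi⟩ := exists_indep (K := ℚ_[p])
    (O := Metric.ball (fun i => ((((w0 i).val : ℕ) : ℤ_[p]) : ℚ_[p])) 1) Metric.isOpen_ball
    (Metric.nonempty_ball.2 one_pos)
  have hw' : ∀ i, ‖w i - ((((w0 i).val : ℕ) : ℤ_[p]) : ℚ_[p])‖ < 1 := fun i => by
    have := (dist_pi_lt_iff one_pos).1 (Metric.mem_ball.1 hw) i
    rwa [dist_eq_norm] at this
  obtain ⟨z, hz, hz0⟩ : ∃ z : Fin 2 → ℤ_[p], (∀ i, (z i : ℚ_[p]) = w i) ∧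
      ∀ i, PadicInt.toZMod (z i) = w0 i := by
    obtain ⟨y, hy⟩ : ∃ y : Fin 2 → ℤ_[p],
        ∀ i, (y i : ℚ_[p]) = w i - ((((w0 i).val : ℕ) : ℤ_[p]) : ℚ_[p]) :=
      ⟨fun i => ⟨_, (hw' i).le⟩, fun i => rfl⟩
    refine ⟨fun i => y i + (((w0 i).val : ℕ) : ℤ_[p]), fun i => ?_, fun i => ?_⟩
    · rw [PadicInt.coe_add, hy]
      exact sub_add_cancel _ _
    · rw [map_add, PadAux.zmod_val, PadAux.zmod_zero.2 (by rw [PadicInt.norm_def, hy]; exact hw' i),
        zero_add]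
  obtain ⟨u, h1, h2⟩ := deg_of_mod r hr hQ hQr
    (pz.map (MvPolynomial.eval₂Hom (Int.castRingHom ℤ_[p]) z)) (by
      rw [← hF, Polynomial.map_map]
      congr 1
      exact MvPolynomial.ringHom_ext (fun c => by simp) fun i => by simp [hz0])
    (natDegree_map_le.trans hd)
  refine ⟨w, hi, u, ?_, h2⟩
  rw [← h1, Polynomial.map_map, Polynomial.map_map]
  congr 2
  exact MvPolynomial.ringHom_ext (fun c => by simp) fun i => by simp [hz]

end Pool.Agent.Lib.MP_55068a_an.Dy
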