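import Mathlib
import Pool.Agent.Lib.MP_55068a_an.Dy.Exp
import Pool.Agent.Lib.MP_55068a_an.Dy.Pad
import Pool.Agent.Lib.MP_55068a_an.Dy.BadNet
import Pool.Agent.Lib.MP_55068a_an.Dy.Env

namespace Pool.Agent.Lib.MP_55068a_an.Dy

open Polynomial

noncomputable def q16 (R : Type) [CommRing R] (A B : R) : R[X] :=
  C (-5) * X ^ 6 + C (10 * A + 8) * X ^ 4 + C (10 * B) * X ^ 3 + C (A ^ 2 - 8 * A - 2) * X ^ 2
    + C (2 * A * B - 2 * B) * X + C (B ^ 2)

theorem map_q16 {R S : Type} [CommRing R] [CommRing S] (φ : R →+* S) (A B : R) :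
    (q16 R A B).map φ = q16 S (φ A) (φ B) := by
  simp [q16, Polynomial.map_add, Polynomial.map_mul, Polynomial.map_pow, map_ofNat]

noncomputable def e16 (A B : P2) : P2[X] :=
  C (40 * A - 28) * X ^ 4 + C (40 * B) * X ^ 3 + C (-16 * A ^ 2 - 52 * A + 32) * X ^ 2
    + C (-32 * A * B + 2 * B) * X + C (-16 * B ^ 2)

theorem lifts16 : Lifts (a21 6) (b21 6) (l21 6) (xT 1 0)
    (q16 P2 (MvPolynomial.X 0) (MvPolynomial.X 1)) (C 15 * X)
    (e16 (MvPolynomial.X 0) (MvPolynomial.X 1)) := by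
  intro Y hY
  simp only [Rt, Set.mem_setOf_eq, q16, e16, eval₂_add, eval₂_mul, eval₂_C, eval₂_X_pow,
    eval₂_X] at hY ⊢
  simp only [map_add, map_sub, map_mul, map_pow, map_neg, map_ofNat] at hY ⊢
  set A := io P2 (MvPolynomial.X 0) with hA
  set B := io P2 (MvPolynomial.X 1) with hB
  have hY0 : Y ≠ 0 := by
    rintro rfl
    have h1 : io P2 (MvPolynomial.X 1 ^ 2) = 0 := by rw [map_pow, ← hB]; linear_combination hY
    simpa using io_rel h1 ![0, 1]
  obtain ⟨h, hh⟩ : ∃ h, 3 * Y * h = B + (A - 1) * Y + 2 * Y ^ 3 :=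
    ⟨_, mul_div_cancel₀ _ (mul_ne_zero three_ne_zero hY0)⟩
  refine ⟨mul_ne_zero (by norm_num) hY0, evT 1 ![Y, h] (one_ne _), ?_⟩
  have ha : evT 1 ![Y, h] (one_ne _) (a21 6) = A := by
    simp only [a21, map_Gg, evT_x, Nat.reduceSub, Gg4, Matrix.cons_val_zero, Matrix.cons_val_one]
    apply mul_left_cancel₀ (pow_ne_zero 2 hY0)
    linear_combination (1 / 6) * hY
      + (Y ^ 3 + (3 * Y * h + B + (A - 1) * Y + 2 * Y ^ 3) / 6) * hh
  refine ⟨ha, ?_, by simp [evT_x], ?_⟩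
  · simp only [b21, map_sub, map_mul, ha, map_Gg, evT_x, Nat.reduceSub, Gg3, Matrix.cons_val_zero,
      Matrix.cons_val_one]
    linear_combination hh
  · simp only [l21, map_mul, map_neg, map_ofNat, map_Gg, evT_x, Nat.reduceSub, Gg5,
      Matrix.cons_val_zero, Matrix.cons_val_one]
    linear_combination (-9) * hY
      + (50 * Y ^ 3 - 30 * Y - 25 * (3 * Y * h + B + (A - 1) * Y + 2 * Y ^ 3)) * hh

instance fact7 : Fact (Nat.Prime 7) := ⟨by norm_num⟩

theorem bad16 : Bad (a21 6) (b21 6) (l21 6) := by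
  obtain ⟨hi, hd⟩ := irr5 (F := ZMod 7) (c5 := 2) (c4 := 2) (c3 := 3) (c2 := 2) (c1 := 0)
    (c0 := 3) (by decide) (by decide) (by decide)
  obtain ⟨w, hw, u, hu, hdeg⟩ := mod_point (p := 7)
    (q16 _ (MvPolynomial.X 0) (MvPolynomial.X 1)) ![0, 2] [1] (by simp) hi
    (by simp; decide) (by
      have h7 : (7 : (ZMod 7)[X]) = 0 := by
        rw [← map_ofNat C 7]; exact C_eq_zero.2 (by decide)
      rw [map_q16]
      simp [q16, map_ofNat]
      linear_combination (-X ^ 6 + X ^ 4 + 3 * X ^ 3 - X + 1) * h7)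
    (by rw [hd]; show _ ≤ 6; unfold q16; compute_degree)
  rw [map_q16, MvPolynomial.map_X, MvPolynomial.map_X] at hu
  have h6 : (q16 P2 (MvPolynomial.X 0) (MvPolynomial.X 1)).natDegree = 6 := by
    unfold q16; compute_degree!
  have h4 : (e16 (MvPolynomial.X 0) (MvPolynomial.X 1)).natDegree = 4 := by
    unfold e16
    compute_degree!
    intro h
    have := congrArg (MvPolynomial.eval ![0, 0]) h
    simp [map_ofNat] at this
  refine bad_prime lifts16 ?_ (by omega) Nat.prime_five (by omega) (Or.inr ⟨h6, rfl⟩) hw hu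
    (by rw [hdeg, hd])
  rw [h4]
  exact lt_of_le_of_lt (b := 1) (by compute_degree) (by norm_num)

theorem neg16 {g : ℕ} (hg : 0 < g) : Neg (g * 1) (g * 6) := by
  refine neg_of (piece_R21 (p := 17 / 10) (q := 47 / 25) (by norm_num) (by norm_num)
    (free16.congr fun j hj => ?_) ?_ hg) bad16
  · interval_cases j <;> norm_num [Gg0, Gg1, Gg2, Gg3, Gg4]
  · norm_num [Gg4, abs_lt]

noncomputable def q25 (R : Type) [CommRing R] (A B : R) : R[X] :=
  C 3 * X ^ 6 + C (6 * A) * X ^ 5 + C (-4) * X ^ 4 + C (-16 * A) * X ^ 3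
    + C (-8 * A ^ 2 + 6 * A * B - 2) * X ^ 2 + C (-2 * A ^ 3 + 2 * A + 6 * B) * X
    + C (A ^ 2 - 3 * B ^ 2)

theorem map_q25 {R S : Type} [CommRing R] [CommRing S] (φ : R →+* S) (A B : R) :
    (q25 R A B).map φ = q25 S (φ A) (φ B) := by
  simp [q25, Polynomial.map_add, Polynomial.map_mul, Polynomial.map_pow, map_ofNat]

noncomputable def e25 (A B : P2) : P2[X] :=
  C 4 * X ^ 4 + C (-2 * A) * X ^ 3 + C (-8) * X ^ 2 + C (6 * B) * X + C (2 * A ^ 2)

theorem lifts25 : Lifts (a22 5) (b22 5) (l22 5) (xT d2 0)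
    (q25 P2 (MvPolynomial.X 0) (MvPolynomial.X 1)) (X + C (MvPolynomial.X 0))
    (e25 (MvPolynomial.X 0) (MvPolynomial.X 1)) := by
  intro Y hY
  simp only [Rt, Set.mem_setOf_eq, q25, e25, eval₂_add, eval₂_mul, eval₂_C, eval₂_X_pow,
    eval₂_X] at hY ⊢
  simp only [map_add, map_sub, map_mul, map_pow, map_neg, map_ofNat] at hY ⊢
  set A := io P2 (MvPolynomial.X 0) with hA
  set B := io P2 (MvPolynomial.X 1) with hB
  have hY0 : Y ≠ 0 := by
    rintro rfl
    have h1 : io P2 (MvPolynomial.X 0 ^ 2 - 3 * MvPolynomial.X 1 ^ 2) = 0 := by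
      simp only [map_sub, map_mul, map_pow, map_ofNat, ← hA, ← hB]; linear_combination hY
    simpa using io_rel h1 ![1, 0]
  have hD : Y + A ≠ 0 := by
    intro h0
    have h2 : Y = -A := by linear_combination h0
    have h1 : io P2 (3 * (MvPolynomial.X 0 ^ 3 - MvPolynomial.X 0 - MvPolynomial.X 1) ^ 2) = 0 := by
      simp only [map_sub, map_mul, map_pow, map_ofNat, ← hA, ← hB]
      rw [h2] at hY
      linear_combination -hY
    simpa using io_rel h1 ![0, 1]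
  obtain ⟨h, hh⟩ : ∃ h, (Y + A) * h = Y + A * Y ^ 2 - B := ⟨_, mul_div_cancel₀ _ hD⟩
  have hδ : MvPolynomial.aeval ![Y, h] d2 ≠ 0 := by simpa using hY0
  have hi : evT d2 ![Y, h] hδ (iT d2) = Y⁻¹ := by rw [evT_inv]; simp
  have key : Y * (3 * Y * h - 2 * Y ^ 3 + Y)
      - (-7 / 2 * Y ^ 4 + 3 * Y ^ 2 * h + 3 * Y ^ 2 + 3 / 2 * h ^ 2 - 1 / 2) = A * Y := by
    apply mul_left_cancel₀ (pow_ne_zero 2 hD)
    linear_combination (1 / 2) * hY - 3 / 2 * ((Y + A) * h + (Y + A * Y ^ 2 - B)) * hh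
  refine ⟨hD, evT d2 ![Y, h] hδ, ?_⟩
  have ha : evT d2 ![Y, h] hδ (a22 5) = A := by
    simp only [a22, map_sub, map_mul, hi, map_Gg, evT_x, Nat.reduceSub, Gg3, Gg4,
      Matrix.cons_val_zero, Matrix.cons_val_one]
    field_simp
    linear_combination 2 * key
  refine ⟨ha, ?_, by simp [evT_x], ?_⟩
  · simp only [b22, map_add, map_sub, map_mul, map_pow, ha, map_Gg, evT_x, Nat.reduceSub, Gg1, Gg2,
      Matrix.cons_val_zero, Matrix.cons_val_one]
    linear_combination -hh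
  · simp only [l22, map_mul, map_neg, map_ofNat, hi, map_Gg, evT_x, Nat.reduceSub, Gg4,
      Matrix.cons_val_zero, Matrix.cons_val_one]
    apply mul_left_cancel₀ hY0
    have e : Y * Y⁻¹ = 1 := mul_inv_cancel₀ hY0
    linear_combination (-2 * (-7 / 2 * Y ^ 4 + 3 * Y ^ 2 * h + 3 * Y ^ 2 + 3 / 2 * h ^ 2 - 1 / 2)
      * (Y + A)) * e + 2 * (Y + A) * key - 6 * Y ^ 2 * hh

instance fact5 : Fact (Nat.Prime 5) := ⟨by norm_num⟩

theorem bad25 : Bad (a22 5) (b22 5) (l22 5) := by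
  obtain ⟨hi, hd⟩ := irr5 (F := ZMod 5) (c5 := 3) (c4 := 3) (c3 := 2) (c2 := 2) (c1 := 0)
    (c0 := 3) (by decide) (by decide) (by decide)
  obtain ⟨w, hw, u, hu, hdeg⟩ := mod_point (p := 5)
    (q25 _ (MvPolynomial.X 0) (MvPolynomial.X 1)) ![2, 0] [2] (by simp) hi
    (by simp; decide) (by
      have h5 : (5 : (ZMod 5)[X]) = 0 := by
        rw [← map_ofNat C 5]; exact C_eq_zero.2 (by decide)
      rw [map_q25]
      simp [q25, map_ofNat]
      linear_combination (3 * X ^ 5 - 6 * X ^ 3 - 6 * X ^ 2 - 3 * X + 2) * h5)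
    (by rw [hd]; show _ ≤ 6; unfold q25; compute_degree)
  rw [map_q25, MvPolynomial.map_X, MvPolynomial.map_X] at hu
  have h6 : (q25 P2 (MvPolynomial.X 0) (MvPolynomial.X 1)).natDegree = 6 := by
    unfold q25; compute_degree!
  have h4 : (e25 (MvPolynomial.X 0) (MvPolynomial.X 1)).natDegree = 4 := by
    unfold e25
    compute_degree!
  refine bad_prime lifts25 ?_ (by omega) Nat.prime_five (by omega) (Or.inr ⟨h6, rfl⟩) hw hu
    (by rw [hdeg, hd])
  rw [h4]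
  exact lt_of_le_of_lt (b := 1) (by compute_degree) (by norm_num)

theorem neg25 {g : ℕ} (hg : 0 < g) : Neg (g * 2) (g * 5) := by
  refine neg_of (piece_R22 (p := 3 / 4) (q := -1 / 2) (by norm_num) (by norm_num) (by norm_num)
    (free25.congr fun j hj => ?_) ?_ hg) bad25
  · interval_cases j <;> norm_num [Gg0, Gg1, Gg2, Gg3, Gg4]
  · norm_num [Gg3, Gg4, abs_lt]

end Pool.Agent.Lib.MP_55068a_an.Dy
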