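import Mathlib
import Pool.Agent.Lib.MP_55068a_an.Dy.Exp
import Pool.Agent.Lib.MP_55068a_an.Dy.DL
import Pool.Agent.Lib.MP_55068a_an.Dy.Env

namespace Pool.Agent.Lib.MP_55068a_an.Dy

open Polynomial

def f27 {R : Type} [CommRing R] (s Y W κ : R) : R :=
  -20 * s ^ 3 * W ^ 3 + 12 * s ^ 3 * W - 60 * s * Y ^ 2 * W ^ 2 * κ
    - 60 * s * Y ^ 2 * W ^ 2 - 96 * s * Y ^ 2 * W + 12 * s * Y ^ 2 * κ - 12 * s * Y ^ 2

theorem map_f27 {R S : Type} [CommRing R] [CommRing S] (φ : R →+* S) (s Y W κ : R) :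
    φ (f27 s Y W κ) = f27 (φ s) (φ Y) (φ W) (φ κ) := by
  simp only [f27, map_add, map_sub, map_mul, map_pow, map_neg, map_ofNat]

def g27 {R : Type} [CommRing R] (s Y W κ : R) : R :=
  -12 * s ^ 3 * Y * W ^ 2 + 24 * s ^ 3 * Y * W + 12 * s ^ 3 * Y
    - 24 * s * Y ^ 3 * W * κ - 24 * s * Y ^ 3 * W + 24 * s * Y ^ 3 * κ - 40 * s * Y ^ 3

theorem map_g27 {R S : Type} [CommRing R] [CommRing S] (φ : R →+* S) (s Y W κ : R) :
    φ (g27 s Y W κ) = g27 (φ s) (φ Y) (φ W) (φ κ) := by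
  simp only [g27, map_add, map_sub, map_mul, map_pow, map_neg, map_ofNat]

def l27 {R : Type} [CommRing R] (s Y W κ : R) : R :=
  -40 * s ^ 5 * W ^ 3 + 24 * s ^ 5 * W - 120 * s ^ 3 * Y ^ 2 * W ^ 2 * κ
    - 240 * s ^ 3 * Y ^ 2 * W ^ 2 - 240 * s ^ 3 * Y ^ 2 * W + 24 * s ^ 3 * Y ^ 2 * κ
    - 120 * s * Y ^ 4 * W * κ ^ 2 - 480 * s * Y ^ 4 * W * κ + 360 * s * Y ^ 4 * W
    - 240 * s * Y ^ 4 * κ + 80 * s * Y ^ 4

theorem map_l27 {R S : Type} [CommRing R] [CommRing S] (φ : R →+* S) (s Y W κ : R) :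
    φ (l27 s Y W κ) = l27 (φ s) (φ Y) (φ W) (φ κ) := by
  simp only [l27, map_add, map_sub, map_mul, map_pow, map_neg, map_ofNat]

theorem bad27 : Bad (a22 7) (b22 7) (l22 7) := by
  obtain ⟨κ, hκ⟩ : ∃ κ : ℂ, κ ^ 2 + 4 * κ - 3 = 0 := by
    obtain ⟨κ, h⟩ := IsAlgClosed.exists_root (C (1) * X ^ 2 + C (4) * X ^ 1 + C (-3) * X ^ 0 : ℂ[X])
      (by rw [show degree (C (1) * X ^ 2 + C (4) * X ^ 1 + C (-3) * X ^ 0 : ℂ[X]) = 2 by compute_degree!]; norm_num)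
    exact ⟨κ, by simp at h; linear_combination h⟩
  refine bad_of_tri (i := 3) (k := 2) (ν := 1) (μ := 4) (j := 5) (d := 5)
    (α := -15 / 2 * κ ^ 2 - 15 * κ + 35 / 2) (τ := 1 - κ)
    (γ := -3 / 2 * κ ^ 2 - 3 * κ + 7 / 2)
    (c := -5 * κ ^ 3 - 30 * κ ^ 2 + 45 * κ - 12)
    (C (-12 * κ + 8) * X ^ 4)
    (MvPolynomial.C (1 / 8) * f27 (MvPolynomial.X 0) (MvPolynomial.X 1) (MvPolynomial.X 2)
      (MvPolynomial.C κ))
    (-MvPolynomial.X 0 * MvPolynomial.X 2)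
    (MvPolynomial.C (1 / 8) * g27 (MvPolynomial.X 0) (MvPolynomial.X 1) (MvPolynomial.X 2)
      (MvPolynomial.C κ))
    (MvPolynomial.C (1 / 8) * l27 (MvPolynomial.X 0) (MvPolynomial.X 1) (MvPolynomial.X 2)
      (MvPolynomial.C κ))
    (fun h => one_ne_zero (α := ℂ) (by
      linear_combination (9 / 28 * κ + 3 / 4) * hκ
        + (3 / 70 * κ + 13 / 70) * h))
    (fun h => one_ne_zero (α := ℂ) (by
      linear_combination (1 / 2) * hκ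
        + (1 / 2 * κ + 5 / 2) * h))
    (fun h => one_ne_zero (α := ℂ) (by
      linear_combination (9 / 28 * κ + 3 / 4) * hκ
        + (3 / 14 * κ + 13 / 14) * h))
    (fun h => one_ne_zero (α := ℂ) (by
      linear_combination (25 / 84 * κ ^ 2 + 55 / 28 * κ - 10 / 7) * hκ
        + (5 / 84 * κ + 23 / 84) * h))
    (by norm_num) (by norm_num) (by norm_num) (by norm_num) ?_
  intro Ω _ _ φ s Y W hs hY
  have := algebraRat.charZero Ω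
  obtain ⟨g, rfl⟩ : ∃ g, Y = s * g := ⟨Y / s, by field_simp⟩
  have hg : g ≠ 0 := right_ne_zero_of_mul hY
  have hK := congrArg φ hκ
  simp only [map_add, map_sub, map_mul, map_pow, map_ofNat, map_zero] at hK
  have hδ : MvPolynomial.aeval ![g, W + φ κ * g ^ 2] d2 ≠ 0 := by simpa using hg
  have hi : evT d2 ![g, W + φ κ * g ^ 2] hδ (iT d2) = g⁻¹ := by rw [evT_inv]; simp
  have ha : evT d2 ![g, W + φ κ * g ^ 2] hδ (a22 7) * g
      = g * Gg g (W + φ κ * g ^ 2) 5 - Gg g (W + φ κ * g ^ 2) 6 := by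
    simp only [a22, map_sub, map_mul, hi, map_Gg, evT_x, Nat.reduceSub, Matrix.cons_val_zero,
      Matrix.cons_val_one]
    field_simp
  have hl : evT d2 ![g, W + φ κ * g ^ 2] hδ (l22 7) * g = -2 * Gg g (W + φ κ * g ^ 2) 6 := by
    simp only [l22, map_neg, map_ofNat, map_mul, hi, map_Gg, evT_x, Nat.reduceSub,
      Matrix.cons_val_zero, Matrix.cons_val_one]
    field_simp
  refine ⟨evT d2 ![g, W + φ κ * g ^ 2] hδ, ?_⟩
  simp only [b22, map_add, map_sub, map_mul, map_pow, map_neg, map_ofNat, map_div₀, map_one,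
    map_Gg, evT_x, Nat.reduceSub, Nat.reduceAdd, MvPolynomial.eval₂Hom_C, MvPolynomial.eval₂Hom_X',
    map_f27, map_g27, map_l27, eval₂_X, eval₂_mul, eval₂_C, eval₂_X_pow, eval₂_add, eval₂_sub, eval₂_neg, eval₂_pow, eval₂_ofNat,
    Matrix.cons_val_zero, Matrix.cons_val_one, Matrix.cons_val_two, Matrix.head_cons,
    Matrix.tail_cons]
  rw [Gg5, Gg6] at ha
  rw [Gg6] at hl
  rw [Gg4, Gg3, f27, g27, l27]
  refine ⟨?_, by ring, ?_⟩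
  · linear_combination s ^ 4 * ha + (-5 / 2 * (φ κ - 1) * s ^ 4 * g ^ 6) * hK
  · linear_combination s ^ 6 * hl

theorem neg27 {g : ℕ} (hg : 0 < g) : Neg (g * 2) (g * 7) := by
  refine neg_of (piece_R22 (p := 1 / 2) (q := -49 / 64) (by norm_num) (by norm_num) (by norm_num)
    (free27.congr fun j hj => ?_) ?_ hg) bad27
  · interval_cases j <;> norm_num [Gg0, Gg1, Gg2, Gg3, Gg4, Gg5, Gg6]
  · norm_num [Gg5, Gg6, abs_lt]

def f29 {R : Type} [CommRing R] (s Y W κ : R) : R :=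
  -35 * s ^ 5 * W ^ 4 + 30 * s ^ 5 * W ^ 2 - 3 * s ^ 5
    - 140 * s ^ 3 * Y ^ 2 * W ^ 3 * κ - 280 * s ^ 3 * Y ^ 2 * W ^ 3
    - 360 * s ^ 3 * Y ^ 2 * W ^ 2 + 60 * s ^ 3 * Y ^ 2 * W * κ + 48 * s ^ 3 * Y ^ 2
    - 210 * s * Y ^ 4 * W ^ 2 * κ ^ 2 - 840 * s * Y ^ 4 * W ^ 2 * κ
    + 630 * s * Y ^ 4 * W ^ 2 - 720 * s * Y ^ 4 * W * κ + 240 * s * Y ^ 4 * W
    + 30 * s * Y ^ 4 * κ ^ 2 - 130 * s * Y ^ 4

theorem map_f29 {R S : Type} [CommRing R] [CommRing S] (φ : R →+* S) (s Y W κ : R) :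
    φ (f29 s Y W κ) = f29 (φ s) (φ Y) (φ W) (φ κ) := by
  simp only [f29, map_add, map_sub, map_mul, map_pow, map_neg, map_ofNat]

def g29 {R : Type} [CommRing R] (s Y W κ : R) : R :=
  -20 * s ^ 5 * Y * W ^ 3 + 60 * s ^ 5 * Y * W ^ 2 + 36 * s ^ 5 * Y * W
    - 12 * s ^ 5 * Y - 60 * s ^ 3 * Y ^ 3 * W ^ 2 * κ - 120 * s ^ 3 * Y ^ 3 * W ^ 2
    + 120 * s ^ 3 * Y ^ 3 * W * κ - 160 * s ^ 3 * Y ^ 3 * W + 36 * s ^ 3 * Y ^ 3 * κ
    + 24 * s ^ 3 * Y ^ 3 - 60 * s * Y ^ 5 * W * κ ^ 2 - 240 * s * Y ^ 5 * W * κ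
    + 180 * s * Y ^ 5 * W + 60 * s * Y ^ 5 * κ ^ 2 - 160 * s * Y ^ 5 * κ + 28 * s * Y ^ 5

theorem map_g29 {R S : Type} [CommRing R] [CommRing S] (φ : R →+* S) (s Y W κ : R) :
    φ (g29 s Y W κ) = g29 (φ s) (φ Y) (φ W) (φ κ) := by
  simp only [g29, map_add, map_sub, map_mul, map_pow, map_neg, map_ofNat]

def l29 {R : Type} [CommRing R] (s Y W κ : R) : R :=
  -70 * s ^ 7 * W ^ 4 + 60 * s ^ 7 * W ^ 2 - 6 * s ^ 7
    - 280 * s ^ 5 * Y ^ 2 * W ^ 3 * κ - 840 * s ^ 5 * Y ^ 2 * W ^ 3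
    - 840 * s ^ 5 * Y ^ 2 * W ^ 2 + 120 * s ^ 5 * Y ^ 2 * W * κ + 120 * s ^ 5 * Y ^ 2 * W
    + 120 * s ^ 5 * Y ^ 2 - 420 * s ^ 3 * Y ^ 4 * W ^ 2 * κ ^ 2
    - 2520 * s ^ 3 * Y ^ 4 * W ^ 2 * κ + 1260 * s ^ 3 * Y ^ 4 * W ^ 2
    - 1680 * s ^ 3 * Y ^ 4 * W * κ + 60 * s ^ 3 * Y ^ 4 * κ ^ 2 + 120 * s ^ 3 * Y ^ 4 * κ
    - 420 * s ^ 3 * Y ^ 4 - 280 * s * Y ^ 6 * W * κ ^ 3 - 2520 * s * Y ^ 6 * W * κ ^ 2
    + 2520 * s * Y ^ 6 * W * κ - 168 * s * Y ^ 6 * W - 840 * s * Y ^ 6 * κ ^ 2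
    + 504 * s * Y ^ 6

theorem map_l29 {R S : Type} [CommRing R] [CommRing S] (φ : R →+* S) (s Y W κ : R) :
    φ (l29 s Y W κ) = l29 (φ s) (φ Y) (φ W) (φ κ) := by
  simp only [l29, map_add, map_sub, map_mul, map_pow, map_neg, map_ofNat]

theorem bad29 : Bad (a22 9) (b22 9) (l22 9) := by
  obtain ⟨κ, hκ⟩ : ∃ κ : ℂ, 5 * κ ^ 3 + 45 * κ ^ 2 - 45 * κ + 3 = 0 := by
    obtain ⟨κ, h⟩ := IsAlgClosed.exists_root (C (5) * X ^ 3 + C (45) * X ^ 2 + C (-45) * X ^ 1 + C (3) * X ^ 0 : ℂ[X])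
      (by rw [show degree (C (5) * X ^ 3 + C (45) * X ^ 2 + C (-45) * X ^ 1 + C (3) * X ^ 0 : ℂ[X]) = 3 by compute_degree!]; norm_num)
    exact ⟨κ, by simp at h; linear_combination h⟩
  refine bad_of_tri (i := 5) (k := 2) (ν := 1) (μ := 6) (j := 7) (d := 7)
    (α := -35 / 2 * κ ^ 3 - 105 * κ ^ 2 + 315 / 2 * κ - 42) (τ := 1 - κ)
    (γ := -5 / 2 * κ ^ 3 - 15 * κ ^ 2 + 45 / 2 * κ - 6)
    (c := -35 / 4 * κ ^ 4 - 105 * κ ^ 3 + 315 / 2 * κ ^ 2 - 21 * κ - 99 / 4)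
    (C (-45 * κ ^ 2 + 30 * κ + 9) * X ^ 6)
    (MvPolynomial.C (1 / 8) * f29 (MvPolynomial.X 0) (MvPolynomial.X 1) (MvPolynomial.X 2)
      (MvPolynomial.C κ))
    (-MvPolynomial.X 0 * MvPolynomial.X 2)
    (MvPolynomial.C (1 / 8) * g29 (MvPolynomial.X 0) (MvPolynomial.X 1) (MvPolynomial.X 2)
      (MvPolynomial.C κ))
    (MvPolynomial.C (1 / 8) * l29 (MvPolynomial.X 0) (MvPolynomial.X 1) (MvPolynomial.X 2)
      (MvPolynomial.C κ))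
    (fun h => one_ne_zero (α := ℂ) (by
      linear_combination (35 / 396 * κ ^ 2 + 235 / 396 * κ - 4 / 11) * hκ
        + (5 / 198 * κ ^ 2 + 170 / 693 * κ - 23 / 462) * h))
    (fun h => one_ne_zero (α := ℂ) (by
      linear_combination (1 / 8) * hκ
        + (5 / 8 * κ ^ 2 + 25 / 4 * κ + 5 / 8) * h))
    (fun h => one_ne_zero (α := ℂ) (by
      linear_combination (35 / 396 * κ ^ 2 + 235 / 396 * κ - 4 / 11) * hκ
        + (35 / 198 * κ ^ 2 + 170 / 99 * κ - 23 / 66) * h))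
    (fun h => one_ne_zero (α := ℂ) (by
      linear_combination (245 / 2288 * κ ^ 3 + 28175 / 20592 * κ ^ 2 - 17675 / 20592 * κ - 217 / 624) * hκ
        + (35 / 572 * κ ^ 2 + 70 / 117 * κ - 425 / 5148) * h))
    (by norm_num) (by norm_num) (by norm_num) (by norm_num) ?_
  intro Ω _ _ φ s Y W hs hY
  have := algebraRat.charZero Ω
  obtain ⟨g, rfl⟩ : ∃ g, Y = s * g := ⟨Y / s, by field_simp⟩
  have hg : g ≠ 0 := right_ne_zero_of_mul hY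
  have hK := congrArg φ hκ
  simp only [map_add, map_sub, map_mul, map_pow, map_ofNat, map_zero] at hK
  have hδ : MvPolynomial.aeval ![g, W + φ κ * g ^ 2] d2 ≠ 0 := by simpa using hg
  have hi : evT d2 ![g, W + φ κ * g ^ 2] hδ (iT d2) = g⁻¹ := by rw [evT_inv]; simp
  have ha : evT d2 ![g, W + φ κ * g ^ 2] hδ (a22 9) * g
      = g * Gg g (W + φ κ * g ^ 2) 7 - Gg g (W + φ κ * g ^ 2) 8 := by
    simp only [a22, map_sub, map_mul, hi, map_Gg, evT_x, Nat.reduceSub, Matrix.cons_val_zero,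
      Matrix.cons_val_one]
    field_simp
  have hl : evT d2 ![g, W + φ κ * g ^ 2] hδ (l22 9) * g = -2 * Gg g (W + φ κ * g ^ 2) 8 := by
    simp only [l22, map_neg, map_ofNat, map_mul, hi, map_Gg, evT_x, Nat.reduceSub,
      Matrix.cons_val_zero, Matrix.cons_val_one]
    field_simp
  refine ⟨evT d2 ![g, W + φ κ * g ^ 2] hδ, ?_⟩
  simp only [b22, map_add, map_sub, map_mul, map_pow, map_neg, map_ofNat, map_div₀, map_one,
    map_Gg, evT_x, Nat.reduceSub, Nat.reduceAdd, MvPolynomial.eval₂Hom_C, MvPolynomial.eval₂Hom_X',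
    map_f29, map_g29, map_l29, eval₂_X, eval₂_mul, eval₂_C, eval₂_X_pow, eval₂_add, eval₂_sub, eval₂_neg, eval₂_pow, eval₂_ofNat,
    Matrix.cons_val_zero, Matrix.cons_val_one, Matrix.cons_val_two, Matrix.head_cons,
    Matrix.tail_cons]
  rw [Gg7, Gg8] at ha
  rw [Gg8] at hl
  rw [Gg6, Gg5, f29, g29, l29]
  refine ⟨?_, by ring, ?_⟩
  · linear_combination s ^ 6 * ha + (-7 / 8 * (φ κ - 1) * s ^ 6 * g ^ 8) * hK
  · linear_combination s ^ 8 * hl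

theorem neg29 {g : ℕ} (hg : 0 < g) : Neg (g * 2) (g * 9) := by
  refine neg_of (piece_R22 (p := 2 / 5) (q := -17 / 20) (by norm_num) (by norm_num) (by norm_num)
    (free29.congr fun j hj => ?_) ?_ hg) bad29
  · interval_cases j <;> norm_num [Gg0, Gg1, Gg2, Gg3, Gg4, Gg5, Gg6, Gg7, Gg8]
  · norm_num [Gg7, Gg8, abs_lt]

end Pool.Agent.Lib.MP_55068a_an.Dy
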