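import Mathlib
import Pool.Agent.Lib.MP_55068a_an.Dy.Exp
import Pool.Agent.Lib.MP_55068a_an.Dy.Pad
import Pool.Agent.Lib.MP_55068a_an.Dy.BadNet

namespace Pool.Agent.Lib.MP_55068a_an.Dy

open Polynomial

theorem a47 {Ω : Type} [Field Ω] [Algebra ℚ Ω] (y u : Ω) : aR1 y 1 u 4 7
    = -231 / 16 * y ^ 6 + 315 / 16 * y ^ 4 - 5 / 4 * y ^ 3 * u - 105 / 16 * y ^ 2 + 3 / 4 * y * u
      + 1 / 8 * u ^ 2 + 5 / 16 := by
  have := algebraRat.charZero Ω
  simp [aR1, Sg, sh, Lg0, Lg3, Lg6]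
  ring

theorem b47 {Ω : Type} [Field Ω] [Algebra ℚ Ω] (y u : Ω) : bR1 y 1 u 4 7
    = aR1 y 1 u 4 7 * (-5 / 8 * y ^ 4 + 3 / 4 * y ^ 2 + 1 / 2 * y * u - 1 / 8)
      + (63 / 16 * y ^ 8 - 49 / 8 * y ^ 6 + 69 / 16 * y ^ 5 * u + 15 / 4 * y ^ 4
        - 37 / 8 * y ^ 3 * u + 3 / 8 * y ^ 2 * u ^ 2 - 15 / 8 * y ^ 2 + 21 / 16 * y * u
        - 1 / 8 * u ^ 2 + 5 / 16) := by
  have := algebraRat.charZero Ω
  rw [a47]
  simp [bR1, Finset.sum_range_succ, Sg, Tg, Mg, sh, Lg0, Lg1, Lg2, Lg3, Lg4, Lg5, Lg6]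
  ring

noncomputable def q47 (R : Type) [CommRing R] (A B : R) : R[X] :=
  C (-750519) * X ^ 8 + C 2714271 * X ^ 7 + C (-411864 * A - 4107255) * X ^ 6
    + C (1016648 * A + 3245679) * X ^ 5
    + C (-16184 * A ^ 2 - 929856 * A - 89664 * B - 1359285) * X ^ 4
    + C (-4704 * A ^ 2 + 373328 * A + 147904 * B + 258325) * X ^ 3
    + C (25840 * A ^ 2 - 1920 * A * B - 62360 * A - 79680 * B - 3045) * X ^ 2
    + C (-1024 * A ^ 3 - 10720 * A ^ 2 - 2304 * A * B + 4584 * A + 15936 * B - 4515) * X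
    + C (648 * A ^ 2 + 1152 * A * B - 720 * A + 512 * B ^ 2 - 640 * B + 200)

theorem map_q47 {R S : Type} [CommRing R] [CommRing S] (φ : R →+* S) (A B : R) :
    (q47 R A B).map φ = q47 S (φ A) (φ B) := by
  simp only [q47, Polynomial.map_add, Polynomial.map_mul, Polynomial.map_pow, map_C, map_X]
  simp only [map_add, map_sub, map_mul φ, map_pow φ, map_neg φ, map_ofNat φ]

noncomputable def d47 (A : P2) : P2[X] := C 258 * X ^ 2 + C (-260) * X + C (16 * A + 66)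

noncomputable def e47 (A B : P2) : P2[X] :=
  C 14679 * X ^ 5 + C (-36113) * X ^ 4 + C (2048 * A + 33030) * X ^ 3
    + C (-1776 * A - 13410) * X ^ 2 + C (-160 * A + 320 * B + 2115) * X
    + C (128 * A ^ 2 + 272 * A - 192 * B - 45)

theorem lifts47 : Lifts (a1 4 7) (b1 4 7) (xT 1 1 ^ 2) (xT 1 0 ^ 2)
    (q47 P2 (MvPolynomial.X 0) (MvPolynomial.X 1)) (d47 (MvPolynomial.X 0))
    (e47 (MvPolynomial.X 0) (MvPolynomial.X 1)) := by
  intro r hr
  simp only [Rt, Set.mem_setOf_eq, q47, d47, e47, eval₂_add, eval₂_mul, eval₂_C, eval₂_X_pow,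
    eval₂_X] at hr ⊢
  simp only [map_add, map_sub, map_mul, map_pow, map_neg, map_ofNat] at hr ⊢
  set A := io P2 (MvPolynomial.X 0) with hA
  set B := io P2 (MvPolynomial.X 1) with hB
  have hr0 : r ≠ 0 := by
    rintro rfl
    have h1 : io P2 (648 * MvPolynomial.X 0 ^ 2 + 1152 * MvPolynomial.X 0 * MvPolynomial.X 1
        - 720 * MvPolynomial.X 0 + 512 * MvPolynomial.X 1 ^ 2 - 640 * MvPolynomial.X 1 + 200)
        = 0 := by
      simp only [map_add, map_sub, map_mul, map_pow, map_ofNat, ← hA, ← hB]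
      linear_combination hr
    simpa [map_ofNat] using io_rel h1 ![0, 0]
  obtain ⟨D, hD⟩ : ∃ D, D = 129 * r ^ 2 - 130 * r + 8 * A + 33 := ⟨_, rfl⟩
  obtain ⟨N, hN⟩ : ∃ N, N = -756 * r ^ 4 + 1274 * r ^ 3 + 10 * r ^ 2 * A - 690 * r ^ 2 - 60 * r * A
    + 150 * r + 18 * A + 16 * B - 10 := ⟨_, rfl⟩
  have hq : 2 * N ^ 2 = r * ((16 * A + 231 * r ^ 3 - 315 * r ^ 2 + 105 * r - 5) * D ^ 2
      + (20 * r - 12) * N * D) := by
    rw [hD, hN]
    linear_combination hr
  have hD0 : D ≠ 0 := by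
    intro h0
    have h2 : N = 0 := by
      rw [h0] at hq
      exact pow_eq_zero_iff (two_ne_zero) |>.1 (by linear_combination (1 / 2) * hq)
    have h1 : io P2 (1148719872 * MvPolynomial.X 0 ^ 4 + 16630621696 * MvPolynomial.X 0 ^ 3
        - 10420194816 * MvPolynomial.X 0 ^ 2 * MvPolynomial.X 1 + 3138419712 * MvPolynomial.X 0 ^ 2
        - 44640522240 * MvPolynomial.X 0 * MvPolynomial.X 1 - 4428736512 * MvPolynomial.X 0
        + 23630752512 * MvPolynomial.X 1 ^ 2 + 13239133184 * MvPolynomial.X 1 + 2119379968)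
        = 0 := by
      simp only [map_add, map_sub, map_mul, map_pow, map_ofNat, ← hA, ← hB]
      rw [hD] at h0
      rw [hN] at h2
      linear_combination (18628644384 * r ^ 3 * A - 20904924096 * r ^ 3 - 1908349632 * r ^ 2 * A ^ 2
        - 30181633776 * r ^ 2 * A + 8655450048 * r ^ 2 * B + 27119788192 * r ^ 2
        - 108895920 * r * A ^ 2 + 12989389504 * r * A - 5863489632 * r * B - 8238894720 * r
        + 143589984 * A ^ 3 + 2219188976 * A ^ 2 - 651262176 * A * B - 2426348592 * A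
        - 223312416 * B + 734255136) * h0 + (3178697256 * r * A - 3567110064 * r
        - 325631088 * A ^ 2 - 2996685480 * A + 1476922032 * B + 2211103952) * h2
    simpa [map_ofNat] using io_rel h1 ![0, 0]
  obtain ⟨y, hy⟩ := IsAlgClosed.exists_pow_nat_eq r (n := 2) two_pos
  have hy0 : y ≠ 0 := by rintro rfl; exact hr0 (by simpa using hy.symm)
  obtain ⟨u, hu⟩ : ∃ u, y * D * u = N := ⟨_, mul_div_cancel₀ _ (mul_ne_zero hy0 hD0)⟩
  have hu2 : 2 * u ^ 2 = 16 * A + 231 * r ^ 3 - 315 * r ^ 2 + 105 * r - 5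
      + (20 * r - 12) * (y * u) := by
    apply mul_left_cancel₀ (mul_ne_zero hr0 (pow_ne_zero 2 hD0))
    rw [← hu] at hq
    linear_combination hq - 2 * D ^ 2 * u ^ 2 * hy
  subst hy
  refine ⟨by intro h0; exact hD0 (by linear_combination hD + (1 / 2) * h0),
    evT 1 ![y, u] (one_ne _), ?_⟩
  have ha : aR1 y 1 u 4 7 = A := by
    rw [a47]
    linear_combination (1 / 16) * hu2
  refine ⟨?_, ?_, by simp [evT_x], ?_⟩
  · simp only [a1, map_aR1, evT_x, map_one, Matrix.cons_val_zero, Matrix.cons_val_one, ha]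
  · simp only [b1, map_bR1, evT_x, map_one, Matrix.cons_val_zero, Matrix.cons_val_one, b47, ha]
    rw [hD, hN] at hu
    linear_combination (1 / 16) * hu + (3 / 16 * y ^ 2 - 1 / 16) * hu2
  · simp only [evT_x, Matrix.cons_val_zero, Matrix.cons_val_one]
    rw [hD, hN] at hu
    linear_combination (129 * (y ^ 2) ^ 2 - 130 * y ^ 2 + 8 * A + 33) * hu2
      + (20 * y ^ 2 - 12) * hu

instance fact13 : Fact (Nat.Prime 13) := ⟨by norm_num⟩

theorem bad47 : Bad (a1 4 7) (b1 4 7) (xT 1 1) := by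
  obtain ⟨hi, hd⟩ := irr5 (F := ZMod 13) (c5 := 10) (c4 := 3) (c3 := 3) (c2 := 8) (c1 := 11)
    (c0 := 5) (by decide) (by decide) (by decide)
  obtain ⟨w, hw, u, hu, hdeg⟩ := mod_point (p := 13)
    (q47 _ (MvPolynomial.X 0) (MvPolynomial.X 1)) ![7, 2] [5, 7, 9] (by decide) hi
    (by simp only [eval_add, eval_mul, eval_C, eval_pow, eval_X]; decide) (by
      have h13 : (13 : (ZMod 13)[X]) = 0 := by
        rw [← map_ofNat C 13]; exact C_eq_zero.2 (by decide)
      rw [map_q47]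
      simp [q47, map_ofNat]
      linear_combination ((3491) * X ^ 0 + (-65121) * X ^ 1 + (49339) * X ^ 2 + (225920) * X ^ 3
        + (-679996) * X ^ 4 + (797307) * X ^ 5 + (-537821) * X ^ 6 + (208806) * X ^ 7 + (-57733) * X ^ 8) * h13)
    (by rw [hd]; show _ ≤ 8; unfold q47; compute_degree)
  rw [map_q47, MvPolynomial.map_X, MvPolynomial.map_X] at hu
  have h8 : (q47 P2 (MvPolynomial.X 0) (MvPolynomial.X 1)).natDegree = 8 := by
    unfold q47; compute_degree!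
  have h5 : (e47 (MvPolynomial.X 0) (MvPolynomial.X 1)).natDegree = 5 := by
    unfold e47
    compute_degree!
  refine Bad.of_sq (bad_prime lifts47 ?_ (by omega) Nat.prime_five (by omega) (Or.inl (by omega))
    hw hu (by rw [hdeg, hd]))
  rw [h5]
  exact lt_of_le_of_lt (b := 2) (by unfold d47; compute_degree) (by norm_num)

end Pool.Agent.Lib.MP_55068a_an.Dy
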