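import Mathlib
import Pool.Agent.Lib.MP_55068a_an.Dy.Exp
import Pool.Agent.Lib.MP_55068a_an.Dy.DL

namespace Pool.Agent.Lib.MP_55068a_an.Dy

open Polynomial

section Forms

variable {R : Type} [CommRing R]

def p58 (s Y V : R) : R :=
  35 * s ^ 4 * Y - 315 * s ^ 2 * Y ^ 3 - 3 * s ^ 2 * V + 693 * Y ^ 5 + 30 * Y ^ 2 * V

def t58 (s Y V : R) : R := -3 * s ^ 2 * Y + 10 * Y ^ 3 - 2 * V

def h58 (s Y V : R) : R :=
  35 * s ^ 10 - 105 * s ^ 8 * Y ^ 2 - 490 * s ^ 6 * Y ^ 4 + 176 * s ^ 6 * Y * V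
    + 1862 * s ^ 4 * Y ^ 6 - 920 * s ^ 4 * Y ^ 3 * V - 18 * s ^ 4 * V ^ 2
    - 2457 * s ^ 2 * Y ^ 8 + 1632 * s ^ 2 * Y ^ 5 * V + 108 * s ^ 2 * Y ^ 2 * V ^ 2
    + 1155 * Y ^ 10 - 824 * Y ^ 7 * V - 90 * Y ^ 4 * V ^ 2 + 8 * Y * V ^ 3

variable {S : Type} [CommRing S] (φ : R →+* S)

theorem map_p58 (s Y V : R) : φ (p58 s Y V) = p58 (φ s) (φ Y) (φ V) := by
  simp only [p58, map_add, map_sub, map_mul, map_pow, map_ofNat]

theorem map_t58 (s Y V : R) : φ (t58 s Y V) = t58 (φ s) (φ Y) (φ V) := by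
  simp only [t58, map_add, map_sub, map_mul, map_pow, map_neg, map_ofNat]

theorem map_h58 (s Y V : R) : φ (h58 s Y V) = h58 (φ s) (φ Y) (φ V) := by
  simp only [h58, map_add, map_sub, map_mul, map_pow, map_ofNat]

end Forms

theorem a58 {Ω : Type} [Field Ω] [Algebra ℚ Ω] (y u : Ω) : 16 * aR1 y 1 u 5 8
    = -429 * y ^ 7 - 35 * y ^ 4 * u + 2 * y * u ^ 2 + p58 1 y u := by
  have := algebraRat.charZero Ω
  simp [aR1, Sg, sh, Lg1, Lg4, Lg7, p58]
  ring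

theorem b58 {Ω : Type} [Field Ω] [Algebra ℚ Ω] (y u : Ω) : 128 * bR1 y 1 u 5 8
    = 16 * aR1 y 1 u 5 8 * (-7 * y ^ 5 + 2 * y ^ 2 * u + t58 1 y u) + h58 1 y u := by
  have := algebraRat.charZero Ω
  rw [a58]
  simp [bR1, Finset.sum_range_succ, Sg, Tg, Mg, sh, Lg0, Lg1, Lg2, Lg3, Lg4, Lg5, Lg6, Lg7, p58,
    t58, h58]
  ring

theorem root58 : ∃ x : Om ℂ[X], (-527 * x ^ 2 - 21 * x + 2) ^ 5 = 64 * AO * x ^ 3 ∧
    ∀ n, ∃ σ ∈ derivedSeries (Gl ℂ[X]) n,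
      σ (AO * (7 * x + 2) * (-527 * x ^ 2 - 21 * x + 2) / (2 * x))
        ≠ AO * (7 * x + 2) * (-527 * x ^ 2 - 21 * x + 2) / (2 * x) := by
  set N : ℂ[X] := (C (-527) * X ^ 2 + C (-21) * X + C 2) ^ 5 with hN
  have h0 : N.coeff 0 ≠ 0 := by
    rw [coeff_zero_eq_eval_zero, hN]; simp
  have hd : N.natDegree = 10 := by
    rw [hN, natDegree_pow, show natDegree (C (-527) * X ^ 2 + C (-21) * X + C 2 : ℂ[X]) = 2 by
      compute_degree!]
  have h64 : (64 : ℂ) ≠ 0 := by norm_num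
  obtain ⟨hc, g, hg⟩ := one_two (k := 3) h64 h0 (by norm_num) (by omega)
  rw [hd] at hc hg
  have hmem : ∀ y ∈ Rt (io ℂ[X]) (oneP N 64 3),
      (-527 * y ^ 2 - 21 * y + 2) ^ 5 = 64 * AO * y ^ 3 := by
    intro y hy
    rw [oneP_mem, hN] at hy
    simp only [eval₂_pow, eval₂_add, eval₂_mul, eval₂_C, eval₂_X] at hy
    simp only [map_neg, map_ofNat] at hy
    linear_combination hy
  obtain ⟨x, hx⟩ : (Rt (io ℂ[X]) (oneP N 64 3)).Nonempty :=
    Set.nonempty_of_ncard_ne_zero (by omega)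
  have hE : (C (-3689 * X) * X ^ 3 + C (-1201 * X) * X ^ 2 + C (-28 * X) * X + C (4 * X) :
      ℂ[X][X]).natDegree = 3 := by
    compute_degree!
  have key := core (D := C 2 * X) (oneP_ne N h64 3) (one_tr h64 h0 (by norm_num))
    (fun y hy => by
      have := hmem y hy
      simp only [eval₂_mul, eval₂_C, eval₂_X, map_ofNat (io ℂ[X])]
      refine mul_ne_zero two_ne_zero ?_
      rintro rfl
      norm_num at this)
    (E := C (-3689 * X) * X ^ 3 + C (-1201 * X) * X ^ 2 + C (-28 * X) * X + C (4 * X))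
    (by rw [hE]; exact lt_of_le_of_lt (b := 1) (by compute_degree) (by norm_num))
    (by omega)
    (fun e M h => by
      have := (h.2.2.2.1 g 3 7 hg (by norm_num) (by norm_num) (by norm_num)).2
      omega) x hx
  refine ⟨x, hmem x hx, ?_⟩
  simp only [eval₂_add, eval₂_mul, eval₂_C, eval₂_X, eval₂_X_pow] at key
  simp only [map_mul (io ℂ[X]), map_neg (io ℂ[X]), map_ofNat (io ℂ[X])] at key
  have e : AO * (7 * x + 2) * (-527 * x ^ 2 - 21 * x + 2) = -3689 * io ℂ[X] X * x ^ 3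
      + -1201 * io ℂ[X] X * x ^ 2 + -28 * io ℂ[X] X * x + 4 * io ℂ[X] X := by
    rw [AO]; ring
  rw [e]
  exact key

theorem bad58 : Bad (a1 5 8) (b1 5 8) (xT 1 1) := by
  obtain ⟨x, hx, hσ⟩ := root58
  have hA : AO ≠ 0 := by simpa using AO_not_const 0
  have hx0 : x ≠ 0 := by rintro rfl; norm_num at hx
  have hxc : ∀ c, x ≠ cO c := by
    rintro c rfl
    refine AO_not_const ((-527 * c ^ 2 - 21 * c + 2) ^ 5 / (64 * c ^ 3)) ?_
    simp only [map_div₀, map_add, map_sub, map_mul, map_pow, map_neg, map_ofNat]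
    rw [hx]
    field_simp
  have hq : 7231 * x ^ 2 + 3 * (7 * x + 2) ^ 2 ≠ 0 := by
    intro h
    have h1 : eval₂RingHom cO x (C 7378 * X ^ 2 + C 84 * X + C 12) = 0 := by
      simp only [coe_eval₂RingHom, eval₂_add, eval₂_mul, eval₂_C, eval₂_X, eval₂_X_pow, map_ofNat cO]
      linear_combination h
    have h2 := congrArg (eval 0) ((map_eq_zero_iff _ (inj_eval cO hxc)).1 h1)
    simp at h2
  obtain ⟨n, hn⟩ : ∃ n, n = -527 * x ^ 2 - 21 * x + 2 := ⟨_, rfl⟩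
  rw [← hn] at hx hσ
  have hn0 : n ≠ 0 := by
    rintro rfl
    simp [hA, hx0] at hx
  obtain ⟨y0, hy⟩ : ∃ y0, 4 * x * y0 = n ^ 2 :=
    ⟨_, mul_div_cancel₀ _ (mul_ne_zero (by norm_num) hx0)⟩
  obtain ⟨v0, hv⟩ : ∃ v0, v0 = AO * (7 * x + 2) * n / (2 * x) := ⟨_, rfl⟩
  rw [← hv] at hσ
  replace hv : 2 * x * v0 = AO * (7 * x + 2) * n := by rw [hv]; field_simp
  have hy0 : y0 ≠ 0 := by rintro rfl; exact pow_ne_zero 2 hn0 (by simpa using hy.symm)
  have hy3 : y0 ^ 3 = AO * n := by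
    apply mul_left_cancel₀ (mul_ne_zero (by norm_num : (64 : Om ℂ[X]) ≠ 0) (pow_ne_zero 3 hx0))
    linear_combination ((4 * x * y0) ^ 2 + 4 * x * y0 * n ^ 2 + n ^ 4) * hy + n * hx
  have k1 : x ^ 2 * (-429 * y0 ^ 6 - 35 * y0 ^ 3 * v0 + 2 * v0 ^ 2) = AO ^ 2 * n ^ 3 := by
    linear_combination (-429 * x ^ 2 * (y0 ^ 3 + AO * n) - 35 * x ^ 2 * v0) * hy3
      + (-35 / 2 * x * AO * n + (2 * x * v0 + AO * (7 * x + 2) * n) / 2) * hv - (AO * n) ^ 2 * hn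
  have k2 : -429 * y0 ^ 7 - 35 * y0 ^ 4 * v0 + 2 * y0 * v0 ^ 2 = 16 * AO ^ 3 := by
    apply mul_left_cancel₀ (pow_ne_zero 3 hx0)
    linear_combination x * y0 * k1 + AO ^ 2 * n ^ 3 / 4 * hy + AO ^ 2 / 4 * hx
  have k3 : -7 * y0 ^ 5 + 2 * y0 ^ 2 * v0 = 8 * AO ^ 2 := by
    apply mul_left_cancel₀ (pow_ne_zero 3 hx0)
    linear_combination (-7 * x ^ 3 * y0 ^ 2) * hy3 + x ^ 2 * y0 ^ 2 * hv
      + AO * n * (4 * x * y0 + n ^ 2) / 8 * hy + AO / 8 * hx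
  have k4 : 7231 * y0 ^ 6 + 12 * v0 ^ 2 ≠ 0 := by
    intro h
    refine mul_ne_zero (pow_ne_zero 2 (mul_ne_zero hA hn0)) hq ?_
    linear_combination x ^ 2 * h - 7231 * x ^ 2 * (y0 ^ 3 + AO * n) * hy3
      - 3 * (2 * x * v0 + AO * (7 * x + 2) * n) * hv
  obtain ⟨Y, V, hY, hV, e1, e2⟩ := newton2
    (-429 * MvPolynomial.X 1 ^ 7 - 35 * MvPolynomial.X 1 ^ 4 * MvPolynomial.X 2
      + 2 * MvPolynomial.X 1 * MvPolynomial.X 2 ^ 2 - MvPolynomial.C (16 * AO ^ 3)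
      + MvPolynomial.X 0 ^ 2 * p58 (MvPolynomial.X 0) (MvPolynomial.X 1) (MvPolynomial.X 2))
    (MvPolynomial.C (16 * AO ^ 3) * (-7 * MvPolynomial.X 1 ^ 5
      + 2 * MvPolynomial.X 1 ^ 2 * MvPolynomial.X 2) - MvPolynomial.C (128 * AO ^ 5)
      + MvPolynomial.X 0 ^ 2 * (MvPolynomial.C (16 * AO ^ 3)
        * t58 (MvPolynomial.X 0) (MvPolynomial.X 1) (MvPolynomial.X 2)
        + h58 (MvPolynomial.X 0) (MvPolynomial.X 1) (MvPolynomial.X 2))) y0 v0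
    (by
      simp [map_ofNat]
      linear_combination k2)
    (by
      simp [map_ofNat]
      linear_combination 16 * AO ^ 3 * k3)
    (by
      have hD : ∀ (i : Fin 3) (m : ℕ) [m.AtLeastTwo], MvPolynomial.pderiv i
          (ofNat(m) : MvPolynomial (Fin 3) (Om ℂ[X])) = 0 := fun i m _ =>
        Derivation.map_natCast _ m
      simp [map_ofNat, Derivation.leibniz_pow, hD]
      intro h
      refine mul_ne_zero (mul_ne_zero (pow_ne_zero 3 hA) (pow_ne_zero 2 hy0)) k4 ?_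
      linear_combination (-1 / 16) * h)
  haveI : CharZero (Om KS) := algebraRat.charZero _
  have hs : io KS PowerSeries.X ≠ 0 := (map_ne_zero_iff _ (io_inj KS)).2 PowerSeries.X_ne_zero
  obtain ⟨y, hyy⟩ : ∃ y, io KS PowerSeries.X * y = io KS Y := ⟨_, mul_div_cancel₀ _ hs⟩
  obtain ⟨u, huu⟩ : ∃ u, io KS PowerSeries.X ^ 3 * u = io KS V :=
    ⟨_, mul_div_cancel₀ _ (pow_ne_zero 3 hs)⟩
  rw [← MvPolynomial.coe_eval₂Hom] at e1 e2
  replace e1 := congrArg (io KS) e1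
  replace e2 := congrArg (io KS) e2
  simp only [map_add, map_sub, map_mul, map_pow, map_neg, map_ofNat, map_zero, map_p58, map_t58,
    map_h58, MvPolynomial.eval₂Hom_C, MvPolynomial.eval₂Hom_X', Matrix.cons_val_zero,
    Matrix.cons_val_one, Matrix.cons_val_two, Matrix.head_cons, Matrix.tail_cons, ← hyy,
    ← huu] at e1 e2
  have ha : aR1 y 1 u 5 8 * io KS PowerSeries.X ^ 7 = io KS (PowerSeries.C AO) ^ 3 := by
    have := a58 y u
    simp only [p58] at this e1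
    linear_combination io KS PowerSeries.X ^ 7 / 16 * this + 1 / 16 * e1
  refine bad_of_series (evT 1 ![y, u] (one_ne _)) (p := 3) (q := 5) (x := 7) (y := 12) (j := 3)
    (by norm_num) ?_ ?_ (L := V) (M := 1) (by simp) ?_ (by simpa [hV] using hσ)
  · simp only [a1, map_aR1, evT_x, map_one, map_pow, Matrix.cons_val_zero, Matrix.cons_val_one, ha]
  · simp only [b1, map_bR1, evT_x, map_one, map_pow, Matrix.cons_val_zero, Matrix.cons_val_one]
    have := b58 y u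
    simp only [t58, h58] at this e2
    linear_combination io KS PowerSeries.X ^ 12 / 128 * this + 1 / 128 * e2
      + io KS PowerSeries.X ^ 5 / 8 * (-7 * y ^ 5 + 2 * y ^ 2 * u + (-3 * y + 10 * y ^ 3 - 2 * u))
        * ha
  · simp only [evT_x, map_one, Matrix.cons_val_zero, Matrix.cons_val_one]
    linear_combination huu

end Pool.Agent.Lib.MP_55068a_an.Dy
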