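import Mathlib
import Pool.Agent.Lib.MP_55068a_an.Dy.Ser

namespace Pool.Agent.Lib.MP_55068a_an.Dy

open Polynomial

namespace T2sAux

/-- the leading coefficients as real numbers -/
noncomputable def c (n : ℕ) : ℝ := Lg (1 : ℝ) 0 n

theorem c_eq (n : ℕ) : c n = (cQ n : ℝ) := by
  simp [c, Lg_zero]

theorem c_pos (n : ℕ) : 0 < c n := by
  rw [c_eq]; exact_mod_cast cQ_pos n

theorem c_zero : c 0 = 1 := by
  rw [c_eq, cQ_zero]; simp

theorem c_succ (n : ℕ) : ((n : ℝ) + 1) * c (n + 1) = (2 * n + 1) * c n := by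
  rw [c_eq, c_eq, cQ_succ]
  have : ((n : ℝ) + 1) ≠ 0 := by positivity
  push_cast
  field_simp

theorem M_zero : Mg (1 : ℝ) 0 0 = 1 := by
  simp [Mg_zero, sQ_zero]

theorem M_succ (n : ℕ) : Mg (1 : ℝ) 0 (n + 1) = -c n / (n + 1) := by
  simp [Mg_zero, sQ_succ, c_eq]

theorem M_neg {n : ℕ} (hn : 0 < n) : Mg (1 : ℝ) 0 n < 0 := by
  obtain ⟨j, rfl⟩ : ∃ j, n = j + 1 := ⟨n - 1, by omega⟩
  rw [M_succ]
  have := c_pos j
  exact div_neg_of_neg_of_pos (by linarith) (by positivity)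

theorem M_ne (n : ℕ) : Mg (1 : ℝ) 0 n ≠ 0 := by
  rcases Nat.eq_zero_or_pos n with rfl | hn
  · rw [M_zero]; exact one_ne_zero
  · exact (M_neg hn).ne

/-- the ratio of consecutive coefficients increases -/
theorem ratio {i j : ℕ} (h : i < j) : c (i + 1) * c j < c (j + 1) * c i := by
  have hi := c_succ i
  have hj := c_succ j
  have pi := c_pos i
  have pj := c_pos j
  have hij : (i : ℝ) < j := by exact_mod_cast h
  have p0 : (0 : ℝ) < ((i : ℝ) + 1) * ((j : ℝ) + 1) := by positivity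
  have e : ((i : ℝ) + 1) * ((j : ℝ) + 1) * (c (j + 1) * c i - c (i + 1) * c j)
      = (j - i) * (c i * c j) := by
    linear_combination ((i : ℝ) + 1) * c i * hj - ((j : ℝ) + 1) * c j * hi
  have p1 : (0 : ℝ) < (j - i) * (c i * c j) := mul_pos (by linarith) (mul_pos pi pj)
  rw [← e] at p1
  have := (mul_pos_iff_of_pos_left p0).1 p1
  linarith

theorem Sg_eq (v : ℝ) (m j : ℕ) :
    Sg (1 : ℝ) 0 v m j = c j + 1 / 2 * v * sh c j m - 1 / 8 * v ^ 2 * sh c j (2 * m) := by
  have : Lg (1 : ℝ) 0 = c := rfl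
  simp [Sg, this]

theorem Tg_eq (v : ℝ) (m j : ℕ) :
    Tg (1 : ℝ) 0 v m j = Mg (1 : ℝ) 0 j - 1 / 2 * v * sh (Mg (1 : ℝ) 0) j m := by
  simp [Tg]

theorem sh_le {f : ℕ → ℝ} {j d i : ℕ} (h : j = d + i) : sh f j d = f i := by
  subst h; simp [sh]

theorem sh_lt {f : ℕ → ℝ} {j d : ℕ} (h : j < d) : sh f j d = 0 := by
  simp [sh, h.not_ge]

theorem roots {A B C : ℝ} (hA : 0 < A) (hB : 0 < B) (hC : 0 < C) :
    (∃ v : ℝ, v < 0 ∧ C + 1 / 2 * v * B - 1 / 8 * v ^ 2 * A = 0) ∧
    ∃ v : ℝ, 0 < v ∧ C + 1 / 2 * v * B - 1 / 8 * v ^ 2 * A = 0 := by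
  have hD : 0 ≤ B ^ 2 + 2 * A * C := by positivity
  have hs := Real.sq_sqrt hD
  have hlt : B < √(B ^ 2 + 2 * A * C) := by
    apply Real.lt_sqrt_of_sq_lt
    have := mul_pos hA hC
    linarith
  generalize √(B ^ 2 + 2 * A * C) = r at hs hlt
  constructor
  · refine ⟨2 * (B - r) / A, div_neg_of_neg_of_pos (by linarith) hA, ?_⟩
    field_simp
    linear_combination (-4) * hs
  · refine ⟨2 * (B + r) / A, div_pos (by linarith) hA, ?_⟩
    field_simp
    linear_combination (-4) * hs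

theorem simple {A B C v : ℝ} (hA : 0 < A) (hC : 0 < C)
    (h : C + 1 / 2 * v * B - 1 / 8 * v ^ 2 * A = 0) : 1 / 2 * B - 1 / 4 * v * A ≠ 0 := by
  intro h0
  have e : C + 1 / 8 * v ^ 2 * A = 0 := by linear_combination h - v * h0
  have : 0 ≤ 1 / 8 * v ^ 2 * A := by positivity
  linarith

end T2sAux

open T2sAux in
theorem exists_v1 {k l : ℕ} (hk : 0 < k) (hkl : k < l) (h3 : 3 * k < 2 * l) (hne : l ≠ 2 * k) :
    ∃ v : ℝ, v ≠ 0 ∧ Sg (1 : ℝ) 0 v (l - k) (l - 1) = 0 ∧
      1 / 2 * sh (Lg (1 : ℝ) 0) (l - 1) (l - k)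
        - 1 / 4 * v * sh (Lg (1 : ℝ) 0) (l - 1) (2 * (l - k)) ≠ 0 ∧
      Sg (1 : ℝ) 0 v (l - k) (l - 2) ≠ 0 ∧ Tg (1 : ℝ) 0 v (l - k) k ≠ 0 ∧
      Tg (1 : ℝ) 0 v (l - k) (k - 1) ≠ 0 := by
  have hc : Lg (1 : ℝ) 0 = c := rfl
  simp only [Sg_eq, Tg_eq, hc]
  obtain ⟨n, hn⟩ : ∃ n, l = n + 2 := ⟨l - 2, by omega⟩
  have e1 : l - 1 = n + 1 := by omega
  have e2 : l - 2 = n := by omega
  rw [e1, e2, sh_le (i := k - 1) (j := n + 1) (d := l - k) (by omega)]
  have pn := c_pos n
  have pn1 := c_pos (n + 1)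
  have pk := c_pos (k - 1)
  rcases lt_or_gt_of_ne hne with hlt | hgt
  · obtain ⟨j, hj⟩ : ∃ j, k = j + 2 := ⟨k - 2, by omega⟩
    have e3 : k - 1 = j + 1 := by omega
    rw [sh_le (i := j) (j := n) (d := l - k) (by omega)]
    have pj := c_pos j
    by_cases hw : l + 1 = 2 * k
    · rw [sh_le (i := 0) (j := n + 1) (d := 2 * (l - k)) (by omega),
        sh_lt (j := n) (d := 2 * (l - k)) (by omega),
        sh_le (i := 1) (j := k) (d := l - k) (by omega),
        sh_le (i := 0) (j := k - 1) (d := l - k) (by omega), M_zero]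
      obtain ⟨v, hv, hq⟩ := (roots (c_pos 0) pk pn1).2
      refine ⟨v, hv.ne', hq, simple (c_pos 0) pn1 hq, ?_, ?_, ?_⟩
      · have := mul_pos hv pj
        intro h0
        linarith
      · have hk1 : k = (k - 1) + 1 := by omega
        have m1 := M_succ 0
        have mk := M_succ (k - 1)
        rw [← hk1] at mk
        rw [mk, m1, c_zero]
        rw [c_zero] at hq
        have hK : (0 : ℝ) ≤ ((k - 1 : ℕ) : ℝ) := Nat.cast_nonneg _
        generalize ((k - 1 : ℕ) : ℝ) = K at hK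
        intro h0
        have hK1 : (0 : ℝ) < K + 1 := by linarith
        have e : c (k - 1) = 1 / 2 * v * (K + 1) := by
          field_simp at h0 ⊢
          push_cast at h0
          linarith
        rw [e] at hq
        have : 0 ≤ v ^ 2 * K := by positivity
        have : 0 ≤ v ^ 2 := by positivity
        nlinarith
      · have := M_neg (n := k - 1) (by omega)
        intro h0
        linarith
    · obtain ⟨w, hw2⟩ : ∃ w, 2 * k = l + (w + 2) := ⟨2 * k - l - 2, by omega⟩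
      rw [sh_le (i := w + 1) (j := n + 1) (d := 2 * (l - k)) (by omega),
        sh_le (i := w) (j := n) (d := 2 * (l - k)) (by omega),
        sh_le (i := w + 2) (j := k) (d := l - k) (by omega),
        sh_le (i := w + 1) (j := k - 1) (d := l - k) (by omega)]
      have pw := c_pos w
      have pw1 := c_pos (w + 1)
      obtain ⟨v, hv, hq⟩ := (roots pw1 pk pn1).1
      refine ⟨v, hv.ne, hq, simple pw1 pn1 hq, ?_, ?_, ?_⟩
      · have r1 := ratio (i := j) (j := n) (by omega)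
        have r2 := ratio (i := w) (j := n) (by omega)
        rw [e3] at hq
        intro h0
        have e : 1 / 2 * v * (c (n + 1) * c j - c (j + 1) * c n)
            - 1 / 8 * v ^ 2 * (c (n + 1) * c w - c (w + 1) * c n) = 0 := by
          linear_combination c (n + 1) * h0 - c n * hq
        have a1 : v * (c (n + 1) * c j - c (j + 1) * c n) < 0 :=
          mul_neg_of_neg_of_pos hv (by linarith)
        have a2 : 0 ≤ v ^ 2 * (c (n + 1) * c w - c (w + 1) * c n) :=
          mul_nonneg (sq_nonneg v) (by linarith)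
        linarith
      · have a1 := M_neg (n := k) hk
        have a2 := mul_pos_of_neg_of_neg hv (M_neg (n := w + 2) (by omega))
        intro h0
        linarith
      · have a1 := M_neg (n := k - 1) (by omega)
        have a2 := mul_pos_of_neg_of_neg hv (M_neg (n := w + 1) (by omega))
        intro h0
        linarith
  · rw [sh_lt (j := n + 1) (d := 2 * (l - k)) (by omega),
      sh_lt (j := n) (d := 2 * (l - k)) (by omega),
      sh_lt (j := k) (d := l - k) (by omega), sh_lt (j := k - 1) (d := l - k) (by omega)]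
    refine ⟨-2 * c (n + 1) / c (k - 1), ?_, ?_, ?_, ?_, ?_, ?_⟩
    · exact div_ne_zero (by linarith) pk.ne'
    · field_simp
      ring
    · intro h0
      linarith
    · by_cases h1 : k = 1
      · rw [sh_lt (j := n) (d := l - k) (by omega)]
        intro h0
        linarith
      · obtain ⟨j, hj⟩ : ∃ j, k = j + 2 := ⟨k - 2, by omega⟩
        have e3 : k - 1 = j + 1 := by omega
        rw [sh_le (i := j) (j := n) (d := l - k) (by omega), e3]
        rw [e3] at pk
        have r1 := ratio (i := j) (j := n) (by omega)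
        intro h0
        have e : c (j + 1) * (-2 * c (n + 1) / c (j + 1)) = -2 * c (n + 1) := by field_simp
        have e' : c (j + 1) * c n - c (n + 1) * c j = 0 := by
          linear_combination c (j + 1) * h0 - 1 / 2 * c j * e
        linarith
    · simpa using M_ne k
    · simpa using M_ne (k - 1)

/-- the list of coprime pairs -/
theorem cover {k l : ℕ} (hk : 0 < k) (hkl : k < l) (hc : Nat.Coprime k l) :
    (k = 1 ∧ (l = 2 ∨ l = 3 ∨ l = 4 ∨ l = 5 ∨ l = 6)) ∨
    (k = 2 ∧ (l = 3 ∨ l = 5 ∨ l = 7 ∨ l = 9)) ∨ (k = 4 ∧ l = 7) ∨ (k = 5 ∧ l = 8) ∨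
    2 * l < 3 * k ∨ (3 ≤ k ∧ 2 * k < l) ∨
    (3 * k < 2 * l ∧ l ≠ 2 * k ∧ 3 < l ∧ 5 * Nat.gcd k (l - 3) ≤ k + (l - 3)) := by
  have hle : Nat.gcd k (l - 3) ≤ k := Nat.gcd_le_left _ hk
  by_cases h1 : k = 1
  · omega
  by_cases h2 : k = 2
  · have : ¬ 2 ∣ l := by
      intro h
      have := Nat.dvd_gcd (show 2 ∣ k by omega) h
      rw [hc] at this
      omega
    omega
  have n2 : l ≠ 2 * k := by
    intro h
    have := hc.eq_one_of_dvd (show k ∣ l from ⟨2, by omega⟩)
    omega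
  have n3 : 2 * l ≠ 3 * k := by
    intro h
    have d : k ∣ 2 * l := ⟨3, by omega⟩
    have := Nat.le_of_dvd (by norm_num) (hc.dvd_of_dvd_mul_right d)
    omega
  obtain ⟨a, ha⟩ := Nat.gcd_dvd_left k (l - 3)
  obtain ⟨b, hb⟩ := Nat.gcd_dvd_right k (l - 3)
  generalize Nat.gcd k (l - 3) = g at *
  by_cases h5 : 5 ≤ a + b
  · have : g * 5 ≤ g * (a + b) := Nat.mul_le_mul_left g h5
    rw [Nat.mul_add, ← ha, ← hb] at this
    omega
  · by_cases h6 : 2 * l < 3 * k
    · exact Or.inr (Or.inr (Or.inr (Or.inr (Or.inl h6))))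
    by_cases h7 : 2 * k < l
    · exact Or.inr (Or.inr (Or.inr (Or.inr (Or.inr (Or.inl ⟨by omega, h7⟩)))))
    refine Or.inr (Or.inr (or_assoc.1 (Or.inl ?_)))
    have a4 : a ≤ 4 := by omega
    have b4 : b ≤ 4 := by omega
    interval_cases a <;> interval_cases b <;> omega

end Pool.Agent.Lib.MP_55068a_an.Dy
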