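import Mathlib
import Pool.Agent.Lib.MP_55068a_an.Dy.DL
import Pool.Agent.Lib.MP_55068a_an.Dy.T2s

namespace Pool.Agent.Lib.MP_55068a_an.Dy

open Polynomial

namespace T2Aux

section Gen

variable {A : Type} [CommRing A] [Algebra ℚ A]

omit [Algebra ℚ A] in
theorem cong {s x y : A}
    (h : Ideal.Quotient.mk (Ideal.span {s}) x = Ideal.Quotient.mk (Ideal.span {s}) y) :
    ∃ r, x = y + s * r := by
  obtain ⟨r, hr⟩ := Ideal.mem_span_singleton.1 (Ideal.Quotient.eq.1 h)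
  exact ⟨r, by rw [← hr]; ring⟩

theorem Sg_mod (s y u w : A) (m n : ℕ) :
    ∃ r, Sg y (s ^ 2) (u + s ^ 2 * w) m n = Sg y 0 u m n + s * r := by
  apply cong
  rw [map_Sg, map_Sg]
  simp

theorem Tg_mod (s y u w : A) (m n : ℕ) :
    ∃ r, Tg y (s ^ 2) (u + s ^ 2 * w) m n = Tg y 0 u m n + s * r := by
  apply cong
  rw [map_Tg, map_Tg]
  simp

theorem b_split (y e u : A) {k l : ℕ} (hk : 0 < k) :
    ∃ r, bR1 y e u k l = aR1 y e u k l * Tg y e u (l - k) k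
      - e * Sg y e u (l - k) (l - 2) * Tg y e u (l - k) (k - 1) + e ^ 2 * r := by
  obtain ⟨j, rfl⟩ : ∃ j, k = j + 1 := ⟨k - 1, by omega⟩
  refine ⟨-∑ i ∈ Finset.range j, e ^ i * Sg y e u (l - (j + 1)) (l - 1 - (i + 1 + 1))
    * Tg y e u (l - (j + 1)) (j + 1 - (i + 1 + 1)), ?_⟩
  have e2 : l - 1 - (0 + 1) = l - 2 := by omega
  rw [bR1, aR1, Finset.sum_range_succ', Finset.sum_range_succ', e2, mul_neg, Finset.mul_sum]
  have e3 : ∑ i ∈ Finset.range j, e ^ (i + 1 + 1) * Sg y e u (l - (j + 1)) (l - 1 - (i + 1 + 1))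
      * Tg y e u (l - (j + 1)) (j + 1 - (i + 1 + 1))
      = ∑ i ∈ Finset.range j, e ^ 2 * (e ^ i * Sg y e u (l - (j + 1)) (l - 1 - (i + 1 + 1))
      * Tg y e u (l - (j + 1)) (j + 1 - (i + 1 + 1))) :=
    Finset.sum_congr rfl fun i _ => by ring
  rw [e3]
  simp only [Nat.sub_zero, zero_add, pow_zero, pow_one]
  ring

variable (ψ : ℂ →+* A)

theorem Lg_lead (y : A) (n : ℕ) : Lg y 0 n = ψ (Lg 1 0 n) * y ^ n := by
  have h := Lg_hom y 1 0 n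
  rw [map_Lg, map_one, map_zero]
  simpa [mul_comm] using h

theorem sh_lead (y : A) (j d : ℕ) : sh (Lg y 0) j d = ψ (sh (Lg 1 0) j d) * y ^ (j - d) := by
  unfold sh
  split_ifs
  · exact Lg_lead ψ y _
  · simp

theorem Sg_lead (y : A) (c : ℂ) (m n : ℕ) :
    Sg y 0 (ψ c * y ^ m) m n = ψ (Sg 1 0 c m n) * y ^ n := by
  have h := Sg_hom y 1 0 (ψ c) m n
  rw [map_Sg, map_one, map_zero]
  simpa [mul_comm] using h

theorem Tg_lead (y : A) (c : ℂ) (m n : ℕ) :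
    Tg y 0 (ψ c * y ^ m) m n = ψ (Tg 1 0 c m n) * y ^ n := by
  have h := Tg_hom y 1 0 (ψ c) m n
  rw [map_Tg, map_one, map_zero]
  simpa [mul_comm] using h

theorem Lg_exp (y s : A) (n : ℕ) : ∃ (p : ℂ[X]) (r : A),
    Lg y (s ^ 2) n = Lg y 0 n + s ^ 2 * (p.eval₂ ψ y + s * r) := by
  set P : ℂ[X][X] := Lg (C X) X n with hP
  let θ : ℂ[X] →+* A := eval₂RingHom ψ y
  have hθ : θ X = y := by simp [θ]
  have h1 : ∀ e : A, eval₂RingHom θ e P = Lg y e n := by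
    intro e
    rw [hP, map_Lg]
    simp [hθ]
  have h2 : P = X * (X * P.divX.divX + C (P.divX.coeff 0)) + C (P.coeff 0) := by
    rw [X_mul_divX_add, X_mul_divX_add]
  refine ⟨P.divX.coeff 0, s * eval₂RingHom θ (s ^ 2) P.divX.divX, ?_⟩
  have a := h1 (s ^ 2)
  have b := h1 0
  rw [h2] at a b
  simp only [map_add, map_mul, coe_eval₂RingHom, eval₂_X, eval₂_C, zero_mul, zero_add] at a b
  rw [← a, ← b]
  simp only [θ, coe_eval₂RingHom]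
  ring

theorem sh_exp (y s : A) (j d : ℕ) : ∃ (p : ℂ[X]) (r : A),
    sh (Lg y (s ^ 2)) j d = sh (Lg y 0) j d + s ^ 2 * (p.eval₂ ψ y + s * r) := by
  unfold sh
  split_ifs
  · exact Lg_exp ψ y s _
  · exact ⟨0, 0, by simp⟩

theorem a_exp (y s w : A) (c : ℂ) {k l : ℕ} (h0 : Sg 1 0 c (l - k) (l - 1) = 0) :
    ∃ (B : ℂ[X]) (r : A), aR1 y (s ^ 2) (ψ c * y ^ (l - k) + s ^ 2 * w) k l
      = s ^ 2 * (ψ (-(1 / 2 * sh (Lg 1 0) (l - 1) (l - k)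
          - 1 / 4 * c * sh (Lg 1 0) (l - 1) (2 * (l - k)))) * y ^ (l - 1 - (l - k)) * w
        + B.eval₂ ψ y + s * r) := by
  set m := l - k
  set n := l - 1
  obtain ⟨p0, r0, e0⟩ := Lg_exp ψ y s n
  obtain ⟨p1, r1, e1⟩ := sh_exp ψ y s n m
  obtain ⟨p2, r2, e2⟩ := sh_exp ψ y s n (2 * m)
  have hz : Sg y 0 (ψ c * y ^ m) m n = 0 := by rw [Sg_lead, h0]; simp
  have h2 : algebraMap ℚ A (1 / 2) = ψ (1 / 2) := by
    rw [← ψ.map_rat_algebraMap]; simp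
  have h8 : algebraMap ℚ A (1 / 8) = ψ (1 / 8) := by
    rw [← ψ.map_rat_algebraMap]; simp
  have h4 : ψ (1 / 4) = 2 * ψ (1 / 8) := by
    rw [← map_ofNat ψ 2, ← map_mul]; norm_num
  have l1 := sh_lead ψ y n m
  have l2 : y ^ m * sh (Lg y 0) n (2 * m) = ψ (sh (Lg 1 0) n (2 * m)) * y ^ (n - m) := by
    rw [sh_lead ψ]
    by_cases h : 2 * m ≤ n
    · have : n - m = m + (n - 2 * m) := by omega
      rw [this]; ring
    · simp [sh, h]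
  rw [Sg, h2, h8] at hz
  refine ⟨-(p0 + C (1 / 2 * c) * X ^ m * p1 - C (1 / 8 * c ^ 2) * X ^ (2 * m) * p2),
    -(r0 + ψ (1 / 2) * (ψ c * y ^ m * r1 + s * w * (p1.eval₂ ψ y + s * r1))
      - ψ (1 / 8) * ((ψ c * y ^ m) ^ 2 * r2 + s * w ^ 2 * sh (Lg y 0) n (2 * m)
        + s * (2 * (ψ c * y ^ m) * w + s ^ 2 * w ^ 2) * (p2.eval₂ ψ y + s * r2))), ?_⟩
  rw [aR1, Sg, h2, h8, e0, e1, e2]
  have c1 : ∀ (a : ℂ) (i : ℕ) (p : ℂ[X]),
      (C a * X ^ i * p).eval₂ ψ y = ψ a * y ^ i * p.eval₂ ψ y := by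
    intro a i p
    rw [eval₂_mul, eval₂_mul, eval₂_C, eval₂_X_pow]
  rw [eval₂_neg, eval₂_sub, eval₂_add, c1, c1]
  simp only [map_neg, map_sub, map_mul, map_pow, h4]
  linear_combination -hz - s ^ 2 * w * ψ (1 / 2) * l1 + 2 * s ^ 2 * w * ψ (1 / 8) * ψ c * l2

end Gen

theorem sh_real (j d : ℕ) : ((sh (Lg (1 : ℝ) 0) j d : ℝ) : ℂ) = sh (Lg (1 : ℂ) 0) j d := by
  unfold sh
  split_ifs
  · simpa using map_Lg Complex.ofRealHom 1 0 (j - d)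
  · simp

theorem Sg_real (v : ℝ) (m n : ℕ) : ((Sg (1 : ℝ) 0 v m n : ℝ) : ℂ) = Sg (1 : ℂ) 0 v m n := by
  simpa using map_Sg Complex.ofRealHom 1 0 v m n

theorem Tg_real (v : ℝ) (m n : ℕ) : ((Tg (1 : ℝ) 0 v m n : ℝ) : ℂ) = Tg (1 : ℂ) 0 v m n := by
  simpa using map_Tg Complex.ofRealHom 1 0 v m n

end T2Aux

open T2Aux in
theorem bad_T2 {k l : ℕ} (hk : 0 < k) (hkl : k < l) (h3 : 3 * k < 2 * l) (hne : l ≠ 2 * k)
    (hl : 3 < l) (h5 : 5 * Nat.gcd k (l - 3) ≤ k + (l - 3)) :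
    Bad (a1 k l) (b1 k l) (xT 1 1) := by
  obtain ⟨v, hv, s0, sd, s2, t0, t1⟩ := exists_v1 hk hkl h3 hne
  have s0' : Sg (1 : ℂ) 0 v (l - k) (l - 1) = 0 := by rw [← Sg_real, s0]; simp
  have s2' : Sg (1 : ℂ) 0 v (l - k) (l - 2) ≠ 0 := by rw [← Sg_real]; exact_mod_cast s2
  have t0' : Tg (1 : ℂ) 0 v (l - k) k ≠ 0 := by rw [← Tg_real]; exact_mod_cast t0
  have t1' : Tg (1 : ℂ) 0 v (l - k) (k - 1) ≠ 0 := by rw [← Tg_real]; exact_mod_cast t1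
  have sd' : -(1 / 2 * sh (Lg (1 : ℂ) 0) (l - 1) (l - k)
      - 1 / 4 * v * sh (Lg (1 : ℂ) 0) (l - 1) (2 * (l - k))) ≠ 0 := by
    rw [neg_ne_zero, ← sh_real, ← sh_real]
    intro h
    apply sd
    have : ((1 / 2 * sh (Lg (1 : ℝ) 0) (l - 1) (l - k)
        - 1 / 4 * v * sh (Lg (1 : ℝ) 0) (l - 1) (2 * (l - k)) : ℝ) : ℂ) = 0 := by
      push_cast
      exact h
    exact_mod_cast this
  let s : MvPolynomial (Fin 3) ℂ := MvPolynomial.X 0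
  let Y : MvPolynomial (Fin 3) ℂ := MvPolynomial.X 1
  let W : MvPolynomial (Fin 3) ℂ := MvPolynomial.X 2
  let ψ : ℂ →+* MvPolynomial (Fin 3) ℂ := MvPolynomial.C
  obtain ⟨B, f1, ea⟩ := a_exp ψ Y s W v s0'
  obtain ⟨r, eb⟩ := b_split Y (s ^ 2) (ψ v * Y ^ (l - k) + s ^ 2 * W) (l := l) hk
  obtain ⟨h1, e1⟩ := Tg_mod s Y (ψ v * Y ^ (l - k)) W (l - k) k
  obtain ⟨h2, e2⟩ := Sg_mod s Y (ψ v * Y ^ (l - k)) W (l - k) (l - 2)
  obtain ⟨h3', e3⟩ := Tg_mod s Y (ψ v * Y ^ (l - k)) W (l - k) (k - 1)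
  rw [Tg_lead] at e1 e3
  rw [Sg_lead] at e2
  rw [e1, e2, e3] at eb
  generalize Sg (1 : ℂ) 0 v (l - k) (l - 2) = S at s2' eb
  generalize Tg (1 : ℂ) 0 v (l - k) k = τ at t0' eb
  generalize Tg (1 : ℂ) 0 v (l - k) (k - 1) = τ' at t1' eb
  generalize -(1 / 2 * sh (Lg (1 : ℂ) 0) (l - 1) (l - k)
      - 1 / 4 * v * sh (Lg (1 : ℂ) 0) (l - 1) (2 * (l - k))) = α at sd' ea
  clear e1 e2 e3
  refine bad_of_tri (i := l - 3) (k := k) (ν := 0) (μ := l - 1 - (l - k)) (j := l - k) (d := l - k)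
    (α := α) (τ := τ) (γ := -(S * τ')) (c := v) B f1 h1
    (s * r - (ψ S * Y ^ (l - 2) * h3' + h2 * (ψ τ' * Y ^ (k - 1) + s * h3'))) (s * W) sd' t0'
    (neg_ne_zero.2 (mul_ne_zero s2' t1')) (by exact_mod_cast hv) (by omega) hk (by omega) h5 ?_
  intro Ω _ _ φ σ y w hσ _
  let E : MvPolynomial (Fin 3) ℂ →+* Ω := MvPolynomial.eval₂Hom φ ![σ, y, w]
  have Es : E s = σ := by simp [E, s]
  have EY : E Y = y := by simp [E, Y]
  have EW : E W = w := by simp [E, W]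
  have Eψ : ∀ z, E (ψ z) = φ z := by intro z; simp [E, ψ]
  have EB : E (B.eval₂ ψ Y) = B.eval₂ φ y := by
    rw [hom_eval₂, EY]
    congr 1
    exact RingHom.ext Eψ
  have ea' := congrArg E ea
  have eb' := congrArg E eb
  simp only [map_aR1, map_bR1, map_add, map_sub, map_mul, map_pow, Es, EY, EW, Eψ, EB] at ea' eb'
  set V : Ω := φ v * y ^ (l - k) + σ ^ 2 * w with hV
  have p1 : σ * (y / σ) = y := by field_simp
  have p2 : σ ^ (l - k) * (V / σ ^ (l - k)) = V := by field_simp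
  have ha := aR1_hom σ (y / σ) 1 (V / σ ^ (l - k)) k l
  have hb := bR1_hom σ (y / σ) 1 (V / σ ^ (l - k)) hkl
  rw [p1, p2, mul_one] at ha hb
  refine ⟨evT 1 ![y / σ, V / σ ^ (l - k)] (one_ne _), ?_⟩
  have fa : evT 1 ![y / σ, V / σ ^ (l - k)] (one_ne _) (a1 k l)
      = aR1 (y / σ) 1 (V / σ ^ (l - k)) k l := by
    rw [a1, map_aR1, evT_x, evT_x, map_one]; rfl
  have fb : evT 1 ![y / σ, V / σ ^ (l - k)] (one_ne _) (b1 k l)
      = bR1 (y / σ) 1 (V / σ ^ (l - k)) k l := by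
    rw [b1, map_bR1, evT_x, evT_x, map_one]; rfl
  have fv : evT 1 ![y / σ, V / σ ^ (l - k)] (one_ne _) (xT 1 1) = V / σ ^ (l - k) := by
    rw [evT_x]; rfl
  rw [fa, fb, fv]
  have q1 : σ ^ (l - 1) = σ ^ 2 * σ ^ (l - 3) := by
    rw [← pow_add]; congr 1; omega
  have q2 : σ ^ (l - 1 + k) = σ ^ 2 * σ ^ (l - 3 + k) := by
    rw [← pow_add]; congr 1; omega
  have q3 : y ^ (l - 3 + k) = y ^ (l - 2) * y ^ (k - 1) := by
    rw [← pow_add]; congr 1; omega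
  have hσ2 : σ ^ 2 ≠ 0 := pow_ne_zero 2 hσ
  rw [q1] at ha
  rw [q2] at hb
  change _ = _ + σ * E f1 ∧ _ = (_ + σ * E h1) * _ + _ + σ * E _ ∧ _ = _ + σ * E _
  simp only [map_add, map_sub, map_mul, map_pow, map_neg, Es, EY, EW, Eψ]
  refine ⟨mul_left_cancel₀ hσ2 ?_, mul_left_cancel₀ hσ2 ?_, ?_⟩
  · linear_combination ea' - ha
  · rw [q3]
    linear_combination eb' - hb + (φ τ * y ^ k + σ * E h1) * ha
  · rw [zero_add]
    linear_combination p2 + hV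

end Pool.Agent.Lib.MP_55068a_an.Dy
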