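import Mathlib
import Pool.Agent.Lib.MP_55068a_an.Dy.Ser

namespace Pool.Agent.Lib.MP_55068a_an.Dy

open Polynomial

/-- Legendre polynomial -/
noncomputable def LP (n : ℕ) : ℚ[X] := Lg X 1 n

noncomputable def MP (n : ℕ) : ℚ[X] := Mg X 1 n

noncomputable def BP (k : ℕ) : ℚ[X] := ∑ i ∈ Finset.range k, LP (k - 1 - i) * MP (k - i)

noncomputable def DP (k l : ℕ) : ℚ[X] := ∑ i ∈ Finset.range (k + 1), LP (l - 1 - i) * MP (k - i)

noncomputable def CP (k l : ℕ) : ℚ[X] := DP k l * LP (k - 1) - LP (l - 1) * BP k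

namespace LegAux

theorem LP_zero : LP 0 = 1 := rfl

theorem LP_one : LP 1 = X := rfl

theorem LP_two (n : ℕ) : LP (n + 2) =
    C ((2 * n + 3) / (n + 2) : ℚ) * X * LP (n + 1) - C ((n + 1) / (n + 2) : ℚ) * LP n := by
  simp only [LP, Lg, mul_one, Polynomial.algebraMap_eq]

theorem LP_rec (n : ℕ) :
    ((n : ℚ[X]) + 2) * LP (n + 2)
      = (2 * (n : ℚ[X]) + 3) * X * LP (n + 1) - ((n : ℚ[X]) + 1) * LP n := by
  have := Lg_rec (X : ℚ[X]) 1 n
  simpa only [LP, mul_one] using this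

theorem LP_top (n : ℕ) : (LP n).natDegree ≤ n ∧ (LP n).coeff n = cQ n := by
  induction n using Nat.twoStepInduction with
  | zero => simp [LP_zero, cQ_zero]
  | one =>
    have := cQ_succ 0
    simp [LP_one, this, cQ_zero]
  | more n h0 h1 =>
    have hX : (X * LP (n + 1)).natDegree ≤ n + 2 := by
      refine natDegree_mul_le.trans ?_
      have := natDegree_X_le (R := ℚ)
      omega
    constructor
    · rw [LP_two, mul_assoc]
      refine (natDegree_sub_le _ _).trans (max_le ?_ ?_)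
      · exact (natDegree_C_mul_le _ _).trans hX
      · exact (natDegree_C_mul_le _ _).trans (by omega)
    · rw [LP_two, mul_assoc, coeff_sub, coeff_C_mul, coeff_C_mul, coeff_X_mul, h1.2,
        coeff_eq_zero_of_natDegree_lt (p := LP n) (by omega), cQ_succ (n + 1)]
      push_cast
      ring

theorem MP_zero : MP 0 = 1 := by
  simp [MP, Mg, sh, Lg]

theorem MP_one : MP 1 = -X := by
  simp only [MP, Mg, sh]
  norm_num [Lg]
  ring

theorem MP_rec (n : ℕ) : (2 * (n : ℚ[X]) + 3) * MP (n + 2) = LP n - LP (n + 2) := by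
  have := Mg_rec (X : ℚ[X]) 1 n
  simpa only [LP, MP, one_mul] using this

theorem MP_two (n : ℕ) : MP (n + 2) = C (1 / (2 * n + 3) : ℚ) * (LP n - LP (n + 2)) := by
  rw [← MP_rec, ← mul_assoc]
  have h : (C (1 / (2 * n + 3) : ℚ) * (2 * (n : ℚ[X]) + 3)) = 1 := by
    have h2 : (2 * (n : ℚ[X]) + 3) = C (2 * n + 3 : ℚ) := by
      simp only [map_add, map_mul, map_natCast, map_ofNat]
    rw [h2, ← C_mul, one_div, inv_mul_cancel₀ (by positivity), C_1]
  rw [h, one_mul]

theorem MP_top (n : ℕ) : (MP n).natDegree ≤ n ∧ (MP n).coeff n = sQ n := by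
  rcases n with _ | _ | n
  · simp [MP_zero, sQ_zero]
  · have := sQ_succ 0
    simp [MP_one, this, cQ_zero]
  · have h0 := LP_top n
    have h2 := LP_top (n + 2)
    constructor
    · rw [MP_two]
      refine (natDegree_C_mul_le _ _).trans ((natDegree_sub_le _ _).trans (max_le ?_ h2.1))
      omega
    · rw [MP_two, coeff_C_mul, coeff_sub, h2.2,
        coeff_eq_zero_of_natDegree_lt (p := LP n) (by omega), sQ_succ (n + 1), cQ_succ (n + 1)]
      push_cast
      field_simp
      ring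

theorem sQ_ne (n : ℕ) : sQ n ≠ 0 := by
  rcases n with _ | n
  · simp [sQ_zero]
  · rw [sQ_succ]
    have := cQ_pos n
    have h : (0 : ℚ) < n + 1 := by positivity
    exact div_ne_zero (by linarith) h.ne'

theorem LM_top (a b : ℕ) :
    (LP a * MP b).natDegree ≤ a + b ∧ (LP a * MP b).coeff (a + b) = cQ a * sQ b := by
  refine ⟨natDegree_mul_le.trans (add_le_add (LP_top a).1 (MP_top b).1), ?_⟩
  rw [coeff_mul_add_eq_of_natDegree_le (LP_top a).1 (MP_top b).1, (LP_top a).2, (MP_top b).2]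

theorem LLM_top (c a b : ℕ) :
    (LP c * (LP a * MP b)).natDegree ≤ c + (a + b) ∧
      (LP c * (LP a * MP b)).coeff (c + (a + b)) = cQ c * (cQ a * sQ b) := by
  refine ⟨natDegree_mul_le.trans (add_le_add (LP_top c).1 (LM_top a b).1), ?_⟩
  rw [coeff_mul_add_eq_of_natDegree_le (LP_top c).1 (LM_top a b).1, (LP_top c).2, (LM_top a b).2]

theorem deriv_LP (n : ℕ) :
    derivative (LP (n + 1)) = X * derivative (LP n) + ((n : ℚ[X]) + 1) * LP n ∧
    derivative (LP n) = X * derivative (LP (n + 1)) - ((n : ℚ[X]) + 1) * LP (n + 1) := by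
  induction n with
  | zero => simp [LP_zero, LP_one]
  | succ n ih =>
    obtain ⟨hA, hB⟩ := ih
    have hr := LP_rec n
    have hd := congrArg derivative hr
    simp only [derivative_mul, derivative_sub, derivative_add, derivative_natCast,
      derivative_ofNat, derivative_one, derivative_X, zero_mul, mul_zero, add_zero, zero_add,
      mul_one] at hd
    have hne : ((n : ℚ[X]) + 2) ≠ 0 := by exact_mod_cast Nat.succ_ne_zero (n + 1)
    have hA' : derivative (LP (n + 2))
        = X * derivative (LP (n + 1)) + ((n : ℚ[X]) + 2) * LP (n + 1) := by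
      apply mul_left_cancel₀ hne
      rw [hd, hB]
      ring
    constructor
    · push_cast
      rw [hA']
      ring
    · push_cast
      rw [hA']
      linear_combination hA + X * hB + hr

theorem unit_nat (n : ℕ) : IsUnit ((n : ℚ[X]) + 1) := by
  have h : ((n : ℚ[X]) + 1) = C (n + 1 : ℚ) := by
    simp only [map_add, map_natCast, map_one]
  rw [h]
  exact isUnit_C.2 (Ne.isUnit (by positivity))

theorem coprime_LP (n : ℕ) : IsCoprime (LP (n + 1)) (LP n) := by
  induction n with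
  | zero => rw [LP_zero]; exact isCoprime_one_right
  | succ n ih =>
    have h1 : IsCoprime (LP (n + 1)) (-(((n : ℚ[X]) + 1) * LP n)) :=
      ((isCoprime_mul_unit_left_right (unit_nat n) _ _).2 ih).neg_right
    have h2 := h1.add_mul_left_right ((2 * (n : ℚ[X]) + 3) * X)
    have h3 : -(((n : ℚ[X]) + 1) * LP n) + LP (n + 1) * ((2 * (n : ℚ[X]) + 3) * X)
        = ((n : ℚ[X]) + 2) * LP (n + 2) := by
      rw [LP_rec]
      ring
    rw [h3] at h2
    exact h2.of_mul_right_right.symm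

theorem ratio_lt (a d : ℕ) : cQ (a + 1) * cQ (a + d + 1) < cQ (a + d + 2) * cQ a := by
  rw [cQ_succ (a + d + 1), cQ_succ a]
  have h1 := cQ_pos a
  have h2 := cQ_pos (a + d + 1)
  have h3 : (2 * (a : ℚ) + 1) / (a + 1) < (2 * ((a + d + 1 : ℕ) : ℚ) + 1) / ((a + d + 1 : ℕ) + 1) := by
    rw [div_lt_div_iff₀ (by positivity) (by positivity)]
    push_cast
    have : (0 : ℚ) ≤ d := by positivity
    nlinarith
  nlinarith [mul_pos h1 h2]

/-- the real point where the last polynomial vanishes and the earlier ones are positive -/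
theorem exists_top {n : ℕ} (hn : 2 ≤ n) :
    ∃ ξ : ℝ, 0 < ξ ∧ Lg ξ 1 n = 0 ∧ ∀ j, j ≤ n → 0 ≤ Lg ξ 1 j := by
  have hc : ∀ j, Continuous fun x : ℝ => Lg x 1 j := by
    intro j
    have h : (fun x : ℝ => Lg x 1 j) = fun x : ℝ => aeval x (LP j) := by
      funext x
      have := map_Lg (aeval x : ℚ[X] →ₐ[ℚ] ℝ).toRingHom X 1 j
      simpa [LP] using this.symm
    rw [h]
    exact Polynomial.continuous_aeval _
  set A : Set ℝ := Set.Icc (1 / 2) 1 ∩ ⋃ j ∈ Set.Iic n, {x | Lg x 1 j ≤ 0} with hAdef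
  have hA : IsCompact A := by
    refine isCompact_Icc.inter_right ?_
    exact (Set.finite_Iic n).isClosed_biUnion fun j _ => isClosed_le (hc j) continuous_const
  have hne : A.Nonempty := by
    refine ⟨1 / 2, ⟨le_rfl, by norm_num⟩, ?_⟩
    simp only [Set.mem_iUnion]
    refine ⟨2, hn, ?_⟩
    have := Lg_rec (1 / 2 : ℝ) 1 0
    simp only [Lg] at this ⊢
    simp only [Set.mem_ofPred_eq]
    norm_num at this ⊢
  obtain ⟨ξ, ⟨hξ1, hξ2⟩, hmax⟩ := hA.exists_isGreatest hne
  simp only [Set.mem_iUnion, Set.mem_ofPred_eq, Set.mem_Iic] at hξ2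
  obtain ⟨j0, hj0, hle⟩ := hξ2
  have hlt : ξ < 1 := by
    refine lt_of_le_of_ne hξ1.2 fun h => ?_
    rw [h, Lg_one] at hle
    linarith
  have hge : ∀ j, j ≤ n → 0 ≤ Lg ξ 1 j := by
    intro j hj
    refine ge_of_tendsto (x := nhdsWithin ξ (Set.Ioi ξ))
      ((hc j).continuousAt.tendsto.mono_left nhdsWithin_le_nhds) ?_
    filter_upwards [Ioo_mem_nhdsGT hlt] with x hx
    by_contra hneg
    have hxA : x ∈ A := by
      refine ⟨⟨hξ1.1.trans hx.1.le, hx.2.le⟩, ?_⟩
      simp only [Set.mem_iUnion]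
      exact ⟨j, hj, (not_le.1 hneg).le⟩
    exact absurd (hmax hxA) (not_le.2 hx.1)
  have hpos : ∀ j, j < n → 0 < Lg ξ 1 j := by
    intro j
    induction j with
    | zero => intro _; simp [Lg]
    | succ j ih =>
      intro hj
      have h0 := ih (by omega)
      refine lt_of_le_of_ne (hge _ hj.le) fun h => ?_
      have h2 := hge (j + 2) hj
      have hr := Lg_rec ξ 1 j
      rw [← h] at hr
      have h3 : (0 : ℝ) ≤ ((j : ℝ) + 2) * Lg ξ 1 (j + 2) := by positivity
      have h4 : (0 : ℝ) < ((j : ℝ) + 1) * Lg ξ 1 j := by positivity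
      linarith
  refine ⟨ξ, by linarith [hξ1.1], ?_, hge⟩
  rcases hj0.lt_or_eq with h | h
  · exact absurd (hpos j0 h) (not_lt.2 hle)
  · subst h
    exact le_antisymm hle (hge _ le_rfl)

theorem tele {ξ : ℝ} {n : ℕ} (h : ∀ j, j ≤ n → 0 ≤ Lg ξ 1 j) (m : ℕ) (hm : m + 1 ≤ n) :
    ∑ j ∈ Finset.range (m + 1), Lg ξ 1 j * Mg ξ 1 (j + 1)
      + Lg ξ 1 m * Lg ξ 1 (m + 1) / (2 * m + 3) ≤ -(2 / 3) * ξ := by
  induction m with
  | zero =>
    simp only [Mg, sh]
    norm_num [Lg]
    linarith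
  | succ m ih =>
    have ih' := ih (by omega)
    rw [Finset.sum_range_succ]
    have hM : Mg ξ 1 (m + 1 + 1) = (Lg ξ 1 m - Lg ξ 1 (m + 2)) / (2 * m + 3) := by
      rw [eq_div_iff (by positivity), mul_comm, Mg_rec, one_mul]
    have he : 0 ≤ Lg ξ 1 (m + 1) * Lg ξ 1 (m + 2) := mul_nonneg (h _ (by omega)) (h _ hm)
    have hd : Lg ξ 1 (m + 1) * Lg ξ 1 (m + 2) / (2 * ((m + 1 : ℕ) : ℝ) + 3)
        ≤ Lg ξ 1 (m + 1) * Lg ξ 1 (m + 2) / (2 * m + 3) := by
      refine div_le_div_of_nonneg_left he (by positivity) ?_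
      push_cast
      linarith
    have hs : Lg ξ 1 (m + 1) * ((Lg ξ 1 m - Lg ξ 1 (m + 2)) / (2 * m + 3))
        = Lg ξ 1 m * Lg ξ 1 (m + 1) / (2 * m + 3)
          - Lg ξ 1 (m + 1) * Lg ξ 1 (m + 2) / (2 * m + 3) := by
      ring
    rw [hM, hs]
    linarith

theorem BP_reflect (k : ℕ) : BP k = ∑ j ∈ Finset.range k, LP j * MP (j + 1) := by
  rw [BP, ← Finset.sum_range_reflect (fun j => LP j * MP (j + 1)) k]
  refine Finset.sum_congr rfl fun i hi => ?_
  have := Finset.mem_range.1 hi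
  congr 2
  omega

end LegAux

open LegAux

theorem natDegree_LP (n : ℕ) : (LP n).natDegree = n := by
  refine natDegree_eq_of_le_of_coeff_ne_zero (LP_top n).1 ?_
  rw [(LP_top n).2]
  exact (cQ_pos n).ne'

theorem LP_ne (n : ℕ) : LP n ≠ 0 := by
  intro h
  have := (LP_top n).2
  rw [h, coeff_zero] at this
  exact (cQ_pos n).ne this

theorem separable_LP (n : ℕ) : (LP n).Separable := by
  rcases n with _ | n
  · rw [LP_zero]
    exact separable_one
  · obtain ⟨hA, hB⟩ := deriv_LP n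
    have h1 : IsCoprime (LP (n + 1)) (((n : ℚ[X]) + 1) * LP n) :=
      (isCoprime_mul_unit_left_right (unit_nat n) _ _).2 (coprime_LP n)
    have h2 := h1.add_mul_left_right (-(((n : ℚ[X]) + 1) * X))
    have h3 : ((n : ℚ[X]) + 1) * LP n + LP (n + 1) * (-(((n : ℚ[X]) + 1) * X))
        = (1 - X ^ 2) * derivative (LP (n + 1)) := by
      linear_combination -hA - X * hB
    rw [h3] at h2
    exact h2.of_mul_right_right

theorem natDegree_BP {k : ℕ} (hk : 0 < k) : (BP k).natDegree = 2 * k - 1 := by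
  obtain ⟨k, rfl⟩ : ∃ j, k = j + 1 := ⟨k - 1, by omega⟩
  have hs : (∑ j ∈ Finset.range k, LP j * MP (j + 1)).natDegree ≤ 2 * k := by
    refine natDegree_sum_le_of_forall_le _ _ fun j hj => (LM_top j (j + 1)).1.trans ?_
    have := Finset.mem_range.1 hj
    omega
  have ht := LM_top k (k + 1)
  have e : 2 * (k + 1) - 1 = k + (k + 1) := by omega
  rw [BP_reflect, Finset.sum_range_succ, e]
  refine natDegree_eq_of_le_of_coeff_ne_zero
    ((natDegree_add_le _ _).trans (max_le (by omega) ht.1)) ?_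
  rw [coeff_add, ht.2, coeff_eq_zero_of_natDegree_lt (by omega), zero_add]
  exact mul_ne_zero (cQ_pos k).ne' (sQ_ne _)

theorem natDegree_CP {k l : ℕ} (hk : 2 ≤ k) (hkl : k < l) :
    (CP k l).natDegree = l + 2 * k - 4 := by
  obtain ⟨a, rfl⟩ : ∃ j, k = j + 2 := ⟨k - 2, by omega⟩
  obtain ⟨d, rfl⟩ : ∃ j, l = a + j + 3 := ⟨l - a - 3, by omega⟩
  have hD : DP (a + 2) (a + d + 3) = ∑ j ∈ Finset.range (a + 1), LP (d + j) * MP j
      + LP (a + d + 1) * MP (a + 1) + LP (a + d + 2) * MP (a + 2) := by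
    have h := Finset.sum_range_reflect (fun j => LP (d + j) * MP j) (a + 2 + 1)
    rw [Finset.sum_range_succ (n := a + 2) (f := fun j => LP (d + j) * MP j),
      Finset.sum_range_succ (n := a + 1) (f := fun j => LP (d + j) * MP j)] at h
    have e1 : d + (a + 1) = a + d + 1 := by omega
    have e2 : d + (a + 2) = a + d + 2 := by omega
    rw [e1, e2] at h
    rw [← h, DP]
    refine Finset.sum_congr rfl fun i hi => ?_
    have := Finset.mem_range.1 hi
    congr 2 <;> omega
  have hB : BP (a + 2) = ∑ j ∈ Finset.range a, LP j * MP (j + 1)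
      + LP a * MP (a + 1) + LP (a + 1) * MP (a + 2) := by
    rw [BP_reflect, Finset.sum_range_succ, Finset.sum_range_succ]
  have hC : CP (a + 2) (a + d + 3) =
      (∑ j ∈ Finset.range (a + 1), LP (a + 1) * (LP (d + j) * MP j)
        - ∑ j ∈ Finset.range a, LP (a + d + 2) * (LP j * MP (j + 1)))
      + (LP (a + 1) * (LP (a + d + 1) * MP (a + 1))
        - LP (a + d + 2) * (LP a * MP (a + 1))) := by
    have e1 : a + 2 - 1 = a + 1 := by omega
    have e2 : a + d + 3 - 1 = a + d + 2 := by omega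
    rw [CP, hD, hB, e1, e2, ← Finset.mul_sum, ← Finset.mul_sum]
    ring
  have hs : (∑ j ∈ Finset.range (a + 1), LP (a + 1) * (LP (d + j) * MP j)
        - ∑ j ∈ Finset.range a, LP (a + d + 2) * (LP j * MP (j + 1))).natDegree
      ≤ 3 * a + d + 2 := by
    refine (natDegree_sub_le _ _).trans (max_le ?_ ?_)
    · refine natDegree_sum_le_of_forall_le _ _ fun j hj => (LLM_top _ _ _).1.trans ?_
      have := Finset.mem_range.1 hj
      omega
    · refine natDegree_sum_le_of_forall_le _ _ fun j hj => (LLM_top _ _ _).1.trans ?_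
      have := Finset.mem_range.1 hj
      omega
  have h1 := LLM_top (a + 1) (a + d + 1) (a + 1)
  have h2 := LLM_top (a + d + 2) a (a + 1)
  have e1 : a + 1 + (a + d + 1 + (a + 1)) = 3 * a + d + 3 := by omega
  have e2 : a + d + 2 + (a + (a + 1)) = 3 * a + d + 3 := by omega
  have e3 : a + d + 3 + 2 * (a + 2) - 4 = 3 * a + d + 3 := by omega
  rw [e1] at h1
  rw [e2] at h2
  rw [hC, e3]
  refine natDegree_eq_of_le_of_coeff_ne_zero ((natDegree_add_le _ _).trans
    (max_le (by omega) ((natDegree_sub_le _ _).trans (max_le h1.1 h2.1)))) ?_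
  rw [coeff_add, coeff_eq_zero_of_natDegree_lt (by omega), zero_add, coeff_sub, h1.2, h2.2]
  have h3 := ratio_lt a d
  intro h
  have h4 : (cQ (a + 1) * cQ (a + d + 1) - cQ (a + d + 2) * cQ a) * sQ (a + 1) = 0 := by
    linear_combination h
  rcases mul_eq_zero.1 h4 with h5 | h5
  · linarith
  · exact sQ_ne _ h5

theorem not_dvd_BP {k : ℕ} (hk : 3 ≤ k) : ¬ LP (k - 1) ∣ BP k := by
  obtain ⟨m, rfl⟩ : ∃ j, k = j + 2 := ⟨k - 2, by omega⟩
  have e1 : m + 2 - 1 = m + 1 := by omega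
  rw [e1]
  rintro ⟨q, hq⟩
  obtain ⟨ξ, h0, hz, hge⟩ := exists_top (n := m + 1) (by omega)
  have hL : ∀ j, aeval ξ (LP j) = Lg ξ 1 j := fun j => by
    simpa [LP] using map_Lg (aeval ξ : ℚ[X] →ₐ[ℚ] ℝ).toRingHom X 1 j
  have hM : ∀ j, aeval ξ (MP j) = Mg ξ 1 j := fun j => by
    simpa [MP] using map_Mg (aeval ξ : ℚ[X] →ₐ[ℚ] ℝ).toRingHom X 1 j
  have h1 := congrArg (aeval ξ) hq
  rw [BP_reflect, Finset.sum_range_succ] at h1
  simp only [map_add, map_sum, map_mul, hL, hM, hz, zero_mul, add_zero] at h1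
  have h2 := tele hge m le_rfl
  rw [h1, hz] at h2
  simp only [mul_zero, zero_div, add_zero] at h2
  linarith

end Pool.Agent.Lib.MP_55068a_an.Dy
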