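import Mathlib
import Pool.Agent.Lib.MP_55068a_an.Dy.Seg

namespace Pool.Agent.Lib.MP_55068a_an.Dy

open Polynomial

theorem net_ne {Cq Bq Pq : ℚ[X]} (h1 : Pq.natDegree < Bq.natDegree)
    (h2 : Bq.natDegree < Cq.natDegree) :
    net Cq Bq Pq ≠ 0 ∧ (net Cq Bq Pq).natDegree = Cq.natDegree := by
  have hi : Function.Injective (algebraMap ℚ P2) := (algebraMap ℚ P2).injective
  have hC := natDegree_map_eq_of_injective hi Cq
  have hP : (C (MvPolynomial.X 1) * Pq.map (algebraMap ℚ P2)).natDegree ≤ Pq.natDegree :=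
    (natDegree_C_mul_le _ _).trans natDegree_map_le
  have hB : (C (MvPolynomial.X 0) * Bq.map (algebraMap ℚ P2)).natDegree ≤ Bq.natDegree :=
    (natDegree_C_mul_le _ _).trans natDegree_map_le
  have h3 : (Cq.map (algebraMap ℚ P2) + C (MvPolynomial.X 1) * Pq.map (algebraMap ℚ P2)).natDegree
      = Cq.natDegree := by
    rw [natDegree_add_eq_left_of_natDegree_lt (by omega), hC]
  have h4 : (net Cq Bq Pq).natDegree = Cq.natDegree := by
    rw [net, natDegree_sub_eq_left_of_natDegree_lt (by omega), h3]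
  refine ⟨fun h => ?_, h4⟩
  rw [h, natDegree_zero] at h4
  omega

namespace H14

/-- passage to complex coefficients -/
noncomputable def cx (p : ℚ[X]) : ℂ[X] := p.map (algebraMap ℚ ℂ)

theorem cx_deg (p : ℚ[X]) : (cx p).natDegree = p.natDegree :=
  natDegree_map_eq_of_injective (algebraMap ℚ ℂ).injective p

theorem cx_lc {p : ℚ[X]} (hp : p ≠ 0) : (cx p).coeff p.natDegree ≠ 0 := by
  rw [cx, coeff_map, _root_.map_ne_zero]
  exact leadingCoeff_ne_zero.2 hp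

theorem net_eval (φ : P2 →+* Ot) (Cq Bq Pq : ℚ[X]) (y : Ot) :
    (net Cq Bq Pq).eval₂ φ y = (cx Cq).eval₂ cT y + φ (MvPolynomial.X 1) * (cx Pq).eval₂ cT y
      - φ (MvPolynomial.X 0) * (cx Bq).eval₂ cT y := by
  have e : φ.comp (algebraMap ℚ P2) = cT.comp (algebraMap ℚ ℂ) := Subsingleton.elim _ _
  simp only [net, cx, eval₂_sub, eval₂_add, eval₂_mul, eval₂_C, eval₂_map, e]

theorem hm_res0 {p : ℂ[X]} {D : ℕ} (hD : p.natDegree ≤ D) :
    (hm p D 0).map PowerSeries.constantCoeff = p := by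
  rw [hm, Polynomial.map_sum]
  conv_rhs => rw [p.as_sum_range_C_mul_X_pow' (Nat.lt_succ_of_le hD)]
  refine Finset.sum_congr rfl fun j _ => ?_
  simp

/-- the place `a ↦ a₀ / t ^ u`, `b ↦ 1 / t ^ v` -/
noncomputable def pl (a : ℂ) (u v : ℕ) : P2 →+* Ot :=
  (MvPolynomial.aeval ![cT a * (tt ^ u)⁻¹, (tt ^ v)⁻¹] : P2 →ₐ[ℚ] Ot).toRingHom

theorem pl_zero (a : ℂ) (u v : ℕ) : pl a u v (MvPolynomial.X 0) = cT a * (tt ^ u)⁻¹ :=
  MvPolynomial.aeval_X _ _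

theorem pl_one (a : ℂ) (u v : ℕ) : pl a u v (MvPolynomial.X 1) = (tt ^ v)⁻¹ :=
  MvPolynomial.aeval_X _ _

theorem pl_inj {a : ℂ} (ha : Transcendental ℚ a) (u : ℕ) {v : ℕ} (hv : 0 < v) :
    Function.Injective (pl a u v) := by
  have h := indep_mono (κ := ℂ) ha (p := 1) (q := 0) (x := u) (y := v) (by omega)
    (α := cT a * (tt ^ u)⁻¹) (β := (tt ^ v)⁻¹)
    (by
      change cT a * (tt ^ u)⁻¹ * tt ^ u = cT (a ^ 1)
      rw [inv_mul_cancel_right₀ (pow_ne_zero u tt_ne), pow_one])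
    (by
      change (tt ^ v)⁻¹ * tt ^ v = cT (a ^ 0)
      rw [inv_mul_cancel₀ (pow_ne_zero v tt_ne), pow_zero, map_one])
  exact h

theorem resc_inv {σ : RingAut Ot} {ζ : ℂ} (hσ : Resc σ ζ) (w : ℕ) :
    σ (tt ^ w)⁻¹ = cT (ζ⁻¹ ^ w) * (tt ^ w)⁻¹ := by
  rw [map_inv₀, map_pow, hσ.tt, mul_pow, mul_inv, map_pow, map_inv₀, inv_pow]

theorem pl_fix {σ : RingAut Ot} {ζ : ℂ} (hσ : Resc σ ζ) (a : ℂ) {u v : ℕ} (hu : ζ ^ u = 1)
    (hv : ζ ^ v = 1) (r : P2) : σ (pl a u v r) = pl a u v r := by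
  have e : (σ : Ot →+* Ot).comp (pl a u v) = pl a u v := by
    refine MvPolynomial.ringHom_ext' (Subsingleton.elim _ _) fun i => ?_
    change σ (pl a u v (MvPolynomial.X i)) = _
    fin_cases i
    · change σ (pl a u v (MvPolynomial.X 0)) = pl a u v (MvPolynomial.X 0)
      rw [pl_zero, map_mul, hσ.const, resc_inv hσ, inv_pow, hu, inv_one, map_one, one_mul]
    · change σ (pl a u v (MvPolynomial.X 1)) = pl a u v (MvPolynomial.X 1)
      rw [pl_one, resc_inv hσ, inv_pow, hv, inv_one, map_one, one_mul]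
  exact DFunLike.congr_fun e r

/-- the equation of the segment of slope `w` -/
noncomputable def sg (Cq Bq Pq : ℚ[X]) (a : ℂ) (w e1 e2 e3 : ℕ) : PS[X] :=
  C (PowerSeries.X ^ e1) * hm (cx Cq) Cq.natDegree w
    + C (PowerSeries.X ^ e2) * hm (cx Pq) Pq.natDegree w
    - C (PowerSeries.C a * PowerSeries.X ^ e3) * hm (cx Bq) Bq.natDegree w

theorem alg {K : Type} [CommRing K] {m u v e1 e2 e3 d1 d2 d3 a x y z : K} (f1 : m = e1 * d1)
    (f2 : m * v = e2 * d2) (f3 : m * u = e3 * d3) :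
    e1 * (d1 * x) + e2 * (d2 * y) - a * e3 * (d3 * z) = m * (x + v * y - a * u * z) := by
  linear_combination (-x) * f1 - y * f2 + a * z * f3

theorem sg_mem (Cq Bq Pq : ℚ[X]) (a : ℂ) {u v w e1 e2 e3 m : ℕ}
    (h1 : e1 + w * Cq.natDegree = m) (h2 : e2 + w * Pq.natDegree + v = m)
    (h3 : e3 + w * Bq.natDegree + u = m) (Z : PS) :
    (tt ^ w)⁻¹ * io PS Z ∈ Rt (pl a u v) (net Cq Bq Pq) ↔
      (sg Cq Bq Pq a w e1 e2 e3).eval Z = 0 := by
  have e : io PS ((sg Cq Bq Pq a w e1 e2 e3).eval Z)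
      = tt ^ m * (net Cq Bq Pq).eval₂ (pl a u v) ((tt ^ w)⁻¹ * io PS Z) := by
    have hu : tt ^ u ≠ 0 := pow_ne_zero u tt_ne
    have hv : tt ^ v ≠ 0 := pow_ne_zero v tt_ne
    have f1 : tt ^ m = tt ^ e1 * tt ^ (w * Cq.natDegree) := by rw [← h1, pow_add]
    have f2 : tt ^ m * (tt ^ v)⁻¹ = tt ^ e2 * tt ^ (w * Pq.natDegree) := by
      rw [← h2, pow_add, pow_add, mul_inv_cancel_right₀ hv]
    have f3 : tt ^ m * (tt ^ u)⁻¹ = tt ^ e3 * tt ^ (w * Bq.natDegree) := by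
      rw [← h3, pow_add, pow_add, mul_inv_cancel_right₀ hu]
    have hX : io PS PowerSeries.X = tt := rfl
    have hC : io PS (PowerSeries.C a) = cT a := rfl
    rw [sg, eval_sub, eval_add, eval_mul, eval_mul, eval_mul, eval_C, eval_C, eval_C, map_sub,
      map_add, map_mul, map_mul, map_mul, map_mul, map_pow, map_pow, map_pow, hX, hC,
      hm_eval (cx_deg Cq).le, hm_eval (cx_deg Pq).le, hm_eval (cx_deg Bq).le, net_eval, pl_zero,
      pl_one]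
    exact alg f1 f2 f3
  rw [← map_eq_zero_iff (io PS) (io_inj PS), e, mul_eq_zero, or_iff_right (pow_ne_zero m tt_ne)]
  rfl

theorem sg_res (Cq Bq Pq : ℚ[X]) (a : ℂ) (w e1 e2 e3 : ℕ) :
    (sg Cq Bq Pq a w e1 e2 e3).map PowerSeries.constantCoeff
      = C (0 ^ e1) * (hm (cx Cq) Cq.natDegree w).map PowerSeries.constantCoeff
        + C (0 ^ e2) * (hm (cx Pq) Pq.natDegree w).map PowerSeries.constantCoeff
        - C (a * 0 ^ e3) * (hm (cx Bq) Bq.natDegree w).map PowerSeries.constantCoeff := by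
  simp only [sg, Polynomial.map_sub, Polynomial.map_add, Polynomial.map_mul, map_C, map_mul,
    map_pow, PowerSeries.constantCoeff_X, PowerSeries.constantCoeff_C, Polynomial.map_pow]

/-- the roots of valuation zero -/
theorem seg0 {Cq Bq Pq : ℚ[X]} (hP : Pq.Separable) {a : ℂ} {u v : ℕ} (huv : u < v)
    {σ : RingAut Ot} {ζ : ℂ} (hσ : Resc σ ζ)
    (hX : ∀ x ∈ Rt (pl a u v) (net Cq Bq Pq), σ x ∈ Rt (pl a u v) (net Cq Bq Pq)) :
    ∃ D ⊆ Rt (pl a u v) (net Cq Bq Pq), D.ncard = Pq.natDegree ∧ (∀ x ∈ D, σ x = x) ∧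
      ∀ x ∈ D, ∃ Z : PS, x = (tt ^ 0)⁻¹ * io PS Z := by
  classical
  have hs : (cx Pq).Separable := hP.map
  have hres : (sg Cq Bq Pq a 0 v 0 (v - u)).map PowerSeries.constantCoeff = cx Pq := by
    rw [sg_res, hm_res0 (cx_deg Pq).le, zero_pow (by omega : v ≠ 0),
      zero_pow (by omega : v - u ≠ 0)]
    simp
  obtain ⟨D, hD, hn, hfix, hZ⟩ := seg_sep hσ hX (G := sg Cq Bq Pq a 0 v 0 (v - u))
    (fun Z => by
      rw [← sg_mem Cq Bq Pq a (m := v) (u := u) (v := v) (by omega) (by omega) (by omega)]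
      simp)
    (S := ((cx Pq).roots.toFinset : Set ℂ)) (fun z hz => by
      rw [hres]
      rw [Finset.mem_coe, Multiset.mem_toFinset, mem_roots hs.ne_zero] at hz
      refine ⟨hz, ?_⟩
      have := hs.aeval_derivative_ne_zero (x := z) (by simpa using hz)
      simpa using this)
  refine ⟨D, hD, ?_, hfix, fun x hx => ?_⟩
  · rw [hn, Set.ncard_coe_finset, Multiset.toFinset_card_of_nodup (nodup_roots hs),
      IsAlgClosed.card_roots_eq_natDegree, cx_deg]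
  · obtain ⟨Z, -, e⟩ := hZ x hx
    exact ⟨Z, by simp [e]⟩

/-- the roots on a segment with a binomial residue equation -/
theorem segw {Xs : Set Ot} {σ : RingAut Ot} {ζ : ℂ} (hσ : Resc σ ζ) (hX : ∀ x ∈ Xs, σ x ∈ Xs)
    {w : ℕ} {G : PS[X]} (hG : ∀ Z : PS, (tt ^ w)⁻¹ * io PS Z ∈ Xs ↔ G.eval Z = 0)
    {c1 c2 : ℂ} {i h : ℕ} (h1 : c1 ≠ 0) (h2 : c2 ≠ 0) (hh : 0 < h)
    (hres : G.map PowerSeries.constantCoeff = C c1 * X ^ (i + h) - C c2 * X ^ i)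
    (hη : (ζ⁻¹ ^ w) ^ h = 1) :
    ∃ D ⊆ Xs, D.ncard = h ∧
      (∀ x ∈ D, ∃ Z : PS, PowerSeries.constantCoeff Z ≠ 0 ∧ x = (tt ^ w)⁻¹ * io PS Z) ∧
      (ζ⁻¹ ^ w = 1 → ∀ x ∈ D, σ x = x) ∧
      (IsPrimitiveRoot (ζ⁻¹ ^ w) h → ∀ x ∈ D, ∀ y ∈ D, ∃ n : ℕ, σ ^ n • x = y) := by
  obtain ⟨D, hD, hn, hZ, -, hfix, htr⟩ := seg_binom hσ hX (c0 := 0) (c := (tt ^ w)⁻¹)
    (η := ζ⁻¹ ^ w) (map_zero σ) (inv_ne_zero (pow_ne_zero w tt_ne)) (resc_inv hσ w) (G := G)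
    (fun Z => by rw [zero_add]; exact hG Z) h1 h2 hh hres hη
  refine ⟨D, hD, hn, fun x hx => ?_, hfix, htr⟩
  obtain ⟨Z, e1, e2⟩ := hZ x hx
  exact ⟨Z, e1, by rw [e2, zero_add]⟩

theorem disj {D D' : Set Ot} {w w' : ℕ} (h : w < w')
    (hD : ∀ x ∈ D, ∃ Z : PS, x = (tt ^ w)⁻¹ * io PS Z)
    (hD' : ∀ x ∈ D', ∃ Z : PS, PowerSeries.constantCoeff Z ≠ 0 ∧ x = (tt ^ w')⁻¹ * io PS Z) :
    Disjoint D D' := by
  rw [Set.disjoint_left]
  intro x hx hx'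
  obtain ⟨Z, e⟩ := hD x hx
  obtain ⟨Z', hZ', e'⟩ := hD' x hx'
  exact val_ne h Z hZ' (e.symm.trans e')

theorem place1 {Cq Bq Pq : ℚ[X]} (hP : Pq.Separable) (h1 : Pq.natDegree < Bq.natDegree)
    (h2 : Bq.natDegree < Cq.natDegree) :
    (Rt (io P2) (net Cq Bq Pq)).ncard = Cq.natDegree ∧
    ∃ g : Gl P2, PureCyc g (Rt (io P2) (net Cq Bq Pq)) (Cq.natDegree - Pq.natDegree) := by
  obtain ⟨a, -, ha⟩ := exists_transc (K := ℂ) (S := ℚ) (algebraMap ℚ ℂ).injective isOpen_univ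
    Set.univ_nonempty
  obtain ⟨hne, hdeg⟩ := net_ne h1 h2
  obtain ⟨c, hc⟩ : ∃ c, Cq.natDegree = Pq.natDegree + c := ⟨Cq.natDegree - Pq.natDegree, by omega⟩
  have hc0 : 0 < c := by omega
  have hζ := Complex.isPrimitiveRoot_exp c hc0.ne'
  generalize Complex.exp _ = ζ at hζ
  obtain ⟨σ, hσ⟩ := exists_resc (hζ.ne_zero hc0.ne')
  have hinj := pl_inj ha 0 hc0
  have hfix := pl_fix hσ a (pow_zero ζ) hζ.pow_eq_one
  have hX := Rt_inv (net Cq Bq Pq) σ hfix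
  have hC : Cq ≠ 0 := by rintro rfl; simp at h2
  obtain ⟨D0, hD0, n0, f0, z0⟩ := seg0 hP hc0 hσ hX
  obtain ⟨D1, hD1, n1, z1, -, t1⟩ := segw hσ hX (w := 1)
    (sg_mem Cq Bq Pq a (e1 := 0) (e2 := 0) (e3 := Cq.natDegree - Bq.natDegree)
      (m := Cq.natDegree) (by omega) (by omega) (by omega))
    (cx_lc hC) (neg_ne_zero.2 (cx_lc hP.ne_zero)) hc0 (i := Pq.natDegree)
    (by
      rw [sg_res, hm_res _ _ one_pos, hm_res _ _ one_pos, zero_pow (by omega : _ - _ ≠ 0), ← hc]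
      simp)
    (by rw [pow_one, inv_pow, hζ.pow_eq_one, inv_one])
  obtain ⟨hN, hcyc⟩ := pure_of_cover (g := σ) (Rt_finite hinj hne)
    ((Rt_ncard_le hinj hne).trans hdeg.le) hD1 hD0 (disj one_pos z0 z1).symm (by omega) f0
    (t1 (by rw [pow_one]; exact hζ.inv))
  obtain ⟨e, τ, hτ⟩ := place_pure hinj hne hfix hcyc
  exact ⟨e.trans hN, τ, by rwa [show Cq.natDegree - Pq.natDegree = D1.ncard by omega]⟩

theorem place2 {Cq Bq Pq : ℚ[X]} (hP : Pq.Separable) (h1 : Pq.natDegree < Bq.natDegree)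
    (h2 : Bq.natDegree < Cq.natDegree) :
    ∃ g : Gl P2, PureCyc g (Rt (io P2) (net Cq Bq Pq)) (Bq.natDegree - Pq.natDegree) := by
  obtain ⟨a, -, ha⟩ := exists_transc (K := ℂ) (S := ℚ) (algebraMap ℚ ℂ).injective isOpen_univ
    Set.univ_nonempty
  have ha0 : a ≠ 0 := by
    rintro rfl
    exact ha isAlgebraic_zero
  obtain ⟨hne, hdeg⟩ := net_ne h1 h2
  obtain ⟨k, hk⟩ : ∃ k, Bq.natDegree = Pq.natDegree + (k + 1) :=
    ⟨Bq.natDegree - Pq.natDegree - 1, by omega⟩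
  obtain ⟨h, hh⟩ : ∃ h, Cq.natDegree = Bq.natDegree + (h + 1) :=
    ⟨Cq.natDegree - Bq.natDegree - 1, by omega⟩
  have hζ := Complex.isPrimitiveRoot_exp (k + 1) k.succ_ne_zero
  generalize Complex.exp _ = ζ at hζ
  obtain ⟨σ, hσ⟩ := exists_resc (hζ.ne_zero k.succ_ne_zero)
  have hinj := pl_inj ha ((k + 1) * (2 * (h + 1))) (v := (k + 1) * (2 * (h + 1) + 1))
    (by positivity)
  have hfix := pl_fix hσ a (u := (k + 1) * (2 * (h + 1))) (v := (k + 1) * (2 * (h + 1) + 1))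
    (by rw [pow_mul, hζ.pow_eq_one, one_pow]) (by rw [pow_mul, hζ.pow_eq_one, one_pow])
  have hX := Rt_inv (net Cq Bq Pq) σ hfix
  have hC : Cq ≠ 0 := by rintro rfl; simp at h2
  have hB : Bq ≠ 0 := by rintro rfl; simp at h1
  obtain ⟨D0, hD0, n0, f0, z0⟩ := seg0 hP (by nlinarith) hσ hX
  obtain ⟨D1, hD1, n1, z1, -, t1⟩ := segw hσ hX (w := 1)
    (sg_mem Cq Bq Pq a (e1 := (2 * k + 1) * h + 2 * k + 1) (e2 := 0) (e3 := 0)
      (m := (k + 1) * (2 * (h + 1)) + Bq.natDegree) (by rw [hh]; ring) (by rw [hk]; ring)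
      (by ring))
    (neg_ne_zero.2 (mul_ne_zero ha0 (cx_lc hB))) (neg_ne_zero.2 (cx_lc hP.ne_zero)) k.succ_pos
    (i := Pq.natDegree)
    (by
      rw [sg_res, hm_res _ _ one_pos, hm_res _ _ one_pos, hm_res _ _ one_pos,
        zero_pow (Nat.succ_ne_zero _), ← hk]
      simp only [pow_zero, map_zero, map_one, map_neg, map_mul, mul_one]
      ring)
    (by rw [pow_one, inv_pow, hζ.pow_eq_one, inv_one])
  have hη : ζ⁻¹ ^ ((k + 1) * 2) = 1 := by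
    rw [pow_mul, inv_pow, hζ.pow_eq_one, inv_one, one_pow]
  have hw : 0 < (k + 1) * 2 := by omega
  obtain ⟨D2, hD2, n2, z2, f2, -⟩ := segw hσ hX (w := (k + 1) * 2)
    (sg_mem Cq Bq Pq a (e1 := 0) (e2 := 2 * k * k + 3 * k + 1) (e3 := 0)
      (m := (k + 1) * 2 * Cq.natDegree) (by ring) (by rw [hh, hk]; ring) (by rw [hh]; ring))
    (cx_lc hC) (mul_ne_zero ha0 (cx_lc hB)) h.succ_pos (i := Bq.natDegree)
    (by
      rw [sg_res, hm_res _ _ hw, hm_res _ _ hw, hm_res _ _ hw, zero_pow (Nat.succ_ne_zero _), ← hh]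
      simp only [pow_zero, map_zero, map_one, map_mul, mul_one]
      ring)
    (by rw [hη, one_pow])
  have hfin := Rt_finite hinj hne
  have d02 : Disjoint D0 D2 := disj hw z0 z2
  have d12 : Disjoint D1 D2 :=
    disj (by omega) (fun x hx => (z1 x hx).imp fun _ e => e.2) z2
  have n02 := Set.ncard_union_eq d02 (hfin.subset hD0) (hfin.subset hD2)
  obtain ⟨-, hcyc⟩ := pure_of_cover (g := σ) hfin ((Rt_ncard_le hinj hne).trans hdeg.le) hD1
    (Set.union_subset hD0 hD2) (Set.disjoint_union_right.2 ⟨(disj one_pos z0 z1).symm, d12⟩)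
    (by omega) (fun x hx => hx.elim (f0 x) (f2 hη x)) (t1 (by rw [pow_one]; exact hζ.inv))
  obtain ⟨-, τ, hτ⟩ := place_pure hinj hne hfix hcyc
  exact ⟨τ, by rwa [show Bq.natDegree - Pq.natDegree = D1.ncard by omega]⟩

end H14

theorem net3 {Cq Bq Pq : ℚ[X]} (hP : Pq.Separable) (h1 : Pq.natDegree < Bq.natDegree)
    (h2 : Bq.natDegree < Cq.natDegree) :
    (Rt (io P2) (net Cq Bq Pq)).ncard = Cq.natDegree ∧
    (∃ g : Gl P2, PureCyc g (Rt (io P2) (net Cq Bq Pq)) (Cq.natDegree - Pq.natDegree)) ∧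
    ∃ g : Gl P2, PureCyc g (Rt (io P2) (net Cq Bq Pq)) (Bq.natDegree - Pq.natDegree) :=
  ⟨(H14.place1 hP h1 h2).1, (H14.place1 hP h1 h2).2, H14.place2 hP h1 h2⟩

end Pool.Agent.Lib.MP_55068a_an.Dy
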