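import Mathlib
import Pool.Agent.Lib.MP_55068a_an.Dy.Net3
import Pool.Agent.Lib.MP_55068a_an.Dy.Leg
import Pool.Agent.Lib.MP_55068a_an.Dy.BadNet

namespace Pool.Agent.Lib.MP_55068a_an.Dy

open Polynomial

namespace T3Aux

section Ring

variable {A : Type} [CommRing A] [Algebra ℚ A]

theorem ev_LP (y : A) (j : ℕ) : aeval y (LP j) = Lg y 1 j := by
  simpa [LP] using map_Lg (aeval y : ℚ[X] →ₐ[ℚ] A).toRingHom X 1 j

theorem ev_MP (y : A) (j : ℕ) : aeval y (MP j) = Mg y 1 j := by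
  simpa [MP] using map_Mg (aeval y : ℚ[X] →ₐ[ℚ] A).toRingHom X 1 j

theorem aR1_eq (y u : A) {k l : ℕ} (hk : 0 < k) (hkl : 2 * k < l) :
    aR1 y 1 u k l
      = -(aeval y (LP (l - 1)) + algebraMap ℚ A (1 / 2) * u * aeval y (LP (k - 1))) := by
  have h1 : l - k ≤ l - 1 := by omega
  have h2 : ¬ 2 * (l - k) ≤ l - 1 := by omega
  have h3 : l - 1 - (l - k) = k - 1 := by omega
  rw [aR1, Sg, sh, sh, if_pos h1, if_neg h2, h3, ev_LP, ev_LP, mul_zero, sub_zero]

theorem bR1_eq (y u : A) {k l : ℕ} (hkl : 2 * k < l) :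
    bR1 y 1 u k l = -(aeval y (DP k l) + algebraMap ℚ A (1 / 2) * u * aeval y (BP k)) := by
  have hB : aeval y (BP k) = ∑ i ∈ Finset.range (k + 1),
      sh (Lg y 1) (l - 1 - i) (l - k) * Mg y 1 (k - i) := by
    have h2 : ¬ l - k ≤ l - 1 - k := by omega
    rw [Finset.sum_range_succ, sh, if_neg h2, zero_mul, add_zero, BP, map_sum]
    refine Finset.sum_congr rfl fun i hi => ?_
    have := Finset.mem_range.1 hi
    have h1 : l - k ≤ l - 1 - i := by omega
    have h3 : l - 1 - i - (l - k) = k - 1 - i := by omega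
    rw [sh, if_pos h1, h3, map_mul, ev_LP, ev_MP]
  rw [bR1, hB, DP, map_sum, Finset.mul_sum, ← Finset.sum_add_distrib]
  congr 1
  refine Finset.sum_congr rfl fun i hi => ?_
  have := Finset.mem_range.1 hi
  have h2 : ¬ 2 * (l - k) ≤ l - 1 - i := by omega
  have h4 : ¬ l - k ≤ k - i := by omega
  rw [Sg, Tg, map_mul, ev_LP, ev_MP, sh.eq_1 (Lg y 1) (l - 1 - i) (2 * (l - k)), if_neg h2,
    sh.eq_1 (Mg y 1) (k - i) (l - k), if_neg h4]
  ring

end Ring

theorem ev_map {Ω : Type} [Field Ω] [Algebra ℚ Ω] (φ : P2 →+* Ω) (Y : Ω) (q : ℚ[X]) :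
    (q.map (algebraMap ℚ P2)).eval₂ φ Y = aeval Y q := by
  rw [eval₂_map, aeval_def, RingHom.ext_rat (φ.comp (algebraMap ℚ P2)) (algebraMap ℚ Ω)]

theorem alg_ev {Ω : Type} [Field Ω] [Algebra ℚ Ω] {Y : Ω} (hY : IsAlgebraic ℚ Y) (q : ℚ[X]) :
    IsAlgebraic ℚ (aeval Y q) := by
  have h : IsIntegral ℚ Y := hY.isIntegral
  refine IsIntegral.isAlgebraic ?_
  exact IsIntegral.of_mem_of_fg _ h.fg_adjoin_singleton _ (aeval_mem_adjoin_singleton ℚ Y)

theorem split (P B : ℚ[X]) (hP : P ≠ 0) :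
    ∃ g P1 B1 : ℚ[X], g ≠ 0 ∧ P = g * P1 ∧ B = g * B1 ∧ IsCoprime P1 B1 := by
  classical
  obtain ⟨P1, h1⟩ := EuclideanDomain.gcd_dvd_left P B
  obtain ⟨B1, h2⟩ := EuclideanDomain.gcd_dvd_right P B
  have hg : EuclideanDomain.gcd P B ≠ 0 := fun h => hP (by rw [h1, h, zero_mul])
  refine ⟨_, P1, B1, hg, h1, h2, EuclideanDomain.gcdA P B, EuclideanDomain.gcdB P B, ?_⟩
  apply mul_left_cancel₀ hg
  have h3 := EuclideanDomain.gcd_eq_gcd_ab P B
  linear_combination -h3 - EuclideanDomain.gcdA P B * h1 - EuclideanDomain.gcdB P B * h2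

theorem lift_point {Ω : Type} [Field Ω] [Algebra ℚ Ω] {k l : ℕ} (hk : 0 < k) (hkl : 2 * k < l)
    {g P1 B1 : ℚ[X]} (hP : LP (k - 1) = g * P1) (hB : BP k = g * B1) (hc : IsCoprime P1 B1)
    {a b Y : Ω} (hab : AlgebraicIndependent ℚ ![a, b])
    (hY : aeval Y (DP k l * P1 - LP (l - 1) * B1) + b * aeval Y P1 - a * aeval Y B1 = 0) :
    aeval Y (LP (k - 1)) ≠ 0 ∧ ∃ f : T 1 →+* Ω, f (a1 k l) = a ∧ f (b1 k l) = b ∧
      f (xT 1 0) = Y ∧ f (xT 1 1) * aeval Y (LP (k - 1)) = -2 * (a + aeval Y (LP (l - 1))) := by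
  have hD : aeval Y (LP (k - 1)) ≠ 0 := by
    intro h
    have hal : IsAlgebraic ℚ Y := ⟨_, LP_ne _, h⟩
    obtain ⟨h1, h2⟩ := lin_indep hab (alg_ev hal (DP k l * P1 - LP (l - 1) * B1))
      (alg_ev hal B1).neg (alg_ev hal P1) (by linear_combination hY)
    obtain ⟨s, t, hst⟩ := hc
    have := congrArg (aeval Y) hst
    rw [map_add, map_mul, map_mul, h2, neg_eq_zero.1 h1, map_one] at this
    simp at this
  refine ⟨hD, ?_⟩
  set V : Ω := -2 * (a + aeval Y (LP (l - 1))) / aeval Y (LP (k - 1)) with hV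
  have hVD : V * aeval Y (LP (k - 1)) = -2 * (a + aeval Y (LP (l - 1))) :=
    div_mul_cancel₀ _ hD
  have h2 : algebraMap ℚ Ω (1 / 2) * 2 = 1 := by
    rw [← map_ofNat (algebraMap ℚ Ω) 2, ← map_mul]
    norm_num
  have hx0 : evT 1 ![Y, V] (one_ne _) (xT 1 0) = Y := evT_x _ _ _ _
  have hx1 : evT 1 ![Y, V] (one_ne _) (xT 1 1) = V := evT_x _ _ _ _
  refine ⟨evT 1 ![Y, V] (one_ne _), ?_, ?_, hx0, by rw [hx1, hVD]⟩
  · rw [a1, map_aR1, hx0, hx1, map_one, aR1_eq _ _ hk hkl]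
    linear_combination (-algebraMap ℚ Ω (1 / 2)) * hVD + (a + aeval Y (LP (l - 1))) * h2
  · rw [b1, map_bR1, hx0, hx1, map_one, bR1_eq _ _ hkl]
    apply mul_right_cancel₀ hD
    have e1 := congrArg (aeval Y) hP
    have e2 := congrArg (aeval Y) hB
    rw [map_mul] at e1 e2
    rw [map_sub, map_mul, map_mul] at hY
    linear_combination (-algebraMap ℚ Ω (1 / 2) * aeval Y (BP k)) * hVD
      + (a + aeval Y (LP (l - 1))) * aeval Y (BP k) * h2 - aeval Y g * hY
      - (aeval Y (DP k l) + b) * e1 + (a + aeval Y (LP (l - 1))) * e2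

end T3Aux

open T3Aux

theorem bad_T3 {k l : ℕ} (hk : 3 ≤ k) (hkl : 2 * k < l) : Bad (a1 k l) (b1 k l) (xT 1 1) := by
  obtain ⟨g, P1, B1, hg, hP, hB, hc⟩ := split (LP (k - 1)) (BP k) (LP_ne _)
  set C1 : ℚ[X] := DP k l * P1 - LP (l - 1) * B1 with hC1
  have hC : CP k l = g * C1 := by
    rw [CP, hP, hB, hC1]
    ring
  have dP := natDegree_LP (k - 1)
  have dB := natDegree_BP (k := k) (by omega)
  have dC := natDegree_CP (k := k) (l := l) (by omega) (by omega)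
  have hP1 : P1 ≠ 0 := fun h => LP_ne (k - 1) (by rw [hP, h, mul_zero])
  have hB1 : B1 ≠ 0 := fun h => by
    rw [hB, h, mul_zero, natDegree_zero] at dB
    omega
  have hC0 : C1 ≠ 0 := fun h => by
    rw [hC, h, mul_zero, natDegree_zero] at dC
    omega
  rw [hP, natDegree_mul hg hP1] at dP
  rw [hB, natDegree_mul hg hB1] at dB
  rw [hC, natDegree_mul hg hC0] at dC
  have hf : 0 < P1.natDegree := by
    refine Nat.pos_of_ne_zero fun h => not_dvd_BP hk ?_
    have hu : IsUnit P1 := by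
      rw [eq_C_of_natDegree_eq_zero h] at hP1 ⊢
      exact isUnit_C.2 (Ne.isUnit (C_ne_zero.1 hP1))
    rw [hP, hB]
    exact mul_dvd_mul_left g hu.dvd
  have hsep : P1.Separable := by
    have := separable_LP (k - 1)
    rw [hP] at this
    exact this.of_mul_right
  have h1 : P1.natDegree < B1.natDegree := by omega
  have h2 : B1.natDegree < C1.natDegree := by omega
  obtain ⟨hN, ⟨g1, hg1⟩, g2, hg2⟩ := net3 (Cq := C1) hsep h1 h2
  have hinj : Function.Injective (algebraMap ℚ P2) := (algebraMap ℚ P2).injective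
  have dD : ((LP (k - 1)).map (algebraMap ℚ P2)).natDegree = k - 1 := by
    rw [natDegree_map_eq_of_injective hinj, natDegree_LP]
  have dE : (C (-2 * MvPolynomial.X 0 : P2)
      + (C (-2) * LP (l - 1)).map (algebraMap ℚ P2)).natDegree = l - 1 := by
    rw [add_comm, natDegree_add_C, natDegree_map_eq_of_injective hinj,
      natDegree_C_mul (by norm_num), natDegree_LP]
  refine bad_net (y := xT 1 0) (D := (LP (k - 1)).map (algebraMap ℚ P2))
    (E := C (-2 * MvPolynomial.X 0 : P2) + (C (-2) * LP (l - 1)).map (algebraMap ℚ P2))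
    (net_ne h1 h2).1 ?_ (by omega) (by omega) ?_
  · intro Y hY
    have hY' : aeval Y C1 + io P2 (MvPolynomial.X 1) * aeval Y P1
        - io P2 (MvPolynomial.X 0) * aeval Y B1 = 0 := by
      have : (net C1 B1 P1).eval₂ (io P2) Y = 0 := hY
      rwa [net, eval₂_sub, eval₂_add, eval₂_mul, eval₂_mul, eval₂_C, eval₂_C, ev_map, ev_map,
        ev_map] at this
    obtain ⟨hD, f, ha, hb, hy, hv⟩ := lift_point (by omega) hkl hP hB hc indep_io hY'
    rw [ev_map]
    refine ⟨hD, f, ha, hb, hy, ?_⟩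
    rw [hv, eval₂_add, eval₂_C, ev_map, map_mul, map_mul, map_neg, map_ofNat, aeval_C, map_neg,
      map_ofNat]
    ring
  · rintro e M ⟨hM, hNM, hcyc, -, -⟩
    rw [hN] at hNM hcyc
    have c1 := hcyc g1 _ hg1 (by omega)
    have c2 := hcyc g2 _ hg2 (by omega)
    have he : 2 * e ≤ C1.natDegree := by
      rw [hNM, mul_comm]
      exact Nat.mul_le_mul_left e hM
    have hef : e ≤ P1.natDegree := by
      rcases c1 with h | ⟨h, -⟩
      · omega
      · have h3 : e ∣ C1.natDegree := ⟨M, hNM⟩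
        have h4 := Nat.dvd_sub h3 h
        refine Nat.le_of_dvd hf ?_
        rwa [Nat.sub_sub_self (by omega)] at h4
    rcases c2 with h | ⟨-, h⟩
    · omega
    · have h3 := Nat.dvd_sub h (dvd_refl _)
      rw [Nat.sub_sub_self (by omega)] at h3
      have := Nat.le_of_dvd (by omega) h3
      omega

end Pool.Agent.Lib.MP_55068a_an.Dy
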