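import Mathlib
import Pool.Agent.Lib.MP_55068a_an.Dy.Ser

namespace Pool.Agent.Lib.MP_55068a_an.Dy

open Polynomial

namespace T4Aux

theorem pQ_zero : pQ 0 = 1 := by simp [pQ]

theorem pQ_succ (j : ℕ) : ((j : ℚ) + 1) * pQ (j + 1) = (1 / 2 - j) * pQ j := by
  have h1 := Ring.descPochhammer_eq_factorial_smul_choose (1 / 2 : ℚ) (j + 1)
  have h2 := Ring.descPochhammer_eq_factorial_smul_choose (1 / 2 : ℚ) j
  rw [descPochhammer_succ_right, smeval_mul, h2, smeval_sub, smeval_X, smeval_natCast] at h1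
  simp only [nsmul_eq_mul, Nat.factorial_succ, Nat.cast_mul, Nat.cast_add, Nat.cast_one, pow_one,
    pow_zero, mul_one] at h1
  have hf : (j.factorial : ℚ) ≠ 0 := by exact_mod_cast j.factorial_ne_zero
  apply mul_left_cancel₀ hf
  unfold pQ
  linear_combination -h1

theorem pQ_central (i : ℕ) :
    ((i : ℚ) + 1) * pQ (i + 1) * 2 ^ (2 * i + 1) = (-1) ^ i * (i.centralBinom : ℚ) := by
  induction i with
  | zero => have := pQ_succ 0; rw [pQ_zero] at this; simp at this ⊢; linarith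
  | succ i ih =>
    have h1 := pQ_succ (i + 1)
    have h2 : ((i : ℚ) + 1) * ((i + 1).centralBinom : ℚ) = 2 * (2 * i + 1) * i.centralBinom := by
      exact_mod_cast Nat.succ_mul_centralBinom_succ i
    have hi : ((i : ℚ) + 1) ≠ 0 := by positivity
    apply mul_left_cancel₀ hi
    have e : (2 : ℚ) ^ (2 * (i + 1) + 1) = 4 * 2 ^ (2 * i + 1) := by ring
    rw [e, pow_succ (-1 : ℚ) i]
    push_cast at h1 ⊢
    linear_combination (((i : ℚ) + 1) * 4 * 2 ^ (2 * i + 1)) * h1 + (-1) ^ i * h2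
      - 2 * (2 * i + 1) * ih

theorem pQ_formula (i : ℕ) : (2 * ((i + 1 : ℕ) : ℚ) * pQ (i + 1) ^ 2) * 2 ^ (4 * i + 1)
    = (i.centralBinom : ℚ) * (catalan i : ℚ) := by
  have h1 := pQ_central i
  have h2 : ((i : ℚ) + 1) * (catalan i : ℚ) = i.centralBinom := by
    exact_mod_cast succ_mul_catalan_eq_centralBinom i
  have hi : ((i : ℚ) + 1) ≠ 0 := by positivity
  have h3 : ((-1 : ℚ) ^ i) ^ 2 = 1 := by rw [← pow_mul, mul_comm, pow_mul]; simp
  apply mul_left_cancel₀ hi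
  have e : (2 : ℚ) * 2 ^ (4 * i + 1) = (2 ^ (2 * i + 1)) ^ 2 := by ring
  have h4 : (((i : ℚ) + 1) * pQ (i + 1) * 2 ^ (2 * i + 1)) ^ 2 = (i.centralBinom : ℚ) ^ 2 := by
    rw [h1, mul_pow, h3, one_mul]
  push_cast
  linear_combination h4 - (i.centralBinom : ℚ) * h2
    + ((i : ℚ) + 1) ^ 2 * pQ (i + 1) ^ 2 * e

theorem norm_two {q : ℕ} [hp : Fact q.Prime] (hq : q ≠ 2) : ‖(2 : ℚ_[q])‖ = 1 := by
  have : ‖((2 : ℕ) : ℚ_[q])‖ = 1 :=
    Padic.norm_natCast_eq_one_iff.2 ((Nat.coprime_primes hp.out Nat.prime_two).2 hq)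
  simpa using this

theorem norm_formula {q : ℕ} [Fact q.Prime] (hq : q ≠ 2) (i : ℕ) :
    ‖((2 * ((i + 1 : ℕ) : ℚ) * pQ (i + 1) ^ 2 : ℚ) : ℚ_[q])‖
      = ‖(i.centralBinom : ℚ_[q])‖ * ‖(catalan i : ℚ_[q])‖ := by
  have h := congrArg (fun x : ℚ => ‖(x : ℚ_[q])‖) (pQ_formula i)
  simp only [Rat.cast_mul (2 * ((i + 1 : ℕ) : ℚ) * pQ (i + 1) ^ 2), Rat.cast_mul
    (i.centralBinom : ℚ), norm_mul, Rat.cast_natCast] at h
  rw [← h, Rat.cast_pow (2 : ℚ), norm_pow, Rat.cast_ofNat, norm_two hq, one_pow, mul_one]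

theorem cast_pQ (j : ℕ) : algebraMap ℚ ℝ (pQ j) = Ring.choose (1 / 2 : ℝ) j := by
  rw [pQ, Ring.map_choose]; simp

theorem deriv_hFun (k l : ℕ) (a u : ℝ) : deriv (hFun k l a) u = bMain a u k l := by
  have h1 : ∀ j : ℕ, HasDerivAt (fun u : ℝ => (Ring.choose (1 / 2 : ℝ) j * u ^ j) ^ 2)
      (algebraMap ℚ ℝ (2 * j * pQ j ^ 2) * u ^ (2 * j - 1)) u := by
    intro j
    have e : (fun u : ℝ => (Ring.choose (1 / 2 : ℝ) j * u ^ j) ^ 2)
        = fun u => Ring.choose (1 / 2 : ℝ) j ^ 2 * u ^ (2 * j) := by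
      ext u; ring
    rw [e]
    refine ((hasDerivAt_pow (2 * j) u).const_mul (Ring.choose (1 / 2 : ℝ) j ^ 2)).congr_deriv ?_
    rw [map_mul, map_mul, map_pow, cast_pQ]
    simp; ring
  have h2 := HasDerivAt.fun_sum (u := (Finset.range l).filter (fun j => (l - k) * j < l))
    (fun j _ => h1 j)
  apply HasDerivAt.deriv
  unfold hFun bMain
  split_ifs with hd
  · refine (h2.add ?_).sub_const _
    refine (((hasDerivAt_pow (l / (l - k)) u).const_mul
      (Ring.choose (1 / 2 : ℝ) (l / (l - k)))).const_mul (2 * a)).congr_deriv ?_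
    rw [map_mul, map_mul, cast_pQ]
    simp; ring
  · simpa using h2

/-- the function `hFun` in any algebra -/
noncomputable def hA {A : Type} [CommRing A] [Algebra ℚ A] (a u : A) (k l : ℕ) : A :=
  ∑ j ∈ (Finset.range l).filter (fun j => (l - k) * j < l),
      (algebraMap ℚ A (pQ j) * u ^ j) ^ 2
    + (if (l - k) ∣ l then 2 * a * (algebraMap ℚ A (pQ (l / (l - k))) * u ^ (l / (l - k)))
        else 0)
    - a ^ 2

theorem map_hA {A : Type} [CommRing A] [Algebra ℚ A] (φ : A →+* ℝ) (a u : A) (k l : ℕ) :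
    φ (hA a u k l) = hFun k l (φ a) (φ u) := by
  unfold hA hFun
  simp only [map_sub, map_add, map_sum, map_pow, map_mul, RingHom.map_rat_algebraMap, cast_pQ]
  split_ifs
  · simp only [map_mul, map_pow, RingHom.map_rat_algebraMap, cast_pQ, map_ofNat]
  · simp

theorem poleFree {k l : ℕ} (hkl : k < l) {a u : ℝ}
    (h : ∑ j ∈ (Finset.range l).filter (fun j => (l - k) * j < l),
      |Ring.choose (1 / 2 : ℝ) j * u ^ j| + |a| < 2) :
    |a| < 1 ∧ PoleFree l (sPoly k l a u) := by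
  have h0 : 0 ∈ (Finset.range l).filter (fun j => (l - k) * j < l) := by
    simp; omega
  rw [← Finset.add_sum_erase _ _ h0] at h
  simp only [Ring.choose_zero_right, pow_zero, mul_one, abs_one] at h
  set S := ((Finset.range l).filter (fun j => (l - k) * j < l)).erase 0 with hS
  have hpos : 0 ≤ ∑ j ∈ S, |Ring.choose (1 / 2 : ℝ) j * u ^ j| :=
    Finset.sum_nonneg fun _ _ => abs_nonneg _
  refine ⟨by linarith, fun z hz hz0 => ?_⟩
  obtain ⟨r, hr⟩ := RatFunc.denom_div_dvd (reflect l (sPoly k l a u)) (sPoly k l a u)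
  have h1 : aeval z (sPoly k l a u) = 0 := by rw [hr, map_mul, hz0, zero_mul]
  rw [sPoly, ← Finset.add_sum_erase _ _ h0, ← hS] at h1
  simp only [map_add, map_sum, map_mul, map_pow, aeval_C, aeval_X, Ring.choose_zero_right,
    pow_zero, mul_zero, map_one, mul_one] at h1
  have hb : ∀ (c : ℝ) (n : ℕ), ‖algebraMap ℝ ℂ c * z ^ n‖ ≤ |c| := by
    intro c n
    rw [norm_mul, norm_pow]
    have : ‖z‖ ^ n ≤ 1 := pow_le_one₀ (norm_nonneg _) hz.le
    have h2 : ‖algebraMap ℝ ℂ c‖ = |c| := by simp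
    rw [h2]
    exact mul_le_of_le_one_right (abs_nonneg c) this
  have h2 : (1 : ℂ) = -(∑ j ∈ S, algebraMap ℝ ℂ (Ring.choose (1 / 2 : ℝ) j * u ^ j)
      * z ^ ((l - k) * j) + algebraMap ℝ ℂ a * z ^ l) := by
    simp only [map_mul, map_pow]
    linear_combination h1
  have h3 := congrArg norm h2
  rw [norm_one, norm_neg] at h3
  have h4 := (norm_add_le _ _).trans (add_le_add ((norm_sum_le S _).trans
    (Finset.sum_le_sum fun j _ => hb (Ring.choose (1 / 2 : ℝ) j * u ^ j) ((l - k) * j))) (hb a l))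
  linarith

end T4Aux

open T4Aux

theorem piece_main {k l : ℕ} (hk : 0 < k) (hkl : k < l) :
    Piece k l (xT 1 0) (bMain (xT 1 0) (xT 1 1) k l) (xT 1 1) := by
  refine ⟨hA (xT 1 0) (xT 1 1) k l - xT 1 1 * bMain (xT 1 0) (xT 1 1) k l,
    {v | ∑ j ∈ (Finset.range l).filter (fun j => (l - k) * j < l),
      |Ring.choose (1 / 2 : ℝ) j * v 1 ^ j| + |v 0| < 2}, ?_, ⟨0, ?_⟩, ?_⟩
  · exact isOpen_lt (by fun_prop) continuous_const
  · have h0 : 0 ∈ (Finset.range l).filter (fun j => (l - k) * j < l) := by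
      simp; omega
    simp only [Set.mem_ofPred_eq, Pi.zero_apply, abs_zero, add_zero]
    rw [Finset.sum_eq_single_of_mem 0 h0]
    · simp
    · intro j _ hj; simp [hj]
  · intro v hv
    obtain ⟨ha, hP⟩ := poleFree hkl hv
    refine ⟨one_ne v, ?_⟩
    rw [map_sub, map_mul, map_hA, map_bMain, evT_x, evT_x, ← deriv_hFun]
    refine ⟨⟨main_attained hk hkl ha _ hP, ?_⟩, 2 * v 0 - 2 * (if (l - k) ∣ l then
      Ring.choose (1 / 2 : ℝ) (l / (l - k)) * v 1 ^ (l / (l - k)) else 0), ?_⟩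
    · rintro x ⟨c, hc, h0, hb, rfl⟩
      have := main_bound hk hkl (v 1) (sch_of_inHR hc).1
      rwa [h0, hb] at this
    · rintro a' b' x' ⟨c, hc, rfl, rfl, rfl⟩
      have := main_bound hk hkl (v 1) (sch_of_inHR hc).1
      unfold hFun at this
      have e : hFun k l (v 0) (v 1) = _ := rfl
      rw [hFun] at e ⊢
      split_ifs at this ⊢ <;> nlinarith [sq_nonneg (v 0 - c 0)]

theorem norm_low {q : ℕ} [Fact q.Prime] (hq : q ≠ 2) {j : ℕ} (h1 : 0 < j) (h2 : 2 * j - 1 ≤ q) :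
    ‖((2 * j * pQ j ^ 2 : ℚ) : ℚ_[q])‖ = 1 := by
  have hp : q.Prime := Fact.out
  obtain ⟨i, rfl⟩ : ∃ i, j = i + 1 := ⟨j - 1, by omega⟩
  have h3 : ¬ q ∣ i.centralBinom := by
    intro h
    have := Nat.le_two_mul_of_factorization_centralBinom_pos
      (hp.factorization_pos_of_dvd i.centralBinom_ne_zero h)
    omega
  have h4 : ¬ q ∣ catalan i := fun h => h3 (by
    rw [← succ_mul_catalan_eq_centralBinom]; exact h.mul_left _)
  rw [norm_formula hq, Padic.norm_natCast_eq_one_iff.2 (hp.coprime_iff_not_dvd.2 h3),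
    Padic.norm_natCast_eq_one_iff.2 (hp.coprime_iff_not_dvd.2 h4), mul_one]

theorem norm_high {q : ℕ} [Fact q.Prime] (hq : q ≠ 2) {j : ℕ} (h1 : q < 2 * j - 1) (h2 : j ≤ q) :
    ‖((2 * j * pQ j ^ 2 : ℚ) : ℚ_[q])‖ ≤ 1 / q := by
  have hp : q.Prime := Fact.out
  obtain ⟨i, rfl⟩ : ∃ i, j = i + 1 := ⟨j - 1, by omega⟩
  have h3 : q ∣ i.centralBinom := by
    rw [Nat.centralBinom_eq_two_mul_choose]
    exact hp.dvd_choose (by omega) (by omega) (by omega)
  obtain ⟨c, hc⟩ := h3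
  have h4 : ∀ n : ℕ, ‖(n : ℚ_[q])‖ ≤ 1 := fun n => by simpa using Padic.norm_int_le_one (p := q) n
  rw [norm_formula hq, hc, Nat.cast_mul, norm_mul, Padic.norm_p, one_div, mul_assoc]
  exact mul_le_of_le_one_right (by positivity)
    (mul_le_one₀ (h4 _) (norm_nonneg _) (h4 _))

theorem pQ_ne (j : ℕ) : pQ j ≠ 0 := by
  rcases j with _ | i
  · rw [pQ_zero]; exact one_ne_zero
  · intro h
    have := pQ_central i
    rw [h] at this
    have h2 : (i.centralBinom : ℚ) ≠ 0 := by exact_mod_cast i.centralBinom_ne_zero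
    exact mul_ne_zero (pow_ne_zero i (by norm_num : (-1 : ℚ) ≠ 0)) h2 (by rw [← this]; simp)

end Pool.Agent.Lib.MP_55068a_an.Dy
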