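import Mathlib
import Pool.Agent.Lib.MP_55068a_an.Dy.T4a
import Pool.Agent.Lib.MP_55068a_an.Dy.Pad
import Pool.Agent.Lib.MP_55068a_an.Dy.BadNet

namespace Pool.Agent.Lib.MP_55068a_an.Dy

open Polynomial

namespace T4Aux

/-- the part of the coefficients of `bMain` that does not depend on `a` -/
noncomputable def gC (k l e : ℕ) : ℚ :=
  ∑ j ∈ (Finset.range l).filter (fun j => (l - k) * j < l),
    if e = 2 * j - 1 then 2 * j * pQ j ^ 2 else 0

theorem gC_eq {k l j : ℕ} (hkl : k < l) (hj : 0 < j) (h : (l - k) * j < l) :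
    gC k l (2 * j - 1) = 2 * j * pQ j ^ 2 := by
  have hm : 0 < l - k := by omega
  rw [gC, Finset.sum_eq_single_of_mem j, if_pos rfl]
  · simp only [Finset.mem_filter, Finset.mem_range]
    exact ⟨lt_of_le_of_lt (Nat.le_mul_of_pos_left j hm) h, h⟩
  · intro i _ hi
    rw [if_neg (by omega)]

theorem gC_zero {k l e : ℕ} (h : ∀ j, 0 < j → (l - k) * j < l → e ≠ 2 * j - 1) :
    gC k l e = 0 := by
  apply Finset.sum_eq_zero
  intro j hj
  rcases Nat.eq_zero_or_pos j with rfl | h0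
  · simp
  · rw [if_neg (h j h0 (Finset.mem_filter.1 hj).2)]

theorem coeff_bMain {A : Type} [CommRing A] [Algebra ℚ A] (a : A) (k l e : ℕ) :
    (bMain (C a) X k l).coeff e = algebraMap ℚ A (gC k l e)
      + if (l - k) ∣ l ∧ e = l / (l - k) - 1 then
        algebraMap ℚ A (2 * (l / (l - k) : ℕ) * pQ (l / (l - k))) * a else 0 := by
  rw [bMain, coeff_add, finsetSum_coeff, gC, map_sum]
  congr 1
  · apply Finset.sum_congr rfl
    intro j _
    rw [Polynomial.algebraMap_apply, coeff_C_mul_X_pow]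
    split_ifs <;> simp
  · by_cases hd : (l - k) ∣ l
    · rw [if_pos hd, Polynomial.algebraMap_apply, ← C_mul, coeff_C_mul_X_pow]
      simp [hd]
    · simp [hd]

end T4Aux

open T4Aux

theorem bad_T4 {k l : ℕ} (hkl : k < l) (h3 : 2 * l < 3 * k) :
    Bad (xT 1 0) (bMain (xT 1 0) (xT 1 1) k l) (xT 1 1) := by
  have hm : 0 < l - k := by omega
  obtain ⟨J, hJ, hJ3, hJd⟩ : ∃ J, (∀ j, (l - k) * j < l ↔ j ≤ J) ∧ 3 ≤ J ∧
      ((l - k) ∣ l → l / (l - k) - 1 = J) := by
    have key : ∀ j, (l - k) * j < l ↔ j ≤ (l - 1) / (l - k) := fun j => by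
      rw [Nat.le_div_iff_mul_le hm, mul_comm j]; omega
    refine ⟨(l - 1) / (l - k), key, (key 3).1 (by omega), ?_⟩
    rintro ⟨c, hc⟩
    have h1 : l / (l - k) = c := Nat.div_eq_of_eq_mul_right hm hc
    have h2 : ¬ c ≤ (l - 1) / (l - k) := fun h => by have := (key c).2 h; omega
    have h4 : c - 1 ≤ (l - 1) / (l - k) := (key _).1 (by
      rw [Nat.mul_sub_one]; omega)
    omega
  obtain ⟨q, hq, hq1, hq2⟩ := Nat.exists_prime_lt_and_le_two_mul (J - 1) (by omega)
  have hq3 : q ≠ 2 := by omega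
  obtain ⟨i, hi⟩ := hq.odd_of_ne_two hq3
  have : Fact q.Prime := ⟨hq⟩
  have hq0 : (1 : ℝ) < q := by exact_mod_cast hq.one_lt
  set p : P2[X] := bMain (C (MvPolynomial.X 0) : P2[X]) X k l - C (MvPolynomial.X 1) with hp
  have hdeg : p.natDegree = 2 * J - 1 := by
    apply natDegree_eq_of_le_of_coeff_ne_zero
    · rw [natDegree_le_iff_coeff_eq_zero]
      intro e he
      rw [hp, coeff_sub, coeff_bMain, coeff_C_of_ne_zero (by omega),
        gC_zero (fun j _ h => by have := (hJ j).1 h; omega),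
        if_neg (fun h => by have := hJd h.1; omega)]
      simp
    · rw [hp, coeff_sub, coeff_bMain, coeff_C_of_ne_zero (by omega),
        gC_eq hkl (by omega) ((hJ J).2 le_rfl), if_neg (fun h => by have := hJd h.1; omega),
        add_zero, sub_zero]
      rw [map_ne_zero_iff _ (algebraMap ℚ P2).injective]
      have : (J : ℚ) ≠ 0 := by exact_mod_cast (by omega : J ≠ 0)
      exact mul_ne_zero (mul_ne_zero two_ne_zero this) (pow_ne_zero 2 (pQ_ne J))
  have H : Lifts (xT 1 0) (bMain (xT 1 0) (xT 1 1) k l) (xT 1 1) (xT 1 1) p 1 X := by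
    intro Y hY
    refine ⟨by simp, evT 1 ![io P2 (MvPolynomial.X 0), Y] (one_ne _), ?_, ?_, ?_, ?_⟩
    · rw [evT_x]; rfl
    · have h1 : eval₂RingHom (io P2) Y p = 0 := hY
      rw [hp, map_sub, map_bMain] at h1
      simp only [coe_eval₂RingHom, eval₂_C, eval₂_X] at h1
      rw [map_bMain, evT_x, evT_x]
      exact sub_eq_zero.1 h1
    · rw [evT_x]; rfl
    · rw [evT_x]; simp
  set κ : ℚ_[q] := algebraMap ℚ ℚ_[q] (2 * (l / (l - k) : ℕ) * pQ (l / (l - k))) with hκ
  have hqi : ‖(q : ℚ_[q])⁻¹‖ = q := by rw [norm_inv, Padic.norm_p, inv_inv]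
  obtain ⟨w, ⟨hw0, hw1⟩, hw⟩ := exists_indep (K := ℚ_[q])
    (O := {w | ‖κ * w 0‖ < 1} ∩ {w | ‖w 1 - (q : ℚ_[q])⁻¹‖ < q})
    ((isOpen_lt (by fun_prop) continuous_const).inter (isOpen_lt (by fun_prop) continuous_const))
    ⟨![0, (q : ℚ_[q])⁻¹], by simp, by simpa using hq.pos⟩
  have hw0' : ‖κ * w 0‖ < 1 := hw0
  have hw1' : ‖w 1‖ = q := by
    rw [← hqi]
    apply Padic.norm_eq_of_norm_sub_lt_right
    rw [hqi]; exact hw1
  set P : ℚ_[q][X] := p.map (MvPolynomial.aeval w : P2 →ₐ[ℚ] ℚ_[q]).toRingHom with hP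
  have hP' : P = bMain (C (w 0)) X k l - C (w 1) := by
    have : P = mapRingHom (MvPolynomial.aeval w : P2 →ₐ[ℚ] ℚ_[q]).toRingHom p := rfl
    rw [this, hp, map_sub, map_bMain]
    simp
  have hco : ∀ e, 0 < e → P.coeff e = ((gC k l e : ℚ) : ℚ_[q])
      + if (l - k) ∣ l ∧ e = l / (l - k) - 1 then κ * w 0 else 0 := by
    intro e he
    rw [hP', coeff_sub, coeff_bMain, coeff_C_of_ne_zero he.ne', sub_zero]
    rfl
  have hsm : ∀ e, ‖if (l - k) ∣ l ∧ e = l / (l - k) - 1 then κ * w 0 else 0‖ < 1 := by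
    intro e
    split_ifs
    · exact hw0'
    · simp
  have hcase : ∀ e, gC k l e = 0 ∨
      ∃ j, 0 < j ∧ j ≤ J ∧ e = 2 * j - 1 ∧ gC k l e = 2 * j * pQ j ^ 2 := by
    intro e
    by_cases h : ∃ j, 0 < j ∧ (l - k) * j < l ∧ e = 2 * j - 1
    · obtain ⟨j, h0, h1, rfl⟩ := h
      exact Or.inr ⟨j, h0, (hJ j).1 h1, rfl, gC_eq hkl h0 h1⟩
    · exact Or.inl (gC_zero fun j h0 h1 h2 => h ⟨j, h0, h1, h2⟩)
  refine (slope_root P ?_ ?_ ?_ ?_ ?_).elim fun u hu =>
    bad_prime H (by simp) (by rw [natDegree_X, hdeg]; omega) hq (by omega)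
      (Or.inl (by omega)) hw hu.1 hu.2
  · rw [hP', coeff_sub, coeff_bMain, gC_zero (fun j _ _ => by omega),
      if_neg (fun h => by have := hJd h.1; omega), coeff_C_zero]
    simpa using hw1'
  · have h1 : ‖((gC k l q : ℚ) : ℚ_[q])‖ = 1 := by
      have e : q = 2 * (i + 1) - 1 := by omega
      have := gC_eq hkl (Nat.succ_pos i) ((hJ (i + 1)).2 (by omega))
      rw [← e] at this
      rw [this]
      exact norm_low hq3 (Nat.succ_pos i) e.ge
    rw [hco q hq.pos, Padic.add_eq_max_of_ne (by rw [h1]; exact (hsm q).ne'), h1]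
    exact max_eq_left (hsm q).le
  · intro e he heq
    rw [hco e he]
    refine (Padic.nonarchimedean _ _).trans (max_le ?_ (hsm e).le)
    rcases hcase e with h | ⟨j, h0, -, h2, h⟩
    · rw [h]; simp
    · rw [h]; exact (norm_low hq3 h0 (by omega)).le
  · intro e he
    rw [hco e (by omega), if_neg (fun h => by have := hJd h.1; omega), add_zero]
    rcases hcase e with h | ⟨j, h0, h1, h2, h⟩
    · rw [h]; simp
    · rw [h]; exact norm_high hq3 (by omega) (by omega)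
  · exact lt_of_le_of_lt natDegree_map_le (by omega)

end Pool.Agent.Lib.MP_55068a_an.Dy
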