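import Mathlib
import Pool.Agent.Lib.MP_55068a_an.Dy.Pos234
import Pool.Agent.Lib.MP_55068a_an.Dy.Pos5
import Pool.Agent.Lib.MP_55068a_an.Dy.Pos23
import Pool.Agent.Lib.MP_55068a_an.Dy.S16
import Pool.Agent.Lib.MP_55068a_an.Dy.S47
import Pool.Agent.Lib.MP_55068a_an.Dy.S58
import Pool.Agent.Lib.MP_55068a_an.Dy.S27
import Pool.Agent.Lib.MP_55068a_an.Dy.T2
import Pool.Agent.Lib.MP_55068a_an.Dy.T3
import Pool.Agent.Lib.MP_55068a_an.Dy.T4

namespace Pool.Agent.Lib.MP_55068a_an.Dy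

open Polynomial

theorem neg_all {k l : ℕ} (hk : 0 < k) (hkl : k < l) (h : ¬ Ratio k l) : Neg k l := by
  obtain ⟨g, hg, k', l', hc, rfl, rfl⟩ :
      ∃ g, 0 < g ∧ ∃ k' l', Nat.Coprime k' l' ∧ k = g * k' ∧ l = g * l' := by
    obtain ⟨k', l', hc, h1, h2⟩ := Nat.exists_coprime k l
    exact ⟨Nat.gcd k l, Nat.gcd_pos_of_pos_left _ hk, k', l', hc, by rw [mul_comm]; exact h1,
      by rw [mul_comm]; exact h2⟩
  have hk' : 0 < k' := Nat.pos_of_mul_pos_left hk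
  have hkl' : k' < l' := Nat.lt_of_mul_lt_mul_left hkl
  have R1 : 3 * k' < 2 * l' → Bad (a1 k' l') (b1 k' l') (xT 1 1) → Neg (g * k') (g * l') :=
    fun h3 hB => neg_of (piece_R1 hk' hkl' hc h3 hg) hB
  unfold Ratio at h
  rcases cover hk' hkl' hc with ⟨rfl, h1⟩ | ⟨rfl, h1⟩ | ⟨rfl, rfl⟩ | ⟨rfl, rfl⟩ | h1 | ⟨h1, h2⟩
    | ⟨h1, h2, h3, h4⟩
  · rcases h1 with rfl | rfl | rfl | rfl | rfl
    · exact absurd (by omega) h
    · exact absurd (by omega) h
    · exact absurd (by omega) h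
    · exact absurd (by omega) h
    · exact neg16 hg
  · rcases h1 with rfl | rfl | rfl | rfl
    · exact absurd (by omega) h
    · exact neg25 hg
    · exact neg27 hg
    · exact neg29 hg
  · exact R1 (by norm_num) bad47
  · exact R1 (by norm_num) bad58
  · exact neg_of (piece_main hk hkl) (bad_T4 hkl (by nlinarith))
  · exact R1 (by omega) (bad_T3 h1 h2)
  · exact R1 h1 (bad_T2 hk' hkl' h1 h2 h3 h4)

theorem pos_all {k l : ℕ} (hk : 0 < k) (h : Ratio k l) {a b : ℝ} (ha : |a| < 1)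
    (hb : |b| ≤ 1 - a ^ 2) : IsGreatest (Vals k l a b) (F k l a b) := by
  unfold F
  split_ifs with h1 h2 h3 h4
  · obtain ⟨g, rfl⟩ : ∃ g, k = 2 * g := ⟨k / 2, by omega⟩
    obtain rfl : l = 3 * g := by omega
    exact pos23 (by omega) ha hb
  · subst h2; exact pos2 hk ha hb
  · subst h3; exact pos3 hk ha hb
  · subst h4; exact pos4 hk ha hb
  · obtain rfl : l = 5 * k := by unfold Ratio at h; omega
    exact pos5 hk ha hb

theorem rad_F (k l : ℕ) (a b : ℝ) : Rad ℚ a b (F k l a b) := by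
  unfold F
  split_ifs
  exacts [rad_U32 a b, rad_U2 a b, rad_U3 a b, rad_U4 a b, rad_U5 a b]

theorem least_of_greatest {k l : ℕ} {a b x : ℝ} (h : IsGreatest (Vals k l (-a) (-b)) x) :
    IsLeast (Vals k l a b) (-x) := by
  rw [vals_neg] at h
  refine ⟨Set.mem_neg.1 h.1, fun y hy => ?_⟩
  have := h.2 (Set.neg_mem_neg.2 hy)
  linarith

theorem rad_neg {K : Type} [Field K] [Algebra K ℂ] {a b x : ℝ} (h : Rad K (-a) (-b) (-x)) :
    Rad K a b x := by
  have key : ∀ x y : ℂ, IntermediateField.adjoin K ({-x, -y} : Set ℂ)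
      ≤ IntermediateField.adjoin K ({x, y} : Set ℂ) := by
    intro x y
    rw [IntermediateField.adjoin_le_iff]
    rintro z (rfl | rfl)
    · exact neg_mem (IntermediateField.subset_adjoin _ _ (by simp))
    · exact neg_mem (IntermediateField.subset_adjoin _ _ (by simp))
  have e : IntermediateField.adjoin K ({((-a : ℝ) : ℂ), ((-b : ℝ) : ℂ)} : Set ℂ)
      = IntermediateField.adjoin K ({(a : ℂ), (b : ℂ)} : Set ℂ) := by
    rw [Complex.ofReal_neg, Complex.ofReal_neg]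
    refine le_antisymm (key _ _) ?_
    simpa using key (-(a : ℂ)) (-(b : ℂ))
  unfold Rad at h ⊢
  rw [e, Complex.ofReal_neg] at h
  exact neg_mem_iff.1 h

theorem dichotomy (k l : ℕ) (hk : 0 < k) (hkl : k < l) :
    (Ratio k l → ∀ a b : ℝ, |a| < 1 → |b| ≤ 1 - a ^ 2 →
      IsGreatest (Vals k l a b) (F k l a b) ∧ IsLeast (Vals k l a b) (-F k l (-a) (-b)) ∧
      Rad ℚ a b (F k l a b) ∧ Rad ℚ a b (-F k l (-a) (-b))) ∧
    (¬ Ratio k l → ∃ O : Set (ℝ × ℝ), IsOpen O ∧ O.Nonempty ∧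
      (∀ a b : ℝ, (a, b) ∈ O → ∃ x : ℝ,
        IsGreatest (Vals k l a b) x ∧ IsLeast (Vals k l (-a) (-b)) (-x) ∧
        ∀ K : Subfield ℂ, AlgebraicIndependent K ![(a : ℂ), (b : ℂ)] →
          ¬ Rad K a b x ∧ ¬ Rad K (-a) (-b) (-x)) ∧
      ∀ K : Subfield ℂ, Countable K →
        ∃ a b : ℝ, (a, b) ∈ O ∧ AlgebraicIndependent K ![(a : ℂ), (b : ℂ)]) := by
  refine ⟨fun h a b ha hb => ⟨pos_all hk h ha hb,
    least_of_greatest (pos_all hk h (by rwa [abs_neg]) (by rwa [abs_neg, neg_sq])),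
    rad_F k l a b, rad_neg (by rw [neg_neg]; exact rad_F k l (-a) (-b))⟩, fun h => ?_⟩
  obtain ⟨O, hO, hne, H⟩ := neg_all hk hkl h
  refine ⟨O, hO, hne, fun a b hab => ?_, fun K _ => exists_indep_over K hO hne⟩
  obtain ⟨x, h1, h2⟩ := H a b hab
  exact ⟨x, h1, least_of_greatest (by simpa using h1),
    fun K hK => ⟨h2 K hK, fun h3 => h2 K hK (rad_neg h3)⟩⟩

end Pool.Agent.Lib.MP_55068a_an.Dy
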